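import Pool.Agent.Helper66.EAM.RegC

set_option autoImplicit false

/-! Side information: weighted statistics over ground states. -/

namespace Pool.H66.CH

open MeasureTheory Set ProbabilityTheory Filter Topology Pool.H66.EAM
open scoped ENNReal

/-- The couplings attached to a pair of fields of marks. -/
def cp {Y1 Y2 : Type*} (q : Y1 × Y2 → ℝ) (a : E → Y1) (b : E → Y2) : E → ℝ :=
  fun e => q (a e, b e)

/-- The field of pairs of marks. -/
def zp {Y1 Y2 : Type*} (a : E → Y1) (b : E → Y2) : E → Y1 × Y2 := fun e => (a e, b e)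

/-- The edge `(z, z + e_i)`. -/
def ed (i : Fin 2) (z : V) : E := (z, i)

/-- Weighted statistic `∑_{z ∈ box N} u_z (1 + σ_z σ_{z + e_i}) / 2`. -/
noncomputable def SW (i : Fin 2) (N : ℕ) (u : V → ℝ) (σ : V → ℝ) : ℝ :=
  cnt (box N) (ed i) u σ

/-- Maximum over ground states in the box of radius `2 N + 1`. -/
noncomputable def XW (i : Fin 2) (N : ℕ) (u : V → ℝ) (J : E → ℝ) : ℝ :=
  sSup (SW i N u '' {σ | IsSpin σ ∧ LG (box (2 * N + 1)) J σ})

/-- Minimum over ground states in the box of radius `2 N + 1`. -/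
noncomputable def YW (i : Fin 2) (N : ℕ) (u : V → ℝ) (J : E → ℝ) : ℝ :=
  sInf (SW i N u '' {σ | IsSpin σ ∧ LG (box (2 * N + 1)) J σ})

/-- Shifted weights. -/
def shU (v : V) (u : V → ℝ) : V → ℝ := fun z => u (z + v)

end Pool.H66.CH
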