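import Pool.Agent.Helper66.EAM.CaseDefs

set_option autoImplicit false

/-! Definitions for the statement of the chaos theorem. -/

namespace Pool.H66.CH

open MeasureTheory Pool.H66.EAM

/-- Bond overlap of two configurations in the box of radius `N`. -/
noncomputable def overlap (N : ℕ) (σ τ : V → ℝ) : ℝ :=
  (∑ x ∈ box N, ∑ i : Fin 2, bond σ (x, i) * bond τ (x, i)) / (2 * ((box N).card : ℝ))

/-- A perturbation of the couplings: `z` has law `lam` and is independent of `j`, which has law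
`μ`; `T (j, z)` has law `μ` again, and given `j` it has no atoms. -/
structure IsPert (μ lam : Measure ℝ) (T : ℝ × ℝ → ℝ) : Prop where
  meas : Measurable T
  law : (μ.prod lam).map T = μ
  atomless : ∀ᵐ j ∂μ, ∀ x : ℝ, lam {z | T (j, z) = x} = 0

/-- `m` is the bond function of `μ`: `m i J` is the conditional expectation of `σ_0 σ_{e_i}` given
`J` under every translation invariant law of a pair (couplings `J`, ground state `σ`). -/
structure IsBond (μ : Measure ℝ) [IsProbabilityMeasure μ] (m : Fin 2 → (E → ℝ) → ℝ) : Prop where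
  meas : ∀ i, Measurable (m i)
  bdd : ∀ i J, |m i J| ≤ 1
  law : ∀ (i : Fin 2) (g : (E → ℝ) → ℝ), Measurable g → (∃ C : ℝ, ∀ J, |g J| ≤ C) →
    ∀ Q : Measure ((E → ℝ) × (V → ℝ)), StationaryLaw μ Q →
      ∫ p, g p.1 * bond p.2 (0, i) ∂Q
        = ∫ J, g J * m i J ∂(Measure.infinitePi fun _ : E => μ)

/-- The perturbed couplings `J'_e = T (J_e, z_e)`. -/
def pertJ (T : ℝ × ℝ → ℝ) (J z : E → ℝ) : E → ℝ := fun e => T (J e, z e)

/-- The self overlap `q = (E m_1² + E m_2²) / 2`. -/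
noncomputable def selfQ (μ : Measure ℝ) [IsProbabilityMeasure μ] (m : Fin 2 → (E → ℝ) → ℝ) : ℝ :=
  (∑ i : Fin 2, ∫ J, m i J ^ 2 ∂(Measure.infinitePi fun _ : E => μ)) / 2

/-- The number `c(T) = (E m_1(J) m_1(J') + E m_2(J) m_2(J')) / 2`. -/
noncomputable def crossQ (μ : Measure ℝ) [IsProbabilityMeasure μ] (lam : Measure ℝ)
    [IsProbabilityMeasure lam] (T : ℝ × ℝ → ℝ) (m : Fin 2 → (E → ℝ) → ℝ) : ℝ :=
  (∑ i : Fin 2, ∫ p, m i p.1 * m i (pertJ T p.1 p.2)
    ∂((Measure.infinitePi fun _ : E => μ).prod (Measure.infinitePi fun _ : E => lam))) / 2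

/-- The perturbations `T k` tend to the identity in probability. -/
def TendsToId (μ : Measure ℝ) (lam : ℕ → Measure ℝ) (T : ℕ → ℝ × ℝ → ℝ) : Prop :=
  ∀ ε > 0, Filter.Tendsto (fun k => (μ.prod (lam k)).real {p | ε < |T k p - p.1|}) Filter.atTop
    (nhds 0)

end Pool.H66.CH
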