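import Pool.Agent.Helper66.CH.Basic

set_option autoImplicit false
set_option linter.unusedSectionVars false

/-! MODULE C. Concentration. -/

namespace Pool.H66.CH

open MeasureTheory Set ProbabilityTheory Filter Topology Pool.H66.EAM
open scoped ENNReal

/-- Cauchy-Schwarz in the form used here. -/
lemma cs_real {Ω : Type*} [MeasurableSpace Ω] (P : Measure Ω) {D W : Ω → ℝ}
    (hDD : Integrable (fun ω => D ω ^ 2) P) (hWW : Integrable (fun ω => W ω ^ 2) P)
    (hDW : Integrable (fun ω => D ω * W ω) P) :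
    ∫ ω, D ω * W ω ∂P ≤ Real.sqrt (∫ ω, D ω ^ 2 ∂P) * Real.sqrt (∫ ω, W ω ^ 2 ∂P) := by
  have h1 : ∀ t : ℝ, 0 ≤ (∫ ω, W ω ^ 2 ∂P) * (t * t) + (-2 * ∫ ω, D ω * W ω ∂P) * t
      + ∫ ω, D ω ^ 2 ∂P := by
    intro t
    have h2 : 0 ≤ ∫ ω, (D ω - t * W ω) ^ 2 ∂P := integral_nonneg (fun ω => sq_nonneg _)
    have h3 : ∫ ω, (D ω - t * W ω) ^ 2 ∂P
        = ∫ ω, (t * t * W ω ^ 2 + (-2 * t) * (D ω * W ω)) + D ω ^ 2 ∂P := by
      congr 1; funext ω; ring
    have i1 : Integrable (fun ω => t * t * W ω ^ 2) P := hWW.const_mul _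
    have i2 : Integrable (fun ω => (-2 * t) * (D ω * W ω)) P := hDW.const_mul _
    have i3 : Integrable (fun ω => t * t * W ω ^ 2 + (-2 * t) * (D ω * W ω)) P := i1.add i2
    rw [h3, integral_add i3 hDD, integral_add i1 i2, integral_const_mul,
      integral_const_mul] at h2
    linarith
  have h4 := discrim_le_zero h1
  rw [discrim] at h4
  have hD0 : 0 ≤ ∫ ω, D ω ^ 2 ∂P := integral_nonneg (fun ω => sq_nonneg _)
  have hW0 : 0 ≤ ∫ ω, W ω ^ 2 ∂P := integral_nonneg (fun ω => sq_nonneg _)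
  rw [← Real.sqrt_mul hD0]
  apply Real.le_sqrt_of_sq_le
  nlinarith

/-- First absolute moment of a sum of local functions with finite range dependence
(second moment + Cauchy-Schwarz; `indep_integral` in EAM/Erg.lean gives vanishing covariances). -/
theorem sum_dev {Y : Type*} [MeasurableSpace Y] (μ : Measure Y) [IsProbabilityMeasure μ]
    (Q : Finset V) (S : V → Finset E) (f : V → (E → Y) → ℝ) (hf : ∀ v, Measurable (f v))
    (hb : ∀ v b, 0 ≤ f v b ∧ f v b ≤ 1) (hloc : ∀ v, Loc (S v) (f v)) (m : ℕ)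
    (hm : ∀ v ∈ Q, ((Q.filter (fun w => ¬ Disjoint (S v) (S w))).card) ≤ m) :
    ∫ b, |∑ v ∈ Q, f v b - ∑ v ∈ Q, ∫ b', f v b' ∂(PJ μ)| ∂(PJ μ)
      ≤ Real.sqrt ((m : ℝ) * (Q.card : ℝ)) := by
  classical
  set c : V → ℝ := fun v => ∫ b', f v b' ∂(PJ μ) with hc
  have hfi : ∀ v, Integrable (f v) (PJ μ) := by
    intro v
    refine Integrable.of_bound (hf v).aestronglyMeasurable 1 (Filter.Eventually.of_forall ?_)
    intro b
    rw [Real.norm_eq_abs, abs_le]
    constructor <;> linarith [(hb v b).1, (hb v b).2]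
  have hc01 : ∀ v, 0 ≤ c v ∧ c v ≤ 1 := by
    intro v
    refine ⟨integral_nonneg (fun b => (hb v b).1), ?_⟩
    have : c v ≤ ∫ _, (1 : ℝ) ∂(PJ μ) :=
      integral_mono (hfi v) (integrable_const _) (fun b => (hb v b).2)
    simpa using this
  have hg1 : ∀ v b, |f v b - c v| ≤ 1 := by
    intro v b
    rw [abs_le]
    constructor <;> linarith [(hb v b).1, (hb v b).2, (hc01 v).1, (hc01 v).2]
  have hgm : ∀ v, Measurable (fun b => f v b - c v) := fun v => (hf v).sub_const _
  have hggi : ∀ v w, Integrable (fun b => (f v b - c v) * (f w b - c w)) (PJ μ) := by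
    intro v w
    refine Integrable.of_bound ((hgm v).mul (hgm w)).aestronglyMeasurable 1
      (Filter.Eventually.of_forall ?_)
    intro b
    rw [Real.norm_eq_abs, abs_mul]
    have h1 := hg1 v b
    have h2 := hg1 w b
    have h3 := abs_nonneg (f v b - c v)
    have h4 := abs_nonneg (f w b - c w)
    nlinarith
  have hcov : ∀ v w, ∫ b, (f v b - c v) * (f w b - c w) ∂(PJ μ)
      ≤ if Disjoint (S v) (S w) then 0 else 1 := by
    intro v w
    split_ifs with hd
    · have h1 := indep_integral μ hd (hgm v) (hgm w) (by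
        intro J J' hJ
        simp only
        rw [hloc v J J' hJ]) (by
        intro J J' hJ
        simp only
        rw [hloc w J J' hJ])
      rw [h1]
      have h2 : ∫ b, (f v b - c v) ∂(PJ μ) = 0 := by
        rw [integral_sub (hfi v) (integrable_const _)]
        simp [hc]
      rw [h2, zero_mul]
    · have h1 : ∫ b, (f v b - c v) * (f w b - c w) ∂(PJ μ) ≤ ∫ _, (1 : ℝ) ∂(PJ μ) := by
        apply integral_mono (hggi v w) (integrable_const _)
        intro b
        have h1 := hg1 v b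
        have h2 := hg1 w b
        have h3 := abs_nonneg (f v b - c v)
        have h4 := abs_nonneg (f w b - c w)
        have h5 : (f v b - c v) * (f w b - c w) ≤ |f v b - c v| * |f w b - c w| := by
          rw [← abs_mul]; exact le_abs_self _
        simp only
        nlinarith
      simpa using h1
  set X : (E → Y) → ℝ := fun b => ∑ v ∈ Q, (f v b - c v) with hX
  have hXm : Measurable X := Finset.measurable_sum _ (fun v _ => hgm v)
  have hXb : ∀ b, |X b| ≤ (Q.card : ℝ) := by
    intro b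
    refine (Finset.abs_sum_le_sum_abs _ _).trans ?_
    refine (Finset.sum_le_sum (fun v _ => hg1 v b)).trans ?_
    simp
  have hXX : ∀ b, X b ^ 2 = ∑ v ∈ Q, ∑ w ∈ Q, (f v b - c v) * (f w b - c w) := by
    intro b
    rw [pow_two, hX, Finset.sum_mul_sum]
  have hXXi : Integrable (fun b => X b ^ 2) (PJ μ) := by
    simp only [hXX]
    exact integrable_finsetSum _ (fun v _ => integrable_finsetSum _ (fun w _ => hggi v w))
  have hXint : ∫ b, X b ^ 2 ∂(PJ μ) ≤ (m : ℝ) * (Q.card : ℝ) := by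
    simp only [hXX]
    rw [integral_finsetSum _ (fun v _ => integrable_finsetSum _ (fun w _ => hggi v w))]
    calc ∑ v ∈ Q, ∫ b, ∑ w ∈ Q, (f v b - c v) * (f w b - c w) ∂(PJ μ)
        = ∑ v ∈ Q, ∑ w ∈ Q, ∫ b, (f v b - c v) * (f w b - c w) ∂(PJ μ) := by
          apply Finset.sum_congr rfl
          intro v _
          rw [integral_finsetSum _ (fun w _ => hggi v w)]
      _ ≤ ∑ v ∈ Q, ∑ w ∈ Q, (if Disjoint (S v) (S w) then (0 : ℝ) else 1) :=
          Finset.sum_le_sum (fun v _ => Finset.sum_le_sum (fun w _ => hcov v w))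
      _ ≤ ∑ v ∈ Q, (m : ℝ) := by
          apply Finset.sum_le_sum
          intro v hv
          have h1 : ∑ w ∈ Q, (if Disjoint (S v) (S w) then (0 : ℝ) else 1)
              = ((Q.filter (fun w => ¬ Disjoint (S v) (S w))).card : ℝ) := by
            rw [Finset.card_filter]
            push_cast
            apply Finset.sum_congr rfl
            intro w _
            by_cases h : Disjoint (S v) (S w) <;> simp [h]
          rw [h1]
          exact_mod_cast hm v hv
      _ = (m : ℝ) * (Q.card : ℝ) := by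
          rw [Finset.sum_const, nsmul_eq_mul, mul_comm]
  have habs : (fun b => |∑ v ∈ Q, f v b - ∑ v ∈ Q, c v|) = fun b => |X b| := by
    funext b
    simp only [hX, Finset.sum_sub_distrib]
  change ∫ b, (fun b => |∑ v ∈ Q, f v b - ∑ v ∈ Q, c v|) b ∂(PJ μ) ≤ _
  rw [habs]
  have hcs := cs_real (PJ μ) (D := fun b => |X b|) (W := fun _ => (1 : ℝ))
    (by simpa only [sq_abs] using hXXi) (integrable_const _) (by
      refine Integrable.of_bound
        ((measurable_norm.comp hXm).mul measurable_const).aestronglyMeasurable (Q.card : ℝ)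
        (Filter.Eventually.of_forall ?_)
      intro b
      simp only [mul_one, Real.norm_eq_abs, abs_abs]
      exact hXb b)
  simp only [mul_one, sq_abs, one_pow, integral_const, probReal_univ, smul_eq_mul,
    Real.sqrt_one] at hcs
  exact hcs.trans (Real.sqrt_le_sqrt hXint)

/-- A function bounded below by a concentrated function with nearly the same mean is nearly
insensitive to a square integrable change of measure. -/
theorem tilt_conc {Ω : Type*} [MeasurableSpace Ω] (P : Measure Ω) [IsProbabilityMeasure P]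
    {Yf Z D : Ω → ℝ} (hY : Measurable Yf) (hZ : Measurable Z) (hD : Measurable D)
    (hYb : ∀ ω, 0 ≤ Yf ω ∧ Yf ω ≤ 1) (hZb : ∀ ω, 0 ≤ Z ω ∧ Z ω ≤ 1) (hZY : ∀ ω, Z ω ≤ Yf ω)
    (hD0 : ∀ ω, 0 ≤ D ω) (hDi : Integrable (fun ω => D ω ^ 2) P) (hD1 : ∫ ω, D ω ∂P = 1)
    {M : ℝ} (hM : 0 ≤ M) (hD2 : ∫ ω, D ω ^ 2 ∂P ≤ M ^ 2) :
    ∫ ω, D ω * Yf ω ∂P ≤ ∫ ω, Yf ω ∂P
      + M * Real.sqrt (2 * (∫ ω, |Z ω - ∫ ω', Z ω' ∂P| ∂P + (∫ ω, Yf ω ∂P - ∫ ω, Z ω ∂P))) := by
  have hYi : Integrable Yf P := by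
    refine Integrable.of_bound hY.aestronglyMeasurable 1 (Filter.Eventually.of_forall ?_)
    intro b
    rw [Real.norm_eq_abs, abs_le]
    constructor <;> linarith [(hYb b).1, (hYb b).2]
  have hZi : Integrable Z P := by
    refine Integrable.of_bound hZ.aestronglyMeasurable 1 (Filter.Eventually.of_forall ?_)
    intro b
    rw [Real.norm_eq_abs, abs_le]
    constructor <;> linarith [(hZb b).1, (hZb b).2]
  have hDi1 : Integrable D P := by
    refine Integrable.mono' (hDi.add (integrable_const (1 : ℝ))) hD.aestronglyMeasurable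
      (Filter.Eventually.of_forall ?_)
    intro ω
    rw [Real.norm_eq_abs, abs_of_nonneg (hD0 ω)]
    simp only [Pi.add_apply]
    nlinarith [sq_nonneg (D ω - 1), hD0 ω]
  set y : ℝ := ∫ ω, Yf ω ∂P with hy
  set z : ℝ := ∫ ω, Z ω ∂P with hz
  have hy01 : 0 ≤ y ∧ y ≤ 1 := by
    refine ⟨integral_nonneg (fun b => (hYb b).1), ?_⟩
    have : y ≤ ∫ _, (1 : ℝ) ∂P :=
      integral_mono hYi (integrable_const _) (fun b => (hYb b).2)
    simpa using this
  have hW1 : ∀ ω, |Yf ω - y| ≤ 1 := by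
    intro ω
    rw [abs_le]
    constructor <;> linarith [(hYb ω).1, (hYb ω).2, hy01.1, hy01.2]
  have hWm : Measurable (fun ω => |Yf ω - y|) := measurable_norm.comp (hY.sub_const _)
  have hDWi : Integrable (fun ω => D ω * |Yf ω - y|) P := by
    refine Integrable.mono' hDi1 (hD.mul hWm).aestronglyMeasurable
      (Filter.Eventually.of_forall ?_)
    intro ω
    rw [Real.norm_eq_abs, abs_mul, abs_abs, abs_of_nonneg (hD0 ω)]
    have := hW1 ω
    have := hD0 ω
    nlinarith [abs_nonneg (Yf ω - y)]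
  have hWWi : Integrable (fun ω => |Yf ω - y| ^ 2) P := by
    refine Integrable.of_bound (hWm.pow_const 2).aestronglyMeasurable 1
      (Filter.Eventually.of_forall ?_)
    intro ω
    rw [Real.norm_eq_abs, abs_pow, abs_abs]
    exact pow_le_one₀ (abs_nonneg _) (hW1 ω)
  have hWi : Integrable (fun ω => |Yf ω - y|) P := (hYi.sub (integrable_const _)).abs
  have hcs := cs_real P (D := D) (W := fun ω => |Yf ω - y|) hDi hWWi hDWi
  have hDYi : Integrable (fun ω => D ω * Yf ω) P := by
    refine Integrable.mono' hDi1 (hD.mul hY).aestronglyMeasurable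
      (Filter.Eventually.of_forall ?_)
    intro ω
    rw [Real.norm_eq_abs, abs_mul, abs_of_nonneg (hD0 ω), abs_of_nonneg (hYb ω).1]
    have := (hYb ω).2
    have := hD0 ω
    nlinarith [(hYb ω).1]
  have h1 : ∫ ω, D ω * Yf ω ∂P - y ≤ ∫ ω, D ω * |Yf ω - y| ∂P := by
    have h2 : ∫ ω, D ω * Yf ω ∂P - y = ∫ ω, (D ω * Yf ω - D ω * y) ∂P := by
      rw [integral_sub hDYi (hDi1.mul_const _), integral_mul_const, hD1, one_mul]
    rw [h2]
    have i1 : Integrable (fun ω => D ω * Yf ω - D ω * y) P := hDYi.sub (hDi1.mul_const _)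
    apply integral_mono i1 hDWi
    intro ω
    simp only
    rw [← mul_sub]
    exact mul_le_mul_of_nonneg_left (le_abs_self _) (hD0 ω)
  have h2 : ∫ ω, |Yf ω - y| ^ 2 ∂P ≤ 2 * (∫ ω, |Z ω - z| ∂P + (y - z)) := by
    have h3 : ∫ ω, |Yf ω - y| ^ 2 ∂P ≤ ∫ ω, |Yf ω - y| ∂P := by
      apply integral_mono hWWi hWi
      intro ω
      simp only
      have := hW1 ω
      have := abs_nonneg (Yf ω - y)
      nlinarith
    have hZai : Integrable (fun ω => |Z ω - z|) P := (hZi.sub (integrable_const _)).abs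
    have i1 : Integrable (fun ω => Yf ω - Z ω) P := hYi.sub hZi
    have i2 : Integrable (fun ω => (Yf ω - Z ω) + |Z ω - z|) P := i1.add hZai
    have i3 : Integrable (fun ω => ((Yf ω - Z ω) + |Z ω - z|) + |z - y|) P :=
      i2.add (integrable_const _)
    have h4 : ∫ ω, |Yf ω - y| ∂P ≤ ∫ ω, ((Yf ω - Z ω) + |Z ω - z|) + |z - y| ∂P := by
      apply integral_mono hWi i3
      intro ω
      simp only
      have h5 : Yf ω - y = (Yf ω - Z ω) + (Z ω - z) + (z - y) := by ring
      rw [h5]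
      refine (abs_add_le _ _).trans ?_
      have h6 := abs_add_le (Yf ω - Z ω) (Z ω - z)
      rw [abs_of_nonneg (sub_nonneg.2 (hZY ω))] at h6
      linarith
    rw [integral_add i2 (integrable_const _),
      integral_add i1 hZai, integral_sub hYi hZi] at h4
    simp only [integral_const, probReal_univ, smul_eq_mul, one_mul] at h4
    have hzy : z ≤ y := integral_mono hZi hYi hZY
    rw [abs_of_nonpos (by linarith)] at h4
    have h7 : 0 ≤ ∫ ω, |Z ω - z| ∂P := integral_nonneg (fun ω => abs_nonneg _)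
    linarith
  have h3 : Real.sqrt (∫ ω, D ω ^ 2 ∂P) ≤ M := by
    rw [Real.sqrt_le_left hM]
    exact hD2
  have h4 : Real.sqrt (∫ ω, |Yf ω - y| ^ 2 ∂P)
      ≤ Real.sqrt (2 * (∫ ω, |Z ω - z| ∂P + (y - z))) := Real.sqrt_le_sqrt h2
  have h5 : Real.sqrt (∫ ω, D ω ^ 2 ∂P) * Real.sqrt (∫ ω, |Yf ω - y| ^ 2 ∂P)
      ≤ M * Real.sqrt (2 * (∫ ω, |Z ω - z| ∂P + (y - z))) :=
    mul_le_mul h3 h4 (Real.sqrt_nonneg _) hM
  linarith

end Pool.H66.CH
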