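import Pool.Agent.Helper66.CH.Defs2

set_option autoImplicit false
set_option linter.unusedSectionVars false

/-! MODULE M4a. The universal bond function as a conditional expectation. -/

namespace Pool.H66.CH

open MeasureTheory Set ProbabilityTheory Filter Topology Pool.H66.EAM
open scoped ENNReal

/-- With a stationary law `Q` (exists by `exists_stationary`) and `κ = Q.condKernel`. -/
theorem cond_rep (μ : Measure ℝ) [IsProbabilityMeasure μ] (hμ : ∀ x : ℝ, μ {x} = 0)
    {m : Fin 2 → (E → ℝ) → ℝ} (hm : IsBond μ m) :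
    ∃ κ : (E → ℝ) → Measure (V → ℝ), (∀ J, IsProbabilityMeasure (κ J)) ∧
      ∀ᵐ J ∂(PJ μ), (∀ᵐ τ ∂(κ J), IsGroundState J τ) ∧
        ∀ (z : V) (i : Fin 2), m i (shJ z J) = ∫ τ, bond τ (z, i) ∂(κ J) := by
  obtain ⟨Q, hQ⟩ := exists_stationary μ hμ
  have hQS : StatLaw μ id Q := hQ
  have hQp : IsProbabilityMeasure Q := hQS.prob
  have hfst : Q.fst = PJ μ := hQ.1
  have hgs : ∀ᵐ J ∂(PJ μ), ∀ᵐ τ ∂(Q.condKernel J), IsGroundState J τ := by
    have h1 : ∀ᵐ p ∂(Q.fst ⊗ₘ Q.condKernel), IsGroundState p.1 p.2 := by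
      rw [Q.disintegrate Q.condKernel]
      exact hQ.2.2
    have h2 := Measure.ae_ae_of_ae_compProd h1
    rw [hfst] at h2
    exact h2
  have hkm : ∀ (z : V) (i : Fin 2), Measurable (fun J => ∫ τ, bond τ (z, i) ∂(Q.condKernel J)) := by
    intro z i
    have h1 : StronglyMeasurable (fun J => ∫ y, (fun p : (E → ℝ) × (V → ℝ) =>
        bond p.2 (z, i)) (J, y) ∂(Q.condKernel J)) :=
      StronglyMeasurable.integral_kernel_prod_right'
        (measurable_bond measurable_snd _).stronglyMeasurable
    exact h1.measurable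
  have hkb : ∀ (z : V) (i : Fin 2), ∀ᵐ J ∂(PJ μ), |∫ τ, bond τ (z, i) ∂(Q.condKernel J)| ≤ 1 := by
    intro z i
    filter_upwards [hgs] with J hJ
    have h1 := norm_integral_le_of_norm_le_const (μ := Q.condKernel J)
      (f := fun y : V → ℝ => bond y (z, i)) (C := 1) (by
        filter_upwards [hJ] with τ hτ
        rw [Real.norm_eq_abs, abs_bond hτ.spin])
    simpa using h1
  refine ⟨fun J => Q.condKernel J, fun J => inferInstance, ?_⟩
  have key : ∀ (z : V) (i : Fin 2), ∀ᵐ J ∂(PJ μ),
      m i (shJ z J) = ∫ τ, bond τ (z, i) ∂(Q.condKernel J) := by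
    intro z i
    have hmz : Measurable (fun J => m i (shJ z J)) := (hm.meas i).comp (measurable_shJ z)
    have hi1 : Integrable (fun J => m i (shJ z J)) (PJ μ) :=
      Integrable.of_bound hmz.aestronglyMeasurable 1
        (ae_of_all _ (fun J => by rw [Real.norm_eq_abs]; exact hm.bdd i _))
    have hi2 : Integrable (fun J => ∫ τ, bond τ (z, i) ∂(Q.condKernel J)) (PJ μ) := by
      apply Integrable.of_bound (hkm z i).aestronglyMeasurable 1
      filter_upwards [hkb z i] with J hJ
      rw [Real.norm_eq_abs]; exact hJ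
    apply Integrable.ae_eq_of_forall_setIntegral_eq _ _ hi1 hi2
    intro s hs _
    have him : Measurable (s.indicator (1 : (E → ℝ) → ℝ)) := measurable_one.indicator hs
    have h1 : ∫ J in s, m i (shJ z J) ∂(PJ μ)
        = ∫ J, s.indicator (1 : (E → ℝ) → ℝ) J * m i (shJ z J) ∂(PJ μ) := by
      rw [← integral_indicator hs]
      congr 1
      funext J
      by_cases h : J ∈ s
      · rw [indicator_of_mem h, indicator_of_mem h, Pi.one_apply, one_mul]
      · rw [indicator_of_notMem h, indicator_of_notMem h, zero_mul]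
    have h2 : ∫ J in s, (∫ τ, bond τ (z, i) ∂(Q.condKernel J)) ∂(PJ μ)
        = ∫ J, s.indicator (1 : (E → ℝ) → ℝ) J * (∫ τ, bond τ (z, i) ∂(Q.condKernel J))
          ∂(PJ μ) := by
      rw [← integral_indicator hs]
      congr 1
      funext J
      by_cases h : J ∈ s
      · rw [indicator_of_mem h, indicator_of_mem h, Pi.one_apply, one_mul]
      · rw [indicator_of_notMem h, indicator_of_notMem h, zero_mul]
    rw [h1, h2]
    -- the kernel side
    have hfi : Integrable (fun p : (E → ℝ) × (V → ℝ) =>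
        s.indicator (1 : (E → ℝ) → ℝ) p.1 * bond p.2 (z, i)) Q := by
      apply Integrable.of_bound
        ((him.comp measurable_fst).mul (measurable_bond measurable_snd _)).aestronglyMeasurable 1
      filter_upwards [hQ.2.2] with p hp
      rw [Real.norm_eq_abs, Pi.mul_apply, abs_mul, abs_bond hp.spin, mul_one,
        Function.comp_apply, abs_of_nonneg (ind_nonneg _ _)]
      exact ind_le_one _ _
    have h3 : ∫ J, s.indicator (1 : (E → ℝ) → ℝ) J * (∫ τ, bond τ (z, i) ∂(Q.condKernel J))
          ∂(PJ μ)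
        = ∫ p, s.indicator (1 : (E → ℝ) → ℝ) p.1 * bond p.2 (z, i) ∂Q := by
      rw [← Measure.integral_condKernel hfi, hfst]
      congr 1
      funext J
      exact (integral_const_mul (μ := Q.condKernel J) (s.indicator (1 : (E → ℝ) → ℝ) J)
        (fun y : V → ℝ => bond y (z, i))).symm
    -- the shift side
    have hgm : Measurable (fun J : E → ℝ => s.indicator (1 : (E → ℝ) → ℝ) (shJ (-z) J)) :=
      him.comp (measurable_shJ _)
    have hinv : ∀ J : E → ℝ, shJ (-z) (shJ z J) = J := by
      intro J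
      rw [shJ_shJ]
      funext e
      unfold shJ
      simp
    have h4 : ∫ J, s.indicator (1 : (E → ℝ) → ℝ) J * m i (shJ z J) ∂(PJ μ)
        = ∫ J, s.indicator (1 : (E → ℝ) → ℝ) (shJ (-z) J) * m i J ∂(PJ μ) := by
      rw [← integral_shJ μ z
        (φ := fun J => s.indicator (1 : (E → ℝ) → ℝ) (shJ (-z) J) * m i J)
        (hgm.mul (hm.meas i))]
      simp_rw [hinv]
    have h5 := hm.law i (fun J => s.indicator (1 : (E → ℝ) → ℝ) (shJ (-z) J)) hgm
      ⟨1, fun J => by rw [abs_of_nonneg (ind_nonneg _ _)]; exact ind_le_one _ _⟩ Q hQ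
    have h6 := hQS.integral_shift z
      (F := fun p => s.indicator (1 : (E → ℝ) → ℝ) (shJ (-z) p.1) * bond p.2 (0, i))
      ((hgm.comp measurable_fst).mul (measurable_bond measurable_snd _))
    rw [h4, ← h5, ← h6, h3]
    apply integral_congr_ae
    filter_upwards with p
    rw [hinv, bond_shS_zero]
  have hall : ∀ᵐ J ∂(PJ μ), ∀ (z : V) (i : Fin 2),
      m i (shJ z J) = ∫ τ, bond τ (z, i) ∂(Q.condKernel J) := by
    rw [ae_all_iff]
    intro z
    rw [ae_all_iff]
    intro i
    exact key z i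
  filter_upwards [hgs, hall] with J h1 h2
  exact ⟨h1, h2⟩

end Pool.H66.CH
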