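import Pool.Agent.Helper66.CH.Basic

set_option autoImplicit false
set_option linter.unusedSectionVars false

/-! Pairs of independent fields and fields of pairs. -/

namespace Pool.H66.CH

open MeasureTheory Set ProbabilityTheory Filter Topology Pool.H66.EAM
open scoped ENNReal

variable {Y1 Y2 : Type*} [MeasurableSpace Y1] [MeasurableSpace Y2]

/-- The two coordinate fields. -/
def uz (ω : E → Y1 × Y2) : (E → Y1) × (E → Y2) := (fun e => (ω e).1, fun e => (ω e).2)

lemma measurable_zp : Measurable (fun p : (E → Y1) × (E → Y2) => zp p.1 p.2) :=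
  measurable_pi_lambda _ (fun e => ((measurable_pi_apply e).comp measurable_fst).prodMk
    ((measurable_pi_apply e).comp measurable_snd))

lemma measurable_uz : Measurable (uz (Y1 := Y1) (Y2 := Y2)) :=
  (measurable_pi_lambda _ (fun e => measurable_fst.comp (measurable_pi_apply e))).prodMk
    (measurable_pi_lambda _ (fun e => measurable_snd.comp (measurable_pi_apply e)))

lemma measurable_cp {q : Y1 × Y2 → ℝ} (hq : Measurable q) :
    Measurable (fun p : (E → Y1) × (E → Y2) => cp q p.1 p.2) :=
  (measurable_cpl hq).comp measurable_zp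

lemma cp_eq_cpl (q : Y1 × Y2 → ℝ) (a : E → Y1) (b : E → Y2) : cp q a b = cpl q (zp a b) := rfl

variable (ν1 : Measure Y1) [IsProbabilityMeasure ν1] (ν2 : Measure Y2) [IsProbabilityMeasure ν2]

theorem map_uz : (PJ (ν1.prod ν2)).map uz = (PJ ν1).prod (PJ ν2) := by
  classical
  symm
  apply Measure.prod_eq_generateFrom
    (C := squareCylinders (fun _ : E => {s : Set Y1 | MeasurableSet s}))
    (D := squareCylinders (fun _ : E => {s : Set Y2 | MeasurableSet s}))
    generateFrom_squareCylinders generateFrom_squareCylinders
    (isPiSystem_squareCylinders (fun _ => MeasurableSpace.isPiSystem_measurableSet) (by simp))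
    (isPiSystem_squareCylinders (fun _ => MeasurableSpace.isPiSystem_measurableSet) (by simp))
  · refine ⟨fun _ => univ, fun _ => ?_, fun _ => measure_lt_top _ _, iUnion_const _⟩
    exact ⟨∅, fun _ => univ, by simp, by simp⟩
  · refine ⟨fun _ => univ, fun _ => ?_, fun _ => measure_lt_top _ _, iUnion_const _⟩
    exact ⟨∅, fun _ => univ, by simp, by simp⟩
  · rintro _ ⟨S, t, ht, rfl⟩ _ ⟨S', t', ht', rfl⟩
    rw [mem_univ_pi] at ht ht'
    have hm : MeasurableSet ((S : Set E).pi t ×ˢ (S' : Set E).pi t') :=
      (MeasurableSet.pi S.countable_toSet (fun i _ => ht i)).prod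
        (MeasurableSet.pi S'.countable_toSet (fun i _ => ht' i))
    rw [Measure.map_apply measurable_uz hm]
    have hpre : uz ⁻¹' ((S : Set E).pi t ×ˢ (S' : Set E).pi t')
        = ((S ∪ S' : Finset E) : Set E).pi (fun e =>
          (if e ∈ S then t e else univ) ×ˢ (if e ∈ S' then t' e else univ)) := by
      ext ω
      simp only [mem_preimage, mem_prod, Set.mem_pi, Finset.mem_coe, Finset.mem_union, uz]
      constructor
      · rintro ⟨h1, h2⟩ e _
        constructor
        · split_ifs with h
          · exact h1 e h
          · trivial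
        · split_ifs with h
          · exact h2 e h
          · trivial
      · intro h
        constructor
        · intro e he
          have := (h e (Or.inl he)).1
          rwa [if_pos he] at this
        · intro e he
          have := (h e (Or.inr he)).2
          rwa [if_pos he] at this
    rw [hpre, Measure.infinitePi_pi _ (fun e _ => by
      apply MeasurableSet.prod
      · split_ifs
        · exact ht e
        · exact MeasurableSet.univ
      · split_ifs
        · exact ht' e
        · exact MeasurableSet.univ),
      Measure.infinitePi_pi _ (fun i _ => ht i), Measure.infinitePi_pi _ (fun i _ => ht' i)]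
    simp_rw [Measure.prod_prod]
    rw [Finset.prod_mul_distrib]
    congr 1
    · have : ∀ e, ν1 (if e ∈ S then t e else univ) = if e ∈ S then ν1 (t e) else 1 := by
        intro e; split_ifs
        · rfl
        · exact measure_univ
      simp_rw [this]
      rw [Finset.prod_ite_mem]
      congr 1
      ext e; simp only [Finset.mem_inter, Finset.mem_union]; tauto
    · have : ∀ e, ν2 (if e ∈ S' then t' e else univ) = if e ∈ S' then ν2 (t' e) else 1 := by
        intro e; split_ifs
        · rfl
        · exact measure_univ
      simp_rw [this]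
      rw [Finset.prod_ite_mem]
      congr 1
      ext e; simp only [Finset.mem_inter, Finset.mem_union]; tauto

theorem mp_zp : MeasurePreserving (fun p : (E → Y1) × (E → Y2) => zp p.1 p.2)
    ((PJ ν1).prod (PJ ν2)) (PJ (ν1.prod ν2)) := by
  refine ⟨measurable_zp, ?_⟩
  rw [← map_uz, Measure.map_map measurable_zp measurable_uz]
  have : (fun p : (E → Y1) × (E → Y2) => zp p.1 p.2) ∘ uz = id := by
    funext ω; rfl
  rw [this, Measure.map_id]

/-- Joint shift of both fields. -/
lemma mp_shift2 (v : V) : MeasurePreserving
    (fun p : (E → Y1) × (E → Y2) => (shJ v p.1, shJ v p.2))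
    ((PJ ν1).prod (PJ ν2)) ((PJ ν1).prod (PJ ν2)) :=
  (mp_shJ ν1 v).prod (mp_shJ ν2 v)

lemma cp_shJ (q : Y1 × Y2 → ℝ) (v : V) (a : E → Y1) (b : E → Y2) :
    cp q (shJ v a) (shJ v b) = shJ v (cp q a b) := rfl

end Pool.H66.CH
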