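import Pool.Agent.Helper66.CH.Defs2
import Pool.Agent.Helper66.CH.Zip
import Pool.Agent.Helper66.EAM.Cov

set_option autoImplicit false
set_option linter.unusedSectionVars false

/-! MODULE M4b. The uniform law of large numbers for non-local weights, in mean. -/

namespace Pool.H66.CH

open MeasureTheory Set ProbabilityTheory Filter Topology Pool.H66.EAM
open scoped ENNReal symmDiff

lemma sum_floor {n : ℕ} {u : ℝ} (h0 : 0 ≤ u) (h1 : u ≤ n) :
    (∑ k ∈ Finset.range n, if ((k : ℝ) + 1 ≤ u) then (1 : ℝ) else 0) = (⌊u⌋₊ : ℝ) := by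
  rw [← Finset.sum_filter, Finset.sum_const, nsmul_eq_mul, mul_one]
  congr 1
  have : (Finset.range n).filter (fun k : ℕ => (k : ℝ) + 1 ≤ u) = Finset.range ⌊u⌋₊ := by
    ext k
    rw [Finset.mem_filter, Finset.mem_range, Finset.mem_range]
    constructor
    · rintro ⟨_, h⟩
      have : k + 1 ≤ ⌊u⌋₊ := Nat.le_floor (by push_cast; exact h)
      omega
    · intro h
      have h2 : k + 1 ≤ ⌊u⌋₊ := h
      have h3 : ((k + 1 : ℕ) : ℝ) ≤ u := (Nat.le_floor_iff h0).1 h2
      refine ⟨?_, by push_cast at h3; exact h3⟩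
      have h4 : ((k + 1 : ℕ) : ℝ) ≤ n := h3.trans h1
      have h5 : k + 1 ≤ n := by exact_mod_cast h4
      omega
  rw [this, Finset.card_range]

lemma ind_sub_le {α : Type*} (C D : Set α) (x : α) :
    |C.indicator (1 : α → ℝ) x - D.indicator (1 : α → ℝ) x| ≤ (C ∆ D).indicator (1 : α → ℝ) x := by
  by_cases h1 : x ∈ C <;> by_cases h2 : x ∈ D
  · rw [indicator_of_mem h1, indicator_of_mem h2]; simp only [sub_self, abs_zero]
    exact ind_nonneg _ _
  · have h3 : x ∈ C ∆ D := by rw [Set.mem_symmDiff]; tauto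
    rw [indicator_of_mem h1, indicator_of_notMem h2, indicator_of_mem h3]; simp
  · have h3 : x ∈ C ∆ D := by rw [Set.mem_symmDiff]; tauto
    rw [indicator_of_notMem h1, indicator_of_mem h2, indicator_of_mem h3]; simp
  · rw [indicator_of_notMem h1, indicator_of_notMem h2]; simp only [sub_self, abs_zero]
    exact ind_nonneg _ _

/-- Approximation of a bounded function by a local one, in mean. -/
lemma exists_local_approx {Y : Type*} [MeasurableSpace Y] (ν : Measure Y) [IsProbabilityMeasure ν]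
    {M : (E → Y) → ℝ} (hM : Measurable M) (hMb : ∀ ω, |M ω| ≤ 1) {ε : ℝ} (hε : 0 < ε) :
    ∃ (S : Finset E) (g : (E → Y) → ℝ), Measurable g ∧ (∀ ω, |g ω| ≤ 1) ∧ Loc S g ∧
      ∫ ω, |M ω - g ω| ∂(PJ ν) ≤ ε := by
  classical
  obtain ⟨n, hn⟩ := exists_nat_gt (4 / ε)
  have hn0 : 0 < (n : ℝ) := lt_trans (by positivity) hn
  have hn1 : 2 / (n : ℝ) ≤ ε / 2 := by
    rw [div_lt_iff₀ hε] at hn
    rw [div_le_div_iff₀ hn0 two_pos]
    linarith
  set C : ℕ → Set (E → Y) := fun k => {ω | (k : ℝ) + 1 ≤ n * (M ω + 1) / 2} with hC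
  have hCm : ∀ k, MeasurableSet (C k) := fun k =>
    measurableSet_le measurable_const (((hM.add_const 1).const_mul (n : ℝ)).div_const 2)
  have hap : ∀ k, ∃ (S : Finset E) (D : Set (E → Y)), MeasurableSet D ∧
      (∀ ω ω' : E → Y, (∀ e ∈ S, ω e = ω' e) → (ω ∈ D ↔ ω' ∈ D)) ∧
      (PJ ν).real (C k ∆ D) ≤ ε / 4 := fun k => approx (ν := ν) (hCm k) (by positivity)
  choose S D hD hloc hCD using hap
  set g : (E → Y) → ℝ := fun ω =>
    -1 + 2 / n * ∑ k ∈ Finset.range n, (D k).indicator (1 : (E → Y) → ℝ) ω with hg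
  have hs0 : ∀ ω, 0 ≤ ∑ k ∈ Finset.range n, (D k).indicator (1 : (E → Y) → ℝ) ω :=
    fun ω => Finset.sum_nonneg (fun k _ => ind_nonneg _ _)
  have hs1 : ∀ ω, ∑ k ∈ Finset.range n, (D k).indicator (1 : (E → Y) → ℝ) ω ≤ n := by
    intro ω
    calc ∑ k ∈ Finset.range n, (D k).indicator (1 : (E → Y) → ℝ) ω
        ≤ ∑ k ∈ Finset.range n, (1 : ℝ) := Finset.sum_le_sum (fun k _ => ind_le_one _ _)
      _ = n := by simp
  have hgm : Measurable g := by
    apply Measurable.const_add
    apply Measurable.const_mul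
    exact Finset.measurable_sum _ (fun k _ => measurable_one.indicator (hD k))
  have hgb : ∀ ω, |g ω| ≤ 1 := by
    intro ω
    rw [abs_le]
    have h1 : 0 ≤ 2 / (n : ℝ) := by positivity
    have h2 := mul_nonneg h1 (hs0 ω)
    have h3 : 2 / (n : ℝ) * ∑ k ∈ Finset.range n, (D k).indicator (1 : (E → Y) → ℝ) ω ≤ 2 := by
      calc 2 / (n : ℝ) * ∑ k ∈ Finset.range n, (D k).indicator (1 : (E → Y) → ℝ) ω
          ≤ 2 / (n : ℝ) * n := mul_le_mul_of_nonneg_left (hs1 ω) h1
        _ = 2 := by field_simp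
    constructor <;> simp only [hg] <;> linarith
  refine ⟨(Finset.range n).biUnion S, g, hgm, hgb, ?_, ?_⟩
  · intro ω ω' h
    simp only [hg]
    congr 2
    apply Finset.sum_congr rfl
    intro k hk
    have hiff := hloc k ω ω' (fun e he => h e (Finset.mem_biUnion.2 ⟨k, hk, he⟩))
    by_cases h1 : ω ∈ D k
    · rw [indicator_of_mem h1, indicator_of_mem (hiff.1 h1)]; rfl
    · rw [indicator_of_notMem h1, indicator_of_notMem (fun h' => h1 (hiff.2 h'))]
  · have hpt : ∀ ω, |M ω - g ω| ≤ 2 / n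
        + 2 / n * ∑ k ∈ Finset.range n, (C k ∆ D k).indicator (1 : (E → Y) → ℝ) ω := by
      intro ω
      set u : ℝ := n * (M ω + 1) / 2 with hu
      have hM1 := abs_le.1 (hMb ω)
      have hu0 : 0 ≤ u := by
        apply div_nonneg (mul_nonneg hn0.le (by linarith [hM1.1])) two_pos.le
      have hu1 : u ≤ n := by
        rw [hu, div_le_iff₀ two_pos]
        nlinarith [hM1.2]
      have h1 : ∑ k ∈ Finset.range n, (C k).indicator (1 : (E → Y) → ℝ) ω = (⌊u⌋₊ : ℝ) := by
        rw [← sum_floor hu0 hu1]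
        apply Finset.sum_congr rfl
        intro k _
        by_cases h : (k : ℝ) + 1 ≤ u
        · rw [if_pos h, indicator_of_mem (show ω ∈ C k from h)]; rfl
        · rw [if_neg h, indicator_of_notMem (show ω ∉ C k from h)]
      have h2 := Nat.floor_le hu0
      have h3 := Nat.lt_floor_add_one u
      have hMu : M ω = -1 + 2 / n * u := by
        rw [hu]; field_simp; ring
      have h4 : |u - (⌊u⌋₊ : ℝ)| ≤ 1 := by
        rw [abs_le]; constructor <;> linarith
      have e1 : M ω - g ω = 2 / n * (u - (⌊u⌋₊ : ℝ))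
          + 2 / n * (∑ k ∈ Finset.range n, ((C k).indicator (1 : (E → Y) → ℝ) ω
            - (D k).indicator (1 : (E → Y) → ℝ) ω)) := by
        rw [Finset.sum_sub_distrib, h1, hMu]
        simp only [hg]
        ring
      rw [e1]
      have h5 : 0 ≤ 2 / (n : ℝ) := by positivity
      calc |2 / n * (u - (⌊u⌋₊ : ℝ))
          + 2 / n * (∑ k ∈ Finset.range n, ((C k).indicator (1 : (E → Y) → ℝ) ω
            - (D k).indicator (1 : (E → Y) → ℝ) ω))|
          ≤ |2 / n * (u - (⌊u⌋₊ : ℝ))| + |2 / n * (∑ k ∈ Finset.range n,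
            ((C k).indicator (1 : (E → Y) → ℝ) ω - (D k).indicator (1 : (E → Y) → ℝ) ω))| :=
            abs_add_le _ _
        _ = 2 / n * |u - (⌊u⌋₊ : ℝ)| + 2 / n * |∑ k ∈ Finset.range n,
            ((C k).indicator (1 : (E → Y) → ℝ) ω - (D k).indicator (1 : (E → Y) → ℝ) ω)| := by
            rw [abs_mul, abs_mul, abs_of_nonneg h5]
        _ ≤ 2 / n * 1 + 2 / n * ∑ k ∈ Finset.range n,
            (C k ∆ D k).indicator (1 : (E → Y) → ℝ) ω := by
            gcongr
            exact (Finset.abs_sum_le_sum_abs _ _).trans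
              (Finset.sum_le_sum (fun k _ => ind_sub_le _ _ _))
        _ = _ := by rw [mul_one]
    have hCDm : ∀ k, MeasurableSet (C k ∆ D k) := fun k => (hCm k).symmDiff (hD k)
    have hint : ∀ k, Integrable ((C k ∆ D k).indicator (1 : (E → Y) → ℝ)) (PJ ν) := fun k =>
      (integrable_const (1 : ℝ)).indicator (hCDm k)
    have hsi : Integrable (fun ω => 2 / (n : ℝ)
        + 2 / n * ∑ k ∈ Finset.range n, (C k ∆ D k).indicator (1 : (E → Y) → ℝ) ω) (PJ ν) :=
      (integrable_const _).add ((integrable_finsetSum _ (fun k _ => hint k)).const_mul _)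
    have hMg : Integrable (fun ω => |M ω - g ω|) (PJ ν) := by
      apply Integrable.of_bound (C := 2) (hM.sub hgm).abs.aestronglyMeasurable
      apply ae_of_all
      intro ω
      rw [Real.norm_eq_abs, abs_abs]
      calc |M ω - g ω| ≤ |M ω| + |g ω| := abs_sub _ _
        _ ≤ 2 := by linarith [hMb ω, hgb ω]
    calc ∫ ω, |M ω - g ω| ∂(PJ ν)
        ≤ ∫ ω, (2 / (n : ℝ)
          + 2 / n * ∑ k ∈ Finset.range n, (C k ∆ D k).indicator (1 : (E → Y) → ℝ) ω) ∂(PJ ν) :=
          integral_mono hMg hsi hpt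
      _ = 2 / n + 2 / n * ∑ k ∈ Finset.range n, (PJ ν).real (C k ∆ D k) := by
          rw [integral_add (integrable_const _)
            ((integrable_finsetSum _ (fun k _ => hint k)).const_mul _), integral_const_mul,
            integral_finsetSum _ (fun k _ => hint k)]
          simp_rw [integral_indicator_one (hCDm _)]
          simp
      _ ≤ ε / 2 + 2 / n * ∑ k ∈ Finset.range n, ε / 4 := by
          gcongr with k _
          exact hCD k
      _ = ε := by
          rw [Finset.sum_const, Finset.card_range, nsmul_eq_mul]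
          field_simp
          ring

/-- Approximate `M` in `L¹` by a local `g` with `|g| ≤ 1` (for instance by simple functions and
`approx` in EAM/Cov.lean); apply `final_loc` (with `hasReg`) to the marked field `ν = μ.prod lam`,
`q = Prod.fst`; identify the constant with `const_eq` (EAM/Cor.lean), for
`Ω' = ((E → ℝ) × (V → ℝ)) × (E → ℝ)` with the measure `Q.prod (PJ lam)`, `Q` a stationary law, and
`IsBond.law` with Fubini. `H = |box N|⁻¹ ∑_z |M - g|(shJ z ω) + sup_σ |avg g - c| + |c - E M m|`,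
where the supremum is over finitely many patterns (cf. `exists_max`), tends to zero almost surely
and is bounded. (Here `Y = ℝ × ℝ` carries the couplings as first coordinates.) -/
theorem loc_part (μ : Measure ℝ) [IsProbabilityMeasure μ] (hμ : ∀ x : ℝ, μ {x} = 0)
    (lam : Measure ℝ) [IsProbabilityMeasure lam] {m : Fin 2 → (E → ℝ) → ℝ} (hm : IsBond μ m)
    (i : Fin 2) {M : (E → ℝ × ℝ) → ℝ} (hM : Measurable M) (hMb : ∀ ω, |M ω| ≤ 1) {ε : ℝ}
    (hε : 0 < ε) :
    ∃ N0 : ℕ, ∀ N ≥ N0, ∃ H : (E → ℝ × ℝ) → ℝ, Measurable H ∧ (∀ ω, 0 ≤ H ω) ∧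
      Integrable H (PJ (μ.prod lam)) ∧ ∫ ω, H ω ∂(PJ (μ.prod lam)) ≤ ε ∧
      ∀ᵐ ω ∂(PJ (μ.prod lam)), ∀ σ : V → ℝ, IsSpin σ →
        LG (box (2 * N + 1)) (fun e => (ω e).1) σ →
        |(∑ z ∈ box N, M (shJ z ω) * bond σ (z, i)) / ((box N).card : ℝ)
          - ∫ ω', M ω' * m i (fun e => (ω' e).1) ∂(PJ (μ.prod lam))| ≤ H ω := by
  classical
  set ν : Measure (ℝ × ℝ) := μ.prod lam with hν
  have hqm : Measurable (Prod.fst : ℝ × ℝ → ℝ) := measurable_fst
  have hν0 : ∀ x : ℝ, ν (Prod.fst ⁻¹' {x}) = 0 := by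
    intro x
    have : (Prod.fst ⁻¹' {x} : Set (ℝ × ℝ)) = {x} ×ˢ univ := by ext; simp
    rw [this, hν, Measure.prod_prod, hμ x, zero_mul]
  obtain ⟨S, g, hgm, hgb, hgl, hMg⟩ := exists_local_approx ν hM hMb (show 0 < ε / 3 by positivity)
  obtain ⟨c, hc⟩ := final_loc (μ := ν) hν0 hqm (hasReg ν hqm) i hgm hgb hgl
  have hcU : UnifTo ν Prod.fst i g c := by
    filter_upwards [hc] with ω hω δ hδ
    obtain ⟨M0, hM0⟩ := hω δ hδ
    exact ⟨M0, fun M hM σ hσ => hM0 M hM σ hσ.spin hσ.lg⟩
  have hfm : Measurable (fun ω : E → ℝ × ℝ => (fun e => (ω e).1 : E → ℝ)) :=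
    measurable_pi_lambda _ (fun e => measurable_fst.comp (measurable_pi_apply e))
  have hmm : Measurable (fun ω : E → ℝ × ℝ => m i (fun e => (ω e).1)) := (hm.meas i).comp hfm
  -- the constant
  have hce : ∫ ω, g ω * m i (fun e => (ω e).1) ∂(PJ ν) = c := by
    obtain ⟨Q, hQ⟩ := exists_stationary μ hμ
    have hQS : StatLaw μ id Q := hQ
    have hQp : IsProbabilityMeasure Q := hQS.prob
    set Ω' := ((E → ℝ) × (V → ℝ)) × (E → ℝ) with hΩ'
    set W : Ω' → E → ℝ × ℝ := fun p => zp p.1.1 p.2 with hW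
    set B : Ω' → V → ℝ := fun p => p.1.2 with hB
    have hWm : Measurable W := measurable_zp.comp
      ((measurable_fst.comp measurable_fst).prodMk measurable_snd)
    have hBm : Measurable B := measurable_snd.comp measurable_fst
    have hWmap : (Q.prod (PJ lam)).map W = PJ ν := by
      have e1 : W = (fun p : (E → ℝ) × (E → ℝ) => zp p.1 p.2) ∘
          (Prod.map Prod.fst id : Ω' → (E → ℝ) × (E → ℝ)) := rfl
      rw [e1, ← Measure.map_map measurable_zp (measurable_fst.prodMap measurable_id),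
        ← Measure.map_prod_map _ _ measurable_fst measurable_id, hQS.1, Measure.map_id]
      exact (mp_zp μ lam).map_eq
    have hGS : ∀ᵐ p ∂(Q.prod (PJ lam)), IsGroundState (cpl Prod.fst (W p)) (B p) := by
      have h1 : ∀ᵐ p ∂(Q.prod (PJ lam)), IsGroundState p.1.1 p.1.2 :=
        Measure.quasiMeasurePreserving_fst.ae hQ.2.2
      filter_upwards [h1] with p hp
      exact hp
    have hst : ∀ x : V, ∫ p, g (shJ x (W p)) * bond (B p) (x, i) ∂(Q.prod (PJ lam))
        = ∫ p, g (W p) * bond (B p) (0, i) ∂(Q.prod (PJ lam)) := by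
      intro x
      have hmp : MeasurePreserving (Prod.map (fun p : (E → ℝ) × (V → ℝ) => (shJ x p.1, shS x p.2))
          (shJ x : (E → ℝ) → E → ℝ)) (Q.prod (PJ lam)) (Q.prod (PJ lam)) := by
        apply MeasurePreserving.prod
        · exact ⟨((measurable_shJ x).comp measurable_fst).prodMk
            ((measurable_shS x).comp measurable_snd), hQ.2.1 x⟩
        · exact mp_shJ lam x
      have hFm : Measurable (fun p : Ω' => g (W p) * bond (B p) (0, i)) :=
        (hgm.comp hWm).mul (measurable_bond hBm _)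
      have h1 := integral_map (μ := Q.prod (PJ lam)) hmp.measurable.aemeasurable
        (f := fun p : Ω' => g (W p) * bond (B p) (0, i)) hFm.aestronglyMeasurable
      rw [hmp.map_eq] at h1
      rw [h1]
      apply integral_congr_ae
      filter_upwards with p
      show g (shJ x (W p)) * bond (B p) (x, i) = g (shJ x (W p)) * bond (shS x (B p)) (0, i)
      rw [bond_shS_zero]
    have h1 := const_eq (q := Prod.fst) hcU hgm hgb (Q.prod (PJ lam)) hWm hWmap hBm hGS hst
    rw [← h1]
    -- Fubini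
    have hB1 : ∀ᵐ p ∂(Q.prod (PJ lam)), IsSpin (B p) := by
      filter_upwards [hGS] with p hp
      exact hp.spin
    have hi1 : Integrable (fun p : Ω' => g (W p) * bond (B p) (0, i)) (Q.prod (PJ lam)) := by
      apply Integrable.of_bound (C := 1)
        ((hgm.comp hWm).mul (measurable_bond hBm _)).aestronglyMeasurable
      filter_upwards [hB1] with p hp
      rw [Real.norm_eq_abs, Pi.mul_apply, abs_mul, abs_bond hp, mul_one]
      exact hgb _
    have hi2 : Integrable (fun p : (E → ℝ) × (E → ℝ) => g (zp p.1 p.2) * m i p.1)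
        ((PJ μ).prod (PJ lam)) := by
      apply Integrable.of_bound (C := 1)
        ((hgm.comp measurable_zp).mul ((hm.meas i).comp measurable_fst)).aestronglyMeasurable
      apply ae_of_all
      intro p
      rw [Real.norm_eq_abs, Pi.mul_apply, abs_mul]
      calc |(g ∘ fun p : (E → ℝ) × (E → ℝ) => zp p.1 p.2) p| * |(m i ∘ Prod.fst) p|
          ≤ 1 * 1 := mul_le_mul (hgb _) (hm.bdd i _) (abs_nonneg _) zero_le_one
        _ = 1 := one_mul 1
    have e1 : ∫ ω, g ω * m i (fun e => (ω e).1) ∂(PJ ν)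
        = ∫ p, g (zp p.1 p.2) * m i p.1 ∂((PJ μ).prod (PJ lam)) := by
      have h2 := integral_map (μ := (PJ μ).prod (PJ lam)) measurable_zp.aemeasurable
        (f := fun ω : E → ℝ × ℝ => g ω * m i (fun e => (ω e).1))
        (hgm.mul hmm).aestronglyMeasurable
      rw [(mp_zp μ lam).map_eq] at h2
      exact h2
    rw [e1, integral_prod_symm _ hi2, integral_prod_symm _ hi1]
    apply integral_congr_ae
    filter_upwards with z
    have hgz : Measurable (fun J : E → ℝ => g (zp J z)) :=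
      hgm.comp (measurable_zp.comp (measurable_id.prodMk measurable_const))
    exact (hm.law i (fun J => g (zp J z)) hgz ⟨1, fun J => hgb _⟩ Q hQ).symm
  -- the two constants are close
  set K : ℝ := ∫ ω', M ω' * m i (fun e => (ω' e).1) ∂(PJ ν) with hK
  have hMgi : Integrable (fun ω => |M ω - g ω|) (PJ ν) := by
    apply Integrable.of_bound (C := 2) (hM.sub hgm).abs.aestronglyMeasurable
    apply ae_of_all
    intro ω
    rw [Real.norm_eq_abs, abs_abs]
    calc |M ω - g ω| ≤ |M ω| + |g ω| := abs_sub _ _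
      _ ≤ 2 := by linarith [hMb ω, hgb ω]
  have hcK : |c - K| ≤ ε / 3 := by
    have hi1 : Integrable (fun ω => g ω * m i (fun e => (ω e).1)) (PJ ν) := by
      apply Integrable.of_bound (C := 1) (hgm.mul hmm).aestronglyMeasurable
      apply ae_of_all
      intro ω
      rw [Real.norm_eq_abs, Pi.mul_apply, abs_mul]
      calc |g ω| * |m i (fun e => (ω e).1)| ≤ 1 * 1 :=
            mul_le_mul (hgb _) (hm.bdd i _) (abs_nonneg _) zero_le_one
        _ = 1 := one_mul 1
    have hi2 : Integrable (fun ω => M ω * m i (fun e => (ω e).1)) (PJ ν) := by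
      apply Integrable.of_bound (C := 1) (hM.mul hmm).aestronglyMeasurable
      apply ae_of_all
      intro ω
      rw [Real.norm_eq_abs, Pi.mul_apply, abs_mul]
      calc |M ω| * |m i (fun e => (ω e).1)| ≤ 1 * 1 :=
            mul_le_mul (hMb _) (hm.bdd i _) (abs_nonneg _) zero_le_one
        _ = 1 := one_mul 1
    rw [← hce, hK, ← integral_sub hi1 hi2]
    calc |∫ ω, (g ω * m i (fun e => (ω e).1) - M ω * m i (fun e => (ω e).1)) ∂(PJ ν)|
        ≤ ∫ ω, |g ω * m i (fun e => (ω e).1) - M ω * m i (fun e => (ω e).1)| ∂(PJ ν) :=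
          abs_integral_le_integral_abs
      _ ≤ ∫ ω, |M ω - g ω| ∂(PJ ν) := by
          apply integral_mono (hi1.sub hi2).abs hMgi
          intro ω
          show |g ω * m i (fun e => (ω e).1) - M ω * m i (fun e => (ω e).1)| ≤ |M ω - g ω|
          rw [← sub_mul, abs_mul, abs_sub_comm]
          calc |M ω - g ω| * |m i (fun e => (ω e).1)| ≤ |M ω - g ω| * 1 :=
                mul_le_mul_of_nonneg_left (hm.bdd i _) (abs_nonneg _)
            _ = |M ω - g ω| := mul_one _
      _ ≤ ε / 3 := hMg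
  -- the extremal ground states
  have hwm : ∀ z : V, Measurable (fun ω : E → ℝ × ℝ => g (shJ z ω)) :=
    fun z => hgm.comp (measurable_shJ z)
  have hsel1 := fun N : ℕ => exists_max hfm (box (2 * N + 1)) (box N) (fun z => (z, i))
    (fun ω z => g (shJ z ω)) hwm
  have hsel2 := fun N : ℕ => exists_max hfm (box (2 * N + 1)) (box N) (fun z => (z, i))
    (fun ω z => -g (shJ z ω)) (fun z => (hwm z).neg)
  choose s1 hs1m hs1L hs1 using hsel1
  choose s2 hs2m hs2L hs2 using hsel2
  have havg : ∀ (N : ℕ) (ω : E → ℝ × ℝ) (σ : V → ℝ),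
      avg i g N ω σ = (2 * cnt (box N) (fun z => (z, i)) (fun z => g (shJ z ω)) σ
        - ∑ z ∈ box N, g (shJ z ω)) / ((box N).card : ℝ) := by
    intro N ω σ
    unfold avg cnt av
    congr 1
    rw [Finset.mul_sum, ← Finset.sum_sub_distrib]
    apply Finset.sum_congr rfl
    intro z _
    ring
  have hcneg : ∀ (N : ℕ) (ω : E → ℝ × ℝ) (σ : V → ℝ),
      cnt (box N) (fun z => (z, i)) (fun z => -g (shJ z ω)) σ
        = - cnt (box N) (fun z => (z, i)) (fun z => g (shJ z ω)) σ := by
    intro N ω σ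
    unfold cnt
    rw [← Finset.sum_neg_distrib]
    apply Finset.sum_congr rfl
    intro z _
    ring
  set D : ℕ → (E → ℝ × ℝ) → ℝ := fun N ω =>
    |avg i g N ω (pat (s1 N ω)) - c| + |avg i g N ω (pat (s2 N ω)) - c| with hD
  have hDσ : ∀ (N : ℕ) (ω : E → ℝ × ℝ) (σ : V → ℝ), IsSpin σ →
      LG (box (2 * N + 1)) (fun e => (ω e).1) σ → |avg i g N ω σ - c| ≤ D N ω := by
    intro N ω σ hσ hL
    have h1 := hs1 N ω σ hσ hL
    have h2 := hs2 N ω σ hσ hL
    rw [hcneg, hcneg] at h2
    have hp := box_pos N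
    have h3 : avg i g N ω σ ≤ avg i g N ω (pat (s1 N ω)) := by
      rw [havg, havg]
      gcongr
    have h4 : avg i g N ω (pat (s2 N ω)) ≤ avg i g N ω σ := by
      rw [havg, havg]
      gcongr
      linarith
    simp only [hD]
    rw [abs_le]
    have h5 := le_abs_self (avg i g N ω (pat (s1 N ω)) - c)
    have h6 := neg_abs_le (avg i g N ω (pat (s2 N ω)) - c)
    have h7 := abs_nonneg (avg i g N ω (pat (s1 N ω)) - c)
    have h8 := abs_nonneg (avg i g N ω (pat (s2 N ω)) - c)
    constructor <;> linarith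
  have hDm : ∀ N, Measurable (D N) := by
    intro N
    have hF : ∀ s : Finset V, Measurable (fun ω => |avg i g N ω (pat s) - c|) := by
      intro s
      apply Measurable.abs
      apply Measurable.sub_const
      unfold avg
      apply Measurable.div_const
      exact Finset.measurable_sum _ (fun x _ => (hwm x).mul_const _)
    exact (measurable_of_sel (hs1m N) (fun s ω => |avg i g N ω (pat s) - c|) hF).add
      (measurable_of_sel (hs2m N) (fun s ω => |avg i g N ω (pat s) - c|) hF)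
  have hDb : ∀ N ω, |D N ω| ≤ 2 * (1 + |c|) := by
    intro N ω
    have h1 : ∀ s : Finset V, |avg i g N ω (pat s) - c| ≤ 1 + |c| := by
      intro s
      calc |avg i g N ω (pat s) - c| ≤ |avg i g N ω (pat s)| + |c| := abs_sub _ _
        _ ≤ 1 + |c| := by gcongr; exact avg_bound hgb N ω (pat_spin s)
    simp only [hD]
    rw [abs_of_nonneg (by positivity)]
    linarith [h1 (s1 N ω), h1 (s2 N ω)]
  have hDlim : ∀ᵐ ω ∂(PJ ν), Tendsto (fun N => D N ω) atTop (𝓝 0) := by
    filter_upwards [hc] with ω hω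
    rw [Metric.tendsto_atTop]
    intro δ hδ
    obtain ⟨M0, hM0⟩ := hω (δ / 3) (by positivity)
    refine ⟨M0, fun N hN => ?_⟩
    have hmono : box (2 * N) ⊆ box (2 * N + 1) := box_mono (by omega)
    have h1 := hM0 N hN (pat (s1 N ω)) (pat_spin _) ((hs1L N ω).mono hmono)
    have h2 := hM0 N hN (pat (s2 N ω)) (pat_spin _) ((hs2L N ω).mono hmono)
    rw [Real.dist_eq, sub_zero]
    simp only [hD]
    rw [abs_of_nonneg (by positivity)]
    have h3 : |avg i g N ω (pat (s1 N ω)) - c| ≤ δ / 3 := h1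
    have h4 : |avg i g N ω (pat (s2 N ω)) - c| ≤ δ / 3 := h2
    linarith
  have hDint : Tendsto (fun N => ∫ ω, D N ω ∂(PJ ν)) atTop (𝓝 0) := by
    have h1 := tendsto_integral_of_dominated_convergence (μ := PJ ν)
      (F := fun N ω => D N ω) (f := fun _ => (0 : ℝ)) (fun _ => 2 * (1 + |c|))
      (fun N => (hDm N).aestronglyMeasurable) (integrable_const _)
      (fun N => ae_of_all _ (fun ω => by rw [Real.norm_eq_abs]; exact hDb N ω)) hDlim
    simpa using h1
  obtain ⟨N0, hN0⟩ := (Metric.tendsto_atTop.1 hDint) (ε / 3) (by positivity)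
  refine ⟨N0, fun N hN => ?_⟩
  have hDN : ∫ ω, D N ω ∂(PJ ν) ≤ ε / 3 := by
    have h1 := hN0 N hN
    rw [Real.dist_eq, sub_zero] at h1
    exact (le_abs_self _).trans h1.le
  have hp := box_pos N
  have hdm : Measurable (fun ω => |M ω - g ω|) := (hM.sub hgm).abs
  have hshi : ∀ z : V, Integrable (fun ω => |M (shJ z ω) - g (shJ z ω)|) (PJ ν) := fun z =>
    (mp_shJ ν z).integrable_comp_of_integrable hMgi
  have hDi : Integrable (D N) (PJ ν) := Integrable.of_bound (hDm N).aestronglyMeasurable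
    (2 * (1 + |c|)) (ae_of_all _ (fun ω => by rw [Real.norm_eq_abs]; exact hDb N ω))
  have hSi : Integrable (fun ω => (∑ z ∈ box N, |M (shJ z ω) - g (shJ z ω)|)
      / ((box N).card : ℝ)) (PJ ν) :=
    (integrable_finsetSum _ (fun z _ => hshi z)).div_const _
  refine ⟨fun ω => (∑ z ∈ box N, |M (shJ z ω) - g (shJ z ω)|) / ((box N).card : ℝ)
    + D N ω + |c - K|, ?_, ?_, ?_, ?_, ?_⟩
  · exact (((Finset.measurable_sum _ (fun z _ => hdm.comp (measurable_shJ z))).div_const _).add
      (hDm N)).add_const _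
  · intro ω
    have h1 : 0 ≤ (∑ z ∈ box N, |M (shJ z ω) - g (shJ z ω)|) / ((box N).card : ℝ) :=
      div_nonneg (Finset.sum_nonneg (fun z _ => abs_nonneg _)) hp.le
    have h2 : 0 ≤ D N ω := by simp only [hD]; positivity
    positivity
  · exact (hSi.add hDi).add (integrable_const _)
  · have h1 : ∫ ω, ((∑ z ∈ box N, |M (shJ z ω) - g (shJ z ω)|) / ((box N).card : ℝ)
        + D N ω + |c - K|) ∂(PJ ν)
        = ∫ ω, (∑ z ∈ box N, |M (shJ z ω) - g (shJ z ω)|) / ((box N).card : ℝ) ∂(PJ ν)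
          + ∫ ω, D N ω ∂(PJ ν) + |c - K| := by
      calc ∫ ω, ((∑ z ∈ box N, |M (shJ z ω) - g (shJ z ω)|) / ((box N).card : ℝ)
            + D N ω + |c - K|) ∂(PJ ν)
          = ∫ ω, ((∑ z ∈ box N, |M (shJ z ω) - g (shJ z ω)|) / ((box N).card : ℝ)
            + D N ω) ∂(PJ ν) + ∫ ω, |c - K| ∂(PJ ν) :=
            integral_add (hSi.add hDi) (integrable_const _)
        _ = (∫ ω, (∑ z ∈ box N, |M (shJ z ω) - g (shJ z ω)|) / ((box N).card : ℝ) ∂(PJ ν)
            + ∫ ω, D N ω ∂(PJ ν)) + ∫ ω, |c - K| ∂(PJ ν) :=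
            congrArg (· + ∫ ω, |c - K| ∂(PJ ν)) (integral_add hSi hDi)
        _ = _ := by simp
    have h2 : ∫ ω, (∑ z ∈ box N, |M (shJ z ω) - g (shJ z ω)|) / ((box N).card : ℝ) ∂(PJ ν)
        = ∫ ω, |M ω - g ω| ∂(PJ ν) := by
      rw [integral_div, integral_finsetSum _ (fun z _ => hshi z)]
      have h3 : ∀ z : V, ∫ ω, |M (shJ z ω) - g (shJ z ω)| ∂(PJ ν)
          = ∫ ω, |M ω - g ω| ∂(PJ ν) := fun z =>
        integral_shJ ν z (φ := fun ω => |M ω - g ω|) hdm
      simp_rw [h3]
      rw [Finset.sum_const, nsmul_eq_mul]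
      field_simp
    rw [h1, h2]
    linarith
  · apply ae_of_all
    intro ω σ hσ hL
    have h1 := hDσ N ω σ hσ hL
    have h2 : |(∑ z ∈ box N, M (shJ z ω) * bond σ (z, i)) / ((box N).card : ℝ)
        - avg i g N ω σ| ≤ (∑ z ∈ box N, |M (shJ z ω) - g (shJ z ω)|) / ((box N).card : ℝ) := by
      unfold avg
      rw [← sub_div, ← Finset.sum_sub_distrib, abs_div, abs_of_pos hp]
      gcongr
      calc |∑ z ∈ box N, (M (shJ z ω) * bond σ (z, i) - g (shJ z ω) * bond σ (z, i))|
          ≤ ∑ z ∈ box N, |M (shJ z ω) * bond σ (z, i) - g (shJ z ω) * bond σ (z, i)| :=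
            Finset.abs_sum_le_sum_abs _ _
        _ = ∑ z ∈ box N, |M (shJ z ω) - g (shJ z ω)| := by
            apply Finset.sum_congr rfl
            intro z _
            rw [← sub_mul, abs_mul, abs_bond hσ, mul_one]
    have h3 : (∑ z ∈ box N, M (shJ z ω) * bond σ (z, i)) / ((box N).card : ℝ) - K
        = ((∑ z ∈ box N, M (shJ z ω) * bond σ (z, i)) / ((box N).card : ℝ) - avg i g N ω σ)
          + (avg i g N ω σ - c) + (c - K) := by ring
    rw [h3]
    calc |((∑ z ∈ box N, M (shJ z ω) * bond σ (z, i)) / ((box N).card : ℝ) - avg i g N ω σ)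
          + (avg i g N ω σ - c) + (c - K)|
        ≤ |((∑ z ∈ box N, M (shJ z ω) * bond σ (z, i)) / ((box N).card : ℝ) - avg i g N ω σ)
          + (avg i g N ω σ - c)| + |c - K| := abs_add_le _ _
      _ ≤ |(∑ z ∈ box N, M (shJ z ω) * bond σ (z, i)) / ((box N).card : ℝ) - avg i g N ω σ|
          + |avg i g N ω σ - c| + |c - K| := by gcongr; exact abs_add_le _ _
      _ ≤ _ := add_le_add (add_le_add h2 h1) le_rfl

end Pool.H66.CH
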