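import Pool.Agent.Helper66.CH.Defs2
import Pool.Agent.Helper66.CH.Zip
import Pool.Agent.Helper66.CH.LocPart

set_option autoImplicit false
set_option linter.unusedSectionVars false

/-! MODULE M6. Continuity under small perturbations. -/

namespace Pool.H66.CH

open MeasureTheory Set ProbabilityTheory Filter Topology Pool.H66.EAM
open scoped ENNReal

/-- Approximation in mean by a bounded uniformly continuous local function. -/
lemma exists_uc_approx (μ : Measure ℝ) [IsProbabilityMeasure μ] {m : (E → ℝ) → ℝ}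
    (hm : Measurable m) (hb : ∀ J, |m J| ≤ 1) {ε : ℝ} (hε : 0 < ε) :
    ∃ (S : Finset E) (F : (S → ℝ) → ℝ), UniformContinuous F ∧ (∃ C, 0 ≤ C ∧ ∀ x, |F x| ≤ C) ∧
      ∫ J, |m J - F (S.restrict J)| ∂(PJ μ) ≤ ε := by
  classical
  obtain ⟨S, g, hgm, hgb, hgl, hmg⟩ := exists_local_approx μ hm hb (half_pos hε)
  let ext : (S → ℝ) → (E → ℝ) := fun x e => if h : e ∈ S then x ⟨e, h⟩ else 0
  have hext : Measurable ext := by
    apply measurable_pi_lambda
    intro e
    by_cases h : e ∈ S
    · simp only [ext, h, dite_true]; exact measurable_pi_apply _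
    · simp only [ext, h, dite_false]; exact measurable_const
  have hge : ∀ J : E → ℝ, g J = g (ext (S.restrict J)) := by
    intro J
    apply hgl
    intro e he
    simp only [ext, he, dite_true]
    rfl
  set G : (S → ℝ) → ℝ := fun x => g (ext x) with hG
  have hGm : Measurable G := hgm.comp hext
  have hGi : Integrable G (Measure.pi fun _ : S => μ) :=
    Integrable.of_bound hGm.aestronglyMeasurable 1
      (ae_of_all _ (fun x => by rw [Real.norm_eq_abs]; exact hgb _))
  obtain ⟨F, hF1, hF2, hF3, hF4⟩ := hGi.exists_hasCompactSupport_integral_sub_le (half_pos hε)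
  have hFb : ∃ C, 0 ≤ C ∧ ∀ x, |F x| ≤ C := by
    refine ⟨‖ofCompactSupport F hF3 hF1‖, norm_nonneg _, fun x => ?_⟩
    exact (ofCompactSupport F hF3 hF1).norm_coe_le_norm x
  refine ⟨S, F, hF1.uniformContinuous_of_continuous hF3, hFb, ?_⟩
  obtain ⟨C, hC0, hC⟩ := hFb
  have hrm : Measurable (S.restrict : (E → ℝ) → (S → ℝ)) := Finset.measurable_restrict S
  have hmap : (PJ μ).map S.restrict = Measure.pi fun _ : S => μ :=
    Measure.infinitePi_map_restrict (fun _ : E => μ)
  have hFm : Measurable F := hF3.measurable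
  have h1 : ∫ J, |g J - F (S.restrict J)| ∂(PJ μ) ≤ ε / 2 := by
    have h2 := integral_map (μ := PJ μ) hrm.aemeasurable (f := fun x => |G x - F x|)
      (hGm.sub hFm).abs.aestronglyMeasurable
    rw [hmap] at h2
    have h3 : ∫ J, |g J - F (S.restrict J)| ∂(PJ μ)
        = ∫ J, |G (S.restrict J) - F (S.restrict J)| ∂(PJ μ) := by
      congr 1
      funext J
      rw [hge J]
    rw [h3, ← h2]
    exact hF2
  have hFr : Measurable (fun J : E → ℝ => F (S.restrict J)) := hFm.comp hrm
  have hi1 : Integrable (fun J => |m J - g J|) (PJ μ) := by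
    apply Integrable.of_bound (C := 2) (hm.sub hgm).abs.aestronglyMeasurable
    apply ae_of_all
    intro J
    rw [Real.norm_eq_abs, abs_abs]
    calc |m J - g J| ≤ |m J| + |g J| := abs_sub _ _
      _ ≤ 2 := by linarith [hb J, hgb J]
  have hi2 : Integrable (fun J => |g J - F (S.restrict J)|) (PJ μ) := by
    apply Integrable.of_bound (C := 1 + C) (hgm.sub hFr).abs.aestronglyMeasurable
    apply ae_of_all
    intro J
    rw [Real.norm_eq_abs, abs_abs]
    calc |g J - F (S.restrict J)| ≤ |g J| + |F (S.restrict J)| := abs_sub _ _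
      _ ≤ 1 + C := by linarith [hgb J, hC (S.restrict J)]
  have hi3 : Integrable (fun J => |m J - F (S.restrict J)|) (PJ μ) := by
    apply Integrable.of_bound (C := 1 + C) (hm.sub hFr).abs.aestronglyMeasurable
    apply ae_of_all
    intro J
    rw [Real.norm_eq_abs, abs_abs]
    calc |m J - F (S.restrict J)| ≤ |m J| + |F (S.restrict J)| := abs_sub _ _
      _ ≤ 1 + C := by linarith [hb J, hC (S.restrict J)]
  calc ∫ J, |m J - F (S.restrict J)| ∂(PJ μ)
      ≤ ∫ J, (|m J - g J| + |g J - F (S.restrict J)|) ∂(PJ μ) := by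
        apply integral_mono hi3 (hi1.add hi2)
        intro J
        exact abs_sub_le _ _ _
    _ = ∫ J, |m J - g J| ∂(PJ μ) + ∫ J, |g J - F (S.restrict J)| ∂(PJ μ) :=
        integral_add hi1 hi2
    _ ≤ ε / 2 + ε / 2 := add_le_add hmg h1
    _ = ε := by ring

/-- The class of the measurable `C ⊆ E → ℝ` with `P (J ∈ C, J' ∉ C) + P (J ∉ C, J' ∈ C) → 0` is a
σ-algebra (for countable unions use that the laws of `J` and of `J' = cp (T k) J z` are both `PJ μ`),
and contains `{J | J e ≤ x}` because `μ` has no atoms; then approximate `m` uniformly by simple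
functions. -/
theorem tendsto_l1 (μ : Measure ℝ) [IsProbabilityMeasure μ] (hμ : ∀ x : ℝ, μ {x} = 0)
    (lam : ℕ → Measure ℝ) [∀ k, IsProbabilityMeasure (lam k)] (T : ℕ → ℝ × ℝ → ℝ)
    (hT : ∀ k, Measurable (T k)) (hlaw : ∀ k, (μ.prod (lam k)).map (T k) = μ)
    (hconv : ∀ ε > 0, Tendsto (fun k => (μ.prod (lam k)).real {p | ε < |T k p - p.1|}) atTop (𝓝 0))
    {m : (E → ℝ) → ℝ} (hm : Measurable m) (hb : ∀ J, |m J| ≤ 1) :
    Tendsto (fun k => ∫ p, |m (cp (T k) p.1 p.2) - m p.1| ∂((PJ μ).prod (PJ (lam k)))) atTop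
      (𝓝 0) := by
  classical
  have hcpm : ∀ k, Measurable (fun p : (E → ℝ) × (E → ℝ) => cp (T k) p.1 p.2) :=
    fun k => measurable_cp (hT k)
  have hcp : ∀ k, ((PJ μ).prod (PJ (lam k))).map
      (fun p : (E → ℝ) × (E → ℝ) => cp (T k) p.1 p.2) = PJ μ := by
    intro k
    have h1 : IsProbabilityMeasure ((μ.prod (lam k)).map (T k)) :=
      Measure.isProbabilityMeasure_map (hT k).aemeasurable
    have h2 := ((mp_cpl (μ.prod (lam k)) (hT k)).comp (mp_zp μ (lam k))).map_eq
    have h3 : PJ ((μ.prod (lam k)).map (T k)) = PJ μ := by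
      congr 1
      exact hlaw k
    rw [h3] at h2
    exact h2
  rw [Metric.tendsto_atTop]
  intro ε hε
  obtain ⟨S, F, hFu, ⟨C, hC0, hC⟩, hmF⟩ := exists_uc_approx μ hm hb (show 0 < ε / 8 by positivity)
  obtain ⟨δ, hδ, hFδ⟩ := Metric.uniformContinuous_iff.1 hFu (ε / 4) (by positivity)
  have hFm : Measurable F := hFu.continuous.measurable
  have hrm : Measurable (S.restrict : (E → ℝ) → (S → ℝ)) := Finset.measurable_restrict S
  have hFr : Measurable (fun J : E → ℝ => F (S.restrict J)) := hFm.comp hrm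
  set q : ℕ → ℝ := fun k => (μ.prod (lam k)).real {p | δ / 2 < |T k p - p.1|} with hq
  have hlim : Tendsto (fun k => 2 * C * ((S.card : ℝ) * q k)) atTop (𝓝 0) := by
    have := ((hconv (δ / 2) (half_pos hδ)).const_mul (S.card : ℝ)).const_mul (2 * C)
    simpa using this
  obtain ⟨k0, hk0⟩ := (Metric.tendsto_atTop.1 hlim) (ε / 4) (by positivity)
  refine ⟨k0, fun k hk => ?_⟩
  set P := (PJ μ).prod (PJ (lam k)) with hP
  have hmJ : Measurable (fun p : (E → ℝ) × (E → ℝ) => m p.1) := hm.comp measurable_fst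
  have hmJ' : Measurable (fun p : (E → ℝ) × (E → ℝ) => m (cp (T k) p.1 p.2)) :=
    hm.comp (hcpm k)
  have hFJ : Measurable (fun p : (E → ℝ) × (E → ℝ) => F (S.restrict p.1)) :=
    hFr.comp measurable_fst
  have hFJ' : Measurable (fun p : (E → ℝ) × (E → ℝ) => F (S.restrict (cp (T k) p.1 p.2))) :=
    hFr.comp (hcpm k)
  have hint : ∀ {f : (E → ℝ) × (E → ℝ) → ℝ} (K : ℝ), Measurable f → (∀ p, |f p| ≤ K) →
      Integrable f P := fun K hf hK =>
    Integrable.of_bound hf.aestronglyMeasurable K (ae_of_all _ (fun p => by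
      rw [Real.norm_eq_abs]; exact hK p))
  have a1 : ∫ p, |m (cp (T k) p.1 p.2) - F (S.restrict (cp (T k) p.1 p.2))| ∂P ≤ ε / 8 := by
    have h2 := integral_map (μ := P) (hcpm k).aemeasurable
      (f := fun J => |m J - F (S.restrict J)|) (hm.sub hFr).abs.aestronglyMeasurable
    rw [hcp k] at h2
    rw [← h2]
    exact hmF
  have a2 : ∫ p, |m p.1 - F (S.restrict p.1)| ∂P ≤ ε / 8 := by
    have hfst : P.map Prod.fst = PJ μ := by
      rw [hP, Measure.map_fst_prod]; simp
    have h2 := integral_map (μ := P) measurable_fst.aemeasurable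
      (f := fun J => |m J - F (S.restrict J)|) (hm.sub hFr).abs.aestronglyMeasurable
    rw [hfst] at h2
    rw [← h2]
    exact hmF
  set bad : E → Set ((E → ℝ) × (E → ℝ)) :=
    fun e => {p | δ / 2 < |T k (p.1 e, p.2 e) - p.1 e|} with hbad
  have hbm : ∀ e, MeasurableSet (bad e) := by
    intro e
    have h1 : Measurable (fun p : (E → ℝ) × (E → ℝ) => (p.1 e, p.2 e)) :=
      ((measurable_pi_apply e).comp measurable_fst).prodMk
        ((measurable_pi_apply e).comp measurable_snd)
    exact measurableSet_lt measurable_const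
      ((((hT k).comp h1).sub ((measurable_pi_apply e).comp measurable_fst)).abs)
  have hbP : ∀ e, P.real (bad e) = q k := by
    intro e
    have h1 : MeasurePreserving (Prod.map (fun J : E → ℝ => J e) (fun z : E → ℝ => z e))
        P (μ.prod (lam k)) :=
      (measurePreserving_eval_infinitePi (fun _ : E => μ) e).prod
        (measurePreserving_eval_infinitePi (fun _ : E => lam k) e)
    have hms : MeasurableSet {p : ℝ × ℝ | δ / 2 < |T k p - p.1|} :=
      measurableSet_lt measurable_const (((hT k).sub measurable_fst).abs)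
    exact h1.measureReal_preimage hms.nullMeasurableSet
  have a3 : ∫ p, |F (S.restrict (cp (T k) p.1 p.2)) - F (S.restrict p.1)| ∂P
      ≤ ε / 4 + 2 * C * ((S.card : ℝ) * q k) := by
    have hbi : ∀ e, Integrable (fun p => (bad e).indicator (1 : (E → ℝ) × (E → ℝ) → ℝ) p) P :=
      fun e => (integrable_const (1 : ℝ)).indicator (hbm e)
    have hsi : Integrable (fun p => ∑ e ∈ S, (bad e).indicator (1 : (E → ℝ) × (E → ℝ) → ℝ) p) P :=
      integrable_finsetSum _ (fun e _ => hbi e)
    have h1 : ∫ p, |F (S.restrict (cp (T k) p.1 p.2)) - F (S.restrict p.1)| ∂P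
        ≤ ∫ p, (ε / 4 + 2 * C * ∑ e ∈ S, (bad e).indicator (1 : (E → ℝ) × (E → ℝ) → ℝ) p) ∂P := by
      apply integral_mono (hint (2 * C) (hFJ'.sub hFJ).abs (fun p => by
        rw [abs_abs]
        calc |F (S.restrict (cp (T k) p.1 p.2)) - F (S.restrict p.1)|
            ≤ |F (S.restrict (cp (T k) p.1 p.2))| + |F (S.restrict p.1)| := abs_sub _ _
          _ ≤ 2 * C := by linarith [hC (S.restrict (cp (T k) p.1 p.2)), hC (S.restrict p.1)]))
      · exact (integrable_const _).add (hsi.const_mul _)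
      · intro p
        show |F (S.restrict (cp (T k) p.1 p.2)) - F (S.restrict p.1)|
          ≤ ε / 4 + 2 * C * ∑ e ∈ S, (bad e).indicator (1 : (E → ℝ) × (E → ℝ) → ℝ) p
        by_cases h : ∃ e ∈ S, p ∈ bad e
        · obtain ⟨e, he, hpe⟩ := h
          have h2 : 1 ≤ ∑ e ∈ S, (bad e).indicator (1 : (E → ℝ) × (E → ℝ) → ℝ) p := by
            have h3 := Finset.single_le_sum
              (f := fun e => (bad e).indicator (1 : (E → ℝ) × (E → ℝ) → ℝ) p)
              (fun e _ => ind_nonneg (bad e) p) he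
            have h4 : (bad e).indicator (1 : (E → ℝ) × (E → ℝ) → ℝ) p = 1 := by
              rw [indicator_of_mem hpe]; rfl
            linarith
          calc |F (S.restrict (cp (T k) p.1 p.2)) - F (S.restrict p.1)|
              ≤ |F (S.restrict (cp (T k) p.1 p.2))| + |F (S.restrict p.1)| := abs_sub _ _
            _ ≤ 2 * C := by linarith [hC (S.restrict (cp (T k) p.1 p.2)), hC (S.restrict p.1)]
            _ = 2 * C * 1 := by ring
            _ ≤ 2 * C * ∑ e ∈ S, (bad e).indicator (1 : (E → ℝ) × (E → ℝ) → ℝ) p := by gcongr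
            _ ≤ _ := by linarith
        · push Not at h
          have h2 : dist (S.restrict (cp (T k) p.1 p.2)) (S.restrict p.1) < δ := by
            rw [dist_pi_lt_iff hδ]
            intro e
            have h3 : ¬ (δ / 2 < |T k (p.1 e, p.2 e) - p.1 e|) := h e e.2
            rw [Real.dist_eq]
            calc |S.restrict (cp (T k) p.1 p.2) e - S.restrict p.1 e|
                = |T k (p.1 e, p.2 e) - p.1 e| := rfl
              _ ≤ δ / 2 := not_lt.1 h3
              _ < δ := half_lt_self hδ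
          have h4 := hFδ h2
          rw [Real.dist_eq] at h4
          have h5 : 0 ≤ ∑ e ∈ S, (bad e).indicator (1 : (E → ℝ) × (E → ℝ) → ℝ) p :=
            Finset.sum_nonneg (fun e _ => ind_nonneg _ _)
          have h6 : 0 ≤ 2 * C * ∑ e ∈ S, (bad e).indicator (1 : (E → ℝ) × (E → ℝ) → ℝ) p := by
            positivity
          linarith
    have h2 : ∫ p, (ε / 4 + 2 * C * ∑ e ∈ S, (bad e).indicator (1 : (E → ℝ) × (E → ℝ) → ℝ) p) ∂P
        = ε / 4 + 2 * C * ((S.card : ℝ) * q k) := by
      rw [integral_add (integrable_const _) (hsi.const_mul _), integral_const_mul,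
        integral_finsetSum _ (fun e _ => hbi e)]
      simp_rw [integral_indicator_one (hbm _), hbP]
      simp
    rw [h2] at h1
    exact h1
  have a4 : 2 * C * ((S.card : ℝ) * q k) < ε / 4 := by
    have := hk0 k hk
    rw [Real.dist_eq, sub_zero] at this
    exact (le_abs_self _).trans_lt this
  have hi1 := hint (f := fun p => |m (cp (T k) p.1 p.2) - F (S.restrict (cp (T k) p.1 p.2))|)
    (1 + C) (hmJ'.sub hFJ').abs (fun p => by
      rw [abs_abs]
      calc |m (cp (T k) p.1 p.2) - F (S.restrict (cp (T k) p.1 p.2))|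
          ≤ |m (cp (T k) p.1 p.2)| + |F (S.restrict (cp (T k) p.1 p.2))| := abs_sub _ _
        _ ≤ 1 + C := by linarith [hb (cp (T k) p.1 p.2), hC (S.restrict (cp (T k) p.1 p.2))])
  have hi2 := hint (f := fun p => |m p.1 - F (S.restrict p.1)|)
    (1 + C) (hmJ.sub hFJ).abs (fun p => by
      rw [abs_abs]
      calc |m p.1 - F (S.restrict p.1)|
          ≤ |m p.1| + |F (S.restrict p.1)| := abs_sub _ _
        _ ≤ 1 + C := by linarith [hb p.1, hC (S.restrict p.1)])
  have hi3 := hint (f := fun p => |F (S.restrict (cp (T k) p.1 p.2)) - F (S.restrict p.1)|)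
    (2 * C) (hFJ'.sub hFJ).abs (fun p => by
      rw [abs_abs]
      calc |F (S.restrict (cp (T k) p.1 p.2)) - F (S.restrict p.1)|
          ≤ |F (S.restrict (cp (T k) p.1 p.2))| + |F (S.restrict p.1)| := abs_sub _ _
        _ ≤ 2 * C := by linarith [hC (S.restrict (cp (T k) p.1 p.2)), hC (S.restrict p.1)])
  have hi4 := hint (f := fun p => |m (cp (T k) p.1 p.2) - m p.1|)
    2 (hmJ'.sub hmJ).abs (fun p => by
      rw [abs_abs]
      calc |m (cp (T k) p.1 p.2) - m p.1|
          ≤ |m (cp (T k) p.1 p.2)| + |m p.1| := abs_sub _ _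
        _ ≤ 2 := by linarith [hb (cp (T k) p.1 p.2), hb p.1])
  have hfin : ∫ p, |m (cp (T k) p.1 p.2) - m p.1| ∂P
      ≤ ∫ p, |m (cp (T k) p.1 p.2) - F (S.restrict (cp (T k) p.1 p.2))| ∂P
        + ∫ p, |F (S.restrict (cp (T k) p.1 p.2)) - F (S.restrict p.1)| ∂P
        + ∫ p, |m p.1 - F (S.restrict p.1)| ∂P := by
    calc ∫ p, |m (cp (T k) p.1 p.2) - m p.1| ∂P
        ≤ ∫ p, ((|m (cp (T k) p.1 p.2) - F (S.restrict (cp (T k) p.1 p.2))|
          + |F (S.restrict (cp (T k) p.1 p.2)) - F (S.restrict p.1)|)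
          + |m p.1 - F (S.restrict p.1)|) ∂P := by
          apply integral_mono hi4 ((hi1.add hi3).add hi2)
          intro p
          show |m (cp (T k) p.1 p.2) - m p.1| ≤
            (|m (cp (T k) p.1 p.2) - F (S.restrict (cp (T k) p.1 p.2))|
            + |F (S.restrict (cp (T k) p.1 p.2)) - F (S.restrict p.1)|)
            + |m p.1 - F (S.restrict p.1)|
          have h1 := abs_sub_le (m (cp (T k) p.1 p.2)) (F (S.restrict (cp (T k) p.1 p.2))) (m p.1)
          have h2 := abs_sub_le (F (S.restrict (cp (T k) p.1 p.2))) (F (S.restrict p.1)) (m p.1)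
          have h3 := abs_sub_comm (F (S.restrict p.1)) (m p.1)
          linarith
      _ = ∫ p, (|m (cp (T k) p.1 p.2) - F (S.restrict (cp (T k) p.1 p.2))|
          + |F (S.restrict (cp (T k) p.1 p.2)) - F (S.restrict p.1)|) ∂P
          + ∫ p, |m p.1 - F (S.restrict p.1)| ∂P := integral_add (hi1.add hi3) hi2
      _ = _ := congrArg (· + ∫ p, |m p.1 - F (S.restrict p.1)| ∂P) (integral_add hi1 hi3)
  rw [Real.dist_eq, sub_zero, abs_of_nonneg (integral_nonneg (fun p => abs_nonneg _))]
  linarith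

end Pool.H66.CH
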