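import Pool.Agent.Helper66.CH.Basic
import Pool.Agent.Helper66.CH.ChaosDefs
import Pool.Agent.Helper66.EAM.Res4
import Pool.Agent.Helper66.EAM.Res3

set_option autoImplicit false

/-! Imports for the chaos theorem; the definitions are in ChaosDefs.lean. -/
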