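import Pool.Agent.Helper66.CH.Basic
import Pool.Agent.Helper66.EAM.Wgs

set_option autoImplicit false
set_option linter.unusedSectionVars false

/-! MODULE M3. Enumeration of the ground states of a box by their boundary conditions. -/

namespace Pool.H66.CH

open MeasureTheory Set ProbabilityTheory Filter Topology Pool.H66.EAM
open scoped ENNReal

lemma clo_box (N : ℕ) : clo (box N) ⊆ box (N + 1) := by
  intro x hx
  unfold clo at hx
  rw [Finset.mem_union, Finset.mem_image, Finset.mem_image] at hx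
  have key : ∀ e : E, e ∈ nbhd (box N) → e.1 ∈ box (N + 1) ∧ tip e ∈ box (N + 1) := by
    intro e he
    rw [mem_nbhd] at he
    obtain ⟨z, i⟩ := e
    have hs : ∀ j : Fin 2, (Pi.single i (1 : ℤ) : Fin 2 → ℤ) j = 0
        ∨ (Pi.single i (1 : ℤ) : Fin 2 → ℤ) j = 1 := by
      intro j
      by_cases hij : j = i
      · subst hij; right; simp
      · left; simp [hij]
    rcases he with he | he
    · rw [mem_box] at he
      constructor
      · rw [mem_box]
        intro j
        have h1 : -(N : ℤ) ≤ z j ∧ z j ≤ N := he j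
        show -((N + 1 : ℕ) : ℤ) ≤ z j ∧ z j ≤ ((N + 1 : ℕ) : ℤ)
        push_cast
        omega
      · rw [mem_box]
        intro j
        have h1 := he j
        have h2 := hs j
        show -((N + 1 : ℕ) : ℤ) ≤ z j + (Pi.single i (1 : ℤ) : Fin 2 → ℤ) j ∧
          z j + (Pi.single i (1 : ℤ) : Fin 2 → ℤ) j ≤ ((N + 1 : ℕ) : ℤ)
        have h1' : -(N : ℤ) ≤ z j ∧ z j ≤ N := h1
        push_cast
        rcases h2 with h2 | h2 <;> rw [h2] <;> omega
    · rw [mem_box] at he
      have he' : ∀ j, -(N : ℤ) ≤ z j + (Pi.single i (1 : ℤ) : Fin 2 → ℤ) j ∧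
          z j + (Pi.single i (1 : ℤ) : Fin 2 → ℤ) j ≤ N := he
      constructor
      · rw [mem_box]
        intro j
        have h1 := he' j
        have h2 := hs j
        show -((N + 1 : ℕ) : ℤ) ≤ z j ∧ z j ≤ ((N + 1 : ℕ) : ℤ)
        push_cast
        rcases h2 with h2 | h2 <;> rw [h2] at h1 <;> omega
      · rw [mem_box]
        intro j
        show -((N + 1 : ℕ) : ℤ) ≤ z j + (Pi.single i (1 : ℤ) : Fin 2 → ℤ) j ∧
          z j + (Pi.single i (1 : ℤ) : Fin 2 → ℤ) j ≤ ((N + 1 : ℕ) : ℤ)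
        have h1 := he' j
        push_cast
        omega
  rcases hx with ⟨e, he, rfl⟩ | ⟨e, he, rfl⟩
  · exact (key e he).1
  · exact (key e he).2

lemma prop_aux (a b c : Prop) (h : a → ¬ c) :
    (a ∨ (b ∧ ¬ c ∨ c ∧ ¬ b) ↔ (a ∨ b) ∧ ¬ c ∨ c ∧ ¬ (a ∨ b)) := by
  tauto

/-- Existence of ground states with given boundary condition. -/
lemma exists_LG_bc (B s : Finset V) (hs : Disjoint s B) (J : E → ℝ) :
    ∃ t ⊆ B, LG B J (pat (s ∪ t)) := by
  classical
  obtain ⟨t, ht, hmax⟩ := Finset.exists_max_image B.powerset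
    (fun t => ∑ e ∈ nbhd B, J e * bond (pat (s ∪ t)) e) ⟨∅, Finset.empty_mem_powerset B⟩
  rw [Finset.mem_powerset] at ht
  refine ⟨t, ht, ?_⟩
  intro D hD
  have h1 : symmDiff t D ∈ B.powerset := by
    rw [Finset.mem_powerset]
    intro x hx
    rw [Finset.mem_symmDiff] at hx
    rcases hx with h | h
    · exact ht h.1
    · exact hD h.1
  have hsd : s ∪ symmDiff t D = symmDiff (s ∪ t) D := by
    ext x
    have hx1 : x ∈ s → x ∉ D := fun h1 h2 => Finset.disjoint_left.1 hs h1 (hD h2)
    simp only [Finset.mem_union, Finset.mem_symmDiff]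
    exact prop_aux _ _ _ hx1
  have h2 := hmax _ h1
  rw [hsd, ← flip_pat] at h2
  have h3 : ∑ e ∈ nbhd B, J e * bond (pat (s ∪ t)) e
      - ∑ e ∈ nbhd B, J e * bond (flip D (pat (s ∪ t))) e
      = 2 * ∑ e ∈ cut D, J e * bond (pat (s ∪ t)) e := by
    rw [← Finset.sum_sub_distrib, Finset.mul_sum]
    rw [← Finset.sum_subset ((cut_subset_nbhd D).trans (nbhd_mono hD))]
    · apply Finset.sum_congr rfl
      intro e he
      rw [bond_flip, if_pos he]; ring
    · intro e _ he
      rw [bond_flip, if_neg he]; ring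
  linarith

/-- The couplings are such that no contour has energy zero. -/
def Gen (J : E → ℝ) : Prop :=
  ∀ D s : Finset V, D.Nonempty → ∑ e ∈ cut D, J e * bond (pat s) e ≠ 0

lemma ae_gen (μ : Measure ℝ) [IsProbabilityMeasure μ] (hμ : ∀ x : ℝ, μ {x} = 0) :
    ∀ᵐ J ∂(PJ μ), Gen J := by
  unfold Gen
  rw [ae_all_iff]
  intro D
  rw [ae_all_iff]
  intro s
  by_cases hD : D.Nonempty
  · filter_upwards [generic1 (ν := μ) (q := id) (fun x => hμ x) measurable_id hD s] with J hJ _
    exact hJ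
  · exact ae_of_all _ (fun _ h => absurd h hD)

lemma LG_unique {J : E → ℝ} (hJ : Gen J) {B : Finset V} {σ τ : V → ℝ} (hσ : IsSpin σ)
    (hτ : IsSpin τ) (hσL : LG B J σ) (hτL : LG B J τ) (h : ∀ x ∈ clo B, x ∉ B → σ x = τ x) :
    ∀ x ∈ B, σ x = τ x := by
  classical
  by_contra hcon
  push Not at hcon
  obtain ⟨x0, hx0, hne⟩ := hcon
  set D : Finset V := B.filter (fun x => σ x ≠ τ x) with hD
  have memD : ∀ x, x ∈ D ↔ x ∈ B ∧ σ x ≠ τ x := fun x => by rw [hD, Finset.mem_filter]
  have hDB : D ⊆ B := Finset.filter_subset _ _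
  have hDne : D.Nonempty := ⟨x0, (memD _).2 ⟨hx0, hne⟩⟩
  have hclo : ∀ x ∈ clo B, x ∉ D → σ x = τ x := by
    intro x hx hxD
    by_cases hxB : x ∈ B
    · by_contra hc
      exact hxD ((memD x).2 ⟨hxB, hc⟩)
    · exact h x hx hxB
  have hopp : ∀ x, x ∈ D → τ x = - σ x := by
    intro x hx
    have hx' := ((memD x).1 hx).2
    rcases hσ x with a | a <;> rcases hτ x with b | b
    · exact absurd (a.trans b.symm) hx'
    · rw [a, b]
    · rw [a, b]; norm_num
    · exact absurd (a.trans b.symm) hx'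
  have hbond : ∀ e ∈ cut D, bond τ e = - bond σ e := by
    intro e he
    have hnb : e ∈ nbhd B := nbhd_mono hDB (cut_subset_nbhd D he)
    rw [mem_cut] at he
    show τ e.1 * τ (tip e) = - (σ e.1 * σ (tip e))
    by_cases h1 : e.1 ∈ D
    · have h2 : tip e ∉ D := fun h2 => he ⟨fun _ => h2, fun _ => h1⟩
      rw [hopp _ h1, ← hclo _ (clo_tip hnb) h2]; ring
    · have h2 : tip e ∈ D := by
        by_contra h2
        exact he ⟨fun h3 => absurd h3 h1, fun h3 => absurd h3 h2⟩
      rw [hopp _ h2, ← hclo _ (clo_fst hnb) h1]; ring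
  have e1 := hσL D hDB
  have e2 := hτL D hDB
  have e3 : ∑ e ∈ cut D, J e * bond τ e = - ∑ e ∈ cut D, J e * bond σ e := by
    rw [← Finset.sum_neg_distrib]
    apply Finset.sum_congr rfl
    intro e he
    rw [hbond e he]; ring
  obtain ⟨s, _, hs⟩ := exists_pat hσ (clo B)
  have e4 : ∑ e ∈ cut D, J e * bond σ e = ∑ e ∈ cut D, J e * bond (pat s) e := by
    apply Finset.sum_congr rfl
    intro e he
    have hnb : e ∈ nbhd B := nbhd_mono hDB (cut_subset_nbhd D he)
    have : bond σ e = bond (pat s) e := by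
      show σ e.1 * σ (tip e) = pat s e.1 * pat s (tip e)
      rw [hs _ (clo_fst hnb), hs _ (clo_tip hnb)]
    rw [this]
  apply hJ D s hDne
  rw [← e4]
  linarith

/-- Measurable ground states with given boundary condition. -/
lemma exists_sel_bc (B W s : Finset V) (hs : Disjoint s B) :
    ∃ g : (E → ℝ) → V → ℝ, Measurable g ∧ (∀ J, IsSpin (g J)) ∧ (∀ J, LG B J (g J)) ∧
      ∀ J, ∀ x ∈ W, x ∉ B → (g J x = -1 ↔ x ∈ s) := by
  classical
  obtain ⟨sel, h1, h2⟩ := exists_measurable_selection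
    (S := fun r : Finset V => {J : E → ℝ | LG B J (pat r)} ∩
      {_J : E → ℝ | ∀ x ∈ W, x ∉ B → (x ∈ r ↔ x ∈ s)})
    (fun r => (measurableSet_LG B (pat r)).inter (MeasurableSet.const _)) (fun J => by
      obtain ⟨t, ht, hLG⟩ := exists_LG_bc B s hs J
      refine ⟨s ∪ t, hLG, ?_⟩
      intro x _ hxB
      rw [Finset.mem_union]
      exact ⟨fun h => h.resolve_right (fun h' => hxB (ht h')), Or.inl⟩)
  refine ⟨fun J => pat (sel J), ?_, fun J => pat_spin _, fun J => (h1 J).1, ?_⟩
  · exact measurable_of_sel h2 (fun s _ => pat s) (fun s => measurable_const)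
  · intro J x hx hxB
    rw [← (h1 J).2 x hx hxB]
    unfold pat
    by_cases hxs : x ∈ sel J
    · simp [hxs]
    · simp only [hxs, if_false, iff_false]
      norm_num

/-- At most `2 ^ |clo B \ B|` boundary conditions, `B = box (2 N + 1)`; for almost every `J` the
ground state with a given boundary condition is unique inside `B` (`generic1` in EAM/Wgs.lean), and
`exists_max` / `exists_measurable_selection` / `exists_LG` (EAM/Pat.lean) give measurable choices. -/
theorem exists_enum (μ : Measure ℝ) [IsProbabilityMeasure μ] (hμ : ∀ x : ℝ, μ {x} = 0) (N : ℕ) :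
    ∃ (n : ℕ) (g : Fin n → (E → ℝ) → V → ℝ), (n : ℝ) ≤ Real.exp (16 * ((N : ℝ) + 1)) ∧
      (∀ s, Measurable (g s)) ∧ (∀ s J, IsSpin (g s J)) ∧
      ∀ᵐ J ∂(PJ μ), ∀ σ : V → ℝ, IsSpin σ → LG (box (2 * N + 1)) J σ →
        ∃ s, ∀ z ∈ box N, ∀ i : Fin 2, bond σ (z, i) = bond (g s J) (z, i) := by
  classical
  set B : Finset V := box (2 * N + 1) with hB
  set W : Finset V := box (2 * N + 2) \ B with hW
  have hdisj : ∀ s : Finset V, Disjoint (W ∩ s) B := by
    intro s
    rw [Finset.disjoint_left]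
    intro x hx hxB
    rw [Finset.mem_inter, hW, Finset.mem_sdiff] at hx
    exact hx.1.2 hxB
  choose g0 hg1 hg2 hg3 hg4 using fun s : Finset V => exists_sel_bc B W (W ∩ s) (hdisj s)
  let enumW := (W.powerset).equivFin
  refine ⟨W.powerset.card, fun k => g0 (enumW.symm k).1, ?_, fun k => hg1 _, fun k => hg2 _, ?_⟩
  · have hc : W.card = 16 * N + 16 := by
      rw [hW, hB, Finset.card_sdiff_of_subset (box_mono (by omega)), card_box, card_box]
      have : (2 * (2 * N + 2) + 1) ^ 2 = (2 * (2 * N + 1) + 1) ^ 2 + (16 * N + 16) := by ring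
      rw [this]
      omega
    rw [Finset.card_powerset, hc]
    push_cast
    have h1 : Real.exp (16 * ((N : ℝ) + 1)) = (Real.exp 1) ^ (16 * N + 16) := by
      rw [← Real.exp_nat_mul]
      congr 1
      push_cast
      ring
    rw [h1]
    apply pow_le_pow_left₀ (by norm_num)
    have := Real.exp_one_gt_d9
    linarith
  · filter_upwards [ae_gen μ hμ] with J hJ σ hσ hLG
    set s : Finset V := W.filter (fun x => σ x = -1) with hs
    have hsW : s ∈ W.powerset := Finset.mem_powerset.2 (Finset.filter_subset _ _)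
    refine ⟨enumW ⟨s, hsW⟩, ?_⟩
    have heq : g0 (enumW.symm (enumW ⟨s, hsW⟩)).1 J = g0 s J := by
      rw [Equiv.symm_apply_apply]
    intro z hz i
    show bond σ (z, i) = bond (g0 (enumW.symm (enumW ⟨s, hsW⟩)).1 J) (z, i)
    rw [heq]
    have hagree : ∀ x ∈ B, σ x = g0 s J x := by
      apply LG_unique hJ hσ (hg2 s J) hLG (hg3 s J)
      intro x hx hxB
      have hxW : x ∈ W := by
        rw [hW, Finset.mem_sdiff]
        exact ⟨clo_box _ hx, hxB⟩
      have h1 := hg4 s J x hxW hxB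
      have h2 : x ∈ W ∩ s ↔ σ x = -1 := by
        rw [Finset.mem_inter, hs, Finset.mem_filter]
        exact ⟨fun h => h.2.2, fun h => ⟨hxW, hxW, h⟩⟩
      rw [h2] at h1
      rcases hσ x with a | a
      · rcases hg2 s J x with b | b
        · rw [a, b]
        · rw [h1.1 b] at a
          norm_num at a
      · rw [a, h1.2 a]
    have hz1 : z ∈ B := by
      rw [hB]
      exact box_mono (by omega) hz
    have hz2 : tip (z, i) ∈ B := by
      have : tip (z, i) ∈ clo (box N) := clo_tip (by rw [mem_nbhd]; exact Or.inl hz)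
      rw [hB]
      exact box_mono (by omega) (clo_box N this)
    show σ z * σ (tip (z, i)) = g0 s J z * g0 s J (tip (z, i))
    rw [hagree _ hz1, hagree _ hz2]

end Pool.H66.CH
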