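import Pool.Agent.Helper66.CH.Defs2

set_option autoImplicit false
set_option linter.unusedSectionVars false

/-! MODULE M8. Every law without atoms has perturbations close to the identity. -/

namespace Pool.H66.CH

open MeasureTheory Set ProbabilityTheory Filter Topology Pool.H66.EAM unitInterval
open scoped ENNReal

/-- The cell of `x` in the partition of the line into intervals of length `1 / (k + 1)`. -/
noncomputable def cellIx (k : ℕ) (x : ℝ) : ℤ := ⌊((k : ℝ) + 1) * x⌋

lemma measurable_cellIx (k : ℕ) : Measurable (cellIx k) :=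
  Int.measurable_floor.comp (measurable_id.const_mul _)

lemma cellIx_close {k : ℕ} {x y : ℝ} (h : cellIx k x = cellIx k y) :
    |x - y| ≤ 1 / ((k : ℝ) + 1) := by
  have hk : (0 : ℝ) < (k : ℝ) + 1 := by positivity
  have h1 : |((k : ℝ) + 1) * x - ((k : ℝ) + 1) * y| < 1 := Int.abs_sub_lt_one_of_floor_eq_floor h
  rw [← mul_sub, abs_mul, abs_of_pos hk] at h1
  rw [le_div_iff₀ hk]
  linarith

/-- The law conditioned on a cell. -/
noncomputable def mcell (μ : Measure ℝ) (k : ℕ) (n : ℤ) : Measure ℝ := by
  classical exact if μ (cellIx k ⁻¹' {n}) = 0 then μ else cond μ (cellIx k ⁻¹' {n})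

lemma mcell_prob (μ : Measure ℝ) [IsProbabilityMeasure μ] (k : ℕ) (n : ℤ) :
    IsProbabilityMeasure (mcell μ k n) := by
  unfold mcell
  split_ifs with h
  · infer_instance
  · exact cond_isProbabilityMeasure h

lemma mcell_singleton {μ : Measure ℝ} (hμ : ∀ x : ℝ, μ {x} = 0) (k : ℕ) (n : ℤ) (x : ℝ) :
    mcell μ k n {x} = 0 := by
  unfold mcell
  split_ifs with h
  · exact hμ x
  · rw [cond_apply (measurable_cellIx k (measurableSet_singleton n))]
    have : μ (cellIx k ⁻¹' {n} ∩ {x}) = 0 := measure_mono_null inter_subset_right (hμ x)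
    rw [this, mul_zero]

lemma mcell_mul (μ : Measure ℝ) [IsProbabilityMeasure μ] (k : ℕ) (n : ℤ) (s : Set ℝ) :
    mcell μ k n s * μ (cellIx k ⁻¹' {n}) = μ (cellIx k ⁻¹' {n} ∩ s) := by
  unfold mcell
  split_ifs with h
  · rw [h, mul_zero]
    exact (measure_mono_null inter_subset_left h).symm
  · rw [cond_apply (measurable_cellIx k (measurableSet_singleton n)), mul_comm, ← mul_assoc,
      ENNReal.mul_inv_cancel h (measure_ne_top _ _), one_mul]

/-- The kernel: resample inside the cell. -/
noncomputable def kcell (μ : Measure ℝ) (k : ℕ) : Kernel ℝ ℝ :=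
  (Kernel.ofFunOfCountable (mcell μ k)).comap (cellIx k) (measurable_cellIx k)

lemma kcell_apply (μ : Measure ℝ) (k : ℕ) (j : ℝ) : kcell μ k j = mcell μ k (cellIx k j) := rfl

lemma kcell_markov (μ : Measure ℝ) [IsProbabilityMeasure μ] (k : ℕ) :
    IsMarkovKernel (kcell μ k) := ⟨fun j => by rw [kcell_apply]; exact mcell_prob μ k _⟩

/-- The uniform law on the unit interval, as a law on the line. -/
noncomputable def unif : Measure ℝ := (volume : Measure I).map Subtype.val

lemma unif_prob : IsProbabilityMeasure unif :=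
  Measure.isProbabilityMeasure_map measurable_subtype_coe.aemeasurable

lemma sum_cells (μ : Measure ℝ) [IsProbabilityMeasure μ] (k : ℕ) {s : Set ℝ}
    (hs : MeasurableSet s) : ∑' n : ℤ, μ (cellIx k ⁻¹' {n} ∩ s) = μ s := by
  have hm : ∀ n : ℤ, MeasurableSet (cellIx k ⁻¹' {n} ∩ s) := fun n =>
    (measurable_cellIx k (measurableSet_singleton n)).inter hs
  have hd : Pairwise (Function.onFun Disjoint fun n : ℤ => cellIx k ⁻¹' {n} ∩ s) := by
    intro a b hab
    rw [Function.onFun, Set.disjoint_left]
    rintro x ⟨h1, _⟩ ⟨h2, _⟩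
    exact hab (h1.symm.trans h2)
  rw [← measure_iUnion hd hm]
  congr 1
  ext x
  simp

/-- For instance `T (j, z) = quantile (frac (F j + z))`, `F` the distribution function of `μ`, and
`z` uniform on `[0, 1 / (k + 1)]`. (Here: resample `j` inside a small interval.) -/
theorem exists_pert (μ : Measure ℝ) [IsProbabilityMeasure μ] (hμ : ∀ x : ℝ, μ {x} = 0) :
    ∃ (lam : ℕ → Measure ℝ) (T : ℕ → ℝ × ℝ → ℝ), (∀ k, IsProbabilityMeasure (lam k)) ∧
      (∀ k, IsPert μ (lam k) (T k)) ∧
      ∀ ε > 0, Tendsto (fun k => (μ.prod (lam k)).real {p | ε < |T k p - p.1|}) atTop (𝓝 0) := by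
  have hrep : ∀ k : ℕ, ∃ (f : ℝ → I → ℝ), Measurable (Function.uncurry f) ∧
      ∀ a, (volume : Measure I).map (f a) = kcell μ k a := by
    intro k
    have := kcell_markov μ k
    exact Kernel.exists_measurable_map_eq_unitInterval (kcell μ k)
  choose f hf hfk using hrep
  have hup := unif_prob
  set T : ℕ → ℝ × ℝ → ℝ := fun k p => f k p.1 (projIcc 0 1 zero_le_one p.2) with hT
  have hTm : ∀ k, Measurable (T k) := by
    intro k
    have h1 : Measurable (fun p : ℝ × ℝ => (p.1, (projIcc 0 1 zero_le_one p.2 : I))) :=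
      measurable_fst.prodMk (continuous_projIcc.measurable.comp measurable_snd)
    exact (hf k).comp h1
  have hTl : ∀ (k : ℕ) (j : ℝ) (s : Set ℝ), MeasurableSet s →
      unif {z | T k (j, z) ∈ s} = mcell μ k (cellIx k j) s := by
    intro k j s hs
    have hfj : Measurable (f k j) := (hf k).of_uncurry_left
    have hms : MeasurableSet {z | T k (j, z) ∈ s} :=
      ((hTm k).comp (measurable_const.prodMk measurable_id)) hs
    rw [← kcell_apply, ← hfk k j, Measure.map_apply hfj hs]
    unfold unif
    rw [Measure.map_apply measurable_subtype_coe hms]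
    congr 1
    ext z
    show f k j (projIcc 0 1 zero_le_one (z : ℝ)) ∈ s ↔ f k j z ∈ s
    rw [projIcc_val]
  refine ⟨fun _ => unif, T, fun _ => hup, fun k => ⟨hTm k, ?_, ?_⟩, ?_⟩
  · ext s hs
    rw [Measure.map_apply (hTm k) hs, Measure.prod_apply ((hTm k) hs)]
    have h1 : ∀ j, unif (Prod.mk j ⁻¹' (T k ⁻¹' s)) = mcell μ k (cellIx k j) s :=
      fun j => hTl k j s hs
    simp_rw [h1]
    have h2 := lintegral_map (μ := μ) (f := fun n : ℤ => mcell μ k n s)
      (measurable_of_countable _) (measurable_cellIx k)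
    rw [← h2, lintegral_countable']
    calc ∑' n : ℤ, mcell μ k n s * (μ.map (cellIx k)) {n}
        = ∑' n : ℤ, μ (cellIx k ⁻¹' {n} ∩ s) := by
          congr 1
          funext n
          rw [Measure.map_apply (measurable_cellIx k) (measurableSet_singleton n), mcell_mul]
      _ = μ s := sum_cells μ k hs
  · apply ae_of_all
    intro j x
    have h1 := hTl k j {x} (measurableSet_singleton x)
    rw [mcell_singleton hμ] at h1
    exact h1
  · intro ε hε
    obtain ⟨k0, hk0⟩ := exists_nat_one_div_lt hε
    apply tendsto_const_nhds.congr'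
    filter_upwards [eventually_ge_atTop k0] with k hk
    have hke : 1 / ((k : ℝ) + 1) ≤ ε := by
      refine le_trans ?_ hk0.le
      apply one_div_le_one_div_of_le (by positivity)
      have : (k0 : ℝ) ≤ k := by exact_mod_cast hk
      linarith
    symm
    have hms : MeasurableSet {p : ℝ × ℝ | ε < |T k p - p.1|} :=
      measurableSet_lt measurable_const (((hTm k).sub measurable_fst).abs)
    rw [measureReal_def, Measure.prod_apply hms]
    have hnull : μ {j | μ (cellIx k ⁻¹' {cellIx k j}) = 0} = 0 := by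
      have h1 : {j | μ (cellIx k ⁻¹' {cellIx k j}) = 0}
          ⊆ ⋃ n ∈ {n : ℤ | μ (cellIx k ⁻¹' {n}) = 0}, cellIx k ⁻¹' {n} := by
        intro j hj
        rw [mem_iUnion₂]
        exact ⟨cellIx k j, hj, rfl⟩
      apply measure_mono_null h1
      rw [measure_biUnion_null_iff (to_countable _)]
      intro n hn
      exact hn
    have hae : ∀ᵐ j ∂μ, unif (Prod.mk j ⁻¹' {p : ℝ × ℝ | ε < |T k p - p.1|}) = 0 := by
      have h2 : ∀ᵐ j ∂μ, ¬ μ (cellIx k ⁻¹' {cellIx k j}) = 0 := by
        rw [ae_iff]
        simpa using hnull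
      filter_upwards [h2] with j hj
      have hs : MeasurableSet {x : ℝ | ε < |x - j|} :=
        measurableSet_lt measurable_const ((measurable_id.sub_const _).abs)
      have h3 := hTl k j {x : ℝ | ε < |x - j|} hs
      have h4 : mcell μ k (cellIx k j) {x : ℝ | ε < |x - j|} = 0 := by
        unfold mcell
        rw [if_neg hj, cond_apply (measurable_cellIx k (measurableSet_singleton _))]
        have h5 : cellIx k ⁻¹' {cellIx k j} ∩ {x : ℝ | ε < |x - j|} = ∅ := by
          rw [Set.eq_empty_iff_forall_notMem]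
          rintro x ⟨h6, h7⟩
          have h8 : |x - j| ≤ 1 / ((k : ℝ) + 1) := cellIx_close h6
          have h9 : ε < |x - j| := h7
          linarith
        rw [h5, measure_empty, mul_zero]
      rw [h4] at h3
      exact h3
    rw [lintegral_congr_ae hae]
    simp

end Pool.H66.CH
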