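import Pool.Agent.Helper66.CH.Basic

set_option autoImplicit false
set_option linter.unusedSectionVars false

/-! MODULE M1. Exponential concentration for sums of local functions. -/

namespace Pool.H66.CH

open MeasureTheory Set ProbabilityTheory Filter Topology Pool.H66.EAM
open scoped ENNReal NNReal

lemma indep_local {Y : Type*} [MeasurableSpace Y] (μ : Measure Y) [IsProbabilityMeasure μ]
    {S T : Finset E} (hd : Disjoint S T) {f g : (E → Y) → ℝ} (hf : Measurable f)
    (hg : Measurable g) (hfS : Loc S f) (hgT : Loc T g) : IndepFun f g (PJ μ) := by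
  classical
  obtain ⟨y0⟩ : Nonempty Y := nonempty_of_isProbabilityMeasure μ
  have h1 : iIndepFun (fun (i : E) (ω : E → Y) => ω i) (PJ μ) :=
    iIndepFun_infinitePi (P := fun _ : E => μ) (X := fun _ x => x) (fun _ => measurable_id)
  have h2 := h1.indepFun_finset S T hd (fun i => measurable_pi_apply i)
  let ext : (U : Finset E) → (U → Y) → (E → Y) :=
    fun U x e => if h : e ∈ U then x ⟨e, h⟩ else y0
  have hext : ∀ U, Measurable (ext U) := by
    intro U
    apply measurable_pi_lambda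
    intro e
    by_cases h : e ∈ U
    · simp only [ext, h, dite_true]; exact measurable_pi_apply _
    · simp only [ext, h, dite_false]; exact measurable_const
  have hfe : ∀ J, f (ext S (fun i => J i)) = f J := by
    intro J
    apply hfS
    intro e he
    simp only [ext, he, dite_true]
  have hge : ∀ J, g (ext T (fun i => J i)) = g J := by
    intro J
    apply hgT
    intro e he
    simp only [ext, he, dite_true]
  have h3 := h2.comp (hf.comp (hext S)) (hg.comp (hext T))
  simp only [Function.comp_def] at h3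
  simp_rw [hfe, hge] at h3
  exact h3

lemma subG_sum {Y : Type*} [MeasurableSpace Y] (μ : Measure Y) [IsProbabilityMeasure μ]
    (S : V → Finset E) (f : V → (E → Y) → ℝ) (hf : ∀ v, Measurable (f v))
    (hb : ∀ v b, 0 ≤ f v b ∧ f v b ≤ 1) (hloc : ∀ v, Loc (S v) (f v))
    (Q : Finset V) (hQ : ∀ v ∈ Q, ∀ w ∈ Q, v ≠ w → Disjoint (S v) (S w)) :
    HasSubgaussianMGF (fun b => ∑ v ∈ Q, (f v b - ∫ b', f v b' ∂(PJ μ)))
      ((Q.card : ℝ≥0) * (1 / 2) ^ 2) (PJ μ) := by
  classical
  induction Q using Finset.induction_on with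
  | empty =>
    simp only [Finset.sum_empty, Finset.card_empty, Nat.cast_zero, zero_mul]
    exact HasSubgaussianMGF.fun_zero
  | insert v Q hv ih =>
    have h1 := ih (fun a ha b hb' hab => hQ a (Finset.mem_insert_of_mem ha) b
      (Finset.mem_insert_of_mem hb') hab)
    have h2 : HasSubgaussianMGF (fun b => f v b - ∫ b', f v b' ∂(PJ μ))
        ((1 / 2) ^ 2) (PJ μ) := by
      have := hasSubgaussianMGF_of_mem_Icc (μ := PJ μ) (X := f v) (a := 0) (b := 1)
        (hf v).aemeasurable (Filter.Eventually.of_forall (fun b => hb v b))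
      simpa using this
    have hmeas : Measurable (fun b => ∑ w ∈ Q, (f w b - ∫ b', f w b' ∂(PJ μ))) :=
      Finset.measurable_sum _ (fun w _ => (hf w).sub_const _)
    have hind : IndepFun (fun b => f v b - ∫ b', f v b' ∂(PJ μ))
        (fun b => ∑ w ∈ Q, (f w b - ∫ b', f w b' ∂(PJ μ))) (PJ μ) := by
      apply indep_local μ (S := S v) (T := Q.biUnion S) ?_ ((hf v).sub_const _) hmeas
      · intro J J' hJ
        simp only
        rw [hloc v J J' hJ]
      · intro J J' hJ
        simp only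
        apply Finset.sum_congr rfl
        intro w hw
        rw [hloc w J J' (fun e he => hJ e (Finset.mem_biUnion.2 ⟨w, hw, he⟩))]
      · rw [Finset.disjoint_biUnion_right]
        intro w hw
        exact hQ v (Finset.mem_insert_self _ _) w (Finset.mem_insert_of_mem hw)
          (fun h => hv (h ▸ hw))
    have h3 := HasSubgaussianMGF.add_of_indepFun h2 h1 hind
    have h4 : ((insert v Q).card : ℝ≥0) * (1 / 2) ^ 2
        = (1 / 2) ^ 2 + (Q.card : ℝ≥0) * (1 / 2) ^ 2 := by
      rw [Finset.card_insert_of_notMem hv]; push_cast; ring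
    rw [h4]
    convert h3 using 1
    funext b
    rw [Finset.sum_insert hv]

/-- Hoeffding's inequality in every colour class (inside a class the supports are disjoint, so the
summands are independent), and a union bound over the `m` classes, each with threshold
`δ |Q| / m`. -/
theorem hoeff {Y : Type*} [MeasurableSpace Y] (μ : Measure Y) [IsProbabilityMeasure μ]
    (Q : Finset V) (S : V → Finset E) (f : V → (E → Y) → ℝ) (hf : ∀ v, Measurable (f v))
    (hb : ∀ v b, 0 ≤ f v b ∧ f v b ≤ 1) (hloc : ∀ v, Loc (S v) (f v)) {m : ℕ} (hm : 0 < m)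
    (col : V → Fin m)
    (hcol : ∀ v ∈ Q, ∀ w ∈ Q, v ≠ w → col v = col w → Disjoint (S v) (S w))
    {δ : ℝ} (hδ : 0 < δ) :
    (PJ μ).real {b | ∑ v ∈ Q, ∫ b', f v b' ∂(PJ μ) + δ * (Q.card : ℝ) < ∑ v ∈ Q, f v b}
      ≤ m * Real.exp (-(2 * δ ^ 2 * (Q.card : ℝ) / (m : ℝ) ^ 2)) := by
  classical
  have hm' : (0 : ℝ) < m := by exact_mod_cast hm
  set c : V → ℝ := fun v => ∫ b', f v b' ∂(PJ μ) with hc
  let Qc : Fin m → Finset V := fun k => Q.filter (fun v => col v = k)
  let X : Fin m → (E → Y) → ℝ := fun k b => ∑ v ∈ Qc k, (f v b - c v)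
  have hfib : ∀ g : V → ℝ, ∑ v ∈ Q, g v = ∑ k : Fin m, ∑ v ∈ Qc k, g v := by
    intro g
    exact (Finset.sum_fiberwise Q col g).symm
  by_cases hQ0 : Q.card = 0
  · have hQe : Q = ∅ := Finset.card_eq_zero.1 hQ0
    have : {b : E → Y | ∑ v ∈ Q, c v + δ * (Q.card : ℝ) < ∑ v ∈ Q, f v b} = ∅ := by
      rw [hQe]
      ext b
      simp
    rw [this]
    simp only [measureReal_empty]
    positivity
  have hQpos : (0 : ℝ) < Q.card := by
    exact_mod_cast Nat.pos_of_ne_zero hQ0
  have hsub : {b : E → Y | ∑ v ∈ Q, c v + δ * (Q.card : ℝ) < ∑ v ∈ Q, f v b}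
      ⊆ ⋃ k : Fin m, {b | δ * (Q.card : ℝ) / m ≤ X k b} := by
    intro b hb'
    rw [mem_iUnion]
    by_contra hcon
    push Not at hcon
    have h1 : ∀ k : Fin m, X k b < δ * (Q.card : ℝ) / m := by
      intro k
      have := hcon k
      simpa using this
    have h2 : ∑ k : Fin m, X k b ≤ ∑ _k : Fin m, δ * (Q.card : ℝ) / m :=
      Finset.sum_le_sum (fun k _ => (h1 k).le)
    rw [Finset.sum_const, Finset.card_univ, Fintype.card_fin, nsmul_eq_mul,
      mul_div_cancel₀ _ hm'.ne'] at h2
    have h3 : ∑ k : Fin m, X k b = ∑ v ∈ Q, f v b - ∑ v ∈ Q, c v := by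
      rw [← Finset.sum_sub_distrib, hfib]
    have h4 : ∑ v ∈ Q, c v + δ * (Q.card : ℝ) < ∑ v ∈ Q, f v b := hb'
    linarith
  have hk : ∀ k : Fin m, (PJ μ).real {b | δ * (Q.card : ℝ) / m ≤ X k b}
      ≤ Real.exp (-(2 * δ ^ 2 * (Q.card : ℝ) / (m : ℝ) ^ 2)) := by
    intro k
    by_cases h0 : (Qc k).card = 0
    · have hQe : Qc k = ∅ := Finset.card_eq_zero.1 h0
      have hX0 : {b | δ * (Q.card : ℝ) / m ≤ X k b} = ∅ := by
        ext b
        simp only [X, hQe, Finset.sum_empty, mem_ofPred_eq, mem_empty_iff_false, iff_false,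
          not_le]
        positivity
      rw [hX0]
      simp only [measureReal_empty]
      positivity
    have hs := subG_sum μ S f hf hb hloc (Qc k) (by
      intro v hv w hw hvw
      rw [Finset.mem_filter] at hv hw
      exact hcol v hv.1 w hw.1 hvw (hv.2.trans hw.2.symm))
    have hge := hs.measure_ge_le (ε := δ * (Q.card : ℝ) / m) (by positivity)
    refine hge.trans ?_
    apply Real.exp_le_exp.2
    have hcard : ((Qc k).card : ℝ) ≤ Q.card := by
      exact_mod_cast Finset.card_filter_le _ _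
    have hpos : (0 : ℝ) < (Qc k).card := by exact_mod_cast Nat.pos_of_ne_zero h0
    push_cast
    rw [neg_div, neg_le_neg_iff, div_le_div_iff₀ (by positivity) (by positivity)]
    have h5 : (δ * (Q.card : ℝ) / m) ^ 2 * (m : ℝ) ^ 2 = δ ^ 2 * (Q.card : ℝ) ^ 2 := by
      field_simp
    rw [h5]
    nlinarith [mul_nonneg (sq_nonneg δ) hQpos.le, mul_le_mul_of_nonneg_left hcard
      (mul_nonneg (sq_nonneg δ) hQpos.le)]
  calc (PJ μ).real {b : E → Y | ∑ v ∈ Q, c v + δ * (Q.card : ℝ) < ∑ v ∈ Q, f v b}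
      ≤ (PJ μ).real (⋃ k : Fin m, {b | δ * (Q.card : ℝ) / m ≤ X k b}) :=
        measureReal_mono hsub
    _ ≤ ∑ k : Fin m, (PJ μ).real {b | δ * (Q.card : ℝ) / m ≤ X k b} :=
        measureReal_iUnion_fintype_le _
    _ ≤ ∑ _k : Fin m, Real.exp (-(2 * δ ^ 2 * (Q.card : ℝ) / (m : ℝ) ^ 2)) :=
        Finset.sum_le_sum (fun k _ => hk k)
    _ = m * Real.exp (-(2 * δ ^ 2 * (Q.card : ℝ) / (m : ℝ) ^ 2)) := by
        rw [Finset.sum_const, Finset.card_univ, Fintype.card_fin, nsmul_eq_mul]

end Pool.H66.CH
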