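import Pool.Agent.Helper66.CH.Basic

set_option autoImplicit false
set_option linter.unusedSectionVars false

/-! MODULE D. Conditional quantile sets. -/

namespace Pool.H66.CH

open MeasureTheory Set ProbabilityTheory Filter Topology Pool.H66.EAM
open scoped ENNReal

lemma continuous_cdf2 (μ : Measure ℝ) [IsProbabilityMeasure μ] (hμ : ∀ x, μ {x} = 0) :
    Continuous (cdf μ) := by
  rw [continuous_iff_continuousAt]
  intro x
  rw [(monotone_cdf μ).continuousAt_iff_leftLim_eq_rightLim, (cdf μ).rightLim_eq]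
  apply le_antisymm ((monotone_cdf μ).leftLim_le le_rfl)
  have h1 := (cdf μ).measure_singleton x
  rw [measure_cdf, hμ x] at h1
  have h2 := ENNReal.ofReal_eq_zero.1 h1.symm
  linarith

/-- The distribution function of an atomless law is uniform. -/
lemma cdf_level (μ : Measure ℝ) [IsProbabilityMeasure μ] (hμ : ∀ x, μ {x} = 0) {t : ℝ}
    (ht0 : 0 < t) (ht1 : t ≤ 1) : μ {x | cdf μ x ≤ t} = ENNReal.ofReal t := by
  rcases ht1.lt_or_eq with ht1 | ht1
  · have hc := continuous_cdf2 μ hμ
    have hne : {x | cdf μ x ≤ t}.Nonempty := by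
      obtain ⟨a, ha⟩ := ((tendsto_cdf_atBot μ).eventually_lt_const ht0).exists
      exact ⟨a, ha.le⟩
    obtain ⟨b, hb⟩ := ((tendsto_cdf_atTop μ).eventually_const_lt ht1).exists
    have hbd : BddAbove {x | cdf μ x ≤ t} := by
      refine ⟨b, fun x hx => ?_⟩
      by_contra hlt
      have := monotone_cdf μ (not_le.1 hlt).le
      have hx' : cdf μ x ≤ t := hx
      linarith
    have hcl : IsClosed {x | cdf μ x ≤ t} := isClosed_le hc continuous_const
    have hmem := hcl.csSup_mem hne hbd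
    have hset : {x | cdf μ x ≤ t} = Iic (sSup {x | cdf μ x ≤ t}) := by
      apply Subset.antisymm
      · intro x hx; exact le_csSup hbd hx
      · intro x hx
        have h1 := monotone_cdf μ hx
        have h2 : cdf μ (sSup {x | cdf μ x ≤ t}) ≤ t := hmem
        exact h1.trans h2
    have hge : t ≤ cdf μ (sSup {x | cdf μ x ≤ t}) := by
      obtain ⟨q, hq⟩ : ∃ q, cdf μ q = t :=
        mem_range_of_exists_le_of_exists_ge hc hne ⟨b, hb.le⟩
      refine hq.ge.trans ?_
      apply monotone_cdf μ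
      exact le_csSup hbd (show cdf μ q ≤ t from hq.le)
    have heq : cdf μ (sSup {x | cdf μ x ≤ t}) = t := le_antisymm hmem hge
    rw [hset, ← ofReal_cdf, heq]
  · have : {x | cdf μ x ≤ t} = univ := by
      ext x
      simp only [mem_ofPred_eq, mem_univ, iff_true]
      rw [ht1]; exact cdf_le_one μ x
    rw [this, measure_univ, ht1, ENNReal.ofReal_one]

/-- Conditional rank. -/
noncomputable def rk {Y1 Y2 : Type*} [MeasurableSpace Y2] (ν2 : Measure Y2) (q : Y1 × Y2 → ℝ)
    (p : Y1 × Y2) : ℝ := (ν2 {u' | q (p.1, u') ≤ q p}).toReal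

lemma measurable_rk {Y1 Y2 : Type*} [MeasurableSpace Y1] [MeasurableSpace Y2]
    (ν2 : Measure Y2) [IsProbabilityMeasure ν2] {q : Y1 × Y2 → ℝ} (hq : Measurable q) :
    Measurable (rk ν2 q) := by
  have hs : MeasurableSet {r : (Y1 × Y2) × Y2 | q (r.1.1, r.2) ≤ q r.1} := by
    apply measurableSet_le
    · exact hq.comp ((measurable_fst.comp measurable_fst).prodMk measurable_snd)
    · exact hq.comp measurable_fst
  exact (measurable_measure_prodMk_left (ν := ν2) hs).ennreal_toReal

lemma rk_le_one {Y1 Y2 : Type*} [MeasurableSpace Y2] (ν2 : Measure Y2) [IsProbabilityMeasure ν2]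
    (q : Y1 × Y2 → ℝ) (p : Y1 × Y2) : rk ν2 q p ≤ 1 := by
  unfold rk
  have := prob_le_one (μ := ν2) (s := {u' | q (p.1, u') ≤ q p})
  exact ENNReal.toReal_le_of_le_ofReal zero_le_one (by simpa using this)

lemma rk_mono {Y1 Y2 : Type*} [MeasurableSpace Y2] (ν2 : Measure Y2) [IsProbabilityMeasure ν2]
    (q : Y1 × Y2 → ℝ) {y : Y1} {u u' : Y2} (h : q (y, u) ≤ q (y, u')) :
    rk ν2 q (y, u) ≤ rk ν2 q (y, u') := by
  unfold rk
  apply ENNReal.toReal_mono (measure_ne_top _ _)
  apply measure_mono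
  intro w hw
  exact le_trans hw h

lemma rk_eq {Y1 Y2 : Type*} [MeasurableSpace Y1] [MeasurableSpace Y2]
    (ν2 : Measure Y2) [IsProbabilityMeasure ν2] {q : Y1 × Y2 → ℝ} (hq : Measurable q)
    (y : Y1) (u : Y2) :
    rk ν2 q (y, u) = cdf (ν2.map (fun w => q (y, w))) (q (y, u)) := by
  have hqy : Measurable (fun w => q (y, w)) := hq.comp measurable_prodMk_left
  have : IsProbabilityMeasure (ν2.map (fun w => q (y, w))) :=
    Measure.isProbabilityMeasure_map hqy.aemeasurable
  rw [cdf_eq_real, Measure.real, Measure.map_apply hqy measurableSet_Iic]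
  rfl

lemma rk_level {Y1 Y2 : Type*} [MeasurableSpace Y1] [MeasurableSpace Y2]
    (ν2 : Measure Y2) [IsProbabilityMeasure ν2] {q : Y1 × Y2 → ℝ} (hq : Measurable q)
    {y : Y1} (hy : ∀ x : ℝ, ν2 {u | q (y, u) = x} = 0) {t : ℝ}
    (ht0 : 0 < t) (ht1 : t ≤ 1) : ν2 {u | rk ν2 q (y, u) ≤ t} = ENNReal.ofReal t := by
  have hqy : Measurable (fun w => q (y, w)) := hq.comp measurable_prodMk_left
  have : IsProbabilityMeasure (ν2.map (fun w => q (y, w))) :=
    Measure.isProbabilityMeasure_map hqy.aemeasurable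
  have h1 := cdf_level (ν2.map (fun w => q (y, w))) (by
    intro x
    rw [Measure.map_apply hqy (measurableSet_singleton x)]
    exact hy x) ht0 ht1
  rw [Measure.map_apply hqy] at h1
  · rw [← h1]
    congr 1
    ext u
    simp only [mem_ofPred_eq, mem_preimage]
    rw [rk_eq ν2 hq]
  · exact measurableSet_le (monotone_cdf _).measurable measurable_const

/-- If the conditional law of `q (y, ·)` has no atoms for almost every `y`, the space splits into
`n` measurable pieces which are ordered by `q` on every fibre and have conditional mass `1 / n`.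
(`G (y, u) = ν2 {u' | q (y, u') ≤ q (y, u)}` is uniform on `[0,1]` on almost every fibre; the pieces
are `{G ≤ 1/n}` and `{k / n < G ≤ (k+1) / n}`.) -/
theorem exists_quant {Y1 Y2 : Type*} [MeasurableSpace Y1] [MeasurableSpace Y2]
    (ν1 : Measure Y1) [IsProbabilityMeasure ν1] (ν2 : Measure Y2) [IsProbabilityMeasure ν2]
    {q : Y1 × Y2 → ℝ} (hq : Measurable q)
    (hat : ∀ᵐ y ∂ν1, ∀ x : ℝ, ν2 {u | q (y, u) = x} = 0) {n : ℕ} (hn : 0 < n) :
    ∃ A : Fin n → Set (Y1 × Y2), (∀ k, MeasurableSet (A k)) ∧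
      (∀ p, ∃ k, p ∈ A k) ∧ (∀ k l, k ≠ l → Disjoint (A k) (A l)) ∧
      (∀ k l, k < l → ∀ y u u', (y, u) ∈ A k → (y, u') ∈ A l → q (y, u) < q (y, u')) ∧
      (∀ k, ∀ᵐ y ∂ν1, ν2 {u | (y, u) ∈ A k} = ENNReal.ofReal (1 / n)) := by
  have hn' : (0 : ℝ) < n := by exact_mod_cast hn
  have hm := measurable_rk ν2 hq
  let A : Fin n → Set (Y1 × Y2) := fun k =>
    {p | (k.1 ≠ 0 → (k.1 : ℝ) / n < rk ν2 q p) ∧ rk ν2 q p ≤ ((k.1 : ℝ) + 1) / n}
  have hstep : ∀ k l : Fin n, k < l → ((k.1 : ℝ) + 1) / n ≤ (l.1 : ℝ) / n := by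
    intro k l h
    have h1 : k.1 + 1 ≤ l.1 := h
    have h2 : ((k.1 : ℝ) + 1) ≤ (l.1 : ℝ) := by exact_mod_cast h1
    exact div_le_div_of_nonneg_right h2 hn'.le
  have hlt : ∀ k l : Fin n, k < l → ∀ p p', p ∈ A k → p' ∈ A l → rk ν2 q p < rk ν2 q p' := by
    intro k l h p p' hp hp'
    have h0 : l.1 ≠ 0 := by
      have : k.1 < l.1 := h
      omega
    have h1 := hp'.1 h0
    have h2 := hp.2
    have h3 := hstep k l h
    linarith
  refine ⟨A, ?_, ?_, ?_, ?_, ?_⟩
  · intro k
    refine MeasurableSet.inter (s₁ := {p | k.1 ≠ 0 → (k.1 : ℝ) / n < rk ν2 q p}) ?_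
      (measurableSet_le hm measurable_const)
    by_cases h : k.1 = 0
    · have : {p | k.1 ≠ 0 → (k.1 : ℝ) / n < rk ν2 q p} = univ := by
        ext p; simp [h]
      rw [this]; exact MeasurableSet.univ
    · have : {p | k.1 ≠ 0 → (k.1 : ℝ) / n < rk ν2 q p} = {p | (k.1 : ℝ) / n < rk ν2 q p} := by
        ext p; simp [h]
      rw [this]; exact measurableSet_lt measurable_const hm
  · intro p
    have hex : ∃ k : ℕ, rk ν2 q p ≤ ((k : ℝ) + 1) / n := by
      refine ⟨n, (rk_le_one ν2 q p).trans ?_⟩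
      rw [le_div_iff₀ hn']; linarith
    classical
    have hspec := Nat.find_spec hex
    have hmin := fun m hm => Nat.find_min (H := hex) (m := m) hm
    have hle : Nat.find hex ≤ n - 1 := by
      apply Nat.find_min'
      refine (rk_le_one ν2 q p).trans ?_
      rw [le_div_iff₀ hn', Nat.cast_sub (by omega)]
      push_cast; linarith
    refine ⟨⟨Nat.find hex, by omega⟩, ?_, hspec⟩
    intro h0
    have := hmin (Nat.find hex - 1) (by
      have : Nat.find hex ≠ 0 := h0
      omega)
    rw [not_le, Nat.cast_sub (by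
      have : Nat.find hex ≠ 0 := h0
      omega)] at this
    simpa using this
  · intro k l hkl
    rw [Set.disjoint_left]
    intro p hp hp'
    rcases lt_or_gt_of_ne hkl with h | h
    · exact lt_irrefl _ (hlt k l h p p hp hp')
    · exact lt_irrefl _ (hlt l k h p p hp' hp)
  · intro k l hkl y u u' hu hu'
    have h1 := hlt k l hkl _ _ hu hu'
    by_contra h2
    have := rk_mono ν2 q (not_lt.1 h2)
    linarith
  · intro k
    filter_upwards [hat] with y hy
    have hk1 : ((k.1 : ℝ) + 1) / n ≤ 1 := by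
      rw [div_le_one hn']
      have : k.1 + 1 ≤ n := k.2
      exact_mod_cast this
    have hl1 := rk_level ν2 hq hy (t := ((k.1 : ℝ) + 1) / n) (by positivity) hk1
    by_cases h0 : k.1 = 0
    · have : {u | (y, u) ∈ A k} = {u | rk ν2 q (y, u) ≤ ((k.1 : ℝ) + 1) / n} := by
        ext u
        simp only [A, mem_ofPred_eq, h0, ne_eq, not_true_eq_false, false_implies, true_and]
      rw [this, hl1, h0]
      simp
    · have hk0 : (0 : ℝ) < (k.1 : ℝ) / n := by
        have : 0 < k.1 := Nat.pos_of_ne_zero h0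
        have : (0 : ℝ) < k.1 := by exact_mod_cast this
        positivity
      have hk2 : (k.1 : ℝ) / n ≤ ((k.1 : ℝ) + 1) / n :=
        div_le_div_of_nonneg_right (by linarith) hn'.le
      have hl0 := rk_level ν2 hq hy (t := (k.1 : ℝ) / n) hk0 (hk2.trans hk1)
      have : {u | (y, u) ∈ A k} = {u | rk ν2 q (y, u) ≤ ((k.1 : ℝ) + 1) / n}
          \ {u | rk ν2 q (y, u) ≤ (k.1 : ℝ) / n} := by
        ext u
        simp only [A, mem_ofPred_eq, ne_eq, h0, not_false_eq_true, true_implies, Set.mem_sdiff,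
          not_le]
        exact and_comm
      have hmy : Measurable (fun u => rk ν2 q (y, u)) := hm.comp measurable_prodMk_left
      rw [this, measure_sdiff, hl1, hl0, ← ENNReal.ofReal_sub _ hk0.le]
      · congr 1
        field_simp
        ring
      · intro u hu
        exact le_trans hu hk2
      · exact (measurableSet_le hmy measurable_const).nullMeasurableSet
      · exact measure_ne_top _ _

/-- Truncated conditional mass of the points of `A'` above `p`. -/
noncomputable def ahat {Y1 Y2 : Type*} [MeasurableSpace Y2] (ν2 : Measure Y2) (q : Y1 × Y2 → ℝ)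
    (A A' : Set (Y1 × Y2)) (j : ℕ) (p : Y1 × Y2) : ℝ≥0∞ :=
  {p' : Y1 × Y2 | p' ∈ A ∧ |q p'| ≤ j}.indicator (fun p' =>
    ν2 {u' | (p'.1, u') ∈ A' ∧ |q (p'.1, u')| ≤ j ∧ q p' + 1 / ((j : ℝ) + 1) ≤ q (p'.1, u')}) p

lemma measurable_ahat {Y1 Y2 : Type*} [MeasurableSpace Y1] [MeasurableSpace Y2]
    (ν2 : Measure Y2) [IsProbabilityMeasure ν2] {q : Y1 × Y2 → ℝ} (hq : Measurable q)
    {A A' : Set (Y1 × Y2)} (hA : MeasurableSet A) (hA' : MeasurableSet A') (j : ℕ) :
    Measurable (ahat ν2 q A A' j) := by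
  have h1 : Measurable (fun r : (Y1 × Y2) × Y2 => ((r.1.1, r.2) : Y1 × Y2)) :=
    (measurable_fst.comp measurable_fst).prodMk measurable_snd
  have hs : MeasurableSet {r : (Y1 × Y2) × Y2 | (r.1.1, r.2) ∈ A' ∧ |q (r.1.1, r.2)| ≤ j ∧
      q r.1 + 1 / ((j : ℝ) + 1) ≤ q (r.1.1, r.2)} := by
    apply MeasurableSet.inter (h1 hA')
    apply MeasurableSet.inter
    · exact measurableSet_le (measurable_norm.comp (hq.comp h1)) measurable_const
    · exact measurableSet_le ((hq.comp measurable_fst).add_const _) (hq.comp h1)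
  apply Measurable.indicator
  · exact measurable_measure_prodMk_left (ν := ν2) hs
  · exact hA.inter (measurableSet_le (measurable_norm.comp hq) measurable_const)

/-- The truncation is harmless in the limit (monotone convergence). -/
theorem tendsto_ahat {Y1 Y2 : Type*} [MeasurableSpace Y1] [MeasurableSpace Y2]
    (ν1 : Measure Y1) [IsProbabilityMeasure ν1] (ν2 : Measure Y2) [IsProbabilityMeasure ν2]
    {q : Y1 × Y2 → ℝ} (hq : Measurable q) {A A' : Set (Y1 × Y2)} (hA : MeasurableSet A)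
    (hA' : MeasurableSet A')
    (hlt : ∀ y u u', (y, u) ∈ A → (y, u') ∈ A' → q (y, u) < q (y, u')) :
    Tendsto (fun j : ℕ => ∫⁻ p, ahat ν2 q A A' j p ∂(ν1.prod ν2)) atTop
      (𝓝 (∫⁻ p, A.indicator (fun p' => ν2 {u' | (p'.1, u') ∈ A'}) p ∂(ν1.prod ν2))) := by
  have hinner : ∀ p' : Y1 × Y2, Monotone (fun j : ℕ => {u' | (p'.1, u') ∈ A' ∧
      |q (p'.1, u')| ≤ (j : ℝ) ∧ q p' + 1 / ((j : ℝ) + 1) ≤ q (p'.1, u')}) := by
    intro p' j j' hjj u' hu'
    have hj : (j : ℝ) ≤ j' := by exact_mod_cast hjj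
    refine ⟨hu'.1, hu'.2.1.trans hj, le_trans ?_ hu'.2.2⟩
    have : 1 / ((j' : ℝ) + 1) ≤ 1 / ((j : ℝ) + 1) := by
      apply one_div_le_one_div_of_le
      · positivity
      · linarith
    linarith
  have hmono : ∀ p, Monotone (fun j : ℕ => ahat ν2 q A A' j p) := by
    intro p j j' hjj
    have hj : (j : ℝ) ≤ j' := by exact_mod_cast hjj
    simp only [ahat]
    by_cases h : p ∈ {p' : Y1 × Y2 | p' ∈ A ∧ |q p'| ≤ (j : ℝ)}
    · have h' : p ∈ {p' : Y1 × Y2 | p' ∈ A ∧ |q p'| ≤ (j' : ℝ)} := ⟨h.1, h.2.trans hj⟩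
      rw [indicator_of_mem h, indicator_of_mem h']
      exact measure_mono (hinner p hjj)
    · rw [indicator_of_notMem h]
      exact zero_le
  apply lintegral_tendsto_of_tendsto_of_monotone
  · intro j
    exact (measurable_ahat ν2 hq hA hA' j).aemeasurable
  · exact Filter.Eventually.of_forall hmono
  · apply Filter.Eventually.of_forall
    intro p
    by_cases hp : p ∈ A
    · rw [indicator_of_mem hp]
      have h1 : ⋃ j : ℕ, {u' | (p.1, u') ∈ A' ∧
          |q (p.1, u')| ≤ (j : ℝ) ∧ q p + 1 / ((j : ℝ) + 1) ≤ q (p.1, u')}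
          = {u' | (p.1, u') ∈ A'} := by
        ext u'
        simp only [mem_iUnion, mem_ofPred_eq]
        constructor
        · rintro ⟨j, hj, _⟩; exact hj
        · intro hu'
          have hl : q p < q (p.1, u') := hlt p.1 p.2 u' hp hu'
          obtain ⟨j1, hj1⟩ := exists_nat_ge |q (p.1, u')|
          obtain ⟨j2, hj2⟩ := exists_nat_one_div_lt (sub_pos.2 hl)
          refine ⟨max j1 j2, hu', hj1.trans (by exact_mod_cast le_max_left _ _), ?_⟩
          have : 1 / (((max j1 j2 : ℕ) : ℝ) + 1) ≤ 1 / ((j2 : ℝ) + 1) := by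
            apply one_div_le_one_div_of_le
            · positivity
            · have : ((j2 : ℕ) : ℝ) ≤ ((max j1 j2 : ℕ) : ℝ) := by exact_mod_cast le_max_right _ _
              linarith
          linarith
      have h2 := tendsto_measure_iUnion_atTop (μ := ν2) (hinner p)
      rw [h1] at h2
      refine h2.congr' ?_
      obtain ⟨j0, hj0⟩ := exists_nat_ge |q p|
      filter_upwards [eventually_ge_atTop j0] with j hj
      have h3 : p ∈ {p' : Y1 × Y2 | p' ∈ A ∧ |q p'| ≤ (j : ℝ)} :=
        ⟨hp, hj0.trans (by exact_mod_cast hj)⟩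
      simp only [ahat, Function.comp]
      rw [indicator_of_mem h3]
    · rw [indicator_of_notMem hp]
      have : ∀ j : ℕ, ahat ν2 q A A' j p = 0 := by
        intro j
        simp only [ahat]
        rw [indicator_of_notMem]
        intro h
        exact hp h.1
      simp only [this]
      exact tendsto_const_nhds

end Pool.H66.CH
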