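import Pool.Agent.Helper66.CH.TiltK
import Pool.Agent.Helper66.CH.Quant

set_option autoImplicit false
set_option linter.unusedSectionVars false

/-! The kernels used for the comparison of two ordered sets. -/

namespace Pool.H66.CH

open MeasureTheory Set ProbabilityTheory Filter Topology Pool.H66.EAM
open scoped ENNReal

variable {Y1 Y2 : Type*}

/-- Admissible moves on the fibre of `y1`. -/
def Cd (q : Y1 × Y2 → ℝ) (A A' : Set (Y1 × Y2)) (j : ℕ) (y1 : Y1) : Set (Y2 × Y2) :=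
  {p | ((y1, p.1) ∈ A ∧ |q (y1, p.1)| ≤ j) ∧
    ((y1, p.2) ∈ A' ∧ |q (y1, p.2)| ≤ j ∧ q (y1, p.1) + 1 / ((j : ℝ) + 1) ≤ q (y1, p.2))}

/-- The kernel. -/
noncomputable def kk (q : Y1 × Y2 → ℝ) (A A' : Set (Y1 × Y2)) (j : ℕ) (c : ℝ) (y1 : Y1) :
    Y2 × Y2 → ℝ≥0∞ :=
  (Cd q A A' j y1).indicator (fun p => ENNReal.ofReal (c / (q (y1, p.2) - q (y1, p.1))))

/-- The gain. -/
noncomputable def dd (q : Y1 × Y2 → ℝ) (y1 : Y1) : Y2 × Y2 → ℝ≥0∞ :=
  fun p => ENNReal.ofReal (q (y1, p.2) - q (y1, p.1))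

variable {q : Y1 × Y2 → ℝ} {A A' : Set (Y1 × Y2)} {j : ℕ} {c : ℝ} {y1 : Y1}

lemma dd_diag (x : Y2) : dd q y1 (x, x) = 0 := by
  unfold dd; simp

lemma Cd_gap {p : Y2 × Y2} (hp : p ∈ Cd q A A' j y1) :
    1 / ((j : ℝ) + 1) ≤ q (y1, p.2) - q (y1, p.1) := by
  have := hp.2.2.2
  linarith

lemma Cd_pos {p : Y2 × Y2} (hp : p ∈ Cd q A A' j y1) : 0 < q (y1, p.2) - q (y1, p.1) := by
  have h1 := Cd_gap hp
  have h2 : (0 : ℝ) < 1 / ((j : ℝ) + 1) := by positivity
  linarith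

lemma kk_le (hc : 0 ≤ c) {s : ℝ} (hcs : c ≤ s) (p : Y2 × Y2) :
    kk q A A' j c y1 p ≤ ENNReal.ofReal (s * ((j : ℝ) + 1)) := by
  unfold kk
  by_cases hp : p ∈ Cd q A A' j y1
  · rw [indicator_of_mem hp]
    apply ENNReal.ofReal_le_ofReal
    have h1 := Cd_gap hp
    have h2 := Cd_pos hp
    have h3 : (0 : ℝ) < (j : ℝ) + 1 := by positivity
    rw [div_le_iff₀ h2]
    have h4 : 1 ≤ ((j : ℝ) + 1) * (q (y1, p.2) - q (y1, p.1)) := by
      rw [div_le_iff₀ h3] at h1
      linarith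
    have hs : 0 ≤ s := hc.trans hcs
    calc c ≤ s * 1 := by linarith
      _ ≤ s * (((j : ℝ) + 1) * (q (y1, p.2) - q (y1, p.1))) := by gcongr
      _ = s * ((j : ℝ) + 1) * (q (y1, p.2) - q (y1, p.1)) := by ring
  · rw [indicator_of_notMem hp]; exact bot_le

lemma dd_kk (hc : 0 ≤ c) (p : Y2 × Y2) :
    dd q y1 p * kk q A A' j c y1 p = (Cd q A A' j y1).indicator (fun _ => ENNReal.ofReal c) p := by
  unfold dd kk
  by_cases hp : p ∈ Cd q A A' j y1
  · rw [indicator_of_mem hp, indicator_of_mem hp]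
    have h2 := Cd_pos hp
    rw [← ENNReal.ofReal_mul h2.le]
    congr 1
    field_simp
  · rw [indicator_of_notMem hp, indicator_of_notMem hp, mul_zero]

lemma dd_kk_le (hc : 0 ≤ c) {s : ℝ} (hcs : c ≤ s) (p : Y2 × Y2) :
    dd q y1 p * kk q A A' j c y1 p ≤ ENNReal.ofReal s := by
  rw [dd_kk hc]
  by_cases hp : p ∈ Cd q A A' j y1
  · rw [indicator_of_mem hp]
    exact ENNReal.ofReal_le_ofReal hcs
  · rw [indicator_of_notMem hp]; exact bot_le

lemma kk_ne_zero {p : Y2 × Y2} (h : kk q A A' j c y1 p ≠ 0) : p ∈ Cd q A A' j y1 := by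
  by_contra hp
  exact h (indicator_of_notMem hp _)

lemma kk_ne_zero_pos {p : Y2 × Y2} (h : kk q A A' j c y1 p ≠ 0) : 0 < c := by
  have hp := kk_ne_zero h
  by_contra hc
  apply h
  unfold kk
  rw [indicator_of_mem hp]
  apply ENNReal.ofReal_of_nonpos
  exact div_nonpos_of_nonpos_of_nonneg (not_lt.1 hc) (Cd_pos hp).le

variable [MeasurableSpace Y1] [MeasurableSpace Y2]

lemma measurable_fib (y1 : Y1) : Measurable (fun u : Y2 => ((y1, u) : Y1 × Y2)) :=
  measurable_const.prodMk measurable_id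

lemma meas_Cd (hq : Measurable q) (hA : MeasurableSet A) (hA' : MeasurableSet A') (j : ℕ)
    (y1 : Y1) : MeasurableSet (Cd q A A' j y1) := by
  have h1 : Measurable (fun p : Y2 × Y2 => ((y1, p.1) : Y1 × Y2)) :=
    (measurable_fib y1).comp measurable_fst
  have h2 : Measurable (fun p : Y2 × Y2 => ((y1, p.2) : Y1 × Y2)) :=
    (measurable_fib y1).comp measurable_snd
  apply MeasurableSet.inter
  · exact (h1 hA).inter (measurableSet_le (hq.comp h1).abs measurable_const)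
  · exact (h2 hA').inter ((measurableSet_le (hq.comp h2).abs measurable_const).inter
      (measurableSet_le ((hq.comp h1).add_const _) (hq.comp h2)))

lemma measurable_kk (hq : Measurable q) (hA : MeasurableSet A) (hA' : MeasurableSet A') (j : ℕ)
    (c : ℝ) (y1 : Y1) : Measurable (kk q A A' j c y1) := by
  have h1 : Measurable (fun p : Y2 × Y2 => ((y1, p.1) : Y1 × Y2)) :=
    (measurable_fib y1).comp measurable_fst
  have h2 : Measurable (fun p : Y2 × Y2 => ((y1, p.2) : Y1 × Y2)) :=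
    (measurable_fib y1).comp measurable_snd
  exact ((((hq.comp h2).sub (hq.comp h1)).const_div c).ennreal_ofReal).indicator
    (meas_Cd hq hA hA' j y1)

lemma measurable_dd (hq : Measurable q) (y1 : Y1) : Measurable (dd q y1) := by
  have h1 : Measurable (fun p : Y2 × Y2 => ((y1, p.1) : Y1 × Y2)) :=
    (measurable_fib y1).comp measurable_fst
  have h2 : Measurable (fun p : Y2 × Y2 => ((y1, p.2) : Y1 × Y2)) :=
    (measurable_fib y1).comp measurable_snd
  exact ((hq.comp h2).sub (hq.comp h1)).ennreal_ofReal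

variable (ν2 : Measure Y2) [IsProbabilityMeasure ν2]

lemma int_out (hq : Measurable q) (hA : MeasurableSet A) (hA' : MeasurableSet A')
    (hc : 0 ≤ c) (x : Y2) :
    ∫⁻ y, dd q y1 (x, y) * kk q A A' j c y1 (x, y) ∂ν2
      = ENNReal.ofReal c * ahat ν2 q A A' j (y1, x) := by
  simp_rw [dd_kk hc]
  have hm : MeasurableSet {y : Y2 | (x, y) ∈ Cd q A A' j y1} :=
    (measurable_const.prodMk measurable_id) (meas_Cd hq hA hA' j y1)
  have h1 : (fun y => (Cd q A A' j y1).indicator (fun _ => ENNReal.ofReal c) (x, y))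
      = {y : Y2 | (x, y) ∈ Cd q A A' j y1}.indicator (fun _ => ENNReal.ofReal c) := by
    funext y; rfl
  rw [h1, lintegral_indicator_const hm]
  congr 1
  unfold ahat
  by_cases hx : (y1, x) ∈ A ∧ |q (y1, x)| ≤ j
  · rw [indicator_of_mem (show ((y1, x) : Y1 × Y2) ∈ {p' : Y1 × Y2 | p' ∈ A ∧ |q p'| ≤ j} from hx)]
    congr 1
    ext y
    constructor
    · rintro ⟨-, h2⟩; exact h2
    · intro h2; exact ⟨hx, h2⟩
  · rw [indicator_of_notMem (show ((y1, x) : Y1 × Y2) ∉ {p' : Y1 × Y2 | p' ∈ A ∧ |q p'| ≤ j}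
      from hx)]
    have : {y : Y2 | (x, y) ∈ Cd q A A' j y1} = ∅ := by
      ext y
      simp only [mem_ofPred_eq, mem_empty_iff_false, iff_false]
      rintro ⟨h1, -⟩
      exact hx h1
    rw [this, measure_empty]

lemma int_in (hq : Measurable q) (hA : MeasurableSet A) (hA' : MeasurableSet A')
    (hc : 0 ≤ c) (y : Y2) :
    ∫⁻ x, dd q y1 (x, y) * kk q A A' j c y1 (x, y) ∂ν2
      ≤ ENNReal.ofReal c * (A'.indicator 1 (y1, y) * ν2 {x | (y1, x) ∈ A}) := by
  simp_rw [dd_kk hc]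
  have hm : MeasurableSet {x : Y2 | (x, y) ∈ Cd q A A' j y1} :=
    (measurable_id.prodMk measurable_const) (meas_Cd hq hA hA' j y1)
  have h1 : (fun x => (Cd q A A' j y1).indicator (fun _ => ENNReal.ofReal c) (x, y))
      = {x : Y2 | (x, y) ∈ Cd q A A' j y1}.indicator (fun _ => ENNReal.ofReal c) := by
    funext x; rfl
  rw [h1, lintegral_indicator_const hm]
  gcongr
  by_cases hy : (y1, y) ∈ A'
  · rw [indicator_of_mem hy, Pi.one_apply, one_mul]
    apply measure_mono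
    rintro x ⟨h, -⟩
    exact h.1
  · have : {x : Y2 | (x, y) ∈ Cd q A A' j y1} = ∅ := by
      ext x
      simp only [mem_ofPred_eq, mem_empty_iff_false, iff_false]
      rintro ⟨-, h2⟩
      exact hy h2.1
    rw [this, measure_empty]; exact bot_le

lemma out_sep (hlt : ∀ y u u', (y, u) ∈ A → (y, u') ∈ A' → q (y, u) < q (y, u')) {x y : Y2}
    (h : kk q A A' j c y1 (x, y) ≠ 0) : outk ν2 (kk q A A' j c y1) y = 0 := by
  have h1 := kk_ne_zero h
  have hy : (y1, y) ∈ A' := h1.2.1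
  unfold outk
  have : ∀ z, kk q A A' j c y1 (y, z) = 0 := by
    intro z
    by_contra hz
    have h2 := kk_ne_zero hz
    have h3 : (y1, y) ∈ A := h2.1.1
    exact lt_irrefl _ (hlt _ _ _ h3 hy)
  simp [this]

end Pool.H66.CH
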