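import Pool.Agent.Helper66.CH.Defs2

set_option autoImplicit false
set_option linter.unusedSectionVars false

/-! MODULE M7. The critical value of the universal overlap. -/

namespace Pool.H66.CH

open MeasureTheory Set ProbabilityTheory Filter Topology Pool.H66.EAM
open scoped ENNReal

/-- The marginals of a law of pairs of ground states are stationary laws. -/
lemma stat_of_stat2 {μ : Measure ℝ} [IsProbabilityMeasure μ] (hμ : ∀ x : ℝ, μ {x} = 0)
    {Q : Measure X2} (hQ : Stat2 μ Q) {f : X2 → (E → ℝ) × (V → ℝ)} (hf : Measurable f)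
    (hf1 : Prod.fst ∘ f = Prod.fst)
    (hfv : ∀ v, (fun p : (E → ℝ) × (V → ℝ) => (shJ v p.1, shS v p.2)) ∘ f = f ∘ tr v)
    (hwg : ∀ᵐ p ∂Q, WG (f p).1 (f p).2) : StationaryLaw μ (Q.map f) := by
  have hmarg : (Q.map f).map Prod.fst = PJ μ := by
    rw [Measure.map_map measurable_fst hf, hf1]
    exact hQ.marg
  refine ⟨hmarg, fun v => ?_, ?_⟩
  · have hg : Measurable (fun p : (E → ℝ) × (V → ℝ) => (shJ v p.1, shS v p.2)) :=
      ((measurable_shJ v).comp measurable_fst).prodMk ((measurable_shS v).comp measurable_snd)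
    rw [Measure.map_map hg hf, hfv v, ← Measure.map_map hf (measurable_tr v), hQ.inv v]
  · have h2 : ∀ᵐ J ∂((Q.map f).map Prod.fst), ∀ σ : V → ℝ,
        WG (cpl id J) σ → IsGroundState (cpl id J) σ := by
      rw [hmarg]
      exact generic (ν := μ) (q := id) hμ measurable_id
    have h3 : ∀ᵐ p ∂(Q.map f), WG p.1 p.2 := by
      rw [ae_map_iff hf.aemeasurable (measurableSet_WG measurable_fst measurable_snd)]
      exact hwg
    filter_upwards [ae_of_ae_map measurable_fst.aemeasurable h2, h3] with p h4 h5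
    exact h4 _ h5

/-- If `E m_i² = 1`, then `m_i` is the bond of every stationary ground state. -/
lemma bond_eq_of_one {μ : Measure ℝ} [IsProbabilityMeasure μ]
    {m : Fin 2 → (E → ℝ) → ℝ} (hm : IsBond μ m) {i : Fin 2}
    (h1 : ∫ J, m i J ^ 2 ∂(PJ μ) = 1) {Q : Measure ((E → ℝ) × (V → ℝ))}
    (hQ : StationaryLaw μ Q) : ∀ᵐ p ∂Q, ∀ v : V, bond p.2 (v, i) = m i (shJ v p.1) := by
  have hQS : StatLaw μ id Q := hQ
  have hQp : IsProbabilityMeasure Q := hQS.prob
  have h0 : ∀ᵐ p ∂Q, bond p.2 (0, i) = m i p.1 := by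
    have h2 := hm.law i (m i) (hm.meas i) ⟨1, hm.bdd i⟩ Q hQ
    have h3 : ∫ J, m i J * m i J ∂(PJ μ) = 1 := by
      rw [← h1]; congr 1; funext J; ring
    rw [h3] at h2
    have hfm : Measurable (fun p : (E → ℝ) × (V → ℝ) => m i p.1 * bond p.2 (0, i)) :=
      ((hm.meas i).comp measurable_fst).mul (measurable_bond measurable_snd _)
    have hle : ∀ᵐ p ∂Q, |m i p.1 * bond p.2 (0, i)| ≤ 1 := by
      filter_upwards [hQ.2.2] with p hp
      rw [abs_mul, abs_bond hp.spin, mul_one]
      exact hm.bdd i _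
    have hfi : Integrable (fun p : (E → ℝ) × (V → ℝ) => m i p.1 * bond p.2 (0, i)) Q :=
      Integrable.of_bound hfm.aestronglyMeasurable 1 (by
        filter_upwards [hle] with p hp; rw [Real.norm_eq_abs]; exact hp)
    have h4 : ∫ p, (1 - m i p.1 * bond p.2 (0, i)) ∂Q = 0 := by
      rw [integral_sub (integrable_const _) hfi, h2]; simp
    have h5 : 0 ≤ᵐ[Q] fun p => 1 - m i p.1 * bond p.2 (0, i) := by
      filter_upwards [hle] with p hp
      show 0 ≤ 1 - m i p.1 * bond p.2 (0, i)
      linarith [(abs_le.1 hp).2]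
    have h6 := (integral_eq_zero_iff_of_nonneg_ae h5 ((integrable_const _).sub hfi)).1 h4
    filter_upwards [h6, hQ.2.2] with p hp hp2
    have h7 : 1 - m i p.1 * bond p.2 (0, i) = 0 := hp
    rcases bond_cases hp2.spin (0, i) with h | h <;> rw [h] at h7 ⊢ <;> linarith
  rw [ae_all_iff]
  intro v
  have hsm : Measurable (fun p : (E → ℝ) × (V → ℝ) => (shJ v p.1, shS v p.2)) :=
    ((measurable_shJ v).comp measurable_fst).prodMk ((measurable_shS v).comp measurable_snd)
  have h8 : ∀ᵐ p ∂(Q.map (fun p => (shJ v p.1, shS v p.2))), bond p.2 (0, i) = m i p.1 := by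
    rw [hQ.2.1 v]; exact h0
  filter_upwards [ae_of_ae_map hsm.aemeasurable h8] with p hp
  have hp' : bond (shS v p.2) (0, i) = m i (shJ v p.1) := hp
  rwa [bond_shS_zero] at hp'

/-- If `E m_i² = 1` then `m_i = ± 1` almost surely, and every stationary law satisfies
`bond σ (0, i) = m_i J` almost surely (take `g = m_i` in `IsBond.law`); by invariance this holds for
all edges, so that `Agree μ` (EAM/Alpha.lean) holds for both marginals of a `Stat2` law
(EAM/Pair.lean; `generic` in EAM/Wgs.lean turns weak ground states into ground states), hence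
`exists_cov` and `caseA_of_cov`. Conversely in Case A `m_i = bond α (0, i)` almost surely. -/
theorem q_one_iff (μ : Measure ℝ) [IsProbabilityMeasure μ] (hμ : ∀ x : ℝ, μ {x} = 0)
    {m : Fin 2 → (E → ℝ) → ℝ} (hm : IsBond μ m) :
    (∀ i, ∫ J, m i J ^ 2 ∂(PJ μ) = 1) ↔ CaseA μ := by
  constructor
  · intro h1
    have H : Agree μ := by
      intro Q hQ
      have hQp := hQ.prob
      have hfa : Measurable (fun p : X2 => (p.1, p.2.1)) :=
        measurable_fst.prodMk (measurable_fst.comp measurable_snd)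
      have hfb : Measurable (fun p : X2 => (p.1, p.2.2)) :=
        measurable_fst.prodMk (measurable_snd.comp measurable_snd)
      have hQa : StationaryLaw μ (Q.map (fun p : X2 => (p.1, p.2.1))) :=
        stat_of_stat2 hμ hQ hfa rfl (fun v => rfl) (by
          filter_upwards [hQ.wg] with p hp; exact hp.1)
      have hQb : StationaryLaw μ (Q.map (fun p : X2 => (p.1, p.2.2))) :=
        stat_of_stat2 hμ hQ hfb rfl (fun v => rfl) (by
          filter_upwards [hQ.wg] with p hp; exact hp.2)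
      have ha : ∀ᵐ p ∂Q, ∀ (i : Fin 2) (v : V), bond p.2.1 (v, i) = m i (shJ v p.1) := by
        rw [ae_all_iff]
        intro i
        exact ae_of_ae_map hfa.aemeasurable (bond_eq_of_one hm (h1 i) hQa)
      have hb : ∀ᵐ p ∂Q, ∀ (i : Fin 2) (v : V), bond p.2.2 (v, i) = m i (shJ v p.1) := by
        rw [ae_all_iff]
        intro i
        exact ae_of_ae_map hfb.aemeasurable (bond_eq_of_one hm (h1 i) hQb)
      filter_upwards [ha, hb, hQ.wg] with p h2 h3 h4
      apply eq_or_neg h4.1.1 h4.2.1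
      rintro ⟨v, i⟩
      rw [h2 i v, h3 i v]
    obtain ⟨α, hα⟩ := exists_cov hμ H
    exact caseA_of_cov hμ hα
  · rintro ⟨α, hα, hst, -, -⟩ i
    obtain ⟨Q, hQ⟩ := exists_stationary μ hμ
    have hQS : StatLaw μ id Q := hQ
    have hQp : IsProbabilityMeasure Q := hQS.prob
    set b : (E → ℝ) → ℝ := fun J => cl (bond (α J) (0, i)) with hb
    have hbm : Measurable b := continuous_cl.measurable.comp (measurable_bond hα.meas _)
    have hb1 : ∀ J, |b J| ≤ 1 := fun J => abs_cl _
    have hbsp : ∀ᵐ J ∂(PJ μ), b J = bond (α J) (0, i) ∧ b J ^ 2 = 1 := by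
      filter_upwards [hα.spin] with J hJ
      have h1 : b J = bond (α J) (0, i) := cl_spin (bond_cases hJ _)
      refine ⟨h1, ?_⟩
      rw [h1]
      rcases bond_cases hJ (0, i) with h | h <;> rw [h] <;> norm_num
    have h1 := hm.law i b hbm ⟨1, hb1⟩ Q hQ
    have h2 : ∫ p, b p.1 * bond p.2 (0, i) ∂Q = 1 := by
      have hbQ : ∀ᵐ p ∂Q, b p.1 = bond (α p.1) (0, i) ∧ b p.1 ^ 2 = 1 := by
        have h3 : ∀ᵐ J ∂(Q.map Prod.fst), b J = bond (α J) (0, i) ∧ b J ^ 2 = 1 := by
          rw [hQ.1]; exact hbsp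
        exact ae_of_ae_map measurable_fst.aemeasurable h3
      have h4 : ∫ p, b p.1 * bond p.2 (0, i) ∂Q = ∫ p, (1 : ℝ) ∂Q := by
        apply integral_congr_ae
        filter_upwards [hbQ, hst Q hQ] with p hp hp2
        have h5 : bond p.2 (0, i) = b p.1 := by
          rw [hp.1]
          rcases hp2 with h | h
          · rw [h]
          · rw [h, bond_neg]
        rw [h5]
        have := hp.2
        nlinarith
      rw [h4]; simp
    rw [h2] at h1
    have hb2i : Integrable (fun J => b J ^ 2) (PJ μ) :=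
      Integrable.of_bound (hbm.pow_const 2).aestronglyMeasurable 1 (ae_of_all _ (fun J => by
        rw [Real.norm_eq_abs, abs_pow]; exact pow_le_one₀ (abs_nonneg _) (hb1 J)))
    have hm2i : Integrable (fun J => m i J ^ 2) (PJ μ) :=
      Integrable.of_bound ((hm.meas i).pow_const 2).aestronglyMeasurable 1 (ae_of_all _ (fun J => by
        rw [Real.norm_eq_abs, abs_pow]; exact pow_le_one₀ (abs_nonneg _) (hm.bdd i J)))
    have hbmi : Integrable (fun J => b J * m i J) (PJ μ) :=
      Integrable.of_bound (hbm.mul (hm.meas i)).aestronglyMeasurable 1 (ae_of_all _ (fun J => by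
        rw [Real.norm_eq_abs, abs_mul]
        exact mul_le_one₀ (hb1 J) (abs_nonneg _) (hm.bdd i J)))
    have hb2 : ∫ J, b J ^ 2 ∂(PJ μ) = 1 := by
      have : ∫ J, b J ^ 2 ∂(PJ μ) = ∫ J, (1 : ℝ) ∂(PJ μ) := by
        apply integral_congr_ae
        filter_upwards [hbsp] with J hJ
        exact hJ.2
      rw [this]; simp
    apply le_antisymm
    · calc ∫ J, m i J ^ 2 ∂(PJ μ) ≤ ∫ J, (1 : ℝ) ∂(PJ μ) := by
            apply integral_mono hm2i (integrable_const _)
            intro J
            show m i J ^ 2 ≤ 1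
            rw [← sq_abs]
            exact pow_le_one₀ (abs_nonneg _) (hm.bdd i J)
        _ = 1 := by simp
    · have h6 : 0 ≤ ∫ J, (b J - m i J) ^ 2 ∂(PJ μ) := integral_nonneg (fun J => sq_nonneg _)
      have h7 : ∫ J, (b J - m i J) ^ 2 ∂(PJ μ)
          = ∫ J, b J ^ 2 ∂(PJ μ) - 2 * ∫ J, b J * m i J ∂(PJ μ) + ∫ J, m i J ^ 2 ∂(PJ μ) := by
        calc ∫ J, (b J - m i J) ^ 2 ∂(PJ μ)
            = ∫ J, ((b J ^ 2 - 2 * (b J * m i J)) + m i J ^ 2) ∂(PJ μ) := by
              congr 1; funext J; ring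
          _ = ∫ J, (b J ^ 2 - 2 * (b J * m i J)) ∂(PJ μ) + ∫ J, m i J ^ 2 ∂(PJ μ) :=
              integral_add (hb2i.sub (hbmi.const_mul 2)) hm2i
          _ = _ := by rw [integral_sub hb2i (hbmi.const_mul 2), integral_const_mul]
      rw [h7, hb2, ← h1] at h6
      linarith

end Pool.H66.CH
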