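import Pool.Agent.Helper66.CH.Scale2

set_option autoImplicit false
set_option linter.unusedSectionVars false

/-! Theorem K. -/

namespace Pool.H66.CH

open MeasureTheory Set ProbabilityTheory Filter Topology Pool.H66.EAM
open scoped ENNReal

variable {Y1 Y2 : Type*} [MeasurableSpace Y1] [MeasurableSpace Y2]
  {ν1 : Measure Y1} [IsProbabilityMeasure ν1] {ν2 : Measure Y2} [IsProbabilityMeasure ν2]
  {q : Y1 × Y2 → ℝ} {i : Fin 2} {A A' : Set (Y1 × Y2)} {w : V → (E → Y1) → ℝ} {L L' R : ℕ}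

/-- Truncation error. -/
noncomputable def er (ν1 : Measure Y1) (ν2 : Measure Y2) (q : Y1 × Y2 → ℝ)
    (A A' : Set (Y1 × Y2)) (j : ℕ) : ℝ :=
  ((∫⁻ p, sec ν2 A A' p ∂(ν1.prod ν2)) - ∫⁻ p, ahat ν2 q A A' j p ∂(ν1.prod ν2)).toReal

lemma tendsto_er (hq : Measurable q) (hA : MeasurableSet A) (hA' : MeasurableSet A')
    (hlt : ∀ y u u', (y, u) ∈ A → (y, u') ∈ A' → q (y, u) < q (y, u')) :
    Tendsto (fun j : ℕ => er ν1 ν2 q A A' j) atTop (𝓝 0) := by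
  have h1 := tendsto_ahat ν1 ν2 hq hA hA' hlt
  have hfin : ∫⁻ p, sec ν2 A A' p ∂(ν1.prod ν2) ≠ ∞ := by
    refine ne_top_of_le_ne_top ENNReal.one_ne_top ?_
    calc ∫⁻ p, sec ν2 A A' p ∂(ν1.prod ν2) ≤ ∫⁻ p, 1 ∂(ν1.prod ν2) :=
          lintegral_mono (fun p => sec_le_one p)
      _ = 1 := by simp
  have h2 : Tendsto (fun j : ℕ => (∫⁻ p, sec ν2 A A' p ∂(ν1.prod ν2))
      - ∫⁻ p, ahat ν2 q A A' j p ∂(ν1.prod ν2)) atTop
      (𝓝 ((∫⁻ p, sec ν2 A A' p ∂(ν1.prod ν2)) - ∫⁻ p, sec ν2 A A' p ∂(ν1.prod ν2))) :=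
    ENNReal.Tendsto.sub tendsto_const_nhds h1 (Or.inl hfin)
  rw [tsub_self] at h2
  have h3 := (ENNReal.tendsto_toReal ENNReal.zero_ne_top).comp h2
  rw [ENNReal.toReal_zero] at h3
  exact h3

/-- Averaged comparison at scale `L'`. -/
lemma avg_comp [MeasurableEq Y2] (hq : Measurable q) (hA : MeasurableSet A)
    (hA' : MeasurableSet A')
    (hlt : ∀ y u u', (y, u) ∈ A → (y, u') ∈ A' → q (y, u) < q (y, u')) {m : ℝ} (hm : 0 < m)
    (hmA : ∀ᵐ y ∂ν1, ν2 {u | (y, u) ∈ A} = ENNReal.ofReal m)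
    (hmA' : ∀ᵐ y ∂ν1, ν2 {u | (y, u) ∈ A'} = ENNReal.ofReal m) {j : ℕ}
    (Rg : Reg (ν1.prod ν2) q 1 (fun N => 2 * N + 1) (j : ℝ)) {r : ℝ} (hr : 0 < r)
    (hN : r * ((j : ℝ) + 1) ≤ (L' : ℝ) + 1) (hLL : L ≤ L') (hw : ∀ z, Measurable (w z))
    (h0 : ∀ z a, 0 ≤ w z a) (h1 : ∀ z a, w z a ≤ 1) {η1 η2 g : ℝ} (hη2 : 0 ≤ η2)
    (c1 : 2 * Rg.C0 / (r * m) ≤ η1) (c2 : er ν1 ν2 q A A' j / m ≤ η1)
    (c3 : (PJ (ν1.prod ν2)).real (Rg.G L')ᶜ ≤ η1)
    (c4 : Real.sqrt (((box (4 * L + 4)).card : ℝ) / ((box L').card : ℝ)) ≤ η2)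
    (c5 : (∑ v ∈ box (R - L'), gap ν1 ν2 q i A' L L' (ws v w)) / ((box (R - L')).card : ℝ) ≤ g)
    (c6 : Real.exp (2 * r ^ 2 * ((j : ℝ) + 1) ^ 2) * Real.sqrt (2 * (η2 + g)) ≤ η1) :
    ∑ v ∈ box (R - L'), Xb ν1 ν2 q i A L' (ws v w)
      ≤ ∑ v ∈ box (R - L'), Yb ν1 ν2 q i A' L' (ws v w)
        + ((box (R - L')).card : ℝ) * (4 * η1) := by
  have hb := box_pos (R - L')
  set M := Real.exp (2 * r ^ 2 * ((j : ℝ) + 1) ^ 2) with hM
  have hM0 : 0 < M := Real.exp_pos _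
  have key : ∀ v ∈ box (R - L'), Xb ν1 ν2 q i A L' (ws v w)
      ≤ Yb ν1 ν2 q i A' L' (ws v w)
        + (M * Real.sqrt (2 * (η2 + gap ν1 ν2 q i A' L L' (ws v w))) + 3 * η1) := by
    intro v _
    have h := comp (i := i) hq hA hA' hlt hm hmA hmA' Rg hr hN hLL (ws_meas hw v)
      (ws_nonneg h0 v) (ws_le_one h1 v)
    have h2 : Real.sqrt (2 * (Real.sqrt (((box (4 * L + 4)).card : ℝ) / ((box L').card : ℝ))
          + gap ν1 ν2 q i A' L L' (ws v w)))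
        ≤ Real.sqrt (2 * (η2 + gap ν1 ν2 q i A' L L' (ws v w))) := by
      apply Real.sqrt_le_sqrt
      linarith
    have h3 := mul_le_mul_of_nonneg_left h2 hM0.le
    unfold er at c2
    linarith
  refine (Finset.sum_le_sum key).trans ?_
  rw [Finset.sum_add_distrib, Finset.sum_add_distrib, Finset.sum_const, nsmul_eq_mul,
    ← Finset.mul_sum]
  have h4 := avg_sqrt (s := box (R - L')) hb hη2 (g := fun v => gap ν1 ν2 q i A' L L' (ws v w))
    (fun v => gap_nonneg hq hA' (ws_meas hw v) (ws_nonneg h0 v) (ws_le_one h1 v) hLL)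
  rw [div_le_iff₀ hb] at h4
  have h5 : Real.sqrt (2 * (η2 + (∑ v ∈ box (R - L'), gap ν1 ν2 q i A' L L' (ws v w)) /
      ((box (R - L')).card : ℝ))) ≤ Real.sqrt (2 * (η2 + g)) := by
    apply Real.sqrt_le_sqrt
    linarith
  have h6 : M * ∑ v ∈ box (R - L'), Real.sqrt (2 * (η2 + gap ν1 ν2 q i A' L L' (ws v w)))
      ≤ ((box (R - L')).card : ℝ) * η1 := by
    calc M * ∑ v ∈ box (R - L'), Real.sqrt (2 * (η2 + gap ν1 ν2 q i A' L L' (ws v w)))
        ≤ M * (Real.sqrt (2 * (η2 + g)) * ((box (R - L')).card : ℝ)) := by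
          apply mul_le_mul_of_nonneg_left _ hM0.le
          exact h4.trans (mul_le_mul_of_nonneg_right h5 hb.le)
      _ = ((box (R - L')).card : ℝ) * (M * Real.sqrt (2 * (η2 + g))) := by ring
      _ ≤ ((box (R - L')).card : ℝ) * η1 := mul_le_mul_of_nonneg_left c6 hb.le
  linarith

/-- The requirements on two consecutive scales. -/
lemma exists_next (ν1 : Measure Y1) [IsProbabilityMeasure ν1] (ν2 : Measure Y2)
    [IsProbabilityMeasure ν2] {q : Y1 × Y2 → ℝ} {j : ℕ}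
    (Rg : Reg (ν1.prod ν2) q 1 (fun N => 2 * N + 1) (j : ℝ)) (r : ℝ) {η1 η2 : ℝ} (hη1 : 0 < η1)
    (hη2 : 0 < η2) (L : ℕ) : ∃ L' : ℕ, L ≤ L' ∧ r * ((j : ℝ) + 1) ≤ (L' : ℝ) + 1 ∧
      Real.sqrt (((box (4 * L + 4)).card : ℝ) / ((box L').card : ℝ)) ≤ η2 ∧
      1 - ((box (L' - L)).card : ℝ) / ((box L').card : ℝ) ≤ η2 ∧
      (PJ (ν1.prod ν2)).real (Rg.G L')ᶜ ≤ η1 := by
  have e1 : ∀ᶠ L' : ℕ in atTop, L ≤ L' := eventually_ge_atTop L
  have e2 : ∀ᶠ L' : ℕ in atTop, r * ((j : ℝ) + 1) ≤ (L' : ℝ) :=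
    tendsto_natCast_atTop_atTop.eventually_ge_atTop _
  have e3 : Tendsto (fun L' : ℕ => Real.sqrt (((box (4 * L + 4)).card : ℝ) /
      ((box L').card : ℝ))) atTop (𝓝 0) := by
    have h1 : Tendsto (fun L' : ℕ => ((box (4 * L + 4)).card : ℝ) / ((box L').card : ℝ)) atTop
        (𝓝 0) := by
      apply Tendsto.div_atTop tendsto_const_nhds
      apply tendsto_atTop_mono (f := fun L' : ℕ => (L' : ℝ))
      · intro L'
        rw [box_cast]
        have : (0 : ℝ) ≤ L' := Nat.cast_nonneg _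
        nlinarith
      · exact tendsto_natCast_atTop_atTop
    have h2 := h1.sqrt
    rwa [Real.sqrt_zero] at h2
  have e4 : Tendsto (fun L' : ℕ => 1 - ((box (L' - L)).card : ℝ) / ((box L').card : ℝ)) atTop
      (𝓝 0) := by
    have := (card_ratio L).const_sub 1
    rwa [sub_self] at this
  obtain ⟨L', h1, h2, h3, h4, h5⟩ := (e1.and (e2.and ((e3.eventually_le_const hη2).and
    ((e4.eventually_le_const hη2).and (Rg.prob.eventually_le_const hη1))))).exists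
  exact ⟨L', h1, by linarith, h3, h4, h5⟩

lemma tendsto_box_err (L L' : ℕ) : Tendsto (fun R : ℕ =>
    (((box (R - L)).card : ℝ) - ((box (R - 2 * L')).card : ℝ)) / ((box (R - L')).card : ℝ))
    atTop (𝓝 0) := by
  have h1 := (card_ratio L).sub (card_ratio (2 * L'))
  rw [sub_self] at h1
  have h2 := h1.div (card_ratio L') one_ne_zero
  rw [zero_div] at h2
  refine h2.congr (fun R => ?_)
  have := box_pos R
  have := box_pos (R - L')
  show (((box (R - L)).card : ℝ) / ((box R).card : ℝ) - ((box (R - 2 * L')).card : ℝ) /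
    ((box R).card : ℝ)) / (((box (R - L')).card : ℝ) / ((box R).card : ℝ)) = _
  field_simp

lemma sum_gap_le (h0 : ∀ z a, 0 ≤ w z a) (h1 : ∀ z a, w z a ≤ 1) {Ls : ℕ → ℕ}
    (hLs : ∀ k, Ls k ≤ Ls (k + 1)) {η2 : ℝ}
    (hr : ∀ k, 1 - ((box (Ls (k + 1) - Ls k)).card : ℝ) / ((box (Ls (k + 1))).card : ℝ) ≤ η2)
    {K : ℕ} (hR : ∀ k < K, 2 * Ls (k + 1) ≤ R)
    (hR2 : ∀ k < K, (((box (R - Ls k)).card : ℝ) - ((box (R - 2 * Ls (k + 1))).card : ℝ)) /
      ((box (R - Ls (k + 1))).card : ℝ) ≤ η2) :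
    ∑ k ∈ Finset.range K, (∑ v ∈ box (R - Ls (k + 1)),
      gap ν1 ν2 q i A (Ls k) (Ls (k + 1)) (ws v w)) / ((box (R - Ls (k + 1))).card : ℝ)
      ≤ 1 + K * (2 * η2) := by
  have h2 : ∀ k ∈ Finset.range K, (∑ v ∈ box (R - Ls (k + 1)),
      gap ν1 ν2 q i A (Ls k) (Ls (k + 1)) (ws v w)) / ((box (R - Ls (k + 1))).card : ℝ)
      ≤ (yy ν1 ν2 q i A R (Ls (k + 1)) w - yy ν1 ν2 q i A R (Ls k) w) + 2 * η2 := by
    intro k hk
    rw [Finset.mem_range] at hk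
    have h3 := avg_gap (ν1 := ν1) (ν2 := ν2) (q := q) (i := i) (A := A) h0 h1 (hLs k) (hR k hk)
    have h4 := hr k
    have h5 := hR2 k hk
    linarith
  refine (Finset.sum_le_sum h2).trans ?_
  rw [Finset.sum_add_distrib, Finset.sum_const, Finset.card_range, nsmul_eq_mul,
    Finset.sum_range_sub (fun k => yy ν1 ν2 q i A R (Ls k) w)]
  have h6 := (yy_bd (ν1 := ν1) (ν2 := ν2) (q := q) (i := i) (A := A) (R := R) (L := Ls K) h0 h1).2
  have h7 := (yy_bd (ν1 := ν1) (ν2 := ν2) (q := q) (i := i) (A := A) (R := R) (L := Ls 0) h0 h1).1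
  linarith

/-- Theorem K. -/
theorem main_K [MeasurableEq Y2] (ν1 : Measure Y1) [IsProbabilityMeasure ν1] (ν2 : Measure Y2)
    [IsProbabilityMeasure ν2] {q : Y1 × Y2 → ℝ} (hq : Measurable q)
    (hat : ∀ᵐ y ∂ν1, ∀ x : ℝ, ν2 {u | q (y, u) = x} = 0) (i : Fin 2) :
    ∀ ε > 0, ∃ N0 : ℕ, ∀ N ≥ N0, ∀ w : V → (E → Y1) → ℝ, (∀ z, Measurable (w z)) →
      (∀ z a, 0 ≤ w z a) → (∀ z a, w z a ≤ 1) →
      ∫ p, (XW i N (fun z => w z p.1) (cp q p.1 p.2) - YW i N (fun z => w z p.1) (cp q p.1 p.2))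
        ∂((PJ ν1).prod (PJ ν2)) ≤ ε * ((box N).card : ℝ) := by
  intro ε hε
  -- number of pieces
  obtain ⟨n', hn'⟩ : ∃ n' : ℕ, 4 / ε ≤ (n' : ℝ) + 1 := by
    obtain ⟨n', h⟩ := exists_nat_ge (4 / ε)
    exact ⟨n', by linarith⟩
  have hn0 : (0 : ℝ) < (n' : ℝ) + 1 := by positivity
  have hnε : 1 / ((n' : ℝ) + 1) ≤ ε / 4 := by
    rw [div_le_iff₀ hn0]
    rw [div_le_iff₀ hε] at hn'
    linarith
  obtain ⟨A, hA, hcov, hdis, hord, hmass⟩ := exists_quant ν1 ν2 hq hat (n := n' + 1)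
    (Nat.succ_pos _)
  have hcast : (1 : ℝ) / ((n' + 1 : ℕ) : ℝ) = 1 / ((n' : ℝ) + 1) := by push_cast; rfl
  rw [hcast] at hmass
  set m : ℝ := 1 / ((n' : ℝ) + 1) with hm
  have hm0 : 0 < m := by positivity
  set η1 : ℝ := ε * m / 16 with hη1
  have hη10 : 0 < η1 := by positivity
  -- truncation level
  have hj : ∃ j : ℕ, ∀ k : Fin n', er ν1 ν2 q (A k.castSucc) (A k.succ) j / m ≤ η1 := by
    have h1 : ∀ k : Fin n', ∀ᶠ j : ℕ in atTop,
        er ν1 ν2 q (A k.castSucc) (A k.succ) j / m ≤ η1 := by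
      intro k
      have h2 := (tendsto_er (ν1 := ν1) (ν2 := ν2) hq (hA k.castSucc) (hA k.succ)
        (hord _ _ (Fin.castSucc_lt_succ))).div_const m
      rw [zero_div] at h2
      exact h2.eventually_le_const hη10
    exact (Filter.eventually_all.2 h1).exists
  obtain ⟨j, hj⟩ := hj
  obtain ⟨Rg⟩ := hasReg1 (ν1.prod ν2) hq (j : ℝ)
  have hC0 := Rg.hC0
  set r : ℝ := 2 * (Rg.C0 + 1) / (m * η1) with hr
  have hr0 : 0 < r := by positivity
  have c1 : 2 * Rg.C0 / (r * m) ≤ η1 := by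
    rw [div_le_iff₀ (by positivity)]
    have : η1 * (r * m) = 2 * (Rg.C0 + 1) := by rw [hr]; field_simp
    rw [this]; linarith
  set M : ℝ := Real.exp (2 * r ^ 2 * ((j : ℝ) + 1) ^ 2) with hM
  have hM0 : 0 < M := Real.exp_pos _
  -- the second accuracy
  set η2 : ℝ := η1 ^ 2 / (2 * M ^ 2 * (1 + 3 * ((n' : ℝ) + 1))) with hη2
  have hη20 : 0 < η2 := by positivity
  have c6 : M * Real.sqrt (2 * (η2 + 3 * ((n' : ℝ) + 1) * η2)) ≤ η1 := by
    have h1 : 2 * (η2 + 3 * ((n' : ℝ) + 1) * η2) = (η1 / M) ^ 2 := by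
      rw [hη2]; field_simp
    rw [h1, Real.sqrt_sq (by positivity)]
    rw [mul_div_assoc', mul_comm, mul_div_assoc, div_self hM0.ne', mul_one]
  choose nx hnx using exists_next ν1 ν2 Rg r hη10 hη20
  set Ls : ℕ → ℕ := fun k => Nat.rec 0 (fun _ l => nx l) k with hLs
  have hLss : ∀ k, Ls (k + 1) = nx (Ls k) := fun k => rfl
  obtain ⟨K, hK⟩ := exists_nat_ge (1 / η2)
  have hKpos : 0 < (K : ℝ) := lt_of_lt_of_le (by positivity) hK
  have hKη : 1 ≤ K * η2 := by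
    rw [div_le_iff₀ hη20] at hK
    exact hK
  -- the large scale
  have hev : ∀ᶠ R : ℕ in atTop, (∀ k < K, 2 * Ls (k + 1) ≤ R ∧
      (((box (R - Ls k)).card : ℝ) - ((box (R - 2 * Ls (k + 1))).card : ℝ)) /
      ((box (R - Ls (k + 1))).card : ℝ) ≤ η2 ∧
      (((box (R - 0)).card : ℝ) - ((box (R - 2 * Ls (k + 1))).card : ℝ)) /
      ((box (R - 0)).card : ℝ) ≤ ε / 4) := by
    have h1 : ∀ k : Fin K, ∀ᶠ R : ℕ in atTop, 2 * Ls (k + 1) ≤ R ∧
      (((box (R - Ls k)).card : ℝ) - ((box (R - 2 * Ls (k + 1))).card : ℝ)) /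
      ((box (R - Ls (k + 1))).card : ℝ) ≤ η2 ∧
      (((box (R - 0)).card : ℝ) - ((box (R - 2 * Ls (k + 1))).card : ℝ)) /
      ((box (R - 0)).card : ℝ) ≤ ε / 4 := by
      intro k
      have h3 : Tendsto (fun R : ℕ => (((box (R - 0)).card : ℝ) -
          ((box (R - 2 * Ls (k + 1))).card : ℝ)) / ((box (R - 0)).card : ℝ)) atTop (𝓝 0) := by
        have h4 := (card_ratio (2 * Ls (k + 1))).const_sub 1
        rw [sub_self] at h4
        refine h4.congr (fun R => ?_)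
        have := box_pos R
        rw [Nat.sub_zero]
        field_simp
      exact (eventually_ge_atTop _).and (((tendsto_box_err (Ls k)
        (Ls (k + 1))).eventually_le_const hη20).and (h3.eventually_le_const (by positivity)))
    filter_upwards [Filter.eventually_all.2 h1] with R hR k hk
    exact hR ⟨k, hk⟩
  obtain ⟨N0, hN0⟩ := eventually_atTop.1 hev
  refine ⟨N0, fun R hR w hw h0 h1 => ?_⟩
  have hRk := hN0 R hR
  have hLmono : ∀ k, Ls k ≤ Ls (k + 1) := fun k => by rw [hLss]; exact (hnx (Ls k)).1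
  -- pigeonhole
  set G : ℕ → Fin n' → ℝ := fun k l => (∑ v ∈ box (R - Ls (k + 1)),
      gap ν1 ν2 q i (A l.succ) (Ls k) (Ls (k + 1)) (ws v w)) /
      ((box (R - Ls (k + 1))).card : ℝ) with hG
  have hG0 : ∀ k l, 0 ≤ G k l := fun k l => div_nonneg (Finset.sum_nonneg (fun v _ =>
    gap_nonneg hq (hA _) (ws_meas hw v) (ws_nonneg h0 v) (ws_le_one h1 v) (hLmono k)))
    (box_pos _).le
  have hGs : ∀ l, ∑ k ∈ Finset.range K, G k l ≤ 1 + K * (2 * η2) := fun l =>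
    sum_gap_le h0 h1 hLmono (fun k => (hnx (Ls k)).2.2.2.1) (fun k hk => (hRk k hk).1)
      (fun k hk => (hRk k hk).2.1)
  have hpig : ∃ k < K, ∀ l, G k l ≤ 3 * ((n' : ℝ) + 1) * η2 := by
    by_contra hcon
    push Not at hcon
    have h2 : ∀ k ∈ Finset.range K, 3 * ((n' : ℝ) + 1) * η2 < ∑ l, G k l := by
      intro k hk
      obtain ⟨l, hl⟩ := hcon k (Finset.mem_range.1 hk)
      exact hl.trans_le (Finset.single_le_sum (f := fun l => G k l) (fun l _ => hG0 k l)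
        (Finset.mem_univ l))
    have hKne : (Finset.range K).Nonempty := by
      rw [Finset.nonempty_range_iff]
      intro h
      rw [h] at hKpos
      simp at hKpos
    have h3 := Finset.sum_lt_sum_of_nonempty hKne h2
    rw [Finset.sum_const, Finset.card_range, nsmul_eq_mul, Finset.sum_comm] at h3
    have h4 : ∑ l, ∑ k ∈ Finset.range K, G k l ≤ (n' : ℝ) * (1 + K * (2 * η2)) := by
      calc ∑ l : Fin n', ∑ k ∈ Finset.range K, G k l ≤ ∑ l : Fin n', (1 + K * (2 * η2)) :=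
            Finset.sum_le_sum (fun l _ => hGs l)
        _ = (n' : ℝ) * (1 + K * (2 * η2)) := by
            rw [Finset.sum_const, Finset.card_univ, Fintype.card_fin, nsmul_eq_mul]
    have h5 : (n' : ℝ) * (1 + K * (2 * η2)) ≤ K * (3 * ((n' : ℝ) + 1) * η2) := by
      have h6 : (0 : ℝ) ≤ n' := Nat.cast_nonneg _
      have h7 : (n' : ℝ) * 1 ≤ n' * (K * η2) := mul_le_mul_of_nonneg_left hKη h6
      nlinarith
    linarith
  obtain ⟨k, hkK, hk⟩ := hpig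
  set L' := Ls (k + 1) with hL'
  obtain ⟨hRL, -, hRe⟩ := hRk k hkK
  have hnk := hnx (Ls k)
  rw [← hLss] at hnk
  have hwin := X_window (ν1 := ν1) (ν2 := ν2) (i := i) hq hw h0 h1 hRL
  have hb := box_pos (R - L')
  -- comparison of consecutive pieces
  have hpair : ∀ l : Fin n', ∑ v ∈ box (R - L'), Xb ν1 ν2 q i (A l.castSucc) L' (ws v w)
      ≤ ∑ v ∈ box (R - L'), Yb ν1 ν2 q i (A l.succ) L' (ws v w)
        + ((box (R - L')).card : ℝ) * (4 * η1) := fun l =>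
    avg_comp hq (hA _) (hA _) (hord _ _ (Fin.castSucc_lt_succ)) hm0 (hmass _) (hmass _) Rg hr0
      hnk.2.1 hnk.1 hw h0 h1 hη20.le c1 (hj l) hnk.2.2.2.2 hnk.2.2.1 (hk l) c6
  have hlast : ∑ v ∈ box (R - L'), Xb ν1 ν2 q i (A (Fin.last n')) L' (ws v w)
      ≤ ((box (R - L')).card : ℝ) * m := by
    calc ∑ v ∈ box (R - L'), Xb ν1 ν2 q i (A (Fin.last n')) L' (ws v w)
        ≤ ∑ v ∈ box (R - L'), m := Finset.sum_le_sum (fun v _ =>
          Xb_le_mass hq (hA _) hm0.le (hmass _) (ws_meas hw v) (ws_nonneg h0 v)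
            (ws_le_one h1 v) L')
      _ = _ := by rw [Finset.sum_const, nsmul_eq_mul]
  have htot : ∑ v ∈ box (R - L'), (Xb ν1 ν2 q i univ L' (ws v w)
      - Yb ν1 ν2 q i univ L' (ws v w)) ≤ ((box (R - L')).card : ℝ) * (ε / 2) := by
    rw [Finset.sum_sub_distrib]
    have s1 : ∑ v ∈ box (R - L'), Xb ν1 ν2 q i univ L' (ws v w)
        ≤ ∑ v ∈ box (R - L'), ∑ k, Xb ν1 ν2 q i (A k) L' (ws v w) :=
      Finset.sum_le_sum (fun v _ => (split_pieces hq hA hcov hdis (ws_meas hw v)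
        (ws_nonneg h0 v) (ws_le_one h1 v) L').1)
    have s2 : ∑ v ∈ box (R - L'), ∑ k, Yb ν1 ν2 q i (A k) L' (ws v w)
        ≤ ∑ v ∈ box (R - L'), Yb ν1 ν2 q i univ L' (ws v w) :=
      Finset.sum_le_sum (fun v _ => (split_pieces hq hA hcov hdis (ws_meas hw v)
        (ws_nonneg h0 v) (ws_le_one h1 v) L').2)
    rw [Finset.sum_comm, Fin.sum_univ_castSucc] at s1
    rw [Finset.sum_comm, Fin.sum_univ_succ] at s2
    have s3 : 0 ≤ ∑ v ∈ box (R - L'), Yb ν1 ν2 q i (A 0) L' (ws v w) :=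
      Finset.sum_nonneg (fun v _ => (Yb_bd (ws_nonneg h0 v) (ws_le_one h1 v) L').1)
    have s4 : ∑ l : Fin n', ∑ v ∈ box (R - L'), Xb ν1 ν2 q i (A l.castSucc) L' (ws v w)
        ≤ ∑ l : Fin n', ∑ v ∈ box (R - L'), Yb ν1 ν2 q i (A l.succ) L' (ws v w)
          + (n' : ℝ) * (((box (R - L')).card : ℝ) * (4 * η1)) := by
      refine (Finset.sum_le_sum (fun l _ => hpair l)).trans (le_of_eq ?_)
      rw [Finset.sum_add_distrib, Finset.sum_const, Finset.card_univ, Fintype.card_fin,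
        nsmul_eq_mul]
    have s5 : (n' : ℝ) * (((box (R - L')).card : ℝ) * (4 * η1))
        ≤ ((box (R - L')).card : ℝ) * (ε / 4) := by
      have h6 : (n' : ℝ) * m ≤ 1 := by
        rw [hm, mul_one_div, div_le_one hn0]; linarith
      have h7 : (n' : ℝ) * (((box (R - L')).card : ℝ) * (4 * η1))
          = ((box (R - L')).card : ℝ) * (ε / 4) * ((n' : ℝ) * m) := by rw [hη1]; ring
      rw [h7]
      exact mul_le_of_le_one_right (by positivity) h6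
    have s6 : ((box (R - L')).card : ℝ) * m ≤ ((box (R - L')).card : ℝ) * (ε / 4) :=
      mul_le_mul_of_nonneg_left hnε hb.le
    linarith
  have hbR := box_pos R
  rw [Nat.sub_zero, div_le_iff₀ hbR] at hRe
  have hle : ((box (R - L')).card : ℝ) ≤ ((box R).card : ℝ) := by
    exact_mod_cast Finset.card_le_card (box_mono (by omega))
  have h9 : ((box (R - L')).card : ℝ) * (ε / 2) ≤ ((box R).card : ℝ) * (ε / 2) :=
    mul_le_mul_of_nonneg_right hle (by positivity)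
  have h10 : 0 ≤ ε * ((box R).card : ℝ) := by positivity
  linarith

end Pool.H66.CH
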