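import Pool.Agent.Helper66.CH.Defs2
import Pool.Agent.Helper66.CH.Zip

set_option autoImplicit false
set_option linter.unusedSectionVars false

/-! MODULE M5. From convergence in mean to almost sure convergence. -/

namespace Pool.H66.CH

open MeasureTheory Set ProbabilityTheory Filter Topology Pool.H66.EAM
open scoped ENNReal

/-- Half of the sum of the two bond products at `x`. -/
noncomputable def ovf (σ τ : V → ℝ) (x : V) : ℝ :=
  (∑ i : Fin 2, bond σ (x, i) * bond τ (x, i)) / 2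

lemma overlap_eq (N : ℕ) (σ τ : V → ℝ) :
    overlap N σ τ = (∑ x ∈ box N, ovf σ τ x) / ((box N).card : ℝ) := by
  unfold overlap ovf
  rw [← Finset.sum_div, div_div]

lemma abs_ovf {σ τ : V → ℝ} (hσ : IsSpin σ) (hτ : IsSpin τ) (x : V) : |ovf σ τ x| ≤ 1 := by
  unfold ovf
  rw [abs_div, abs_of_pos (by norm_num : (0 : ℝ) < 2), div_le_iff₀ (by norm_num)]
  refine (Finset.abs_sum_le_sum_abs _ _).trans ?_
  have : ∀ i ∈ (Finset.univ : Finset (Fin 2)), |bond σ (x, i) * bond τ (x, i)| ≤ 1 := by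
    intro i _
    rw [abs_mul, abs_bond hσ, abs_bond hτ, one_mul]
  refine (Finset.sum_le_sum this).trans ?_
  simp

lemma abs_overlap {N : ℕ} {σ τ : V → ℝ} (hσ : IsSpin σ) (hτ : IsSpin τ) :
    |overlap N σ τ| ≤ 1 := by
  have hpos := box_pos N
  rw [overlap_eq, abs_div, abs_of_pos hpos, div_le_iff₀ hpos, one_mul]
  refine (Finset.abs_sum_le_sum_abs _ _).trans ?_
  refine (Finset.sum_le_sum (fun x _ => abs_ovf hσ hτ x)).trans ?_
  simp

lemma ovf_shS (σ τ : V → ℝ) (v z : V) : ovf (shS v σ) (shS v τ) z = ovf σ τ (z + v) := by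
  unfold ovf
  congr 1
  apply Finset.sum_congr rfl
  intro i _
  rw [bond_shS, bond_shS]
  rfl

/-- The vertices which matter. -/
noncomputable def WL (L : ℕ) : Finset V := clo (box (2 * L + 1))

lemma overlap_congr {L : ℕ} {σ τ σ' τ' : V → ℝ} (h1 : ∀ x ∈ WL L, σ x = σ' x)
    (h2 : ∀ x ∈ WL L, τ x = τ' x) : overlap L σ τ = overlap L σ' τ' := by
  unfold overlap
  congr 1
  apply Finset.sum_congr rfl
  intro x hx
  apply Finset.sum_congr rfl
  intro i _
  have hnb : ((x, i) : E) ∈ nbhd (box (2 * L + 1)) := by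
    rw [mem_nbhd]
    exact Or.inl (box_mono (by omega) hx)
  have e1 : bond σ (x, i) = bond σ' (x, i) := by
    show σ x * σ (tip (x, i)) = σ' x * σ' (tip (x, i))
    rw [h1 _ (clo_fst hnb), h1 _ (clo_tip hnb)]
  have e2 : bond τ (x, i) = bond τ' (x, i) := by
    show τ x * τ (tip (x, i)) = τ' x * τ' (tip (x, i))
    rw [h2 _ (clo_fst hnb), h2 _ (clo_tip hnb)]
  rw [e1, e2]

/-- The two conditions. -/
def Cnd (T : ℝ × ℝ → ℝ) (L : ℕ) (ω : E → ℝ × ℝ) (σ τ : V → ℝ) : Prop :=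
  LG (box (2 * L + 1)) (cpl Prod.fst ω) σ ∧ LG (box (2 * L + 1)) (cpl T ω) τ

lemma measurableSet_Cnd {T : ℝ × ℝ → ℝ} (hT : Measurable T) (L : ℕ) (σ τ : V → ℝ) :
    MeasurableSet {ω | Cnd T L ω σ τ} := by
  have h1 : MeasurableSet {ω : E → ℝ × ℝ | LG (box (2 * L + 1)) (cpl Prod.fst ω) σ} :=
    (measurable_cpl measurable_fst) (measurableSet_LG _ σ)
  have h2 : MeasurableSet {ω : E → ℝ × ℝ | LG (box (2 * L + 1)) (cpl T ω) τ} :=
    (measurable_cpl hT) (measurableSet_LG _ τ)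
  exact h1.inter h2

open Classical in
/-- One term of the maximal deviation. -/
noncomputable def term (T : ℝ × ℝ → ℝ) (c : ℝ) (L : ℕ) (st : Finset V × Finset V)
    (ω : E → ℝ × ℝ) : ℝ :=
  if Cnd T L ω (pat st.1) (pat st.2) then |overlap L (pat st.1) (pat st.2) - c| else 0

lemma WL_nonempty (L : ℕ) : ((WL L).powerset ×ˢ (WL L).powerset).Nonempty :=
  ⟨(∅, ∅), Finset.mem_product.2 ⟨Finset.empty_mem_powerset _, Finset.empty_mem_powerset _⟩⟩

/-- The maximal deviation of the overlap. -/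
noncomputable def DD (T : ℝ × ℝ → ℝ) (c : ℝ) (L : ℕ) (ω : E → ℝ × ℝ) : ℝ :=
  ((WL L).powerset ×ˢ (WL L).powerset).sup' (WL_nonempty L) (fun st => term T c L st ω)

lemma measurable_DD {T : ℝ × ℝ → ℝ} (hT : Measurable T) (c : ℝ) (L : ℕ) :
    Measurable (DD T c L) := by
  have h : Measurable (((WL L).powerset ×ˢ (WL L).powerset).sup' (WL_nonempty L)
      (fun st ω => term T c L st ω)) := by
    apply Finset.measurable_sup'
    intro st _
    exact Measurable.ite (measurableSet_Cnd hT L _ _) measurable_const measurable_const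
  have h2 : DD T c L = ((WL L).powerset ×ˢ (WL L).powerset).sup' (WL_nonempty L)
      (fun st ω => term T c L st ω) := by
    funext ω
    rw [Finset.sup'_apply]
    rfl
  rw [h2]
  exact h

lemma term_nonneg (T : ℝ × ℝ → ℝ) (c : ℝ) (L : ℕ) (st : Finset V × Finset V)
    (ω : E → ℝ × ℝ) : 0 ≤ term T c L st ω := by
  unfold term
  split_ifs
  · exact abs_nonneg _
  · exact le_rfl

lemma DD_nonneg (T : ℝ × ℝ → ℝ) (c : ℝ) (L : ℕ) (ω : E → ℝ × ℝ) : 0 ≤ DD T c L ω := by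
  obtain ⟨st, hst⟩ := WL_nonempty L
  exact (term_nonneg T c L st ω).trans (Finset.le_sup' (fun st => term T c L st ω) hst)

lemma term_le (T : ℝ × ℝ → ℝ) (c : ℝ) (L : ℕ) (st : Finset V × Finset V)
    (ω : E → ℝ × ℝ) : term T c L st ω ≤ 1 + |c| := by
  unfold term
  split_ifs
  · refine (abs_sub _ _).trans ?_
    exact add_le_add (abs_overlap (pat_spin _) (pat_spin _)) le_rfl
  · positivity

lemma DD_le (T : ℝ × ℝ → ℝ) (c : ℝ) (L : ℕ) (ω : E → ℝ × ℝ) : DD T c L ω ≤ 1 + |c| :=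
  Finset.sup'_le _ _ (fun st _ => term_le T c L st ω)

lemma le_DD {T : ℝ × ℝ → ℝ} {c : ℝ} {L : ℕ} {ω : E → ℝ × ℝ} {σ τ : V → ℝ} (hσ : IsSpin σ)
    (hτ : IsSpin τ) (h : Cnd T L ω σ τ) : |overlap L σ τ - c| ≤ DD T c L ω := by
  obtain ⟨s, hs, hs'⟩ := exists_pat hσ (WL L)
  obtain ⟨t, ht, ht'⟩ := exists_pat hτ (WL L)
  have hst : (s, t) ∈ (WL L).powerset ×ˢ (WL L).powerset :=
    Finset.mem_product.2 ⟨Finset.mem_powerset.2 hs, Finset.mem_powerset.2 ht⟩
  have h1 : Cnd T L ω (pat s) (pat t) := ⟨LG_congr hs' h.1, LG_congr ht' h.2⟩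
  have h2 : term T c L (s, t) ω = |overlap L (pat s) (pat t) - c| := by
    unfold term
    rw [if_pos h1]
  rw [overlap_congr hs' ht', ← h2]
  exact Finset.le_sup' (fun st => term T c L st ω) hst

/-- The maximal deviation is bounded by any common bound. -/
lemma DD_le_of {T : ℝ × ℝ → ℝ} {c : ℝ} {L : ℕ} {ω : E → ℝ × ℝ} {H : ℝ} (hH : 0 ≤ H)
    (h : ∀ σ τ : V → ℝ, IsSpin σ → IsSpin τ → Cnd T L ω σ τ → |overlap L σ τ - c| ≤ H) :
    DD T c L ω ≤ H := by
  apply Finset.sup'_le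
  intro st _
  unfold term
  split_ifs with h1
  · exact h _ _ (pat_spin _) (pat_spin _) h1
  · exact hH

lemma DD_loc (T : ℝ × ℝ → ℝ) (c : ℝ) (L : ℕ) : Loc (nbhd (box (2 * L + 1))) (DD T c L) := by
  intro ω ω' h
  have h1 : ∀ st : Finset V × Finset V,
      Cnd T L ω (pat st.1) (pat st.2) ↔ Cnd T L ω' (pat st.1) (pat st.2) := by
    intro st
    unfold Cnd
    constructor
    · rintro ⟨a, b⟩
      exact ⟨LG_congrJ (fun e he => congrArg Prod.fst (h e he)) a,
        LG_congrJ (fun e he => congrArg T (h e he)) b⟩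
    · rintro ⟨a, b⟩
      exact ⟨LG_congrJ (fun e he => congrArg Prod.fst (h e he).symm) a,
        LG_congrJ (fun e he => congrArg T (h e he).symm) b⟩
  have h2 : (fun st => term T c L st ω) = fun st => term T c L st ω' := by
    funext st
    unfold term
    by_cases hc : Cnd T L ω (pat st.1) (pat st.2)
    · rw [if_pos hc, if_pos ((h1 st).1 hc)]
    · rw [if_neg hc, if_neg (fun h => hc ((h1 st).2 h))]
  unfold DD
  rw [h2]

/-- Averaging over windows. -/
lemma window_abs {L N : ℕ} (h2 : L ≤ N) (ψ : V → ℝ) {C : ℝ} (hC : ∀ x, |ψ x| ≤ C) :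
    ((box L).card : ℝ) * |∑ x ∈ box N, ψ x|
      ≤ ∑ v ∈ box (N - L), |∑ z ∈ box L, ψ (z + v)|
        + ((box L).card : ℝ) * (C * (((box N).card : ℝ) - ((box (N - L)).card : ℝ))) := by
  classical
  have key : ∀ z ∈ box L, |∑ x ∈ box N, ψ x - ∑ v ∈ box (N - L), ψ (z + v)|
      ≤ C * (((box N).card : ℝ) - ((box (N - L)).card : ℝ)) := by
    intro z hz
    have hsub : (box (N - L)).image (fun v => z + v) ⊆ box N := by
      intro x hx
      rw [Finset.mem_image] at hx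
      obtain ⟨v, hv, rfl⟩ := hx
      rw [mem_box] at hv hz ⊢
      intro j
      have a1 := hv j
      have a2 := hz j
      have a4 : ((N - L : ℕ) : ℤ) = N - L := by push_cast [Nat.cast_sub h2]; ring
      simp only [Pi.add_apply]
      constructor <;> linarith [a1.1, a1.2, a2.1, a2.2]
    have hinj : Function.Injective (fun v : V => z + v) := fun a b h => add_left_cancel h
    have hs : ∑ v ∈ box (N - L), ψ (z + v) = ∑ x ∈ (box (N - L)).image (fun v => z + v), ψ x :=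
      (Finset.sum_image (fun a _ b _ h => hinj h)).symm
    rw [hs, ← Finset.sum_sdiff hsub, add_sub_cancel_right]
    refine (Finset.abs_sum_le_sum_abs _ _).trans ?_
    refine (Finset.sum_le_sum (fun x _ => hC x)).trans ?_
    rw [Finset.sum_const, nsmul_eq_mul, Finset.card_sdiff_of_subset hsub,
      Finset.card_image_of_injective _ hinj, Nat.cast_sub (Finset.card_le_card (box_mono (Nat.sub_le _ _)))]
    linarith
  have e1 : ((box L).card : ℝ) * ∑ x ∈ box N, ψ x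
      = ∑ z ∈ box L, (∑ x ∈ box N, ψ x - ∑ v ∈ box (N - L), ψ (z + v))
        + ∑ v ∈ box (N - L), ∑ z ∈ box L, ψ (z + v) := by
    rw [Finset.sum_sub_distrib, Finset.sum_const, nsmul_eq_mul, Finset.sum_comm (s := box L)]
    ring
  have e2 : ((box L).card : ℝ) * |∑ x ∈ box N, ψ x| = |((box L).card : ℝ) * ∑ x ∈ box N, ψ x| := by
    rw [abs_mul, abs_of_pos (box_pos L)]
  rw [e2, e1]
  refine (abs_add_le _ _).trans ?_
  have e3 : |∑ z ∈ box L, (∑ x ∈ box N, ψ x - ∑ v ∈ box (N - L), ψ (z + v))|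
      ≤ ((box L).card : ℝ) * (C * (((box N).card : ℝ) - ((box (N - L)).card : ℝ))) := by
    refine (Finset.abs_sum_le_sum_abs _ _).trans ?_
    refine (Finset.sum_le_sum key).trans ?_
    rw [Finset.sum_const, nsmul_eq_mul]
  have e4 := Finset.abs_sum_le_sum_abs (fun v => ∑ z ∈ box L, ψ (z + v)) (box (N - L))
  linarith

/-- The deterministic window inequality for the overlap. -/
lemma overlap_window {T : ℝ × ℝ → ℝ} {c : ℝ} {L N : ℕ} (hLN : L + 1 ≤ N) {ω : E → ℝ × ℝ}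
    {σ τ : V → ℝ} (hσ : IsSpin σ) (hτ : IsSpin τ) (h1 : LG (box (2 * N)) (cpl Prod.fst ω) σ)
    (h2 : LG (box (2 * N)) (cpl T ω) τ) :
    |overlap N σ τ - c| ≤ (∑ v ∈ box N, DD T c L (shJ v ω)) / ((box N).card : ℝ)
      + (1 + |c|) * (1 - ((box (N - L)).card : ℝ) / ((box N).card : ℝ)) := by
  have hpL := box_pos L
  have hpN := box_pos N
  have hb : ∀ x, |ovf σ τ x - c| ≤ 1 + |c| := fun x =>
    (abs_sub _ _).trans (add_le_add (abs_ovf hσ hτ x) le_rfl)
  have hw := window_abs (L := L) (N := N) (by omega) (fun x => ovf σ τ x - c) hb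
  have hwin : ∀ v ∈ box (N - L), |∑ z ∈ box L, (ovf σ τ (z + v) - c)|
      ≤ ((box L).card : ℝ) * DD T c L (shJ v ω) := by
    intro v hv
    have hin : ∀ x ∈ box (2 * L + 1), x + v ∈ box (2 * N) := by
      intro x hx
      rw [mem_box] at hx hv ⊢
      intro j
      have a1 := hx j
      have a2 := hv j
      simp only [Pi.add_apply]
      push_cast [Nat.cast_sub (show L ≤ N by omega)] at a1 a2 ⊢
      omega
    have hc : Cnd T L (shJ v ω) (shS v σ) (shS v τ) := ⟨LG_sh hin h1, LG_sh hin h2⟩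
    have h3 := le_DD (c := c) (shS_spin hσ) (shS_spin hτ) hc
    have h4 : ∑ z ∈ box L, (ovf σ τ (z + v) - c)
        = ((box L).card : ℝ) * (overlap L (shS v σ) (shS v τ) - c) := by
      rw [overlap_eq, mul_sub, mul_div_cancel₀ _ hpL.ne', Finset.sum_sub_distrib, Finset.sum_const,
        nsmul_eq_mul]
      congr 1
      exact Finset.sum_congr rfl (fun z _ => (ovf_shS σ τ v z).symm)
    rw [h4, abs_mul, abs_of_pos hpL]
    exact mul_le_mul_of_nonneg_left h3 hpL.le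
  have hsum1 : ∑ v ∈ box (N - L), |∑ z ∈ box L, (ovf σ τ (z + v) - c)|
      ≤ ((box L).card : ℝ) * ∑ v ∈ box N, DD T c L (shJ v ω) := by
    refine (Finset.sum_le_sum hwin).trans ?_
    rw [← Finset.mul_sum]
    apply mul_le_mul_of_nonneg_left _ hpL.le
    exact Finset.sum_le_sum_of_subset_of_nonneg (box_mono (Nat.sub_le _ _))
      (fun v _ _ => DD_nonneg _ _ _ _)
  have h5 : |∑ x ∈ box N, (ovf σ τ x - c)| ≤ ∑ v ∈ box N, DD T c L (shJ v ω)
      + (1 + |c|) * (((box N).card : ℝ) - ((box (N - L)).card : ℝ)) := by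
    have h6 : ((box L).card : ℝ) * |∑ x ∈ box N, (ovf σ τ x - c)|
        ≤ ((box L).card : ℝ) * (∑ v ∈ box N, DD T c L (shJ v ω)
          + (1 + |c|) * (((box N).card : ℝ) - ((box (N - L)).card : ℝ))) := by
      refine hw.trans ?_
      rw [mul_add]
      linarith
    exact le_of_mul_le_mul_left h6 hpL
  have h7 : overlap N σ τ - c = (∑ x ∈ box N, (ovf σ τ x - c)) / ((box N).card : ℝ) := by
    rw [overlap_eq, Finset.sum_sub_distrib, Finset.sum_const, nsmul_eq_mul, sub_div,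
      mul_div_cancel_left₀ _ hpN.ne']
  rw [h7, abs_div, abs_of_pos hpN]
  have h8 : (∑ v ∈ box N, DD T c L (shJ v ω)) / ((box N).card : ℝ)
      + (1 + |c|) * (1 - ((box (N - L)).card : ℝ) / ((box N).card : ℝ))
      = (∑ v ∈ box N, DD T c L (shJ v ω)
        + (1 + |c|) * (((box N).card : ℝ) - ((box (N - L)).card : ℝ))) / ((box N).card : ℝ) := by
    field_simp
  rw [h8]
  exact div_le_div_of_nonneg_right h5 hpN.le

/-- For fixed `L` let `D_L (J, J')` be the maximum of `|overlap L σ τ - c|` over the `σ`, `τ` with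
`LG (box (2 L + 1)) J σ`, `LG (box (2 L + 1)) J' τ`; a local measurable function with
`∫ D_L ≤ ∫ H ≤ ε`. For `N ≥ 2 L` every window `v + box (2 L + 1)`, `v ∈ box (N - L - 2)`, lies in
`box (2 N)`, and averaging `overlap` over the windows gives
`|overlap N σ τ - c| ≤ |box N|⁻¹ ∑_v D_L (shJ v J, shJ v J') + C L / N`; now use `lln` (EAM/LLN.lean)
for the field of pairs `PJ (μ.prod lam)` and `mp_zp`. -/
theorem upgrade (μ : Measure ℝ) [IsProbabilityMeasure μ] (lam : Measure ℝ)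
    [IsProbabilityMeasure lam] {T : ℝ × ℝ → ℝ} (hT : Measurable T) {c : ℝ}
    (h : ∀ ε > 0, ∃ N0 : ℕ, ∀ N ≥ N0, ∃ H : (E → ℝ) × (E → ℝ) → ℝ, Measurable H ∧
      (∀ p, 0 ≤ H p) ∧ Integrable H ((PJ μ).prod (PJ lam)) ∧
      ∫ p, H p ∂((PJ μ).prod (PJ lam)) ≤ ε ∧
      ∀ᵐ p ∂((PJ μ).prod (PJ lam)), ∀ σ τ : V → ℝ, IsSpin σ → IsSpin τ →
        LG (box (2 * N + 1)) p.1 σ → LG (box (2 * N + 1)) (cp T p.1 p.2) τ →
        |overlap N σ τ - c| ≤ H p) :
    ∀ᵐ p ∂((PJ μ).prod (PJ lam)), ∀ ε > 0, ∃ N0 : ℕ, ∀ N ≥ N0, ∀ σ τ : V → ℝ,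
      IsGroundIn (box (2 * N)) p.1 σ → IsGroundIn (box (2 * N)) (cp T p.1 p.2) τ →
        |overlap N σ τ - c| ≤ ε := by
  have hmp := mp_zp μ lam
  -- small mean of the maximal deviation
  have hsmall : ∀ ε > 0, ∃ L : ℕ, ∫ ω, DD T c L ω ∂(PJ (μ.prod lam)) ≤ ε := by
    intro ε hε
    obtain ⟨L, hL⟩ := h ε hε
    obtain ⟨H, hHm, hH0, hHi, hHe, hHb⟩ := hL L le_rfl
    refine ⟨L, ?_⟩
    have e1 : ∫ ω, DD T c L ω ∂(PJ (μ.prod lam))
        = ∫ p, DD T c L (zp p.1 p.2) ∂((PJ μ).prod (PJ lam)) := by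
      rw [← hmp.map_eq, integral_map hmp.measurable.aemeasurable
        (measurable_DD hT c L).aestronglyMeasurable]
    rw [e1]
    refine le_trans ?_ hHe
    apply integral_mono_ae
    · exact Integrable.of_bound
        ((measurable_DD hT c L).comp hmp.measurable).aestronglyMeasurable (1 + |c|)
        (ae_of_all _ (fun p => by
          rw [Real.norm_eq_abs, abs_of_nonneg (DD_nonneg _ _ _ _)]
          exact DD_le _ _ _ _))
    · exact hHi
    · filter_upwards [hHb] with p hp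
      exact DD_le_of (hH0 p) (fun σ τ hσ hτ hc => hp σ τ hσ hτ hc.1 hc.2)
  choose! LL hLL using hsmall
  have hlln : ∀ᵐ ω ∂(PJ (μ.prod lam)), ∀ k : ℕ,
      Tendsto (fun N : ℕ => (∑ z ∈ box N, DD T c (LL (1 / ((k : ℝ) + 1))) (shJ z ω)) /
        ((box N).card : ℝ)) atTop
        (𝓝 (∫ ω, DD T c (LL (1 / ((k : ℝ) + 1))) ω ∂(PJ (μ.prod lam)))) := by
    rw [ae_all_iff]
    intro k
    have := lln (μ.prod lam) 1 one_pos _ (DD T c (LL (1 / ((k : ℝ) + 1)))) (measurable_DD hT c _)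
      (1 + |c|) (fun ω => by
        rw [abs_of_nonneg (DD_nonneg _ _ _ _)]
        exact DD_le _ _ _ _) (DD_loc T c _)
    simpa using this
  have hae := hmp.quasiMeasurePreserving.ae hlln
  filter_upwards [hae] with p hp ε hε
  obtain ⟨k, hk⟩ := exists_nat_one_div_lt (show (0 : ℝ) < ε / 4 by positivity)
  have hk1 := hp k
  set L := LL (1 / ((k : ℝ) + 1)) with hLdef
  have hk2 : ∫ ω, DD T c L ω ∂(PJ (μ.prod lam)) ≤ 1 / ((k : ℝ) + 1) :=
    hLL _ (by positivity)
  have hr := card_ratio L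
  have hr2 : Tendsto (fun N : ℕ => (1 + |c|) * (1 - ((box (N - L)).card : ℝ) / ((box N).card : ℝ)))
      atTop (𝓝 0) := by
    have := (hr.const_sub 1).const_mul (1 + |c|)
    simpa using this
  have ev1 := hk1.eventually_lt_const (show ∫ ω, DD T c L ω ∂(PJ (μ.prod lam)) < ε / 2 by linarith)
  have ev2 := hr2.eventually_lt_const (show (0 : ℝ) < ε / 2 by positivity)
  obtain ⟨N0, hN0⟩ := eventually_atTop.1 ((ev1.and ev2).and (eventually_ge_atTop (L + 1)))
  refine ⟨N0, fun N hN σ τ hσ hτ => ?_⟩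
  obtain ⟨⟨a1, a2⟩, a3⟩ := hN0 N hN
  have := overlap_window (T := T) (c := c) a3 (ω := zp p.1 p.2) hσ.spin hτ.spin hσ.lg hτ.lg
  linarith

end Pool.H66.CH
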