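import Pool.Agent.Helper66.CH.Over
import Pool.Agent.Helper66.CH.Scale3
import Pool.Agent.Helper66.CH.Upg
import Pool.Agent.Helper66.CH.Cont
import Pool.Agent.Helper66.CH.QOne
import Pool.Agent.Helper66.CH.Exist

set_option autoImplicit false
set_option linter.unusedSectionVars false

/-! Chaos and incongruence. -/

namespace Pool.H66.CH

open MeasureTheory Set ProbabilityTheory Filter Topology Pool.H66.EAM
open scoped ENNReal

/-- The self overlap `(E m_1² + E m_2²) / 2` of the universal bond function. -/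
noncomputable def qEA (μ : Measure ℝ) [IsProbabilityMeasure μ] (m : Fin 2 → (E → ℝ) → ℝ) : ℝ :=
  (∑ i : Fin 2, ∫ J, m i J ^ 2 ∂(PJ μ)) / 2

variable {μ : Measure ℝ} [IsProbabilityMeasure μ] {m : Fin 2 → (E → ℝ) → ℝ}

lemma IsBond.int_sq (hm : IsBond μ m) (i : Fin 2) : Integrable (fun J => m i J ^ 2) (PJ μ) :=
  Integrable.of_bound ((hm.meas i).pow_const 2).aestronglyMeasurable 1 (ae_of_all _ (fun J => by
    rw [Real.norm_eq_abs, abs_pow]; exact pow_le_one₀ (abs_nonneg _) (hm.bdd i J)))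

lemma IsBond.sq_le (hm : IsBond μ m) (i : Fin 2) : ∫ J, m i J ^ 2 ∂(PJ μ) ≤ 1 := by
  have h := integral_mono (hm.int_sq i) (integrable_const (1 : ℝ)) (fun J => by
    have := hm.bdd i J
    show m i J ^ 2 ≤ 1
    rw [← sq_abs]; exact pow_le_one₀ (abs_nonneg _) this)
  simpa using h

section

variable {lam : Measure ℝ} [IsProbabilityMeasure lam] {T : ℝ × ℝ → ℝ}

lemma qT_term_le (hm : IsBond μ m) (hT : IsPert μ lam T) (i : Fin 2) :
    ∫ p, m i p.1 * m i (cp T p.1 p.2) ∂((PJ μ).prod (PJ lam)) ≤ ∫ J, m i J ^ 2 ∂(PJ μ) := by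
  have h1 : MeasurePreserving (Prod.fst : (E → ℝ) × (E → ℝ) → (E → ℝ))
    ((PJ μ).prod (PJ lam)) (PJ μ) := measurePreserving_fst
  have h2 := mp_pert hT
  have i1 : Integrable (fun p : (E → ℝ) × (E → ℝ) => m i p.1 ^ 2) ((PJ μ).prod (PJ lam)) :=
    h1.integrable_comp_of_integrable (hm.int_sq i)
  have i2 : Integrable (fun p : (E → ℝ) × (E → ℝ) => m i (cp T p.1 p.2) ^ 2)
      ((PJ μ).prod (PJ lam)) := h2.integrable_comp_of_integrable (hm.int_sq i)
  have e1 : ∫ p, m i p.1 ^ 2 ∂((PJ μ).prod (PJ lam)) = ∫ J, m i J ^ 2 ∂(PJ μ) := by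
    have h := integral_map (μ := (PJ μ).prod (PJ lam)) h1.measurable.aemeasurable
      (f := fun J => m i J ^ 2) ((hm.meas i).pow_const 2).aestronglyMeasurable
    rw [h1.map_eq] at h
    exact h.symm
  have e2 : ∫ p, m i (cp T p.1 p.2) ^ 2 ∂((PJ μ).prod (PJ lam)) = ∫ J, m i J ^ 2 ∂(PJ μ) := by
    have h := integral_map (μ := (PJ μ).prod (PJ lam)) h2.measurable.aemeasurable
      (f := fun J => m i J ^ 2) ((hm.meas i).pow_const 2).aestronglyMeasurable
    rw [h2.map_eq] at h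
    exact h.symm
  have i3 : Integrable (fun p : (E → ℝ) × (E → ℝ) => m i p.1 * m i (cp T p.1 p.2))
      ((PJ μ).prod (PJ lam)) := by
    apply Integrable.of_bound (((hm.meas i).comp measurable_fst).mul
      ((hm.meas i).comp (measurable_cp hT.meas))).aestronglyMeasurable 1
    apply ae_of_all
    intro p
    show ‖m i p.1 * m i (cp T p.1 p.2)‖ ≤ 1
    rw [Real.norm_eq_abs, abs_mul]
    exact mul_le_one₀ (hm.bdd i _) (abs_nonneg _) (hm.bdd i _)
  have h3 : ∫ p, m i p.1 * m i (cp T p.1 p.2) ∂((PJ μ).prod (PJ lam))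
      ≤ ∫ p, (m i p.1 ^ 2 + m i (cp T p.1 p.2) ^ 2) / 2 ∂((PJ μ).prod (PJ lam)) := by
    apply integral_mono i3 ((i1.add i2).div_const 2)
    intro p
    show m i p.1 * m i (cp T p.1 p.2) ≤ (m i p.1 ^ 2 + m i (cp T p.1 p.2) ^ 2) / 2
    nlinarith [sq_nonneg (m i p.1 - m i (cp T p.1 p.2))]
  rw [integral_div, integral_add i1 i2, e1, e2] at h3
  linarith

lemma qT_le (hm : IsBond μ m) (hT : IsPert μ lam T) : qT μ lam T m ≤ qEA μ m := by
  unfold qT qEA
  apply div_le_div_of_nonneg_right _ (by norm_num)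
  exact Finset.sum_le_sum (fun i _ => qT_term_le hm hT i)

end

lemma tendsto_qT (hμ : ∀ x : ℝ, μ {x} = 0) (hm : IsBond μ m) (lam : ℕ → Measure ℝ)
    [∀ k, IsProbabilityMeasure (lam k)] (T : ℕ → ℝ × ℝ → ℝ) (hT : ∀ k, IsPert μ (lam k) (T k))
    (hconv : ∀ ε > 0, Tendsto (fun k => (μ.prod (lam k)).real {p | ε < |T k p - p.1|}) atTop
      (𝓝 0)) :
    Tendsto (fun k => qT μ (lam k) (T k) m) atTop (𝓝 (qEA μ m)) := by
  unfold qT qEA
  apply Tendsto.div_const
  apply tendsto_finset_sum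
  intro i _
  have h := tendsto_l1 μ hμ lam T (fun k => (hT k).meas) (fun k => (hT k).law) hconv
    (hm.meas i) (hm.bdd i)
  rw [tendsto_iff_norm_sub_tendsto_zero]
  refine squeeze_zero (fun k => norm_nonneg _) (fun k => ?_) h
  have h1 : MeasurePreserving (Prod.fst : (E → ℝ) × (E → ℝ) → (E → ℝ))
    ((PJ μ).prod (PJ (lam k))) (PJ μ) := measurePreserving_fst
  have e1 : ∫ p, m i p.1 ^ 2 ∂((PJ μ).prod (PJ (lam k))) = ∫ J, m i J ^ 2 ∂(PJ μ) := by
    have h := integral_map (μ := (PJ μ).prod (PJ (lam k))) h1.measurable.aemeasurable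
      (f := fun J => m i J ^ 2) ((hm.meas i).pow_const 2).aestronglyMeasurable
    rw [h1.map_eq] at h
    exact h.symm
  have i1 : Integrable (fun p : (E → ℝ) × (E → ℝ) => m i p.1 ^ 2) ((PJ μ).prod (PJ (lam k))) :=
    h1.integrable_comp_of_integrable (hm.int_sq i)
  have i3 : Integrable (fun p : (E → ℝ) × (E → ℝ) => m i p.1 * m i (cp (T k) p.1 p.2))
      ((PJ μ).prod (PJ (lam k))) := by
    apply Integrable.of_bound (((hm.meas i).comp measurable_fst).mul
      ((hm.meas i).comp (measurable_cp (hT k).meas))).aestronglyMeasurable 1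
    apply ae_of_all
    intro p
    show ‖m i p.1 * m i (cp (T k) p.1 p.2)‖ ≤ 1
    rw [Real.norm_eq_abs, abs_mul]
    exact mul_le_one₀ (hm.bdd i _) (abs_nonneg _) (hm.bdd i _)
  rw [← e1, ← integral_sub i3 i1]
  refine (norm_integral_le_integral_norm _).trans ?_
  apply integral_mono_of_nonneg (ae_of_all _ (fun p => norm_nonneg _))
  · apply Integrable.of_bound ((((hm.meas i).comp (measurable_cp (hT k).meas)).sub
      ((hm.meas i).comp measurable_fst)).abs).aestronglyMeasurable 2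
    apply ae_of_all
    intro p
    show ‖|m i (cp (T k) p.1 p.2) - m i p.1|‖ ≤ 2
    rw [Real.norm_eq_abs, abs_abs]
    have a1 := abs_le.1 (hm.bdd i p.1)
    have a2 := abs_le.1 (hm.bdd i (cp (T k) p.1 p.2))
    rw [abs_le]
    constructor <;> linarith [a1.1, a1.2, a2.1, a2.2]
  · apply ae_of_all
    intro p
    show ‖m i p.1 * m i (cp (T k) p.1 p.2) - m i p.1 ^ 2‖ ≤ |m i (cp (T k) p.1 p.2) - m i p.1|
    have : m i p.1 * m i (cp (T k) p.1 p.2) - m i p.1 ^ 2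
        = m i p.1 * (m i (cp (T k) p.1 p.2) - m i p.1) := by ring
    rw [this, Real.norm_eq_abs, abs_mul]
    exact mul_le_of_le_one_left (abs_nonneg _) (hm.bdd i _)

/-- Chaos and incongruence. -/
theorem main5 (μ : Measure ℝ) [IsProbabilityMeasure μ] (hμ : ∀ x : ℝ, μ {x} = 0) :
    ∃ m : Fin 2 → (E → ℝ) → ℝ, IsBond μ m ∧
      (∀ (lam : Measure ℝ) [IsProbabilityMeasure lam] (T : ℝ × ℝ → ℝ), IsPert μ lam T →
        qT μ lam T m ≤ qEA μ m ∧
        ∀ᵐ p ∂((PJ μ).prod (PJ lam)), ∀ ε > 0, ∃ M₀ : ℕ, ∀ M ≥ M₀, ∀ σ τ : V → ℝ,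
          IsGroundIn (box (2 * M)) p.1 σ → IsGroundIn (box (2 * M)) (cp T p.1 p.2) τ →
            |overlap M σ τ - qT μ lam T m| ≤ ε) ∧
      (∀ (lam : ℕ → Measure ℝ) [∀ k, IsProbabilityMeasure (lam k)] (T : ℕ → ℝ × ℝ → ℝ),
        (∀ k, IsPert μ (lam k) (T k)) →
        (∀ ε > 0, Tendsto (fun k => (μ.prod (lam k)).real {p | ε < |T k p - p.1|}) atTop (𝓝 0)) →
        Tendsto (fun k => qT μ (lam k) (T k) m) atTop (𝓝 (qEA μ m))) ∧
      (∃ (lam : ℕ → Measure ℝ) (T : ℕ → ℝ × ℝ → ℝ), (∀ k, IsProbabilityMeasure (lam k)) ∧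
        (∀ k, IsPert μ (lam k) (T k)) ∧
        ∀ ε > 0, Tendsto (fun k => (μ.prod (lam k)).real {p | ε < |T k p - p.1|}) atTop (𝓝 0)) ∧
      ((qEA μ m = 1 ∧ CaseA μ) ∨ (qEA μ m < 1 ∧ CaseB μ)) := by
  obtain ⟨-, m, hmm, hmb, hmQ⟩ := main4 μ hμ
  have hm : IsBond μ m := ⟨hmm, hmb, fun i g hg hb Q hQ => (hmQ i g hg hb).1 Q hQ⟩
  refine ⟨m, hm, ?_, ?_, exists_pert μ hμ, ?_⟩
  · intro lam _ T hT
    refine ⟨qT_le hm hT, ?_⟩
    exact upgrade μ lam hT.meas (over_all μ hμ lam hT hm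
      (fun i => main_K μ lam hT.meas hT.atomless i))
  · intro lam _ T hT hconv
    exact tendsto_qT hμ hm lam T hT hconv
  · have h0 := hm.sq_le 0
    have h1 := hm.sq_le 1
    by_cases hA : CaseA μ
    · left
      refine ⟨?_, hA⟩
      have h2 := (q_one_iff μ hμ hm).2 hA
      unfold qEA
      rw [Fin.sum_univ_two, h2 0, h2 1]
      norm_num
    · right
      refine ⟨?_, (main3 μ hμ).1.resolve_left hA⟩
      by_contra hcon
      apply hA
      apply (q_one_iff μ hμ hm).1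
      unfold qEA at hcon
      rw [Fin.sum_univ_two, not_lt] at hcon
      intro i
      have h3 : ∫ J, m 0 J ^ 2 ∂(PJ μ) = 1 := by linarith
      have h4 : ∫ J, m 1 J ^ 2 ∂(PJ μ) = 1 := by linarith
      fin_cases i
      · exact h3
      · exact h4

end Pool.H66.CH
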