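import Pool.Agent.Helper66.CH.Basic

set_option autoImplicit false
set_option linter.unusedSectionVars false

/-! Regions with cheap boundaries, period one. -/

namespace Pool.H66.CH

open MeasureTheory Set ProbabilityTheory Filter Topology Pool.H66.EAM
open scoped ENNReal

/-- The region families exist for every law. -/
theorem hasReg1 {Y : Type*} [MeasurableSpace Y] (ν : Measure Y) [IsProbabilityMeasure ν]
    {q : Y → ℝ} (hq : Measurable q) (K : ℝ) : Nonempty (Reg ν q 1 (fun N => 2 * N + 1) K) := by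
  set n : ℕ := 1 with hn
  have hpm : IsProbabilityMeasure (ν.map q) := Measure.isProbabilityMeasure_map hq.aemeasurable
  have hmp := mp_cpl ν hq
  obtain ⟨K', hK0, hKK, hp⟩ := exists_threshold (ν.map q) K
  have hB : ∀ N, 1 ≤ n * N + 1 := fun N => by omega
  have hstrong : ∀ J J' : E → Y, (∀ e, J e = J' e ∨ (|q (J e)| ≤ K ∧ |q (J' e)| ≤ K)) →
      ∀ e, K' < |cpl q J e| ↔ K' < |cpl q J' e| := by
    intro J J' h e
    unfold cpl
    rcases h e with h | ⟨h1, h2⟩
    · rw [h]
    · constructor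
      · intro h; linarith
      · intro h; linarith
  refine ⟨⟨fun N J => Rgn K' (n * N + 1) N (cpl q J), fun N => cpl q ⁻¹' GG K' (n * N + 1) N,
    64 * K' * n, by positivity, fun N => measurable_cpl hq meas_GG, fun N J => box_subset_Rgn _,
    ?_, ?_, ?_, fun N => ?_, ?_, ?_⟩⟩
  · intro N J _
    refine (Rgn_subset_box _).trans (box_mono ?_)
    show n * N + 1 + N ≤ 2 * N + 1
    omega
  · intro N J J' h
    exact Rgn_congr (hstrong J J' h)
  · intro N J J' h hJ e he
    rw [← Rgn_congr (hstrong J J' h)] at he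
    have h1 := hJ e he
    rcases h e with h | ⟨_, h2⟩
    · have : cpl q J' e = cpl q J e := by unfold cpl; rw [h]
      rw [this]; exact h1
    · show |q (J' e)| ≤ K'
      linarith
  · exact meas_cost.comp (measurable_cpl hq)
  · intro N
    have h1 := hmp.setLIntegral_comp_preimage (s := GG K' (n * N + 1) N) meas_GG
      (f := fun J => ENNReal.ofReal (∑ e ∈ cut (Rgn K' (n * N + 1) N J), |J e|))
      meas_cost.ennreal_ofReal
    have h2 := cost_le (μ := ν.map q) (k := N) hK0 (hB N) hp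
    rw [← h1] at h2
    refine h2.trans ?_
    apply ENNReal.ofReal_le_ofReal
    push_cast
    have hn1 : (1 : ℝ) ≤ n := by exact_mod_cast (by omega : 1 ≤ n)
    calc 64 * K' * ((n : ℝ) * N + 1) ≤ 64 * K' * ((n : ℝ) * N + n) := by gcongr
      _ = 64 * K' * n * ((N : ℝ) + 1) := by ring
  · have hbound : ∀ N : ℕ, (PJ ν).real (cpl q ⁻¹' GG K' (n * N + 1) N)ᶜ
        ≤ 8 * ((n : ℝ) + 1) * (1 / 2) ^ (N + 1) := by
      intro N
      have h0 : (PJ ν).real (cpl q ⁻¹' GG K' (n * N + 1) N)ᶜ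
          = (PJ (ν.map q)).real (GG K' (n * N + 1) N)ᶜ := by
        rw [measureReal_def, measureReal_def, ← preimage_compl,
          hmp.measure_preimage meas_GG.compl.nullMeasurableSet]
      rw [h0]
      refine (prob_GG (hB N) hp).trans ?_
      push_cast
      have h2 : ((N : ℝ) + 1) ≤ 2 ^ (N + 1) := by
        have := Nat.lt_two_pow_self (n := N + 1)
        have h3 : N + 1 ≤ 2 ^ (N + 1) := this.le
        exact_mod_cast h3
      have h3 : (n : ℝ) * N + 1 ≤ ((n : ℝ) + 1) * ((N : ℝ) + 1) := by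
        have h4 : (0 : ℝ) ≤ n := Nat.cast_nonneg n
        have h5 : (0 : ℝ) ≤ N := Nat.cast_nonneg N
        nlinarith
      have h6 : ((1 : ℝ) / 4) ^ (N + 1) = (1 / 2) ^ (N + 1) * (1 / 2) ^ (N + 1) := by
        rw [← mul_pow]; norm_num
      have h7 : (2 : ℝ) ^ (N + 1) * (1 / 2) ^ (N + 1) = 1 := by
        rw [← mul_pow]; norm_num
      rw [h6]
      calc 8 * ((n : ℝ) * N + 1) * ((1 / 2) ^ (N + 1) * (1 / 2) ^ (N + 1))
          ≤ 8 * (((n : ℝ) + 1) * 2 ^ (N + 1)) * ((1 / 2) ^ (N + 1) * (1 / 2) ^ (N + 1)) := by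
            gcongr
            exact h3.trans (by gcongr)
        _ = 8 * ((n : ℝ) + 1) * (2 ^ (N + 1) * (1 / 2) ^ (N + 1)) * (1 / 2) ^ (N + 1) := by ring
        _ = 8 * ((n : ℝ) + 1) * (1 / 2) ^ (N + 1) := by rw [h7, mul_one]
    have hlim : Tendsto (fun N : ℕ => 8 * ((n : ℝ) + 1) * (1 / 2) ^ (N + 1)) atTop (𝓝 0) := by
      have h1 := (tendsto_pow_atTop_nhds_zero_of_lt_one (by norm_num : (0 : ℝ) ≤ 1 / 2)
        (by norm_num)).comp (tendsto_add_atTop_nat 1)
      have h2 := h1.const_mul (8 * ((n : ℝ) + 1))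
      rw [mul_zero] at h2
      exact h2
    exact squeeze_zero (fun N => measureReal_nonneg) hbound hlim


end Pool.H66.CH
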