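import Pool.Agent.Helper66.CH.Basic

set_option autoImplicit false
set_option linter.unusedSectionVars false

/-! MODULE A. Elementary properties of the weighted extremal statistics.
(model: EAM/Stat.lean, exists_max in EAM/Pat.lean, window_upper / window_lower in EAM/Stat.lean) -/

namespace Pool.H66.CH

open MeasureTheory Set ProbabilityTheory Filter Topology Pool.H66.EAM
open scoped ENNReal

variable {i : Fin 2} {N L : ℕ} {u u' : V → ℝ} {J : E → ℝ}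

lemma SW_eq (i : Fin 2) (N : ℕ) (u : V → ℝ) (σ : V → ℝ) :
    SW i N u σ = ∑ z ∈ box N, u z * av σ (z, i) := rfl

/-- Measurable maximisers, with the maximality property. -/
lemma exists_selXW' {Ω : Type*} [MeasurableSpace Ω] {u : Ω → V → ℝ} {J : Ω → E → ℝ}
    (hu : ∀ z, Measurable (fun ω => u ω z)) (hJ : Measurable J) (i : Fin 2) (N : ℕ) :
    ∃ sel : Ω → Finset V, (∀ s, MeasurableSet {ω | sel ω = s}) ∧
      (∀ ω, LG (box (2 * N + 1)) (J ω) (pat (sel ω))) ∧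
      (∀ ω, XW i N (u ω) (J ω) = SW i N (u ω) (pat (sel ω))) ∧
      (∀ ω σ, IsSpin σ → LG (box (2 * N + 1)) (J ω) σ → SW i N (u ω) σ ≤ XW i N (u ω) (J ω)) := by
  obtain ⟨sel, h1, h2, h3⟩ := exists_max hJ (box (2 * N + 1)) (box N) (ed i) u hu
  have hX : ∀ ω, XW i N (u ω) (J ω) = SW i N (u ω) (pat (sel ω)) := by
    intro ω
    apply IsGreatest.csSup_eq
    refine ⟨⟨_, ⟨pat_spin _, h2 ω⟩, rfl⟩, ?_⟩
    rintro _ ⟨σ, ⟨hσ, hLG⟩, rfl⟩
    exact h3 ω σ hσ hLG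
  refine ⟨sel, h1, h2, hX, ?_⟩
  intro ω σ hσ hLG
  rw [hX]
  exact h3 ω σ hσ hLG

/-- Measurable minimisers, with the minimality property. -/
lemma exists_selYW' {Ω : Type*} [MeasurableSpace Ω] {u : Ω → V → ℝ} {J : Ω → E → ℝ}
    (hu : ∀ z, Measurable (fun ω => u ω z)) (hJ : Measurable J) (i : Fin 2) (N : ℕ) :
    ∃ sel : Ω → Finset V, (∀ s, MeasurableSet {ω | sel ω = s}) ∧
      (∀ ω, LG (box (2 * N + 1)) (J ω) (pat (sel ω))) ∧
      (∀ ω, YW i N (u ω) (J ω) = SW i N (u ω) (pat (sel ω))) ∧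
      (∀ ω σ, IsSpin σ → LG (box (2 * N + 1)) (J ω) σ → YW i N (u ω) (J ω) ≤ SW i N (u ω) σ) := by
  obtain ⟨sel, h1, h2, h3⟩ := exists_max hJ (box (2 * N + 1)) (box N) (ed i)
    (fun ω z => - u ω z) (fun z => (hu z).neg)
  have hneg : ∀ ω σ, cnt (box N) (ed i) (fun z => - u ω z) σ = - SW i N (u ω) σ := by
    intro ω σ
    unfold SW cnt
    rw [← Finset.sum_neg_distrib]
    exact Finset.sum_congr rfl (fun z _ => by ring)
  have h3' : ∀ ω σ, IsSpin σ → LG (box (2 * N + 1)) (J ω) σ →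
      SW i N (u ω) (pat (sel ω)) ≤ SW i N (u ω) σ := by
    intro ω σ hσ hLG
    have := h3 ω σ hσ hLG
    rw [hneg, hneg] at this
    linarith
  have hY : ∀ ω, YW i N (u ω) (J ω) = SW i N (u ω) (pat (sel ω)) := by
    intro ω
    apply IsLeast.csInf_eq
    refine ⟨⟨_, ⟨pat_spin _, h2 ω⟩, rfl⟩, ?_⟩
    rintro _ ⟨σ, ⟨hσ, hLG⟩, rfl⟩
    exact h3' ω σ hσ hLG
  refine ⟨sel, h1, h2, hY, ?_⟩
  intro ω σ hσ hLG
  rw [hY]
  exact h3' ω σ hσ hLG

/-- Measurable optimisers (and, with `Ω = Unit`, attainment). -/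
lemma exists_selXW {Ω : Type*} [MeasurableSpace Ω] {u : Ω → V → ℝ} {J : Ω → E → ℝ}
    (hu : ∀ z, Measurable (fun ω => u ω z)) (hJ : Measurable J) (i : Fin 2) (N : ℕ) :
    ∃ sel : Ω → Finset V, (∀ s, MeasurableSet {ω | sel ω = s}) ∧
      (∀ ω, LG (box (2 * N + 1)) (J ω) (pat (sel ω))) ∧
      (∀ ω, XW i N (u ω) (J ω) = SW i N (u ω) (pat (sel ω))) := by
  obtain ⟨sel, h1, h2, h3, _⟩ := exists_selXW' hu hJ i N
  exact ⟨sel, h1, h2, h3⟩

lemma exists_selYW {Ω : Type*} [MeasurableSpace Ω] {u : Ω → V → ℝ} {J : Ω → E → ℝ}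
    (hu : ∀ z, Measurable (fun ω => u ω z)) (hJ : Measurable J) (i : Fin 2) (N : ℕ) :
    ∃ sel : Ω → Finset V, (∀ s, MeasurableSet {ω | sel ω = s}) ∧
      (∀ ω, LG (box (2 * N + 1)) (J ω) (pat (sel ω))) ∧
      (∀ ω, YW i N (u ω) (J ω) = SW i N (u ω) (pat (sel ω))) := by
  obtain ⟨sel, h1, h2, h3, _⟩ := exists_selYW' hu hJ i N
  exact ⟨sel, h1, h2, h3⟩

lemma SW_le_XW (u : V → ℝ) {J : E → ℝ} {σ : V → ℝ} (hσ : IsSpin σ)
    (hLG : LG (box (2 * N + 1)) J σ) : SW i N u σ ≤ XW i N u J := by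
  obtain ⟨sel, _, _, _, h4⟩ := exists_selXW' (Ω := Unit) (u := fun _ => u) (J := fun _ => J)
    (fun _ => measurable_const) measurable_const i N
  exact h4 () σ hσ hLG

lemma YW_le_SW (u : V → ℝ) {J : E → ℝ} {σ : V → ℝ} (hσ : IsSpin σ)
    (hLG : LG (box (2 * N + 1)) J σ) : YW i N u J ≤ SW i N u σ := by
  obtain ⟨sel, _, _, _, h4⟩ := exists_selYW' (Ω := Unit) (u := fun _ => u) (J := fun _ => J)
    (fun _ => measurable_const) measurable_const i N
  exact h4 () σ hσ hLG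

lemma XW_attained (i : Fin 2) (N : ℕ) (u : V → ℝ) (J : E → ℝ) :
    ∃ σ, IsSpin σ ∧ LG (box (2 * N + 1)) J σ ∧ XW i N u J = SW i N u σ := by
  obtain ⟨sel, _, h2, h3⟩ := exists_selXW (Ω := Unit) (u := fun _ => u) (J := fun _ => J)
    (fun _ => measurable_const) measurable_const i N
  exact ⟨_, pat_spin _, h2 (), h3 ()⟩

lemma YW_attained (i : Fin 2) (N : ℕ) (u : V → ℝ) (J : E → ℝ) :
    ∃ σ, IsSpin σ ∧ LG (box (2 * N + 1)) J σ ∧ YW i N u J = SW i N u σ := by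
  obtain ⟨sel, _, h2, h3⟩ := exists_selYW (Ω := Unit) (u := fun _ => u) (J := fun _ => J)
    (fun _ => measurable_const) measurable_const i N
  exact ⟨_, pat_spin _, h2 (), h3 ()⟩

lemma YW_le_XW (u : V → ℝ) (J : E → ℝ) : YW i N u J ≤ XW i N u J := by
  obtain ⟨σ, h1, h2, h3⟩ := XW_attained i N u J
  rw [h3]
  exact YW_le_SW u h1 h2

lemma measurable_XW {Ω : Type*} [MeasurableSpace Ω] {u : Ω → V → ℝ} {J : Ω → E → ℝ}
    (hu : ∀ z, Measurable (fun ω => u ω z)) (hJ : Measurable J) (i : Fin 2) (N : ℕ) :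
    Measurable (fun ω => XW i N (u ω) (J ω)) := by
  obtain ⟨sel, h1, _, h3⟩ := exists_selXW hu hJ i N
  have : (fun ω => XW i N (u ω) (J ω)) = fun ω => SW i N (u ω) (pat (sel ω)) := funext h3
  rw [this]
  exact measurable_of_sel h1 (fun s ω => SW i N (u ω) (pat s)) (fun s => measurable_cnt hu _)

lemma measurable_YW {Ω : Type*} [MeasurableSpace Ω] {u : Ω → V → ℝ} {J : Ω → E → ℝ}
    (hu : ∀ z, Measurable (fun ω => u ω z)) (hJ : Measurable J) (i : Fin 2) (N : ℕ) :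
    Measurable (fun ω => YW i N (u ω) (J ω)) := by
  obtain ⟨sel, h1, _, h3⟩ := exists_selYW hu hJ i N
  have : (fun ω => YW i N (u ω) (J ω)) = fun ω => SW i N (u ω) (pat (sel ω)) := funext h3
  rw [this]
  exact measurable_of_sel h1 (fun s ω => SW i N (u ω) (pat s)) (fun s => measurable_cnt hu _)

lemma YW_nonneg (h0 : ∀ z, 0 ≤ u z) (J : E → ℝ) : 0 ≤ YW i N u J := by
  obtain ⟨σ, h1, _, h3⟩ := YW_attained i N u J
  rw [h3]
  exact Finset.sum_nonneg (fun _ _ => mul_nonneg (h0 _) (av_nonneg h1 _))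

lemma XW_le_sum (h0 : ∀ z, 0 ≤ u z) (J : E → ℝ) : XW i N u J ≤ ∑ z ∈ box N, u z := by
  obtain ⟨σ, h1, _, h3⟩ := XW_attained i N u J
  rw [h3]
  exact Finset.sum_le_sum (fun z _ => mul_le_of_le_one_right (h0 z) (av_le_one h1 _))

lemma XW_le_card (h0 : ∀ z, 0 ≤ u z) (h1 : ∀ z, u z ≤ 1) (J : E → ℝ) :
    XW i N u J ≤ ((box N).card : ℝ) := by
  refine (XW_le_sum h0 J).trans ?_
  calc ∑ z ∈ box N, u z ≤ ∑ z ∈ box N, (1 : ℝ) := Finset.sum_le_sum (fun z _ => h1 z)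
    _ = ((box N).card : ℝ) := by simp

lemma LG_win (h2 : L ≤ N) {v : V} (hv : v ∈ box (N - L)) {J : E → ℝ} {σ : V → ℝ}
    (hσ : LG (box (2 * N + 1)) J σ) : LG (box (2 * L + 1)) (shJ v J) (shS v σ) := by
  apply LG_sh _ hσ
  intro x hx
  rw [mem_box] at hx hv ⊢
  intro j
  have h1 := hx j
  have h2' := hv j
  simp only [Pi.add_apply]
  push_cast [Nat.cast_sub h2] at h1 h2' ⊢
  constructor <;> omega

lemma SW_shift (u : V → ℝ) (v : V) (σ : V → ℝ) :
    SW i L (shU v u) (shS v σ) = ∑ z ∈ box L, u (z + v) * av σ (z + v, i) := by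
  apply Finset.sum_congr rfl
  intro z _
  rw [av_shS]
  rfl

/-- Window inequality for the maximum. -/
lemma XW_window (h2 : 2 * L ≤ N) (h0 : ∀ z, 0 ≤ u z) (h1 : ∀ z, u z ≤ 1) (J : E → ℝ) :
    ((box L).card : ℝ) * XW i N u J
      ≤ ∑ v ∈ box (N - L), XW i L (shU v u) (shJ v J)
        + ((box L).card : ℝ) * (((box N).card : ℝ) - ((box (N - 2 * L)).card : ℝ)) := by
  obtain ⟨σ, hσ, hLG, h3⟩ := XW_attained i N u J
  have hw := window_upper h2 (fun z => u z * av σ (z, i))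
    (fun z => mul_nonneg (h0 _) (av_nonneg hσ _))
    (fun z => mul_le_one₀ (h1 _) (av_nonneg hσ _) (av_le_one hσ _))
  rw [h3]
  refine hw.trans ?_
  gcongr with v hv
  rw [← SW_shift]
  exact SW_le_XW _ (shS_spin hσ) (LG_win (by omega) hv hLG)

/-- Window inequality for the minimum. -/
lemma YW_window (h2 : L ≤ N) (h0 : ∀ z, 0 ≤ u z) (J : E → ℝ) :
    ∑ v ∈ box (N - L), YW i L (shU v u) (shJ v J) ≤ ((box L).card : ℝ) * YW i N u J := by
  obtain ⟨σ, hσ, hLG, h3⟩ := YW_attained i N u J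
  have hw := window_lower h2 (fun z => u z * av σ (z, i))
    (fun z => mul_nonneg (h0 _) (av_nonneg hσ _))
  rw [h3]
  refine le_trans ?_ hw
  gcongr with v hv
  rw [← SW_shift]
  exact YW_le_SW _ (shS_spin hσ) (LG_win h2 hv hLG)

lemma SW_sum {κ : Type*} (s : Finset κ) (f : κ → V → ℝ) (σ : V → ℝ) :
    SW i N (fun z => ∑ k ∈ s, f k z) σ = ∑ k ∈ s, SW i N (f k) σ := by
  simp only [SW_eq]
  rw [Finset.sum_comm]
  exact Finset.sum_congr rfl (fun z _ => by rw [Finset.sum_mul])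

lemma XW_sum_le {κ : Type*} (s : Finset κ) (f : κ → V → ℝ) (J : E → ℝ) :
    XW i N (fun z => ∑ k ∈ s, f k z) J ≤ ∑ k ∈ s, XW i N (f k) J := by
  obtain ⟨σ, hσ, hLG, h3⟩ := XW_attained i N (fun z => ∑ k ∈ s, f k z) J
  rw [h3, SW_sum]
  exact Finset.sum_le_sum (fun k _ => SW_le_XW _ hσ hLG)

lemma sum_YW_le {κ : Type*} (s : Finset κ) (f : κ → V → ℝ) (J : E → ℝ) :
    ∑ k ∈ s, YW i N (f k) J ≤ YW i N (fun z => ∑ k ∈ s, f k z) J := by
  obtain ⟨σ, hσ, hLG, h3⟩ := YW_attained i N (fun z => ∑ k ∈ s, f k z) J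
  rw [h3, SW_sum]
  exact Finset.sum_le_sum (fun k _ => YW_le_SW _ hσ hLG)

/-- `YW` depends only on the weights in `box N` and the couplings in `nbhd (box (2 N + 1))`. -/
lemma YW_congr {J' : E → ℝ} (hu : ∀ z ∈ box N, u z = u' z)
    (hJ : ∀ e ∈ nbhd (box (2 * N + 1)), J e = J' e) : YW i N u J = YW i N u' J' := by
  have h1 : SW i N u = SW i N u' := by
    funext σ
    rw [SW_eq, SW_eq]
    exact Finset.sum_congr rfl (fun z hz => by rw [hu z hz])
  unfold YW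
  rw [h1, sols_loc hJ]

/-- `XW` depends only on the weights in `box N` and the couplings in `nbhd (box (2 N + 1))`. -/
lemma XW_congr {J' : E → ℝ} (hu : ∀ z ∈ box N, u z = u' z)
    (hJ : ∀ e ∈ nbhd (box (2 * N + 1)), J e = J' e) : XW i N u J = XW i N u' J' := by
  have h1 : SW i N u = SW i N u' := by
    funext σ
    rw [SW_eq, SW_eq]
    exact Finset.sum_congr rfl (fun z hz => by rw [hu z hz])
  unfold XW
  rw [h1, sols_loc hJ]

lemma SW_diff_le (u : V → ℝ) {J : E → ℝ} {σ τ : V → ℝ} (hσ : IsSpin σ)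
    (hτ : IsSpin τ) (hσL : LG (box (2 * N + 1)) J σ) (hτL : LG (box (2 * N + 1)) J τ) :
    |SW i N u σ - SW i N u τ| ≤ XW i N u J - YW i N u J := by
  have h1 := SW_le_XW (i := i) u hσ hσL
  have h2 := SW_le_XW (i := i) u hτ hτL
  have h3 := YW_le_SW (i := i) u hσ hσL
  have h4 := YW_le_SW (i := i) u hτ hτL
  rw [abs_le]
  constructor <;> linarith

/-- Signed weights. -/
lemma signed_bound (_h1 : ∀ z, |u z| ≤ 1) {J : E → ℝ} {σ τ : V → ℝ} (hσ : IsSpin σ)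
    (hτ : IsSpin τ) (hσL : LG (box (2 * N + 1)) J σ) (hτL : LG (box (2 * N + 1)) J τ) :
    |∑ z ∈ box N, u z * (bond σ (z, i) - bond τ (z, i))|
      ≤ 4 * (XW i N (fun z => (1 + u z) / 2) J - YW i N (fun z => (1 + u z) / 2) J)
        + 2 * (XW i N (fun _ => 1) J - YW i N (fun _ => 1) J) := by
  have e1 : ∑ z ∈ box N, u z * (bond σ (z, i) - bond τ (z, i))
      = 4 * (SW i N (fun z => (1 + u z) / 2) σ - SW i N (fun z => (1 + u z) / 2) τ)
        - 2 * (SW i N (fun _ => 1) σ - SW i N (fun _ => 1) τ) := by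
    simp only [SW_eq]
    rw [← Finset.sum_sub_distrib, ← Finset.sum_sub_distrib, Finset.mul_sum, Finset.mul_sum,
      ← Finset.sum_sub_distrib]
    apply Finset.sum_congr rfl
    intro z _
    unfold av
    ring
  have h2 := SW_diff_le (i := i) (fun z => (1 + u z) / 2) hσ hτ hσL hτL
  have h3 := SW_diff_le (i := i) (fun _ => (1 : ℝ)) hσ hτ hσL hτL
  rw [e1]
  rw [abs_le] at h2 h3 ⊢
  constructor <;> linarith [h2.1, h2.2, h3.1, h3.2]

end Pool.H66.CH
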