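import Pool.Agent.Helper66.CH.Kern
import Pool.Agent.Helper66.CH.StatW
import Pool.Agent.Helper66.CH.ConcW
import Pool.Agent.Helper66.CH.Reg1
import Pool.Agent.Helper66.CH.Zip

set_option autoImplicit false
set_option linter.unusedSectionVars false

/-! The comparison at one scale. -/

namespace Pool.H66.CH

open MeasureTheory Set ProbabilityTheory Filter Topology Pool.H66.EAM
open scoped ENNReal

variable {Y1 Y2 : Type*}

/-- The weights `w_z(a) 1{(a, b)(z, i) ∈ A}`. -/
noncomputable def uA (i : Fin 2) (A : Set (Y1 × Y2)) (w : V → (E → Y1) → ℝ) (a : E → Y1)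
    (b : E → Y2) : V → ℝ :=
  fun z => w z a * A.indicator 1 (a (z, i), b (z, i))

/-- The edges `(z, i)`, `z ∈ box N`. -/
noncomputable def TE (i : Fin 2) (N : ℕ) : Finset E := (box N).image (ed i)

lemma ed_inj (i : Fin 2) : Function.Injective (ed i) := fun _ _ h => congrArg Prod.fst h

lemma mem_TE {i : Fin 2} {N : ℕ} {e : E} (he : e ∈ TE i N) : e.1 ∈ box N ∧ e.2 = i := by
  unfold TE at he
  rw [Finset.mem_image] at he
  obtain ⟨z, hz, rfl⟩ := he
  exact ⟨hz, rfl⟩

lemma uA_nonneg {i : Fin 2} {A : Set (Y1 × Y2)} {w : V → (E → Y1) → ℝ}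
    (h0 : ∀ z a, 0 ≤ w z a) (a : E → Y1) (b : E → Y2) (z : V) : 0 ≤ uA i A w a b z :=
  mul_nonneg (h0 _ _) (ind_nonneg _ _)

lemma uA_le_one {i : Fin 2} {A : Set (Y1 × Y2)} {w : V → (E → Y1) → ℝ}
    (h1 : ∀ z a, w z a ≤ 1) (a : E → Y1) (b : E → Y2) (z : V) : uA i A w a b z ≤ 1 :=
  mul_le_one₀ (h1 _ _) (ind_nonneg _ _) (ind_le_one _ _)

variable [MeasurableSpace Y1] [MeasurableSpace Y2]

lemma measurable_uA {i : Fin 2} {A : Set (Y1 × Y2)} (hA : MeasurableSet A)
    {w : V → (E → Y1) → ℝ} (hw : ∀ z, Measurable (w z)) (z : V) :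
    Measurable (fun p : (E → Y1) × (E → Y2) => uA i A w p.1 p.2 z) :=
  ((hw z).comp measurable_fst).mul ((measurable_one.indicator hA).comp
    (((measurable_pi_apply _).comp measurable_fst).prodMk
      ((measurable_pi_apply _).comp measurable_snd)))

lemma inner_edge {i : Fin 2} {N : ℕ} {z : V} (hz : z ∈ box N) :
    (ed i z).1 ∈ box (1 * N + 1) ∧ tip (ed i z) ∈ box (1 * N + 1) := by
  rw [mem_box] at hz
  constructor
  · rw [mem_box]
    intro j
    have := hz j
    simp only [ed]
    push_cast
    constructor <;> linarith [this.1, this.2]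
  · rw [mem_box]
    intro j
    have := hz j
    simp only [ed, tip, Pi.add_apply]
    push_cast
    have hs : (Pi.single i (1 : ℤ) : Fin 2 → ℤ) j = 0 ∨ (Pi.single i (1 : ℤ) : Fin 2 → ℤ) j = 1 := by
      by_cases h : j = i
      · subst h; right; simp
      · left; simp [Pi.single_eq_of_ne h]
    rcases hs with h | h <;> rw [h] <;> constructor <;> linarith [this.1, this.2]

variable {ν1 : Measure Y1} [IsProbabilityMeasure ν1] {ν2 : Measure Y2} [IsProbabilityMeasure ν2]
  {q : Y1 × Y2 → ℝ} {A A' : Set (Y1 × Y2)} {j : ℕ} {i : Fin 2}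

/-- The tilted comparison for fixed first marks. -/
theorem tilt_a [MeasurableEq Y2] (hq : Measurable q) (hA : MeasurableSet A)
    (hA' : MeasurableSet A')
    (hlt : ∀ y u u', (y, u) ∈ A → (y, u') ∈ A' → q (y, u) < q (y, u'))
    (Rg : Reg (ν1.prod ν2) q 1 (fun N => 2 * N + 1) (j : ℝ)) {s m : ℝ} (hs : 0 ≤ s)
    (hsj : s * ((j : ℝ) + 1) ≤ 1) (hm : 0 ≤ m) (N : ℕ) (w : V → (E → Y1) → ℝ)
    (hw : ∀ z, Measurable (w z)) (h0 : ∀ z a, 0 ≤ w z a) (h1 : ∀ z a, w z a ≤ 1)
    (sx : (E → Y1) × (E → Y2) → Finset V) (sy : (E → Y1) × (E → Y2) → Finset V)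
    (hsx : ∀ t, MeasurableSet {p | sx p = t}) (hsy : ∀ t, MeasurableSet {p | sy p = t})
    (hsxL : ∀ p, LG (box (2 * N + 1)) (cp q p.1 p.2) (pat (sx p)))
    (hsyL : ∀ p, LG (box (2 * N + 1)) (cp q p.1 p.2) (pat (sy p)))
    (a : E → Y1) (hma : ∀ e ∈ TE i N, ν2 {u | (a e, u) ∈ A} ≤ ENNReal.ofReal m) :
    ENNReal.ofReal s * ∫⁻ b, (Rg.G N).indicator 1 (zp a b) *
        ∑ z ∈ box N, ENNReal.ofReal (w z a) * (ahat ν2 q A A' j (a (z, i), b (z, i)) *
          ENNReal.ofReal (av (pat (sx (a, b))) (z, i))) ∂(PJ ν2)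
      ≤ ENNReal.ofReal (s * m) * ∫⁻ b, DK ν2 (fun e => kk q A A' j (s * w e.1 a) (a e)) (TE i N) b *
          ENNReal.ofReal (SW i N (uA i A' w a b) (pat (sy (a, b)))) ∂(PJ ν2)
        + ∫⁻ b, (Rg.G N).indicator 1 (zp a b) *
          ENNReal.ofReal (2 * ∑ e ∈ cut (Rg.R N (zp a b)), |cp q a b e|) ∂(PJ ν2) := by
  classical
  have hab : Measurable (fun b : E → Y2 => ((a, b) : (E → Y1) × (E → Y2))) :=
    measurable_const.prodMk measurable_id
  have hzab : Measurable (fun b : E → Y2 => zp a b) := measurable_zp.comp hab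
  have hswc : ∀ e : E, 0 ≤ s * w e.1 a := fun e => mul_nonneg hs (h0 _ _)
  have hsws : ∀ e : E, s * w e.1 a ≤ s := fun e => by
    calc s * w e.1 a ≤ s * 1 := by gcongr; exact h1 _ _
      _ = s := mul_one s
  set k : E → Y2 × Y2 → ℝ≥0∞ := fun e => kk q A A' j (s * w e.1 a) (a e) with hk
  set d : E → Y2 × Y2 → ℝ≥0∞ := fun e => dd q (a e) with hd
  set Gi : (E → Y2) → ℝ≥0∞ := fun b => (Rg.G N).indicator 1 (zp a b) with hGi
  have hGim : Measurable Gi := (measurable_one.indicator (Rg.hG N)).comp hzab
  set f : E → (E → Y2) → ℝ≥0∞ := fun e b => Gi b * ENNReal.ofReal (av (pat (sx (a, b))) e) with hf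
  set g : E → (E → Y2) → ℝ≥0∞ := fun e b => Gi b * ENNReal.ofReal (av (pat (sy (a, b))) e) with hg
  set C : (E → Y2) → ℝ≥0∞ := fun b => Gi b *
    ENNReal.ofReal (2 * ∑ e ∈ cut (Rg.R N (zp a b)), |cp q a b e|) with hC
  have hsela : ∀ (sl : (E → Y1) × (E → Y2) → Finset V), (∀ t, MeasurableSet {p | sl p = t}) →
      ∀ t, MeasurableSet {b : E → Y2 | sl (a, b) = t} := fun sl hsl t => hab (hsl t)
  have hfm : ∀ e, Measurable (f e) := fun e => hGim.mul
    (measurable_of_sel (hsela sx hsx) (fun t _ => ENNReal.ofReal (av (pat t) e))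
      (fun _ => measurable_const))
  have hgm : ∀ e, Measurable (g e) := fun e => hGim.mul
    (measurable_of_sel (hsela sy hsy) (fun t _ => ENNReal.ofReal (av (pat t) e))
      (fun _ => measurable_const))
  have hCm : Measurable C := hGim.mul ((((Rg.hcost N).comp hzab).const_mul 2).ennreal_ofReal)
  have key := tiltK ν2 (c := s * ((j : ℝ) + 1)) (S := s) (by positivity) hsj (TE i N) k
    (fun e => measurable_kk hq hA hA' j _ _)
    (fun e p => kk_le (hswc e) (hsws e) p) d (fun e => measurable_dd hq _)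
    (fun e x => dd_diag x) (fun e p => dd_kk_le (hswc e) (hsws e) p)
    (fun e x y h => out_sep ν2 hlt h) f g C hfm hgm hCm (by
    intro b b' hb hmove
    have hK : ∀ e, zp a b e = zp a b' e ∨ (|q (zp a b e)| ≤ j ∧ |q (zp a b' e)| ≤ j) := by
      intro e
      by_cases he : e ∈ TE i N
      · rcases hmove e he with h | h
        · left; unfold zp; rw [h]
        · right
          have h2 := kk_ne_zero h
          exact ⟨h2.1.2, h2.2.2.1⟩
      · left; unfold zp; rw [hb e he]
    have hnn : ∀ e ∈ TE i N, 0 ≤ q (a e, b' e) - q (a e, b e) := by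
      intro e he
      rcases hmove e he with h | h
      · rw [h]; simp
      · exact (Cd_pos (kk_ne_zero h)).le
    by_cases hG : zp a b ∈ Rg.G N
    · have hG' : zp a b' ∈ Rg.G N := Rg.invG N _ _ hK hG
      have hR : Rg.R N (zp a b) = Rg.R N (zp a b') := Rg.inv N _ _ hK
      set B := Rg.R N (zp a b) with hB
      have hBo : B ⊆ box (2 * N + 1) := Rg.outer N _ hG
      have hBi : box (1 * N + 1) ⊆ B := Rg.inner N _
      have hcut : ∀ e ∈ cut B, cp q a b e = cp q a b' e := by
        intro e he
        by_cases heT : e ∈ TE i N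
        · exfalso
          unfold TE at heT
          rw [Finset.mem_image] at heT
          obtain ⟨z, hz, rfl⟩ := heT
          have h2 := inner_edge (i := i) hz
          rw [mem_cut] at he
          exact he ⟨fun _ => hBi h2.2, fun _ => hBi h2.1⟩
        · unfold cp; rw [hb e heT]
      have hdet := det_ineq B (cp q a b) (cp q a b') (pat (sx (a, b))) (pat (sy (a, b')))
        (pat_spin _) (pat_spin _) ((hsxL (a, b)).mono hBo) ((hsyL (a, b')).mono hBo) hcut
      have hsum : ∑ e ∈ inn B, (cp q a b' e - cp q a b e) *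
            (bond (pat (sx (a, b))) e - bond (pat (sy (a, b'))) e)
          = ∑ e ∈ TE i N, (cp q a b' e - cp q a b e) *
            (bond (pat (sx (a, b))) e - bond (pat (sy (a, b'))) e) := by
        symm
        apply Finset.sum_subset
        · intro e he
          unfold TE at he
          rw [Finset.mem_image] at he
          obtain ⟨z, hz, rfl⟩ := he
          have h2 := inner_edge (i := i) hz
          rw [mem_inn]
          exact ⟨hBi h2.1, hBi h2.2⟩
        · intro e _ heT
          have : cp q a b' e = cp q a b e := by unfold cp; rw [hb e heT]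
          rw [this, sub_self, zero_mul]
      rw [hsum] at hdet
      have hreal : ∑ e ∈ TE i N, (q (a e, b' e) - q (a e, b e)) * av (pat (sx (a, b))) e
          ≤ ∑ e ∈ TE i N, (q (a e, b' e) - q (a e, b e)) * av (pat (sy (a, b'))) e
            + 2 * ∑ e ∈ cut B, |cp q a b e| := by
        have e1 : ∑ e ∈ TE i N, (cp q a b' e - cp q a b e) *
            (bond (pat (sx (a, b))) e - bond (pat (sy (a, b'))) e)
            = 2 * (∑ e ∈ TE i N, (q (a e, b' e) - q (a e, b e)) * av (pat (sx (a, b))) e
              - ∑ e ∈ TE i N, (q (a e, b' e) - q (a e, b e)) * av (pat (sy (a, b'))) e) := by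
          rw [← Finset.sum_sub_distrib, Finset.mul_sum]
          apply Finset.sum_congr rfl
          intro e _
          unfold av cp
          ring
        rw [e1] at hdet
        linarith
      have c1 : ∀ e, d e (b e, b' e) * f e b
          = ENNReal.ofReal (q (a e, b' e) - q (a e, b e)) *
            ENNReal.ofReal (av (pat (sx (a, b))) e) := by
        intro e
        simp only [hd, hf, hGi, dd, indicator_of_mem hG, Pi.one_apply, one_mul]
      have c2 : ∀ e, d e (b e, b' e) * g e b'
          = ENNReal.ofReal (q (a e, b' e) - q (a e, b e)) *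
            ENNReal.ofReal (av (pat (sy (a, b'))) e) := by
        intro e
        simp only [hd, hg, hGi, dd, indicator_of_mem hG', Pi.one_apply, one_mul]
      have c3 : C b = ENNReal.ofReal (2 * ∑ e ∈ cut B, |cp q a b e|) := by
        simp only [hC, hGi, indicator_of_mem hG, Pi.one_apply, one_mul]
        rfl
      simp_rw [c1, c2, c3]
      have d1 : ∑ e ∈ TE i N, ENNReal.ofReal (q (a e, b' e) - q (a e, b e)) *
            ENNReal.ofReal (av (pat (sx (a, b))) e)
          = ENNReal.ofReal (∑ e ∈ TE i N, (q (a e, b' e) - q (a e, b e)) *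
            av (pat (sx (a, b))) e) := by
        rw [ENNReal.ofReal_sum_of_nonneg
          (fun e he => mul_nonneg (hnn e he) (av_nonneg (pat_spin _) _))]
        exact Finset.sum_congr rfl (fun e he => (ENNReal.ofReal_mul (hnn e he)).symm)
      have d2 : ∑ e ∈ TE i N, ENNReal.ofReal (q (a e, b' e) - q (a e, b e)) *
            ENNReal.ofReal (av (pat (sy (a, b'))) e)
          = ENNReal.ofReal (∑ e ∈ TE i N, (q (a e, b' e) - q (a e, b e)) *
            av (pat (sy (a, b'))) e) := by
        rw [ENNReal.ofReal_sum_of_nonneg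
          (fun e he => mul_nonneg (hnn e he) (av_nonneg (pat_spin _) _))]
        exact Finset.sum_congr rfl (fun e he => (ENNReal.ofReal_mul (hnn e he)).symm)
      rw [d1, d2, ← ENNReal.ofReal_add
        (Finset.sum_nonneg (fun e he => mul_nonneg (hnn e he) (av_nonneg (pat_spin _) _)))
        (by have := Finset.sum_nonneg (s := cut B) (f := fun e => |cp q a b e|)
              (fun e _ => abs_nonneg _)
            linarith)]
      exact ENNReal.ofReal_le_ofReal hreal
    · have e1 : ∀ e, d e (b e, b' e) * f e b = 0 := by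
        intro e
        simp only [hf, hGi, indicator_of_notMem hG, zero_mul, mul_zero]
      simp_rw [e1]
      rw [Finset.sum_const_zero]
      exact bot_le)
  have L : ENNReal.ofReal s * ∫⁻ b, Gi b *
        ∑ z ∈ box N, ENNReal.ofReal (w z a) * (ahat ν2 q A A' j (a (z, i), b (z, i)) *
          ENNReal.ofReal (av (pat (sx (a, b))) (z, i))) ∂(PJ ν2)
      = ∑ e ∈ TE i N, ∫⁻ b, (∫⁻ y, d e (b e, y) * k e (b e, y) ∂ν2) * f e b ∂(PJ ν2) := by
    have hah : ∀ e : E, Measurable (fun b : E → Y2 => ahat ν2 q A A' j (a e, b e)) := fun e =>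
      (measurable_ahat ν2 hq hA hA' j).comp (measurable_const.prodMk (measurable_pi_apply e))
    have hav : ∀ e : E, Measurable (fun b : E → Y2 => ENNReal.ofReal (av (pat (sx (a, b))) e)) :=
      fun e => measurable_of_sel (hsela sx hsx) (fun t _ => ENNReal.ofReal (av (pat t) e))
        (fun _ => measurable_const)
    have hms : Measurable (fun b : E → Y2 => Gi b *
        ∑ z ∈ box N, ENNReal.ofReal (w z a) * (ahat ν2 q A A' j (a (z, i), b (z, i)) *
          ENNReal.ofReal (av (pat (sx (a, b))) (z, i)))) :=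
      hGim.mul (Finset.measurable_sum _ (fun z _ => ((hah _).mul (hav _)).const_mul _))
    rw [← lintegral_const_mul _ hms]
    unfold TE
    rw [Finset.sum_image (fun x _ y _ h => ed_inj i h), ← lintegral_finsetSum]
    · apply lintegral_congr
      intro b
      rw [Finset.mul_sum, Finset.mul_sum]
      apply Finset.sum_congr rfl
      intro z _
      simp only [hd, hk, hf, ed]
      rw [int_out ν2 hq hA hA' (hswc (z, i)), ENNReal.ofReal_mul hs]
      ring
    · intro z _
      have : (fun b : E → Y2 => (∫⁻ y, d (ed i z) (b (ed i z), y) * k (ed i z) (b (ed i z), y) ∂ν2) *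
          f (ed i z) b) = fun b => (ENNReal.ofReal (s * w (ed i z).1 a) *
            ahat ν2 q A A' j (a (ed i z), b (ed i z))) * f (ed i z) b := by
        funext b
        simp only [hd, hk]
        rw [int_out ν2 hq hA hA' (hswc (ed i z))]
      rw [this]
      exact ((hah _).const_mul _).mul (hfm _)
  have R : ∑ e ∈ TE i N, ∫⁻ b, DK ν2 k (TE i N) b *
        ((∫⁻ x, d e (x, b e) * k e (x, b e) ∂ν2) * g e b) ∂(PJ ν2)
      ≤ ENNReal.ofReal (s * m) * ∫⁻ b, DK ν2 k (TE i N) b *
          ENNReal.ofReal (SW i N (uA i A' w a b) (pat (sy (a, b)))) ∂(PJ ν2) := by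
    have hDm : Measurable (DK ν2 k (TE i N)) := measurable_DK ν2
      (fun e => measurable_kk hq hA hA' j _ _) _
    have hSm : Measurable (fun b : E → Y2 =>
        ENNReal.ofReal (SW i N (uA i A' w a b) (pat (sy (a, b))))) := by
      apply Measurable.ennreal_ofReal
      apply measurable_of_sel (hsela sy hsy) (fun t b => SW i N (uA i A' w a b) (pat t))
      intro t
      simp_rw [SW_eq]
      exact Finset.measurable_sum _ (fun z _ =>
        ((measurable_uA hA' hw z).comp hab).mul_const _)
    have hDS : Measurable (fun b : E → Y2 => DK ν2 k (TE i N) b *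
        ENNReal.ofReal (SW i N (uA i A' w a b) (pat (sy (a, b))))) := hDm.mul hSm
    rw [← lintegral_const_mul _ hDS]
    have hmono : ∀ e ∈ TE i N, ∫⁻ b, DK ν2 k (TE i N) b *
        ((∫⁻ x, d e (x, b e) * k e (x, b e) ∂ν2) * g e b) ∂(PJ ν2)
        ≤ ∫⁻ b, ENNReal.ofReal (s * m) * (DK ν2 k (TE i N) b *
          (ENNReal.ofReal (uA i A' w a b e.1 * av (pat (sy (a, b))) e))) ∂(PJ ν2) := by
      intro e he
      apply lintegral_mono
      intro b
      have h3 := int_in (q := q) (A := A) (A' := A') (j := j) (y1 := a e) ν2 hq hA hA' (hswc e) (b e)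
      have h4 : (∫⁻ x, d e (x, b e) * k e (x, b e) ∂ν2) * g e b
          ≤ ENNReal.ofReal (s * m) * (ENNReal.ofReal (uA i A' w a b e.1 *
            av (pat (sy (a, b))) e)) := by
        calc (∫⁻ x, d e (x, b e) * k e (x, b e) ∂ν2) * g e b
            ≤ (ENNReal.ofReal (s * w e.1 a) * (A'.indicator 1 (a e, b e) *
              ν2 {x | (a e, x) ∈ A})) * (1 * ENNReal.ofReal (av (pat (sy (a, b))) e)) := by
              have h5 : Gi b ≤ 1 := by
                simp only [hGi]
                by_cases hG : zp a b ∈ Rg.G N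
                · rw [indicator_of_mem hG]; rfl
                · rw [indicator_of_notMem hG]; exact bot_le
              simp only [hg]
              exact mul_le_mul' h3 (mul_le_mul' h5 le_rfl)
          _ ≤ (ENNReal.ofReal (s * w e.1 a) * (A'.indicator 1 (a e, b e) *
              ENNReal.ofReal m)) * (1 * ENNReal.ofReal (av (pat (sy (a, b))) e)) := by
              gcongr
              exact hma e he
          _ = ENNReal.ofReal (s * m) * (ENNReal.ofReal (uA i A' w a b e.1 *
            av (pat (sy (a, b))) e)) := by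
              have he2 : (e.1, i) = e := by
                ext1
                · rfl
                · exact (mem_TE he).2.symm
              unfold uA
              rw [he2, ind_ofReal, ENNReal.ofReal_mul hs, ENNReal.ofReal_mul hs,
                ENNReal.ofReal_mul (mul_nonneg (h0 _ _) (ind_nonneg _ _)),
                ENNReal.ofReal_mul (h0 _ _)]
              ring
      calc DK ν2 k (TE i N) b * ((∫⁻ x, d e (x, b e) * k e (x, b e) ∂ν2) * g e b)
          ≤ DK ν2 k (TE i N) b * (ENNReal.ofReal (s * m) * (ENNReal.ofReal (uA i A' w a b e.1 *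
            av (pat (sy (a, b))) e))) := by gcongr
        _ = _ := by ring
    refine (Finset.sum_le_sum hmono).trans ?_
    rw [← lintegral_finsetSum]
    · apply lintegral_mono
      intro b
      show ∑ e ∈ TE i N, ENNReal.ofReal (s * m) * (DK ν2 k (TE i N) b *
          (ENNReal.ofReal (uA i A' w a b e.1 * av (pat (sy (a, b))) e))) ≤ _
      rw [← Finset.mul_sum, ← Finset.mul_sum]
      show _ ≤ ENNReal.ofReal (s * m) * (DK ν2 k (TE i N) b *
        ENNReal.ofReal (SW i N (uA i A' w a b) (pat (sy (a, b)))))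
      have e5 : ∑ e ∈ TE i N, ENNReal.ofReal (uA i A' w a b e.1 * av (pat (sy (a, b))) e)
          = ENNReal.ofReal (SW i N (uA i A' w a b) (pat (sy (a, b)))) := by
        rw [SW_eq]
        unfold TE
        rw [Finset.sum_image (fun x _ y _ h => ed_inj i h),
          ENNReal.ofReal_sum_of_nonneg (fun z _ => mul_nonneg (uA_nonneg h0 _ _ _)
          (av_nonneg (pat_spin _) _))]
        rfl
      rw [e5]
    · intro e _
      refine ((hDm.mul ?_).const_mul _)
      apply Measurable.ennreal_ofReal
      apply ((measurable_uA hA' hw e.1).comp hab).mul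
      exact measurable_of_sel (hsela sy hsy) (fun t _ => av (pat t) e) (fun _ => measurable_const)
  show ENNReal.ofReal s * ∫⁻ b, Gi b *
        ∑ z ∈ box N, ENNReal.ofReal (w z a) * (ahat ν2 q A A' j (a (z, i), b (z, i)) *
          ENNReal.ofReal (av (pat (sx (a, b))) (z, i))) ∂(PJ ν2) ≤ _
  rw [L]
  refine key.trans ?_
  gcongr

end Pool.H66.CH
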