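import Pool.Agent.Helper66.CH.One
import Pool.Agent.Helper66.EAM.Main

set_option autoImplicit false
set_option linter.unusedSectionVars false

/-! The comparison at one scale, integrated. -/

namespace Pool.H66.CH

open MeasureTheory Set ProbabilityTheory Filter Topology Pool.H66.EAM
open scoped ENNReal

variable {Y1 Y2 : Type*} [MeasurableSpace Y1] [MeasurableSpace Y2]

variable {ν1 : Measure Y1} [IsProbabilityMeasure ν1] {ν2 : Measure Y2} [IsProbabilityMeasure ν2]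
  {q : Y1 × Y2 → ℝ} {A A' : Set (Y1 × Y2)} {j : ℕ} {i : Fin 2}

/-- Section masses. -/
noncomputable def sec (ν2 : Measure Y2) (A A' : Set (Y1 × Y2)) (p : Y1 × Y2) : ℝ≥0∞ :=
  A.indicator (fun p' => ν2 {u' | (p'.1, u') ∈ A'}) p

lemma measurable_sec (hA : MeasurableSet A) (hA' : MeasurableSet A') :
    Measurable (sec ν2 A A') := by
  apply Measurable.indicator _ hA
  exact (measurable_measure_prodMk_left hA').comp measurable_fst

lemma ahat_le_sec (p : Y1 × Y2) : ahat ν2 q A A' j p ≤ sec ν2 A A' p := by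
  unfold ahat sec
  by_cases h : p ∈ {p' : Y1 × Y2 | p' ∈ A ∧ |q p'| ≤ j}
  · rw [indicator_of_mem h, indicator_of_mem h.1]
    apply measure_mono
    rintro u ⟨h1, -⟩
    exact h1
  · rw [indicator_of_notMem h]; exact bot_le

lemma sec_le_one (p : Y1 × Y2) : sec ν2 A A' p ≤ 1 := by
  unfold sec
  by_cases h : p ∈ A
  · rw [indicator_of_mem h]; exact prob_le_one
  · rw [indicator_of_notMem h]; exact bot_le

/-- Left side for fixed first marks. -/
lemma left_a {m : ℝ} {w : V → (E → Y1) → ℝ} (h0 : ∀ z a, 0 ≤ w z a) (h1 : ∀ z a, w z a ≤ 1) {N : ℕ}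
    (G : Set (E → Y1 × Y2)) (a : E → Y1) (b : E → Y2)
    (hma : ∀ e ∈ TE i N, ENNReal.ofReal m ≤ ν2 {u | (a e, u) ∈ A'}) (σ : V → ℝ) (hσ : IsSpin σ) :
    ENNReal.ofReal m * (G.indicator 1 (zp a b) * ENNReal.ofReal (SW i N (uA i A w a b) σ))
      ≤ G.indicator 1 (zp a b) * ∑ z ∈ box N, ENNReal.ofReal (w z a) *
          (ahat ν2 q A A' j (a (z, i), b (z, i)) * ENNReal.ofReal (av σ (z, i)))
        + ∑ z ∈ box N, (sec ν2 A A' (zp a b (z, i)) - ahat ν2 q A A' j (zp a b (z, i))) := by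
  by_cases hG : zp a b ∈ G
  · rw [indicator_of_mem hG, Pi.one_apply, one_mul, one_mul, SW_eq,
      ENNReal.ofReal_sum_of_nonneg (fun z _ => mul_nonneg (uA_nonneg h0 _ _ _)
        (av_nonneg hσ _)), Finset.mul_sum, ← Finset.sum_add_distrib]
    apply Finset.sum_le_sum
    intro z hz
    unfold uA
    rw [ENNReal.ofReal_mul (mul_nonneg (h0 _ _) (ind_nonneg _ _)), ENNReal.ofReal_mul (h0 _ _),
      ← ind_ofReal]
    have hs : ENNReal.ofReal m * A.indicator 1 (a (z, i), b (z, i))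
        ≤ sec ν2 A A' (a (z, i), b (z, i)) := by
      unfold sec
      by_cases h : (a (z, i), b (z, i)) ∈ A
      · rw [indicator_of_mem h, indicator_of_mem h, Pi.one_apply, mul_one]
        apply hma
        unfold TE
        exact Finset.mem_image_of_mem _ hz
      · rw [indicator_of_notMem h, mul_zero]; exact bot_le
    have h2 : ENNReal.ofReal (w z a) ≤ 1 := by
      rw [← ENNReal.ofReal_one]; exact ENNReal.ofReal_le_ofReal (h1 _ _)
    have h3 : ENNReal.ofReal (av σ (z, i)) ≤ 1 := by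
      rw [← ENNReal.ofReal_one]; exact ENNReal.ofReal_le_ofReal (av_le_one hσ _)
    calc ENNReal.ofReal m * (ENNReal.ofReal (w z a) * A.indicator 1 (a (z, i), b (z, i)) *
          ENNReal.ofReal (av σ (z, i)))
        = ENNReal.ofReal (w z a) * ((ENNReal.ofReal m * A.indicator 1 (a (z, i), b (z, i))) *
          ENNReal.ofReal (av σ (z, i))) := by ring
      _ ≤ ENNReal.ofReal (w z a) * (sec ν2 A A' (a (z, i), b (z, i)) *
          ENNReal.ofReal (av σ (z, i))) := by gcongr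
      _ ≤ ENNReal.ofReal (w z a) * ((ahat ν2 q A A' j (a (z, i), b (z, i)) +
          (sec ν2 A A' (a (z, i), b (z, i)) - ahat ν2 q A A' j (a (z, i), b (z, i)))) *
          ENNReal.ofReal (av σ (z, i))) := by
          gcongr
          exact le_add_tsub
      _ = ENNReal.ofReal (w z a) * (ahat ν2 q A A' j (a (z, i), b (z, i)) *
          ENNReal.ofReal (av σ (z, i))) + ENNReal.ofReal (w z a) *
          ((sec ν2 A A' (a (z, i), b (z, i)) - ahat ν2 q A A' j (a (z, i), b (z, i))) *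
          ENNReal.ofReal (av σ (z, i))) := by ring
      _ ≤ ENNReal.ofReal (w z a) * (ahat ν2 q A A' j (a (z, i), b (z, i)) *
          ENNReal.ofReal (av σ (z, i))) + 1 *
          ((sec ν2 A A' (a (z, i), b (z, i)) - ahat ν2 q A A' j (a (z, i), b (z, i))) * 1) := by
          gcongr
      _ = _ := by rw [one_mul, mul_one]; rfl
  · rw [indicator_of_notMem hG, zero_mul, mul_zero]; exact bot_le

/-- Right side for fixed first marks. -/
lemma right_a (hq : Measurable q) (hA : MeasurableSet A) (hA' : MeasurableSet A')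
    {w : V → (E → Y1) → ℝ} (hw : ∀ z, Measurable (w z)) (h0 : ∀ z a, 0 ≤ w z a)
    (h1 : ∀ z a, w z a ≤ 1) {N : ℕ} {r : ℝ} (hr : 0 < r)
    (hN : r * ((j : ℝ) + 1) ≤ (N : ℝ) + 1) (a : E → Y1)
    {Z : (E → Y2) → ℝ} (hZ : Measurable Z) (hZ0 : ∀ b, 0 ≤ Z b)
    (hZY : ∀ b, Z b ≤ YW i N (uA i A' w a b) (cp q a b) / ((box N).card : ℝ)) {κ : ℝ}
    (hκ : ∫ b, |Z b - ∫ b', Z b' ∂(PJ ν2)| ∂(PJ ν2) ≤ κ) :
    ∫⁻ b, DK ν2 (fun e => kk q A A' j (r / ((N : ℝ) + 1) * w e.1 a) (a e)) (TE i N) b *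
        ENNReal.ofReal (YW i N (uA i A' w a b) (cp q a b)) ∂(PJ ν2)
      ≤ ENNReal.ofReal (((box N).card : ℝ) *
          (∫ b, YW i N (uA i A' w a b) (cp q a b) / ((box N).card : ℝ) ∂(PJ ν2)
            + Real.exp (2 * r ^ 2 * ((j : ℝ) + 1) ^ 2) * Real.sqrt (2 * (κ +
              (∫ b, YW i N (uA i A' w a b) (cp q a b) / ((box N).card : ℝ) ∂(PJ ν2)
                - ∫ b, Z b ∂(PJ ν2)))))) := by
  have hcN := box_pos N
  have hN1 : (0 : ℝ) < (N : ℝ) + 1 := by positivity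
  have hab : Measurable (fun b : E → Y2 => ((a, b) : (E → Y1) × (E → Y2))) :=
    measurable_const.prodMk measurable_id
  set cN : ℝ := ((box N).card : ℝ) with hcN'
  set Yf : (E → Y2) → ℝ := fun b => YW i N (uA i A' w a b) (cp q a b) / cN with hYf
  set s : ℝ := r / ((N : ℝ) + 1) with hs
  have hs0 : 0 ≤ s := by positivity
  set k : E → Y2 × Y2 → ℝ≥0∞ := fun e => kk q A A' j (s * w e.1 a) (a e) with hk
  have hkm : ∀ e, Measurable (k e) := fun e => measurable_kk hq hA hA' j _ _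
  have hswc : ∀ e : E, 0 ≤ s * w e.1 a := fun e => mul_nonneg hs0 (h0 _ _)
  have hsws : ∀ e : E, s * w e.1 a ≤ s := fun e => by
    calc s * w e.1 a ≤ s * 1 := by gcongr; exact h1 _ _
      _ = s := mul_one s
  have hkc : ∀ e p, k e p ≤ ENNReal.ofReal (s * ((j : ℝ) + 1)) := fun e p =>
    kk_le (hswc e) (hsws e) p
  have hc0 : 0 ≤ s * ((j : ℝ) + 1) := by positivity
  have hc1 : s * ((j : ℝ) + 1) ≤ 1 := by
    rw [hs, div_mul_eq_mul_div, div_le_one hN1]; exact hN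
  have hDm : Measurable (DK ν2 k (TE i N)) := measurable_DK ν2 hkm _
  have hD1 : ∫⁻ b, DK ν2 k (TE i N) b ∂(PJ ν2) = 1 :=
    lintegral_DK ν2 hc0 hc1 (TE i N) k hkm hkc
  have hD2 : ∫⁻ b, DK ν2 k (TE i N) b ^ 2 ∂(PJ ν2)
      ≤ ENNReal.ofReal (Real.exp (2 * r ^ 2 * ((j : ℝ) + 1) ^ 2) ^ 2) := by
    refine (lintegral_DK_sq_le ν2 hc0 hc1 (TE i N) k hkm hkc).trans ?_
    apply ENNReal.ofReal_le_ofReal
    have hj1 : (0 : ℝ) < (j : ℝ) + 1 := by positivity
    have h2 := M_bound (δ := 1 / ((j : ℝ) + 1)) (by positivity) hr N (TE i N).card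
      Finset.card_image_le
    have h3 : r / ((N : ℝ) + 1) / (1 / ((j : ℝ) + 1)) = s * ((j : ℝ) + 1) := by
      rw [hs]; field_simp
    rw [h3] at h2
    refine h2.trans (le_of_eq ?_)
    rw [← Real.exp_nat_mul]
    congr 1
    push_cast
    field_simp
    ring
  have hfin : ∀ᵐ b ∂(PJ ν2), DK ν2 k (TE i N) b < ∞ :=
    ae_lt_top hDm (by rw [hD1]; exact ENNReal.one_ne_top)
  set D : (E → Y2) → ℝ := fun b => (DK ν2 k (TE i N) b).toReal with hD
  have hDrm : Measurable D := hDm.ennreal_toReal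
  have hDeq : ∀ᵐ b ∂(PJ ν2), DK ν2 k (TE i N) b = ENNReal.ofReal (D b) := by
    filter_upwards [hfin] with b hb
    rw [hD, ENNReal.ofReal_toReal hb.ne]
  have hYm : Measurable Yf := by
    apply Measurable.div_const
    exact measurable_YW (fun z => (measurable_uA hA' hw z).comp hab)
      ((measurable_cp hq).comp hab) i N
  have hYb : ∀ b, 0 ≤ Yf b ∧ Yf b ≤ 1 := by
    intro b
    constructor
    · exact div_nonneg (YW_nonneg (uA_nonneg h0 _ _) _) hcN.le
    · rw [hYf]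
      show _ / cN ≤ 1
      rw [div_le_one hcN]
      exact (YW_le_XW _ _).trans (XW_le_card (uA_nonneg h0 _ _) (uA_le_one h1 _ _) _)
  have hDsq : ∫⁻ b, ENNReal.ofReal (D b ^ 2) ∂(PJ ν2)
      ≤ ENNReal.ofReal (Real.exp (2 * r ^ 2 * ((j : ℝ) + 1) ^ 2) ^ 2) := by
    refine le_trans (le_of_eq ?_) hD2
    apply lintegral_congr_ae
    filter_upwards [hDeq] with b hb
    rw [hb, ENNReal.ofReal_pow ENNReal.toReal_nonneg]
  have hDi2 : Integrable (fun b => D b ^ 2) (PJ ν2) := by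
    refine ⟨(hDrm.pow_const 2).aestronglyMeasurable, ?_⟩
    rw [hasFiniteIntegral_iff_ofReal (ae_of_all _ (fun b => sq_nonneg _))]
    exact hDsq.trans_lt ENNReal.ofReal_lt_top
  have hI1 : ∫ b, D b ∂(PJ ν2) = 1 := by
    rw [hD, integral_toReal hDm.aemeasurable hfin, hD1, ENNReal.toReal_one]
  have hI2 : ∫ b, D b ^ 2 ∂(PJ ν2) ≤ Real.exp (2 * r ^ 2 * ((j : ℝ) + 1) ^ 2) ^ 2 := by
    rw [integral_eq_lintegral_of_nonneg_ae (ae_of_all _ (fun b => sq_nonneg _))
      (hDrm.pow_const 2).aestronglyMeasurable]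
    exact ENNReal.toReal_le_of_le_ofReal (by positivity) hDsq
  have key := tilt_conc (PJ ν2) hYm hZ hDrm hYb
    (fun b => ⟨hZ0 b, (hZY b).trans (hYb b).2⟩) hZY (fun b => ENNReal.toReal_nonneg) hDi2 hI1
    (Real.exp_pos _).le hI2
  have hDint : Integrable D (PJ ν2) := by
    by_contra hcon
    rw [integral_undef hcon] at hI1
    exact zero_ne_one hI1
  have hDY : Integrable (fun b => D b * Yf b) (PJ ν2) := by
    refine Integrable.mono' hDint (hDrm.mul hYm).aestronglyMeasurable (ae_of_all _ (fun b => ?_))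
    rw [Real.norm_eq_abs, abs_mul, abs_of_nonneg (hYb b).1,
      abs_of_nonneg (ENNReal.toReal_nonneg : 0 ≤ D b)]
    exact mul_le_of_le_one_right ENNReal.toReal_nonneg (hYb b).2
  have hDYm : Measurable (fun b => ENNReal.ofReal (D b * Yf b)) := (hDrm.mul hYm).ennreal_ofReal
  have e1 : ∫⁻ b, DK ν2 k (TE i N) b * ENNReal.ofReal (YW i N (uA i A' w a b) (cp q a b)) ∂(PJ ν2)
      = ENNReal.ofReal (cN * ∫ b, D b * Yf b ∂(PJ ν2)) := by
    rw [ENNReal.ofReal_mul hcN.le, ofReal_integral_eq_lintegral_ofReal hDY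
      (ae_of_all _ (fun b => mul_nonneg ENNReal.toReal_nonneg (hYb b).1)),
      ← lintegral_const_mul _ hDYm]
    apply lintegral_congr_ae
    filter_upwards [hDeq] with b hb
    rw [hb, ENNReal.ofReal_mul ENNReal.toReal_nonneg, ← mul_assoc,
      mul_comm (ENNReal.ofReal cN), mul_assoc, ← ENNReal.ofReal_mul hcN.le]
    congr 2
    rw [hYf]
    field_simp
  rw [e1]
  apply ENNReal.ofReal_le_ofReal
  refine mul_le_mul_of_nonneg_left (key.trans ?_) hcN.le
  gcongr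

lemma integral_sqrt_le {Ω : Type*} [MeasurableSpace Ω] (P : Measure Ω) [IsProbabilityMeasure P]
    {f : Ω → ℝ} (hf : Measurable f) {C : ℝ} (h0 : ∀ ω, 0 ≤ f ω) (hC : ∀ ω, f ω ≤ C) :
    Integrable (fun ω => Real.sqrt (f ω)) P ∧
      ∫ ω, Real.sqrt (f ω) ∂P ≤ Real.sqrt (∫ ω, f ω ∂P) := by
  have hfi : Integrable f P := Integrable.of_bound hf.aestronglyMeasurable C (ae_of_all _
    (fun ω => by rw [Real.norm_eq_abs, abs_of_nonneg (h0 ω)]; exact hC ω))
  have hgi : Integrable (fun ω => Real.sqrt (f ω)) P :=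
    Integrable.of_bound hf.sqrt.aestronglyMeasurable (Real.sqrt C) (ae_of_all _
    (fun ω => by
      rw [Real.norm_eq_abs, abs_of_nonneg (Real.sqrt_nonneg _)]
      exact Real.sqrt_le_sqrt (hC ω)))
  exact ⟨hgi, Real.strictConcaveOn_sqrt.concaveOn.le_map_integral Real.continuous_sqrt.continuousOn
    isClosed_Ici (ae_of_all _ (fun ω => h0 ω)) hfi hgi⟩

lemma ae_edges {p : Y1 → Prop} (hp : ∀ᵐ y ∂ν1, p y) : ∀ᵐ a ∂(PJ ν1), ∀ e : E, p (a e) := by
  rw [ae_all_iff]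
  intro e
  exact (measurePreserving_eval_infinitePi (fun _ : E => ν1) e).quasiMeasurePreserving.ae hp

/-- The comparison at one scale. -/
theorem one_scale [MeasurableEq Y2] (hq : Measurable q) (hA : MeasurableSet A)
    (hA' : MeasurableSet A')
    (hlt : ∀ y u u', (y, u) ∈ A → (y, u') ∈ A' → q (y, u) < q (y, u')) {m : ℝ} (hm : 0 < m)
    (hmA : ∀ᵐ y ∂ν1, ν2 {u | (y, u) ∈ A} = ENNReal.ofReal m)
    (hmA' : ∀ᵐ y ∂ν1, ν2 {u | (y, u) ∈ A'} = ENNReal.ofReal m)
    (Rg : Reg (ν1.prod ν2) q 1 (fun N => 2 * N + 1) (j : ℝ)) {r : ℝ} (hr : 0 < r) {N : ℕ}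
    (hN : r * ((j : ℝ) + 1) ≤ (N : ℝ) + 1) {w : V → (E → Y1) → ℝ} (hw : ∀ z, Measurable (w z))
    (h0 : ∀ z a, 0 ≤ w z a) (h1 : ∀ z a, w z a ≤ 1)
    {Z : (E → Y1) × (E → Y2) → ℝ} (hZ : Measurable Z) (hZ0 : ∀ p, 0 ≤ Z p)
    (hZY : ∀ p, Z p ≤ YW i N (uA i A' w p.1 p.2) (cp q p.1 p.2) / ((box N).card : ℝ)) {κ : ℝ}
    (hκ : ∀ a, ∫ b, |Z (a, b) - ∫ b', Z (a, b') ∂(PJ ν2)| ∂(PJ ν2) ≤ κ) :
    ∫ p, XW i N (uA i A w p.1 p.2) (cp q p.1 p.2) / ((box N).card : ℝ) ∂((PJ ν1).prod (PJ ν2))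
      ≤ ∫ p, YW i N (uA i A' w p.1 p.2) (cp q p.1 p.2) / ((box N).card : ℝ)
            ∂((PJ ν1).prod (PJ ν2))
        + Real.exp (2 * r ^ 2 * ((j : ℝ) + 1) ^ 2) * Real.sqrt (2 * (κ +
            (∫ p, YW i N (uA i A' w p.1 p.2) (cp q p.1 p.2) / ((box N).card : ℝ)
              ∂((PJ ν1).prod (PJ ν2)) - ∫ p, Z p ∂((PJ ν1).prod (PJ ν2)))))
        + 2 * Rg.C0 / (r * m)
        + ((∫⁻ p, sec ν2 A A' p ∂(ν1.prod ν2)) - ∫⁻ p, ahat ν2 q A A' j p ∂(ν1.prod ν2)).toReal / m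
        + (PJ (ν1.prod ν2)).real (Rg.G N)ᶜ := by
  classical
  have hcN := box_pos N
  have hN1 : (0 : ℝ) < (N : ℝ) + 1 := by positivity
  set cN : ℝ := ((box N).card : ℝ) with hcN'
  set P := (PJ ν1).prod (PJ ν2) with hP
  set s : ℝ := r / ((N : ℝ) + 1) with hs
  have hs0 : 0 < s := by positivity
  have hsj : s * ((j : ℝ) + 1) ≤ 1 := by
    rw [hs, div_mul_eq_mul_div, div_le_one hN1]; exact hN
  set M : ℝ := Real.exp (2 * r ^ 2 * ((j : ℝ) + 1) ^ 2) with hM
  have hcp : Measurable (fun p : (E → Y1) × (E → Y2) => cp q p.1 p.2) := measurable_cp hq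
  obtain ⟨sx, hsx, hsxL, hsxE⟩ := exists_selXW (u := fun p : (E → Y1) × (E → Y2) =>
    uA i A w p.1 p.2) (fun z => measurable_uA hA hw z) hcp i N
  obtain ⟨sy, hsy, hsyL, hsyE⟩ := exists_selYW (u := fun p : (E → Y1) × (E → Y2) =>
    uA i A' w p.1 p.2) (fun z => measurable_uA hA' hw z) hcp i N
  set X : (E → Y1) × (E → Y2) → ℝ := fun p => XW i N (uA i A w p.1 p.2) (cp q p.1 p.2) with hX
  set Yf : (E → Y1) × (E → Y2) → ℝ := fun p => YW i N (uA i A' w p.1 p.2) (cp q p.1 p.2) / cN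
    with hYf
  have hXm : Measurable X := measurable_XW (fun z => measurable_uA hA hw z) hcp i N
  have hYm : Measurable Yf :=
    (measurable_YW (fun z => measurable_uA hA' hw z) hcp i N).div_const _
  have hXb : ∀ p, 0 ≤ X p ∧ X p ≤ cN := fun p =>
    ⟨(YW_nonneg (uA_nonneg h0 _ _) _).trans (YW_le_XW _ _),
      XW_le_card (uA_nonneg h0 _ _) (uA_le_one h1 _ _) _⟩
  have hYb : ∀ p, 0 ≤ Yf p ∧ Yf p ≤ 1 := by
    intro p
    constructor
    · exact div_nonneg (YW_nonneg (uA_nonneg h0 _ _) _) hcN.le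
    · show _ / cN ≤ 1
      rw [div_le_one hcN]
      exact (YW_le_XW _ _).trans (XW_le_card (uA_nonneg h0 _ _) (uA_le_one h1 _ _) _)
  have hZ1 : ∀ p, Z p ≤ 1 := fun p => (hZY p).trans (hYb p).2
  have hYi : Integrable Yf P := Integrable.of_bound hYm.aestronglyMeasurable 1 (ae_of_all _
    (fun p => by rw [Real.norm_eq_abs, abs_of_nonneg (hYb p).1]; exact (hYb p).2))
  have hZi : Integrable Z P := Integrable.of_bound hZ.aestronglyMeasurable 1 (ae_of_all _
    (fun p => by rw [Real.norm_eq_abs, abs_of_nonneg (hZ0 p)]; exact hZ1 p))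
  have hXi : Integrable X P := Integrable.of_bound hXm.aestronglyMeasurable cN (ae_of_all _
    (fun p => by rw [Real.norm_eq_abs, abs_of_nonneg (hXb p).1]; exact (hXb p).2))
  -- functions of the first field
  set Ya : (E → Y1) → ℝ := fun a => ∫ b, Yf (a, b) ∂(PJ ν2) with hYa
  set Za : (E → Y1) → ℝ := fun a => ∫ b, Z (a, b) ∂(PJ ν2) with hZa
  have hYam : Measurable Ya := (hYm.stronglyMeasurable.integral_prod_right').measurable
  have hZam : Measurable Za := (hZ.stronglyMeasurable.integral_prod_right').measurable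
  have hab : ∀ a : E → Y1, Measurable (fun b : E → Y2 => ((a, b) : (E → Y1) × (E → Y2))) :=
    fun a => measurable_const.prodMk measurable_id
  have hYai : ∀ a, Integrable (fun b => Yf (a, b)) (PJ ν2) := fun a =>
    Integrable.of_bound (hYm.comp (hab a)).aestronglyMeasurable 1 (ae_of_all _
    (fun b => by rw [Real.norm_eq_abs, abs_of_nonneg (hYb _).1]; exact (hYb _).2))
  have hZai : ∀ a, Integrable (fun b => Z (a, b)) (PJ ν2) := fun a =>
    Integrable.of_bound (hZ.comp (hab a)).aestronglyMeasurable 1 (ae_of_all _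
    (fun b => by rw [Real.norm_eq_abs, abs_of_nonneg (hZ0 _)]; exact hZ1 _))
  have hYa0 : ∀ a, 0 ≤ Ya a := fun a => integral_nonneg (fun b => (hYb _).1)
  have hYa1 : ∀ a, Ya a ≤ 1 := fun a => by
    have := integral_mono (hYai a) (integrable_const (1 : ℝ)) (fun b => (hYb (a, b)).2)
    simpa using this
  have hZa0 : ∀ a, 0 ≤ Za a := fun a => integral_nonneg (fun b => hZ0 _)
  have hZYa : ∀ a, Za a ≤ Ya a := fun a => integral_mono (hZai a) (hYai a) (fun b => hZY (a, b))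
  have hκ0 : 0 ≤ κ := by
    obtain ⟨a⟩ : Nonempty (E → Y1) := by
      by_contra hcon
      rw [not_nonempty_iff] at hcon
      have : (PJ ν1) univ = 0 := by rw [Set.eq_empty_of_isEmpty (univ : Set (E → Y1))]; simp
      rw [measure_univ] at this
      exact one_ne_zero this
    exact (integral_nonneg (fun b => abs_nonneg _)).trans (hκ a)
  have hIY : ∫ a, Ya a ∂(PJ ν1) = ∫ p, Yf p ∂P := (integral_prod _ hYi).symm
  have hIZ : ∫ a, Za a ∂(PJ ν1) = ∫ p, Z p ∂P := (integral_prod _ hZi).symm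
  have hYaI : Integrable Ya (PJ ν1) := Integrable.of_bound hYam.aestronglyMeasurable 1
    (ae_of_all _ (fun a => by rw [Real.norm_eq_abs, abs_of_nonneg (hYa0 a)]; exact hYa1 a))
  have hZaI : Integrable Za (PJ ν1) := Integrable.of_bound hZam.aestronglyMeasurable 1
    (ae_of_all _ (fun a => by
      rw [Real.norm_eq_abs, abs_of_nonneg (hZa0 a)]; exact (hZYa a).trans (hYa1 a)))
  obtain ⟨hsi, hsle⟩ := integral_sqrt_le (PJ ν1) (f := fun a => 2 * (κ + (Ya a - Za a)))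
    (C := 2 * (κ + 1)) (((hYam.sub hZam).const_add κ).const_mul 2)
    (fun a => by have := hZYa a; linarith)
    (fun a => by have := hYa1 a; have := hZa0 a; linarith)
  have hIs : ∫ a, 2 * (κ + (Ya a - Za a)) ∂(PJ ν1) = 2 * (κ + (∫ p, Yf p ∂P - ∫ p, Z p ∂P)) := by
    have e0 : ∫ a, (κ + (Ya a - Za a)) ∂(PJ ν1) = ∫ a, κ ∂(PJ ν1) + ∫ a, (Ya a - Za a) ∂(PJ ν1) :=
      integral_add (integrable_const κ) (hYaI.sub hZaI)
    rw [integral_const_mul, e0, integral_sub hYaI hZaI, hIY, hIZ]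
    simp
  rw [hIs] at hsle
  -- the four terms
  set Gi : (E → Y1) × (E → Y2) → ℝ≥0∞ := fun p => (Rg.G N).indicator 1 (zp p.1 p.2) with hGi
  have hGim : Measurable Gi := (measurable_one.indicator (Rg.hG N)).comp measurable_zp
  set f1 : (E → Y1) × (E → Y2) → ℝ≥0∞ := fun p => Gi p * ENNReal.ofReal (X p) with hf1
  set f3 : (E → Y1) × (E → Y2) → ℝ≥0∞ := fun p => Gi p *
    ENNReal.ofReal (2 * ∑ e ∈ cut (Rg.R N (zp p.1 p.2)), |cp q p.1 p.2 e|) with hf3
  set f4 : (E → Y1) × (E → Y2) → ℝ≥0∞ := fun p => ∑ z ∈ box N,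
    (sec ν2 A A' (zp p.1 p.2 (z, i)) - ahat ν2 q A A' j (zp p.1 p.2 (z, i))) with hf4
  have hf1m : Measurable f1 := hGim.mul hXm.ennreal_ofReal
  have hf3m : Measurable f3 := hGim.mul ((((Rg.hcost N).comp measurable_zp).const_mul
    2).ennreal_ofReal)
  have hzpe : ∀ e : E, Measurable (fun p : (E → Y1) × (E → Y2) => zp p.1 p.2 e) := fun e =>
    (measurable_pi_apply e).comp measurable_zp
  have hsecm : Measurable (sec ν2 A A') := measurable_sec hA hA'
  have hahm : Measurable (ahat ν2 q A A' j) := measurable_ahat ν2 hq hA hA' j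
  have hf4m : Measurable f4 := Finset.measurable_sum _ (fun z _ =>
    (hsecm.comp (hzpe _)).sub (hahm.comp (hzpe _)))
  set F2 : (E → Y1) → ℝ≥0∞ := fun a => ENNReal.ofReal (cN * (Ya a + M *
    Real.sqrt (2 * (κ + (Ya a - Za a))))) with hF2
  have hF2m : Measurable F2 := Measurable.ennreal_ofReal ((hYam.add (Measurable.const_mul
    (Measurable.sqrt (((hYam.sub hZam).const_add κ).const_mul 2)) M)).const_mul cN)
  have hpt : ∀ᵐ a ∂(PJ ν1), ENNReal.ofReal s * (ENNReal.ofReal m * ∫⁻ b, f1 (a, b) ∂(PJ ν2))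
      ≤ ENNReal.ofReal (s * m) * F2 a + ∫⁻ b, f3 (a, b) ∂(PJ ν2)
        + ENNReal.ofReal s * ∫⁻ b, f4 (a, b) ∂(PJ ν2) := by
    filter_upwards [ae_edges hmA, ae_edges hmA'] with a ha ha'
    have t1 := tilt_a (i := i) hq hA hA' hlt Rg hs0.le hsj hm.le N w hw h0 h1 sx sy hsx hsy hsxL hsyL a
      (fun e _ => (ha e).le)
    have t2 := right_a (i := i) hq hA hA' hw h0 h1 hr hN a (hZ.comp (hab a)) (fun b => hZ0 (a, b))
      (fun b => hZY (a, b)) (hκ a)
    have t3 : ENNReal.ofReal m * ∫⁻ b, f1 (a, b) ∂(PJ ν2)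
        ≤ ∫⁻ b, (Rg.G N).indicator 1 (zp a b) *
          ∑ z ∈ box N, ENNReal.ofReal (w z a) * (ahat ν2 q A A' j (a (z, i), b (z, i)) *
          ENNReal.ofReal (av (pat (sx (a, b))) (z, i))) ∂(PJ ν2)
          + ∫⁻ b, f4 (a, b) ∂(PJ ν2) := by
      have q1 : Measurable (fun b => f1 (a, b)) := hf1m.comp (hab a)
      have q4 : Measurable (fun b => f4 (a, b)) := hf4m.comp (hab a)
      rw [← lintegral_const_mul _ q1, ← lintegral_add_right _ q4]
      apply lintegral_mono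
      intro b
      have := left_a (q := q) (j := j) (m := m) h0 h1 (Rg.G N) a b (fun e _ => (ha' e).ge)
        (pat (sx (a, b))) (pat_spin _) (A := A) (A' := A') (ν2 := ν2) (i := i) (N := N)
      rw [← hsxE (a, b)] at this
      exact this
    have t4 : ∫⁻ b, DK ν2 (fun e => kk q A A' j (s * w e.1 a) (a e)) (TE i N) b *
          ENNReal.ofReal (SW i N (uA i A' w a b) (pat (sy (a, b)))) ∂(PJ ν2) ≤ F2 a := by
      have : ∀ b, SW i N (uA i A' w a b) (pat (sy (a, b)))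
          = YW i N (uA i A' w a b) (cp q a b) := fun b => (hsyE (a, b)).symm
      simp_rw [this]
      exact t2
    calc ENNReal.ofReal s * (ENNReal.ofReal m * ∫⁻ b, f1 (a, b) ∂(PJ ν2))
        ≤ ENNReal.ofReal s * (∫⁻ b, (Rg.G N).indicator 1 (zp a b) *
          ∑ z ∈ box N, ENNReal.ofReal (w z a) * (ahat ν2 q A A' j (a (z, i), b (z, i)) *
          ENNReal.ofReal (av (pat (sx (a, b))) (z, i))) ∂(PJ ν2)
          + ∫⁻ b, f4 (a, b) ∂(PJ ν2)) := by gcongr
      _ = ENNReal.ofReal s * ∫⁻ b, (Rg.G N).indicator 1 (zp a b) *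
          ∑ z ∈ box N, ENNReal.ofReal (w z a) * (ahat ν2 q A A' j (a (z, i), b (z, i)) *
          ENNReal.ofReal (av (pat (sx (a, b))) (z, i))) ∂(PJ ν2)
          + ENNReal.ofReal s * ∫⁻ b, f4 (a, b) ∂(PJ ν2) := by rw [mul_add]
      _ ≤ (ENNReal.ofReal (s * m) * F2 a + ∫⁻ b, f3 (a, b) ∂(PJ ν2))
          + ENNReal.ofReal s * ∫⁻ b, f4 (a, b) ∂(PJ ν2) := by
          gcongr
          refine t1.trans ?_
          gcongr
  have hint := lintegral_mono_ae hpt
  have i1 : ∫⁻ a, ENNReal.ofReal s * (ENNReal.ofReal m * ∫⁻ b, f1 (a, b) ∂(PJ ν2)) ∂(PJ ν1)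
      = ENNReal.ofReal s * (ENNReal.ofReal m * ∫⁻ p, f1 p ∂P) := by
    rw [lintegral_const_mul _ (hf1m.lintegral_prod_right'.const_mul _),
      lintegral_const_mul _ hf1m.lintegral_prod_right', lintegral_prod _ hf1m.aemeasurable]
  have i2 : ∫⁻ a, (ENNReal.ofReal (s * m) * F2 a + ∫⁻ b, f3 (a, b) ∂(PJ ν2)
        + ENNReal.ofReal s * ∫⁻ b, f4 (a, b) ∂(PJ ν2)) ∂(PJ ν1)
      = ENNReal.ofReal (s * m) * ∫⁻ a, F2 a ∂(PJ ν1) + ∫⁻ p, f3 p ∂P
        + ENNReal.ofReal s * ∫⁻ p, f4 p ∂P := by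
    rw [lintegral_add_right _ (hf4m.lintegral_prod_right'.const_mul _),
      lintegral_add_right _ hf3m.lintegral_prod_right', lintegral_const_mul _ hF2m,
      lintegral_const_mul _ hf4m.lintegral_prod_right', lintegral_prod _ hf3m.aemeasurable,
      lintegral_prod _ hf4m.aemeasurable]
  rw [i1, i2] at hint
  set SG : Set ((E → Y1) × (E → Y2)) := {p | zp p.1 p.2 ∈ Rg.G N} with hSG
  have hSGm : MeasurableSet SG := measurable_zp (Rg.hG N)
  have j1 : ∫⁻ p, f1 p ∂P = ENNReal.ofReal (∫ p in SG, X p ∂P) := by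
    rw [ofReal_integral_eq_lintegral_ofReal hXi.integrableOn (ae_of_all _ (fun p => (hXb p).1)),
      ← lintegral_indicator hSGm]
    apply lintegral_congr
    intro p
    simp only [hf1, hGi]
    by_cases h : zp p.1 p.2 ∈ Rg.G N
    · rw [indicator_of_mem h, indicator_of_mem (by exact h), Pi.one_apply, one_mul]
    · rw [indicator_of_notMem h, indicator_of_notMem (by exact h), zero_mul]
  have j2 : ∫⁻ a, F2 a ∂(PJ ν1) ≤ ENNReal.ofReal (cN * (∫ p, Yf p ∂P + M * Real.sqrt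
      (2 * (κ + (∫ p, Yf p ∂P - ∫ p, Z p ∂P))))) := by
    have hint2 : Integrable (fun a => cN * (Ya a + M * Real.sqrt (2 * (κ + (Ya a - Za a)))))
        (PJ ν1) := (hYaI.add (hsi.const_mul M)).const_mul cN
    rw [← ofReal_integral_eq_lintegral_ofReal hint2
      (ae_of_all _ (fun a => mul_nonneg hcN.le (add_nonneg (hYa0 a) (mul_nonneg
        (Real.exp_pos _).le (Real.sqrt_nonneg _)))))]
    apply ENNReal.ofReal_le_ofReal
    rw [integral_const_mul]
    apply mul_le_mul_of_nonneg_left _ hcN.le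
    rw [integral_add hYaI (hsi.const_mul M), hIY, integral_const_mul]
    gcongr
  have j3 : ∫⁻ p, f3 p ∂P ≤ ENNReal.ofReal (2 * (Rg.C0 * ((N : ℝ) + 1))) := by
    have hmp := mp_zp ν1 ν2
    have hm3 : Measurable (fun ω : E → Y1 × Y2 => (Rg.G N).indicator (1 : (E → Y1 × Y2) → ℝ≥0∞) ω *
        ENNReal.ofReal (2 * ∑ e ∈ cut (Rg.R N ω), |q (ω e)|)) :=
      (measurable_one.indicator (Rg.hG N)).mul ((Rg.hcost N).const_mul 2).ennreal_ofReal
    have h3 : ∫⁻ p, f3 p ∂P = ∫⁻ ω, (Rg.G N).indicator 1 ω *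
        ENNReal.ofReal (2 * ∑ e ∈ cut (Rg.R N ω), |q (ω e)|) ∂(PJ (ν1.prod ν2)) := by
      rw [← hmp.lintegral_comp hm3]
      rfl
    rw [h3]
    have h4 : ∫⁻ ω, (Rg.G N).indicator 1 ω *
        ENNReal.ofReal (2 * ∑ e ∈ cut (Rg.R N ω), |q (ω e)|) ∂(PJ (ν1.prod ν2))
        = ENNReal.ofReal 2 * ∫⁻ ω in Rg.G N, ENNReal.ofReal
          (∑ e ∈ cut (Rg.R N ω), |q (ω e)|) ∂(PJ (ν1.prod ν2)) := by
      rw [← lintegral_indicator (Rg.hG N), ← lintegral_const_mul _
        ((Rg.hcost N).ennreal_ofReal.indicator (Rg.hG N))]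
      apply lintegral_congr
      intro ω
      by_cases h : ω ∈ Rg.G N
      · rw [indicator_of_mem h, indicator_of_mem h, Pi.one_apply, one_mul,
          ENNReal.ofReal_mul (by norm_num)]
      · rw [indicator_of_notMem h, indicator_of_notMem h, zero_mul, mul_zero]
    rw [h4, ENNReal.ofReal_mul (by norm_num : (0 : ℝ) ≤ 2)]
    gcongr
    exact Rg.cost N
  have j4 : ∫⁻ p, f4 p ∂P = ENNReal.ofReal cN * ((∫⁻ p, sec ν2 A A' p ∂(ν1.prod ν2))
      - ∫⁻ p, ahat ν2 q A A' j p ∂(ν1.prod ν2)) := by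
    have hmp := mp_zp ν1 ν2
    have h5 : ∀ z ∈ box N, ∫⁻ p, (sec ν2 A A' (zp p.1 p.2 (z, i))
        - ahat ν2 q A A' j (zp p.1 p.2 (z, i))) ∂P
        = (∫⁻ p, sec ν2 A A' p ∂(ν1.prod ν2)) - ∫⁻ p, ahat ν2 q A A' j p ∂(ν1.prod ν2) := by
      intro z _
      have hmz : MeasurePreserving (fun p : (E → Y1) × (E → Y2) => zp p.1 p.2 (z, i)) P
          (ν1.prod ν2) :=
        (measurePreserving_eval_infinitePi (fun _ : E => ν1.prod ν2) (z, i)).comp hmp
      rw [hmz.lintegral_comp (f := fun p => sec ν2 A A' p - ahat ν2 q A A' j p)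
        (hsecm.sub hahm), lintegral_sub hahm _ (ae_of_all _ (fun p => ahat_le_sec p))]
      refine ne_top_of_le_ne_top ENNReal.one_ne_top ?_
      calc ∫⁻ p, ahat ν2 q A A' j p ∂(ν1.prod ν2) ≤ ∫⁻ p, 1 ∂(ν1.prod ν2) :=
            lintegral_mono (fun p => (ahat_le_sec p).trans (sec_le_one p))
        _ = 1 := by simp
    have hm5 : ∀ z ∈ box N, Measurable (fun p : (E → Y1) × (E → Y2) =>
        sec ν2 A A' (zp p.1 p.2 (z, i)) - ahat ν2 q A A' j (zp p.1 p.2 (z, i))) :=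
      fun z _ => (hsecm.comp (hzpe _)).sub (hahm.comp (hzpe _))
    simp only [hf4]
    rw [lintegral_finsetSum _ hm5,
      Finset.sum_congr rfl h5, Finset.sum_const, nsmul_eq_mul, hcN', ENNReal.ofReal_natCast]
  set ER := (∫⁻ p, sec ν2 A A' p ∂(ν1.prod ν2)) - ∫⁻ p, ahat ν2 q A A' j p ∂(ν1.prod ν2) with hER
  have hERfin : ER ≠ ∞ := by
    refine ne_top_of_le_ne_top ENNReal.one_ne_top (tsub_le_self.trans ?_)
    calc ∫⁻ p, sec ν2 A A' p ∂(ν1.prod ν2) ≤ ∫⁻ p, 1 ∂(ν1.prod ν2) :=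
          lintegral_mono (fun p => sec_le_one p)
      _ = 1 := by simp
  rw [j1, j4] at hint
  set IG := ∫ p in SG, X p ∂P with hIG
  set Q := ∫ p, Yf p ∂P + M * Real.sqrt (2 * (κ + (∫ p, Yf p ∂P - ∫ p, Z p ∂P))) with hQ
  have hIG0 : 0 ≤ IG := integral_nonneg (fun p => (hXb p).1)
  have hQ0 : 0 ≤ Q := add_nonneg (integral_nonneg (fun p => (hYb p).1))
    (mul_nonneg (Real.exp_pos _).le (Real.sqrt_nonneg _))
  have hC0 := Rg.hC0
  have hfin : ENNReal.ofReal (s * (m * IG)) ≤ ENNReal.ofReal (s * m * (cN * Q)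
      + 2 * (Rg.C0 * ((N : ℝ) + 1)) + s * (cN * ER.toReal)) := by
    have a1 : ENNReal.ofReal (s * (m * IG)) = ENNReal.ofReal s * (ENNReal.ofReal m *
        ENNReal.ofReal IG) := by rw [ENNReal.ofReal_mul hs0.le, ENNReal.ofReal_mul hm.le]
    have a2 : ENNReal.ofReal (s * m * (cN * Q)) = ENNReal.ofReal (s * m) *
        ENNReal.ofReal (cN * Q) := ENNReal.ofReal_mul (by positivity)
    have a3 : ENNReal.ofReal (s * (cN * ER.toReal)) = ENNReal.ofReal s *
        (ENNReal.ofReal cN * ER) := by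
      rw [ENNReal.ofReal_mul hs0.le, ENNReal.ofReal_mul hcN.le, ENNReal.ofReal_toReal hERfin]
    rw [ENNReal.ofReal_add (by positivity) (by positivity),
      ENNReal.ofReal_add (by positivity) (by positivity), a1, a2, a3]
    refine hint.trans ?_
    gcongr
  have hfin2 := (ENNReal.ofReal_le_ofReal_iff (by positivity)).1 hfin
  -- lower bound for the integral over G
  have hXall : ∫ p, X p ∂P ≤ IG + cN * (PJ (ν1.prod ν2)).real (Rg.G N)ᶜ := by
    rw [← integral_add_compl hSGm hXi]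
    gcongr
    calc ∫ p in SGᶜ, X p ∂P
        ≤ ∫ p in SGᶜ, cN ∂P :=
          integral_mono hXi.integrableOn (integrable_const _) (fun p => (hXb p).2)
      _ = cN * P.real SGᶜ := by
          rw [setIntegral_const, smul_eq_mul, mul_comm]
      _ = cN * (PJ (ν1.prod ν2)).real (Rg.G N)ᶜ := by
          congr 1
          rw [measureReal_def, measureReal_def]
          congr 1
          exact (mp_zp ν1 ν2).measure_preimage (Rg.hG N).compl.nullMeasurableSet
  have h6 : 2 * (Rg.C0 * ((N : ℝ) + 1)) ≤ s * cN * (2 * Rg.C0 / r) := by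
    have h7 : s * cN * (2 * Rg.C0 / r) = 2 * Rg.C0 * (cN / ((N : ℝ) + 1)) := by
      rw [hs]; field_simp
    rw [h7, ← mul_assoc]
    apply mul_le_mul_of_nonneg_left _ (by positivity)
    rw [le_div_iff₀ hN1, hcN', box_cast]
    have : (0 : ℝ) ≤ N := Nat.cast_nonneg N
    nlinarith
  have h8 : (s * m * cN) * (IG / cN) ≤ (s * m * cN) * (Q + 2 * Rg.C0 / (r * m) + ER.toReal / m) := by
    have e1 : (s * m * cN) * (IG / cN) = s * (m * IG) := by field_simp
    have e2 : (s * m * cN) * (Q + 2 * Rg.C0 / (r * m) + ER.toReal / m)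
        = s * m * (cN * Q) + s * cN * (2 * Rg.C0 / r) + s * (cN * ER.toReal) := by
      field_simp
    rw [e1, e2]
    linarith
  have h9 := le_of_mul_le_mul_left h8 (by positivity)
  have h10 : ∫ p, X p / cN ∂P ≤ IG / cN + (PJ (ν1.prod ν2)).real (Rg.G N)ᶜ := by
    rw [integral_div]
    calc (∫ p, X p ∂P) / cN ≤ (IG + cN * (PJ (ν1.prod ν2)).real (Rg.G N)ᶜ) / cN := by gcongr
      _ = _ := by field_simp
  linarith

end Pool.H66.CH
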