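import Pool.Agent.Helper66.CH.UnionK
import Pool.Agent.Helper66.CH.Enum
import Pool.Agent.Helper66.CH.CondRep
import Pool.Agent.Helper66.CH.LocPart

set_option autoImplicit false
set_option linter.unusedSectionVars false

/-! MODULE M4. Overlaps, uniformly over all pairs of ground states, in mean. -/

namespace Pool.H66.CH

open MeasureTheory Set ProbabilityTheory Filter Topology Pool.H66.EAM
open scoped ENNReal

/-- The limiting overlap. -/
noncomputable def qT (μ : Measure ℝ) [IsProbabilityMeasure μ] (lam : Measure ℝ)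
    [IsProbabilityMeasure lam] (T : ℝ × ℝ → ℝ) (m : Fin 2 → (E → ℝ) → ℝ) : ℝ :=
  (∑ i : Fin 2, ∫ p, m i p.1 * m i (cp T p.1 p.2) ∂((PJ μ).prod (PJ lam))) / 2

/-- The perturbed couplings have law `PJ μ`. -/
lemma mp_pert {μ lam : Measure ℝ} [IsProbabilityMeasure μ] [IsProbabilityMeasure lam]
    {T : ℝ × ℝ → ℝ} (hT : IsPert μ lam T) :
    MeasurePreserving (fun p : (E → ℝ) × (E → ℝ) => cp T p.1 p.2) ((PJ μ).prod (PJ lam))
      (PJ μ) := by
  have : IsProbabilityMeasure ((μ.prod lam).map T) := by rw [hT.law]; infer_instance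
  have h1 := mp_cpl (μ.prod lam) hT.meas
  have h2 := h1.comp (mp_zp μ lam)
  refine ⟨measurable_cp hT.meas, ?_⟩
  have h3 := h2.map_eq
  have h4 : PJ ((μ.prod lam).map T) = PJ μ := by simp_rw [hT.law]
  exact h3.trans h4

/-- One direction. -/
theorem over1 (μ : Measure ℝ) [IsProbabilityMeasure μ] (hμ : ∀ x : ℝ, μ {x} = 0)
    (lam : Measure ℝ) [IsProbabilityMeasure lam] {T : ℝ × ℝ → ℝ} (hT : IsPert μ lam T)
    {m : Fin 2 → (E → ℝ) → ℝ} (hm : IsBond μ m) (i : Fin 2) (hK : KK μ lam T i) {ε : ℝ}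
    (hε : 0 < ε) :
    ∃ N0 : ℕ, ∀ N ≥ N0, ∃ H : (E → ℝ) × (E → ℝ) → ℝ, Measurable H ∧
      (∀ p, 0 ≤ H p) ∧ Integrable H ((PJ μ).prod (PJ lam)) ∧
      ∫ p, H p ∂((PJ μ).prod (PJ lam)) ≤ ε ∧
      ∀ᵐ p ∂((PJ μ).prod (PJ lam)), ∀ σ τ : V → ℝ, IsSpin σ → IsSpin τ →
        LG (box (2 * N + 1)) p.1 σ → LG (box (2 * N + 1)) (cp T p.1 p.2) τ →
        |(∑ z ∈ box N, bond σ (z, i) * bond τ (z, i)) / ((box N).card : ℝ)
          - ∫ p, m i p.1 * m i (cp T p.1 p.2) ∂((PJ μ).prod (PJ lam))| ≤ H p := by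
  classical
  set P := (PJ μ).prod (PJ lam) with hP
  set ε' : ℝ := ε / 7 with hε'
  have hε0 : 0 < ε' := by positivity
  obtain ⟨N1, hN1⟩ := unionK hT.meas hK 16 hε0
  set M : (E → ℝ × ℝ) → ℝ := fun ω => m i (fun e => T (ω e)) with hM
  have hMm : Measurable M := (hm.meas i).comp (measurable_pi_lambda _
    (fun e => hT.meas.comp (measurable_pi_apply e)))
  have hMb : ∀ ω, |M ω| ≤ 1 := fun ω => hm.bdd i _
  obtain ⟨N3, hN3⟩ := loc_part μ hμ lam hm i hMm hMb hε0
  obtain ⟨κ, hκp, hκ⟩ := cond_rep μ hμ hm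
  refine ⟨max N1 N3, fun N hN => ?_⟩
  have hN1' := hN1 N ((le_max_left _ _).trans hN)
  obtain ⟨H3, h3m, h30, h3i, h3e, h3ae⟩ := hN3 N ((le_max_right _ _).trans hN)
  obtain ⟨n, g, hn, hgm, hgs, hgae⟩ := exists_enum μ hμ N
  have hc := box_pos N
  set w : Fin n → V → (E → ℝ) → ℝ := fun s z a => (1 + bond (g s a) (z, i)) / 2 with hw
  have hwm : ∀ s z, Measurable (w s z) := fun s z =>
    ((measurable_bond (hgm s) _).const_add 1).div_const 2
  have hw0 : ∀ s z a, 0 ≤ w s z a := fun s z a => by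
    rcases bond_cases (hgs s a) (z, i) with h | h <;> simp only [hw, h] <;> norm_num
  have hw1 : ∀ s z a, w s z a ≤ 1 := fun s z a => by
    rcases bond_cases (hgs s a) (z, i) with h | h <;> simp only [hw, h] <;> norm_num
  obtain ⟨H1, h1m, h1b, h1le, h1e⟩ := hN1' n w hn hwm hw0 hw1
  have hone : ((1 : ℕ) : ℝ) ≤ Real.exp (16 * ((N : ℝ) + 1)) := by
    rw [Nat.cast_one]
    exact Real.one_le_exp (by positivity)
  obtain ⟨H2, h2m, h2b, h2le, h2e⟩ := hN1' 1 (fun _ _ _ => 1) hone (fun _ _ => measurable_const)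
    (fun _ _ _ => zero_le_one) (fun _ _ _ => le_rfl)
  have h1i : Integrable H1 P := Integrable.of_bound h1m.aestronglyMeasurable
    ((box N).card : ℝ) (ae_of_all _ (fun p => by
      rw [Real.norm_eq_abs, abs_of_nonneg (h1b p).1]; exact (h1b p).2))
  have h2i : Integrable H2 P := Integrable.of_bound h2m.aestronglyMeasurable
    ((box N).card : ℝ) (ae_of_all _ (fun p => by
      rw [Real.norm_eq_abs, abs_of_nonneg (h2b p).1]; exact (h2b p).2))
  have hmz := mp_zp μ lam
  have h3i' : Integrable (fun p : (E → ℝ) × (E → ℝ) => H3 (zp p.1 p.2)) P :=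
    hmz.integrable_comp_of_integrable h3i
  have h3e' : ∫ p, H3 (zp p.1 p.2) ∂P ≤ ε' := by
    have h := integral_map (μ := P) hmz.measurable.aemeasurable (f := H3)
      h3m.aestronglyMeasurable
    rw [hmz.map_eq] at h
    rw [← h]; exact h3e
  -- the constant
  have hcst : ∫ ω', M ω' * m i (fun e => (ω' e).1) ∂(PJ (μ.prod lam))
      = ∫ p, m i p.1 * m i (cp T p.1 p.2) ∂P := by
    have hf : Measurable (fun ω' : E → ℝ × ℝ => M ω' * m i (fun e => (ω' e).1)) :=
      hMm.mul ((hm.meas i).comp (measurable_pi_lambda _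
        (fun e => measurable_fst.comp (measurable_pi_apply e))))
    have h := integral_map (μ := P) hmz.measurable.aemeasurable
      (f := fun ω' : E → ℝ × ℝ => M ω' * m i (fun e => (ω' e).1)) hf.aestronglyMeasurable
    rw [hmz.map_eq] at h
    rw [h]
    apply integral_congr_ae
    apply ae_of_all
    intro p
    exact mul_comm _ _
  set F : (E → ℝ) × (E → ℝ) → ℝ := fun p =>
    (4 * H1 p + 2 * H2 p) / ((box N).card : ℝ) + H3 (zp p.1 p.2) with hF
  refine ⟨F, ?_, ?_, ?_, ?_, ?_⟩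
  · exact ((((h1m.const_mul 4).add (h2m.const_mul 2)).div_const _).add (h3m.comp hmz.measurable))
  · intro p
    have a1 := (h1b p).1
    have a2 := (h2b p).1
    have a3 := h30 (zp p.1 p.2)
    positivity
  · exact (((h1i.const_mul 4).add (h2i.const_mul 2)).div_const _).add h3i'
  · have hi4 : Integrable (fun p => (4 * H1 p + 2 * H2 p) / ((box N).card : ℝ)) P :=
      ((h1i.const_mul 4).add (h2i.const_mul 2)).div_const _
    have hi5 : ∫ p, (4 * H1 p + 2 * H2 p) ∂P = 4 * ∫ p, H1 p ∂P + 2 * ∫ p, H2 p ∂P := by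
      rw [integral_add (h1i.const_mul 4) (h2i.const_mul 2), integral_const_mul,
        integral_const_mul]
    simp only [hF]
    rw [integral_add hi4 h3i', integral_div, hi5]
    have a4 : (4 * ∫ p, H1 p ∂P + 2 * ∫ p, H2 p ∂P) / ((box N).card : ℝ) ≤ 6 * ε' := by
      rw [div_le_iff₀ hc]
      linarith
    have a5 : 7 * ε' = ε := by rw [hε']; ring
    linarith
  · have q1 : ∀ᵐ p ∂P, ∀ σ : V → ℝ, IsSpin σ → LG (box (2 * N + 1)) p.1 σ →
        ∃ s, ∀ z ∈ box N, ∀ i : Fin 2, bond σ (z, i) = bond (g s p.1) (z, i) :=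
      measurePreserving_fst.quasiMeasurePreserving.ae hgae
    have q2 := (mp_pert hT).quasiMeasurePreserving.ae hκ
    have q3 := hmz.quasiMeasurePreserving.ae h3ae
    filter_upwards [q1, q2, q3] with p r1 r2 r3 σ τ hσ hτ hσL hτL
    set J' : E → ℝ := cp T p.1 p.2 with hJ'
    have := hκp J'
    obtain ⟨s, hs⟩ := r1 σ hσ hσL
    -- comparison with the conditional expectation
    have hsb : ∀ τ' : V → ℝ, IsSpin τ' → LG (box (2 * N + 1)) J' τ' →
        |∑ z ∈ box N, bond σ (z, i) * (bond τ (z, i) - bond τ' (z, i))|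
          ≤ 4 * H1 p + 2 * H2 p := by
      intro τ' hτ' hτL'
      have b1 := signed_bound (i := i) (N := N) (u := fun z => bond σ (z, i))
        (fun z => (abs_bond hσ _).le) hτ hτ' hτL hτL'
      have b2 : ∀ z ∈ box N, (1 + bond σ (z, i)) / 2 = w s z p.1 := fun z hz => by
        simp only [hw]; rw [hs z hz i]
      have b3 : XW i N (fun z => (1 + bond σ (z, i)) / 2) J' = XW i N (fun z => w s z p.1) J' :=
        XW_congr b2 (fun _ _ => rfl)
      have b4 : YW i N (fun z => (1 + bond σ (z, i)) / 2) J' = YW i N (fun z => w s z p.1) J' :=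
        YW_congr b2 (fun _ _ => rfl)
      have b5 := h1le p s
      have b6 := h2le p 0
      rw [b3, b4] at b1
      linarith
    have hint : ∀ z : V, Integrable (fun τ' : V → ℝ => bond τ' (z, i)) (κ J') := by
      intro z
      apply Integrable.of_bound (measurable_bond measurable_id _).aestronglyMeasurable 1
      filter_upwards [r2.1] with τ' hτ'
      show ‖bond τ' (z, i)‖ ≤ 1
      rw [Real.norm_eq_abs, abs_bond hτ'.spin]
    have hd : |∑ z ∈ box N, bond σ (z, i) * (bond τ (z, i) - m i (shJ z J'))|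
        ≤ 4 * H1 p + 2 * H2 p := by
      have e1 : ∑ z ∈ box N, bond σ (z, i) * (bond τ (z, i) - m i (shJ z J'))
          = ∫ τ', ∑ z ∈ box N, bond σ (z, i) * (bond τ (z, i) - bond τ' (z, i)) ∂(κ J') := by
        have hi6 : ∀ z ∈ box N, Integrable (fun τ' : V → ℝ =>
            bond σ (z, i) * (bond τ (z, i) - bond τ' (z, i))) (κ J') := fun z _ =>
          ((integrable_const _).sub (hint z)).const_mul _
        rw [integral_finsetSum _ hi6]
        apply Finset.sum_congr rfl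
        intro z _
        rw [integral_const_mul, integral_sub (integrable_const _) (hint z), r2.2 z i]
        simp
      rw [e1]
      have h7 := norm_integral_le_of_norm_le_const (μ := κ J')
        (f := fun τ' : V → ℝ => ∑ z ∈ box N, bond σ (z, i) * (bond τ (z, i) - bond τ' (z, i)))
        (C := 4 * H1 p + 2 * H2 p) (by
          filter_upwards [r2.1] with τ' hτ'
          rw [Real.norm_eq_abs]
          exact hsb τ' hτ'.spin (hτ'.lg _))
      simpa using h7
    -- the local part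
    have hl := r3 σ hσ hσL
    rw [hcst] at hl
    have e2 : ∀ z : V, M (shJ z (zp p.1 p.2)) = m i (shJ z J') := fun z => rfl
    simp_rw [e2] at hl
    have e3 : (∑ z ∈ box N, bond σ (z, i) * bond τ (z, i)) / ((box N).card : ℝ)
          - ∫ p, m i p.1 * m i (cp T p.1 p.2) ∂P
        = (∑ z ∈ box N, bond σ (z, i) * (bond τ (z, i) - m i (shJ z J'))) / ((box N).card : ℝ)
          + ((∑ z ∈ box N, m i (shJ z J') * bond σ (z, i)) / ((box N).card : ℝ)
            - ∫ p, m i p.1 * m i (cp T p.1 p.2) ∂P) := by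
      have e4 : ∑ z ∈ box N, bond σ (z, i) * bond τ (z, i)
          = ∑ z ∈ box N, bond σ (z, i) * (bond τ (z, i) - m i (shJ z J'))
            + ∑ z ∈ box N, m i (shJ z J') * bond σ (z, i) := by
        rw [← Finset.sum_add_distrib]
        apply Finset.sum_congr rfl
        intro z _
        ring
      rw [e4, add_div]; ring
    rw [e3]
    refine (abs_add_le _ _).trans ?_
    simp only [hF]
    apply add_le_add _ hl
    rw [abs_div, abs_of_pos hc]
    exact div_le_div_of_nonneg_right hd hc.le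

theorem over_all (μ : Measure ℝ) [IsProbabilityMeasure μ] (hμ : ∀ x : ℝ, μ {x} = 0)
    (lam : Measure ℝ) [IsProbabilityMeasure lam] {T : ℝ × ℝ → ℝ} (hT : IsPert μ lam T)
    {m : Fin 2 → (E → ℝ) → ℝ} (hm : IsBond μ m) (hK : ∀ i, KK μ lam T i) :
    ∀ ε > 0, ∃ N0 : ℕ, ∀ N ≥ N0, ∃ H : (E → ℝ) × (E → ℝ) → ℝ, Measurable H ∧
      (∀ p, 0 ≤ H p) ∧ Integrable H ((PJ μ).prod (PJ lam)) ∧
      ∫ p, H p ∂((PJ μ).prod (PJ lam)) ≤ ε ∧
      ∀ᵐ p ∂((PJ μ).prod (PJ lam)), ∀ σ τ : V → ℝ, IsSpin σ → IsSpin τ →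
        LG (box (2 * N + 1)) p.1 σ → LG (box (2 * N + 1)) (cp T p.1 p.2) τ →
        |overlap N σ τ - qT μ lam T m| ≤ H p := by
  intro ε hε
  obtain ⟨N0, hN0⟩ := over1 μ hμ lam hT hm 0 (hK 0) hε
  obtain ⟨N1, hN1⟩ := over1 μ hμ lam hT hm 1 (hK 1) hε
  refine ⟨max N0 N1, fun N hN => ?_⟩
  obtain ⟨H, hHm, hH0, hHi, hHe, hHae⟩ := hN0 N ((le_max_left _ _).trans hN)
  obtain ⟨G, hGm, hG0, hGi, hGe, hGae⟩ := hN1 N ((le_max_right _ _).trans hN)
  have hc := box_pos N
  refine ⟨fun p => (H p + G p) / 2, (hHm.add hGm).div_const 2,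
    fun p => by have := hH0 p; have := hG0 p; positivity, (hHi.add hGi).div_const 2, ?_, ?_⟩
  · rw [integral_div, integral_add hHi hGi]
    linarith
  · filter_upwards [hHae, hGae] with p h1 h2 σ τ hσ hτ hσL hτL
    have k1 := h1 σ τ hσ hτ hσL hτL
    have k2 := h2 σ τ hσ hτ hσL hτL
    have e1 : overlap N σ τ - qT μ lam T m
        = (((∑ z ∈ box N, bond σ (z, 0) * bond τ (z, 0)) / ((box N).card : ℝ)
          - ∫ p, m 0 p.1 * m 0 (cp T p.1 p.2) ∂((PJ μ).prod (PJ lam)))
          + ((∑ z ∈ box N, bond σ (z, 1) * bond τ (z, 1)) / ((box N).card : ℝ)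
          - ∫ p, m 1 p.1 * m 1 (cp T p.1 p.2) ∂((PJ μ).prod (PJ lam)))) / 2 := by
      unfold overlap qT
      simp only [Fin.sum_univ_two]
      rw [Finset.sum_add_distrib]
      field_simp
      ring
    rw [e1, abs_div, abs_two]
    apply div_le_div_of_nonneg_right _ (by norm_num)
    exact (abs_add_le _ _).trans (add_le_add k1 k2)

end Pool.H66.CH
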