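import Pool.Agent.Helper66.CH.One2

set_option autoImplicit false
set_option linter.unusedSectionVars false

/-! Two scales. -/

namespace Pool.H66.CH

open MeasureTheory Set ProbabilityTheory Filter Topology Pool.H66.EAM
open scoped ENNReal

variable {Y1 Y2 : Type*}

/-- Translated weights. -/
def ws (v : V) (w : V → (E → Y1) → ℝ) : V → (E → Y1) → ℝ := fun z a => w (z + v) (shJ (-v) a)

lemma shJ_neg (v : V) {Y : Type*} (a : E → Y) : shJ (-v) (shJ v a) = a := by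
  rw [shJ_shJ]; funext e; unfold shJ; simp

lemma ws_ws (v v' : V) (w : V → (E → Y1) → ℝ) : ws v (ws v' w) = ws (v' + v) w := by
  funext z a
  unfold ws
  rw [shJ_shJ]
  congr 1
  · abel
  · congr 1; abel

lemma uA_shift (i : Fin 2) (A : Set (Y1 × Y2)) (w : V → (E → Y1) → ℝ) (v : V) (a : E → Y1)
    (b : E → Y2) : shU v (uA i A w a b) = uA i A (ws v w) (shJ v a) (shJ v b) := by
  funext z
  unfold shU uA ws
  rw [shJ_neg]
  rfl

variable [MeasurableSpace Y1] [MeasurableSpace Y2]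

lemma ws_meas {w : V → (E → Y1) → ℝ} (hw : ∀ z, Measurable (w z)) (v : V) :
    ∀ z, Measurable (ws v w z) := fun z => (hw _).comp (measurable_shJ _)

variable (ν1 : Measure Y1) [IsProbabilityMeasure ν1] (ν2 : Measure Y2) [IsProbabilityMeasure ν2]
  (q : Y1 × Y2 → ℝ) (i : Fin 2)

/-- Mean normalised maximum. -/
noncomputable def Xb (A : Set (Y1 × Y2)) (L : ℕ) (w : V → (E → Y1) → ℝ) : ℝ :=
  ∫ p, XW i L (uA i A w p.1 p.2) (cp q p.1 p.2) / ((box L).card : ℝ) ∂((PJ ν1).prod (PJ ν2))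

/-- Mean normalised minimum. -/
noncomputable def Yb (A : Set (Y1 × Y2)) (L : ℕ) (w : V → (E → Y1) → ℝ) : ℝ :=
  ∫ p, YW i L (uA i A w p.1 p.2) (cp q p.1 p.2) / ((box L).card : ℝ) ∂((PJ ν1).prod (PJ ν2))

/-- The loss between two scales. -/
noncomputable def gap (A : Set (Y1 × Y2)) (L L' : ℕ) (w : V → (E → Y1) → ℝ) : ℝ :=
  Yb ν1 ν2 q i A L' w - (∑ v ∈ box (L' - L), Yb ν1 ν2 q i A L (ws v w)) / ((box L').card : ℝ)

variable {ν1 ν2 q i} {A A' : Set (Y1 × Y2)} {w : V → (E → Y1) → ℝ} {L L' : ℕ}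

lemma integral_shift2 {F : (E → Y1) × (E → Y2) → ℝ} (hF : Measurable F) (v : V) :
    ∫ p, F (shJ v p.1, shJ v p.2) ∂((PJ ν1).prod (PJ ν2)) = ∫ p, F p ∂((PJ ν1).prod (PJ ν2)) := by
  have h := mp_shift2 ν1 ν2 v
  have h1 := integral_map (μ := (PJ ν1).prod (PJ ν2)) h.measurable.aemeasurable (f := F)
    hF.aestronglyMeasurable
  rw [h.map_eq] at h1
  exact h1.symm

section

variable (hq : Measurable q) (hA : MeasurableSet A) (hw : ∀ z, Measurable (w z))
  (h0 : ∀ z a, 0 ≤ w z a) (h1 : ∀ z a, w z a ≤ 1)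

include hq hA hw

lemma meas_XWuA (L : ℕ) : Measurable (fun p : (E → Y1) × (E → Y2) =>
    XW i L (uA i A w p.1 p.2) (cp q p.1 p.2) / ((box L).card : ℝ)) :=
  (measurable_XW (fun z => measurable_uA hA hw z) (measurable_cp hq) i L).div_const _

lemma meas_YWuA (L : ℕ) : Measurable (fun p : (E → Y1) × (E → Y2) =>
    YW i L (uA i A w p.1 p.2) (cp q p.1 p.2) / ((box L).card : ℝ)) :=
  (measurable_YW (fun z => measurable_uA hA hw z) (measurable_cp hq) i L).div_const _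

lemma Xb_shift (v : V) : ∫ p, XW i L (shU v (uA i A w p.1 p.2)) (shJ v (cp q p.1 p.2)) /
    ((box L).card : ℝ) ∂((PJ ν1).prod (PJ ν2)) = Xb ν1 ν2 q i A L (ws v w) := by
  unfold Xb
  rw [← integral_shift2 (meas_XWuA hq hA (ws_meas hw v) L) v]
  simp_rw [uA_shift]
  rfl

lemma Yb_shift (v : V) : ∫ p, YW i L (shU v (uA i A w p.1 p.2)) (shJ v (cp q p.1 p.2)) /
    ((box L).card : ℝ) ∂((PJ ν1).prod (PJ ν2)) = Yb ν1 ν2 q i A L (ws v w) := by
  unfold Yb
  rw [← integral_shift2 (meas_YWuA hq hA (ws_meas hw v) L) v]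
  simp_rw [uA_shift]
  rfl

end

lemma YWn_bd (h0 : ∀ z a, 0 ≤ w z a) (h1 : ∀ z a, w z a ≤ 1) (J : E → ℝ) (a : E → Y1)
    (b : E → Y2) (L : ℕ) : 0 ≤ YW i L (uA i A w a b) J / ((box L).card : ℝ) ∧
      YW i L (uA i A w a b) J / ((box L).card : ℝ) ≤ 1 := by
  have hc := box_pos L
  constructor
  · exact div_nonneg (YW_nonneg (uA_nonneg h0 _ _) _) hc.le
  · rw [div_le_one hc]
    exact (YW_le_XW _ _).trans (XW_le_card (uA_nonneg h0 _ _) (uA_le_one h1 _ _) _)

lemma XWn_bd (h0 : ∀ z a, 0 ≤ w z a) (h1 : ∀ z a, w z a ≤ 1) (J : E → ℝ) (a : E → Y1)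
    (b : E → Y2) (L : ℕ) : 0 ≤ XW i L (uA i A w a b) J / ((box L).card : ℝ) ∧
      XW i L (uA i A w a b) J / ((box L).card : ℝ) ≤ 1 := by
  have hc := box_pos L
  constructor
  · exact div_nonneg ((YW_nonneg (uA_nonneg h0 _ _) _).trans (YW_le_XW _ _)) hc.le
  · rw [div_le_one hc]
    exact XW_le_card (uA_nonneg h0 _ _) (uA_le_one h1 _ _) _

lemma ws_nonneg (h0 : ∀ z a, 0 ≤ w z a) (v : V) : ∀ z a, 0 ≤ ws v w z a := fun _ _ => h0 _ _

lemma ws_le_one (h1 : ∀ z a, w z a ≤ 1) (v : V) : ∀ z a, ws v w z a ≤ 1 := fun _ _ => h1 _ _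

lemma YWs_bd (h0 : ∀ z a, 0 ≤ w z a) (h1 : ∀ z a, w z a ≤ 1) (J : E → ℝ) (a : E → Y1)
    (b : E → Y2) (L : ℕ) (v : V) : 0 ≤ YW i L (shU v (uA i A w a b)) J / ((box L).card : ℝ) ∧
      YW i L (shU v (uA i A w a b)) J / ((box L).card : ℝ) ≤ 1 := by
  rw [uA_shift]
  exact YWn_bd (ws_nonneg h0 v) (ws_le_one h1 v) _ _ _ _

lemma Yb_bd (h0 : ∀ z a, 0 ≤ w z a) (h1 : ∀ z a, w z a ≤ 1)
    (L : ℕ) : 0 ≤ Yb ν1 ν2 q i A L w ∧ Yb ν1 ν2 q i A L w ≤ 1 := by
  constructor
  · exact integral_nonneg (fun p => (YWn_bd h0 h1 _ _ _ _).1)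
  · unfold Yb
    have h := integral_mono_of_nonneg (μ := (PJ ν1).prod (PJ ν2))
      (f := fun p : (E → Y1) × (E → Y2) => YW i L (uA i A w p.1 p.2) (cp q p.1 p.2) /
        ((box L).card : ℝ)) (g := fun _ => (1 : ℝ))
      (ae_of_all _ (fun p => (YWn_bd h0 h1 _ _ _ _).1)) (integrable_const _)
      (ae_of_all _ (fun p => (YWn_bd h0 h1 _ _ _ _).2))
    simpa using h

/-- The support of the shifted statistics. -/
noncomputable def supp (L : ℕ) (v : V) : Finset E := (nbhd (box (2 * L + 1))).image (shE v)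

lemma nbhd_box_fst {M : ℕ} {e : E} (h : e ∈ nbhd (box M)) : e.1 ∈ box (M + 1) := by
  rw [mem_nbhd] at h
  rcases h with h | h
  · exact box_mono (by omega) h
  · rw [mem_box] at h ⊢
    intro j
    have := h j
    unfold tip at this
    simp only [Pi.add_apply] at this
    have hs : (Pi.single e.2 (1 : ℤ) : Fin 2 → ℤ) j = 0 ∨
        (Pi.single e.2 (1 : ℤ) : Fin 2 → ℤ) j = 1 := by
      by_cases h : j = e.2
      · rw [h]; right; simp
      · left; simp [Pi.single_eq_of_ne h]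
    push_cast
    rcases hs with h | h <;> rw [h] at this <;> constructor <;> linarith [this.1, this.2]

lemma supp_mult (L : ℕ) (v : V) (Q : Finset V) :
    (Q.filter (fun w => ¬ Disjoint (supp L v) (supp L w))).card ≤ (box (4 * L + 4)).card := by
  classical
  calc (Q.filter (fun w => ¬ Disjoint (supp L v) (supp L w))).card
      ≤ ((box (4 * L + 4)).image (fun u => v + u)).card := by
        apply Finset.card_le_card
        intro x hx
        rw [Finset.mem_filter] at hx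
        obtain ⟨-, hx⟩ := hx
        rw [Finset.not_disjoint_iff] at hx
        obtain ⟨e, he1, he2⟩ := hx
        unfold supp at he1 he2
        rw [Finset.mem_image] at he1 he2 ⊢
        obtain ⟨e1, h1, rfl⟩ := he1
        obtain ⟨e2, h2, h3⟩ := he2
        have k1 := nbhd_box_fst h1
        have k2 := nbhd_box_fst h2
        have k3 : e2.1 + x = e1.1 + v := congrArg Prod.fst h3
        refine ⟨e1.1 - e2.1, ?_, ?_⟩
        · rw [mem_box] at k1 k2 ⊢
          intro j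
          have m1 := k1 j
          have m2 := k2 j
          simp only [Pi.sub_apply]
          push_cast at m1 m2 ⊢
          constructor <;> linarith [m1.1, m1.2, m2.1, m2.2]
        · have : x = e1.1 + v - e2.1 := by rw [← k3]; abel
          rw [this]; abel
    _ ≤ (box (4 * L + 4)).card := Finset.card_image_le

lemma Loc_YW (v : V) (a : E → Y1) :
    Loc (supp L v) (fun b : E → Y2 => YW i L (shU v (uA i A w a b)) (shJ v (cp q a b)) /
      ((box L).card : ℝ)) := by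
  intro b b' h
  have hb : ∀ e ∈ nbhd (box (2 * L + 1)), b (shE v e) = b' (shE v e) := by
    intro e he
    apply h
    unfold supp
    exact Finset.mem_image_of_mem _ he
  show YW i L (shU v (uA i A w a b)) (shJ v (cp q a b)) / _
    = YW i L (shU v (uA i A w a b')) (shJ v (cp q a b')) / _
  congr 1
  apply YW_congr
  · intro z hz
    unfold shU uA
    have : b (z + v, i) = b' (z + v, i) := by
      have h2 := hb (z, i) (by
        rw [mem_nbhd]
        left
        exact box_mono (by omega) hz)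
      exact h2
    rw [this]
  · intro e he
    show q (a (shE v e), b (shE v e)) = q (a (shE v e), b' (shE v e))
    rw [hb e he]

/-- The lower bound `Z`. -/
noncomputable def ZZ (q : Y1 × Y2 → ℝ) (i : Fin 2) (A : Set (Y1 × Y2)) (L L' : ℕ)
    (w : V → (E → Y1) → ℝ) (p : (E → Y1) × (E → Y2)) : ℝ :=
  (∑ v ∈ box (L' - L), YW i L (shU v (uA i A w p.1 p.2)) (shJ v (cp q p.1 p.2)) /
    ((box L).card : ℝ)) / ((box L').card : ℝ)

lemma meas_YWs (hq : Measurable q) (hA : MeasurableSet A) (hw : ∀ z, Measurable (w z)) (L : ℕ)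
    (v : V) : Measurable (fun p : (E → Y1) × (E → Y2) =>
      YW i L (shU v (uA i A w p.1 p.2)) (shJ v (cp q p.1 p.2)) / ((box L).card : ℝ)) :=
  (measurable_YW (fun z => measurable_uA hA hw (z + v))
    ((measurable_shJ v).comp (measurable_cp hq)) i L).div_const _

lemma measurable_ZZ (hq : Measurable q) (hA : MeasurableSet A) (hw : ∀ z, Measurable (w z)) :
    Measurable (ZZ q i A L L' w) :=
  (Finset.measurable_sum _ (fun v _ => meas_YWs hq hA hw L v)).div_const _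

lemma integral_ZZ (hq : Measurable q) (hA : MeasurableSet A) (hw : ∀ z, Measurable (w z))
    (h0 : ∀ z a, 0 ≤ w z a) (h1 : ∀ z a, w z a ≤ 1) :
    ∫ p, ZZ q i A L L' w p ∂((PJ ν1).prod (PJ ν2))
      = (∑ v ∈ box (L' - L), Yb ν1 ν2 q i A L (ws v w)) / ((box L').card : ℝ) := by
  unfold ZZ
  rw [integral_div, integral_finsetSum]
  · congr 1
    exact Finset.sum_congr rfl (fun v _ => Yb_shift hq hA hw v)
  · intro v _
    exact Integrable.of_bound (meas_YWs hq hA hw L v).aestronglyMeasurable 1 (ae_of_all _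
      (fun p => by
        have := YWs_bd (i := i) (A := A) h0 h1 (shJ v (cp q p.1 p.2)) p.1 p.2 L v
        rw [Real.norm_eq_abs, abs_of_nonneg this.1]; exact this.2))

lemma ZZ_le (hLL : L ≤ L') (h0 : ∀ z a, 0 ≤ w z a) (p : (E → Y1) × (E → Y2)) :
    ZZ q i A L L' w p ≤ YW i L' (uA i A w p.1 p.2) (cp q p.1 p.2) / ((box L').card : ℝ) := by
  have hc := box_pos L'
  have hc2 := box_pos L
  unfold ZZ
  apply div_le_div_of_nonneg_right _ hc.le
  rw [← Finset.sum_div, div_le_iff₀ hc2, mul_comm]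
  exact YW_window hLL (uA_nonneg h0 _ _) _

lemma ZZ_nonneg (h0 : ∀ z a, 0 ≤ w z a) (h1 : ∀ z a, w z a ≤ 1) (p : (E → Y1) × (E → Y2)) :
    0 ≤ ZZ q i A L L' w p :=
  div_nonneg (Finset.sum_nonneg (fun v _ => (YWs_bd h0 h1 _ _ _ _ _).1)) (box_pos L').le

lemma gap_nonneg (hq : Measurable q) (hA : MeasurableSet A) (hw : ∀ z, Measurable (w z))
    (h0 : ∀ z a, 0 ≤ w z a) (h1 : ∀ z a, w z a ≤ 1) (hLL : L ≤ L') :
    0 ≤ gap ν1 ν2 q i A L L' w := by
  unfold gap
  rw [← integral_ZZ hq hA hw h0 h1, sub_nonneg]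
  unfold Yb
  apply integral_mono_of_nonneg (ae_of_all _ (fun p => ZZ_nonneg h0 h1 p)) _
    (ae_of_all _ (fun p => ZZ_le hLL h0 p))
  exact Integrable.of_bound (meas_YWuA hq hA hw L').aestronglyMeasurable 1 (ae_of_all _
      (fun p => by
        have := YWn_bd (i := i) (A := A) h0 h1 (cp q p.1 p.2) p.1 p.2 L'
        rw [Real.norm_eq_abs, abs_of_nonneg this.1]; exact this.2))

lemma sqrt_aux {A B C : ℝ} (hA : 0 ≤ A) (hB : 0 < B) (hC : 0 ≤ C) (h : C ≤ B) :
    Real.sqrt (A * C) ≤ Real.sqrt (A / B) * B := by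
  rw [Real.sqrt_le_left (by positivity), mul_pow, Real.sq_sqrt (by positivity)]
  calc A * C ≤ A * B := by gcongr
    _ = A / B * B ^ 2 := by field_simp

lemma ZZ_conc (hq : Measurable q) (hA : MeasurableSet A) (hw : ∀ z, Measurable (w z))
    (h0 : ∀ z a, 0 ≤ w z a) (h1 : ∀ z a, w z a ≤ 1) (a : E → Y1) :
    ∫ b, |ZZ q i A L L' w (a, b) - ∫ b', ZZ q i A L L' w (a, b') ∂(PJ ν2)| ∂(PJ ν2)
      ≤ Real.sqrt (((box (4 * L + 4)).card : ℝ) / ((box L').card : ℝ)) := by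
  have hc := box_pos L'
  have hab : Measurable (fun b : E → Y2 => ((a, b) : (E → Y1) × (E → Y2))) :=
    measurable_const.prodMk measurable_id
  obtain ⟨f, hf⟩ : ∃ f : V → (E → Y2) → ℝ, f = fun v b =>
    YW i L (shU v (uA i A w a b)) (shJ v (cp q a b)) / ((box L).card : ℝ) := ⟨_, rfl⟩
  have hfm : ∀ v, Measurable (f v) := fun v => by
    subst hf
    have g1 : ∀ z, Measurable (fun b : E → Y2 => shU v (uA i A w a b) z) := fun z =>
      (measurable_uA hA hw (z + v)).comp hab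
    have g2 : Measurable (fun b : E → Y2 => shJ v (cp q a b)) :=
      (measurable_shJ v).comp ((measurable_cp hq).comp hab)
    exact (measurable_YW g1 g2 i L).div_const _
  have hfb : ∀ v b, 0 ≤ f v b ∧ f v b ≤ 1 := fun v b => by
    subst hf
    exact YWs_bd (i := i) (A := A) h0 h1 (shJ v (cp q a b)) a b L v
  have hfi : ∀ v, Integrable (f v) (PJ ν2) := fun v =>
    Integrable.of_bound (hfm v).aestronglyMeasurable 1 (ae_of_all _
      (fun b => by rw [Real.norm_eq_abs, abs_of_nonneg (hfb v b).1]; exact (hfb v b).2))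
  have hloc : ∀ v, Loc (supp L v) (f v) := fun v => by rw [hf]; exact Loc_YW v a
  have key := sum_dev ν2 (box (L' - L)) (supp L) f hfm hfb hloc
    (box (4 * L + 4)).card (fun v _ => supp_mult L v _)
  have e1 : ∀ b, ZZ q i A L L' w (a, b) = (∑ v ∈ box (L' - L), f v b) / ((box L').card : ℝ) :=
    fun b => by subst hf; rfl
  simp_rw [e1]
  have e2 : ∫ b', (∑ v ∈ box (L' - L), f v b') / ((box L').card : ℝ) ∂(PJ ν2)
      = (∑ v ∈ box (L' - L), ∫ b', f v b' ∂(PJ ν2)) / ((box L').card : ℝ) := by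
    rw [integral_div, integral_finsetSum _ (fun v _ => hfi v)]
  rw [e2]
  have e3 : ∀ b, |(∑ v ∈ box (L' - L), f v b) / ((box L').card : ℝ) -
      (∑ v ∈ box (L' - L), ∫ b', f v b' ∂(PJ ν2)) / ((box L').card : ℝ)|
      = |∑ v ∈ box (L' - L), f v b - ∑ v ∈ box (L' - L), ∫ b', f v b' ∂(PJ ν2)| /
        ((box L').card : ℝ) := by
    intro b
    rw [← sub_div, abs_div, abs_of_pos hc]
  simp_rw [e3]
  rw [integral_div, div_le_iff₀ hc]
  refine key.trans ?_
  have h5 : ((box (L' - L)).card : ℝ) ≤ ((box L').card : ℝ) := by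
    exact_mod_cast Finset.card_le_card (box_mono (by omega))
  exact sqrt_aux (Nat.cast_nonneg _) hc (Nat.cast_nonneg _) h5

/-- The comparison between two sets at scale `L'`. -/
theorem comp [MeasurableEq Y2] (hq : Measurable q) (hA : MeasurableSet A)
    (hA' : MeasurableSet A')
    (hlt : ∀ y u u', (y, u) ∈ A → (y, u') ∈ A' → q (y, u) < q (y, u')) {m : ℝ} (hm : 0 < m)
    (hmA : ∀ᵐ y ∂ν1, ν2 {u | (y, u) ∈ A} = ENNReal.ofReal m)
    (hmA' : ∀ᵐ y ∂ν1, ν2 {u | (y, u) ∈ A'} = ENNReal.ofReal m) {j : ℕ}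
    (Rg : Reg (ν1.prod ν2) q 1 (fun N => 2 * N + 1) (j : ℝ)) {r : ℝ} (hr : 0 < r)
    (hN : r * ((j : ℝ) + 1) ≤ (L' : ℝ) + 1) (hLL : L ≤ L') (hw : ∀ z, Measurable (w z))
    (h0 : ∀ z a, 0 ≤ w z a) (h1 : ∀ z a, w z a ≤ 1) :
    Xb ν1 ν2 q i A L' w ≤ Yb ν1 ν2 q i A' L' w
      + Real.exp (2 * r ^ 2 * ((j : ℝ) + 1) ^ 2) * Real.sqrt (2 * (
          Real.sqrt (((box (4 * L + 4)).card : ℝ) / ((box L').card : ℝ))
          + gap ν1 ν2 q i A' L L' w))
      + 2 * Rg.C0 / (r * m)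
      + ((∫⁻ p, sec ν2 A A' p ∂(ν1.prod ν2)) - ∫⁻ p, ahat ν2 q A A' j p ∂(ν1.prod ν2)).toReal / m
      + (PJ (ν1.prod ν2)).real (Rg.G L')ᶜ := by
  have h := one_scale (i := i) hq hA hA' hlt hm hmA hmA' Rg hr hN hw h0 h1
    (Z := ZZ q i A' L L' w) (measurable_ZZ hq hA' hw) (ZZ_nonneg h0 h1)
    (ZZ_le hLL h0) (ZZ_conc (ν2 := ν2) hq hA' hw h0 h1)
  rw [integral_ZZ hq hA' hw h0 h1] at h
  exact h

end Pool.H66.CH
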