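import Pool.Agent.Helper66.CH.Scale1

set_option autoImplicit false
set_option linter.unusedSectionVars false

/-! Averages over windows. -/

namespace Pool.H66.CH

open MeasureTheory Set ProbabilityTheory Filter Topology Pool.H66.EAM
open scoped ENNReal

variable {Y1 Y2 : Type*} [MeasurableSpace Y1] [MeasurableSpace Y2]
  {ν1 : Measure Y1} [IsProbabilityMeasure ν1] {ν2 : Measure Y2} [IsProbabilityMeasure ν2]
  {q : Y1 × Y2 → ℝ} {i : Fin 2} {A A' : Set (Y1 × Y2)} {w : V → (E → Y1) → ℝ} {L L' R : ℕ}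

lemma sum_sub_box {F : V → ℝ} (hF0 : ∀ v, 0 ≤ F v) (hF1 : ∀ v, F v ≤ 1) {M N : ℕ} (h : M ≤ N) :
    ∑ v ∈ box N, F v - (((box N).card : ℝ) - ((box M).card : ℝ)) ≤ ∑ v ∈ box M, F v := by
  have hs : box M ⊆ box N := box_mono h
  have h1 := Finset.sum_sdiff (f := F) hs
  have h2 : ∑ v ∈ box N \ box M, F v ≤ ((box N \ box M).card : ℝ) := by
    calc ∑ v ∈ box N \ box M, F v ≤ ∑ v ∈ box N \ box M, (1 : ℝ) :=
          Finset.sum_le_sum (fun v _ => hF1 v)
      _ = _ := by simp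
  have h3 : ((box N \ box M).card : ℝ) = ((box N).card : ℝ) - ((box M).card : ℝ) := by
    rw [Finset.card_sdiff_of_subset hs, Nat.cast_sub (Finset.card_le_card hs)]
  linarith

lemma sum_double {F : V → ℝ} (hF0 : ∀ v, 0 ≤ F v) (hL : L ≤ L') (hR : 2 * L' ≤ R) :
    ((box (L' - L)).card : ℝ) * ∑ v ∈ box (R - 2 * L'), F v
      ≤ ∑ v0 ∈ box (R - L'), ∑ v ∈ box (L' - L), F (v0 + v) := by
  classical
  rw [Finset.sum_comm, ← nsmul_eq_mul, ← Finset.sum_const]
  apply Finset.sum_le_sum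
  intro v hv
  have hinj : Set.InjOn (fun v0 : V => v0 + v) (box (R - L') : Set V) :=
    fun _ _ _ _ h => add_right_cancel h
  rw [← Finset.sum_image (f := F) (g := fun v0 : V => v0 + v) hinj]
  apply Finset.sum_le_sum_of_subset_of_nonneg
  · intro x hx
    rw [Finset.mem_image]
    refine ⟨x - v, ?_, by abel⟩
    rw [mem_box] at hx hv ⊢
    intro j
    have h1 := hx j
    have h2 := hv j
    rw [Nat.cast_sub hR] at h1
    rw [Nat.cast_sub hL] at h2
    rw [Nat.cast_sub (by omega : L' ≤ R)]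
    push_cast at h1 h2 ⊢
    simp only [Pi.sub_apply]
    have hL0 : (0 : ℤ) ≤ L := Int.natCast_nonneg _
    constructor <;> linarith [h1.1, h1.2, h2.1, h2.2]
  · intro x _ _
    exact hF0 x

/-- Average of `Yb` over windows. -/
noncomputable def yy (ν1 : Measure Y1) [IsProbabilityMeasure ν1] (ν2 : Measure Y2)
    [IsProbabilityMeasure ν2] (q : Y1 × Y2 → ℝ) (i : Fin 2) (A : Set (Y1 × Y2)) (R L : ℕ)
    (w : V → (E → Y1) → ℝ) : ℝ :=
  (∑ v ∈ box (R - L), Yb ν1 ν2 q i A L (ws v w)) / ((box (R - L)).card : ℝ)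

lemma yy_bd (h0 : ∀ z a, 0 ≤ w z a) (h1 : ∀ z a, w z a ≤ 1) :
    0 ≤ yy ν1 ν2 q i A R L w ∧ yy ν1 ν2 q i A R L w ≤ 1 := by
  have hc := box_pos (R - L)
  unfold yy
  constructor
  · exact div_nonneg (Finset.sum_nonneg (fun v _ =>
      (Yb_bd (ws_nonneg h0 v) (ws_le_one h1 v) L).1)) hc.le
  · rw [div_le_one hc]
    calc ∑ v ∈ box (R - L), Yb ν1 ν2 q i A L (ws v w) ≤ ∑ v ∈ box (R - L), (1 : ℝ) :=
          Finset.sum_le_sum (fun v _ => (Yb_bd (ws_nonneg h0 v) (ws_le_one h1 v) L).2)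
      _ = _ := by simp

lemma avg_gap (h0 : ∀ z a, 0 ≤ w z a) (h1 : ∀ z a, w z a ≤ 1) (hL : L ≤ L') (hR : 2 * L' ≤ R) :
    (∑ v0 ∈ box (R - L'), gap ν1 ν2 q i A L L' (ws v0 w)) / ((box (R - L')).card : ℝ)
      ≤ yy ν1 ν2 q i A R L' w - yy ν1 ν2 q i A R L w
        + (1 - ((box (L' - L)).card : ℝ) / ((box L').card : ℝ))
        + (((box (R - L)).card : ℝ) - ((box (R - 2 * L')).card : ℝ)) /
          ((box (R - L')).card : ℝ) := by
  set F : V → ℝ := fun v => Yb ν1 ν2 q i A L (ws v w) with hF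
  have hF0 : ∀ v, 0 ≤ F v := fun v => (Yb_bd (ws_nonneg h0 v) (ws_le_one h1 v) L).1
  have hF1 : ∀ v, F v ≤ 1 := fun v => (Yb_bd (ws_nonneg h0 v) (ws_le_one h1 v) L).2
  have hb1 := box_pos (R - L')
  have hb2 := box_pos L'
  have hb4 := box_pos (R - L)
  set b1 : ℝ := ((box (R - L')).card : ℝ) with hb1'
  set b2 : ℝ := ((box L').card : ℝ) with hb2'
  set b3 : ℝ := ((box (L' - L)).card : ℝ) with hb3'
  set b4 : ℝ := ((box (R - L)).card : ℝ) with hb4'
  set b5 : ℝ := ((box (R - 2 * L')).card : ℝ) with hb5'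
  have hb30 : 0 ≤ b3 := Nat.cast_nonneg _
  have hb32 : b3 ≤ b2 := by
    rw [hb3', hb2']; exact_mod_cast Finset.card_le_card (box_mono (by omega))
  have hb14 : b1 ≤ b4 := by
    rw [hb1', hb4']; exact_mod_cast Finset.card_le_card (box_mono (by omega))
  have hb54 : b5 ≤ b4 := by
    rw [hb5', hb4']; exact_mod_cast Finset.card_le_card (box_mono (by omega))
  have e1 : ∑ v0 ∈ box (R - L'), gap ν1 ν2 q i A L L' (ws v0 w)
      = ∑ v0 ∈ box (R - L'), Yb ν1 ν2 q i A L' (ws v0 w)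
        - (∑ v0 ∈ box (R - L'), ∑ v ∈ box (L' - L), F (v0 + v)) / b2 := by
    unfold gap
    rw [Finset.sum_sub_distrib, ← Finset.sum_div]
    congr 2
    apply Finset.sum_congr rfl
    intro v0 _
    apply Finset.sum_congr rfl
    intro v _
    rw [ws_ws]
  have e2 : (∑ v0 ∈ box (R - L'), gap ν1 ν2 q i A L L' (ws v0 w)) / b1
      = yy ν1 ν2 q i A R L' w
        - (∑ v0 ∈ box (R - L'), ∑ v ∈ box (L' - L), F (v0 + v)) / b2 / b1 := by
    rw [e1, sub_div]; rfl
  rw [e2]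
  have h2 := sum_double (L := L) (L' := L') (R := R) hF0 hL hR
  have h3 := sum_sub_box hF0 hF1 (M := R - 2 * L') (N := R - L) (by omega)
  have e3 : yy ν1 ν2 q i A R L w = (∑ v ∈ box (R - L), F v) / b4 := rfl
  set y := yy ν1 ν2 q i A R L w with hy
  set S := ∑ v ∈ box (R - L), F v with hS
  have hy1 : y ≤ 1 := (yy_bd h0 h1).2
  have hy0 : 0 ≤ y := (yy_bd h0 h1).1
  set DD := ∑ v0 ∈ box (R - L'), ∑ v ∈ box (L' - L), F (v0 + v) with hDD
  have h4 : b3 * (S - (b4 - b5)) ≤ DD :=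
    (mul_le_mul_of_nonneg_left h3 hb30).trans h2
  have hSy : y * b1 ≤ S := by
    have : S = y * b4 := by rw [e3]; field_simp
    rw [this]; gcongr
  set ρ := b3 / b2 with hρ
  have hρ0 : 0 ≤ ρ := div_nonneg hb30 hb2.le
  have hρ1 : ρ ≤ 1 := (div_le_one hb2).2 hb32
  set D := (b4 - b5) / b1 with hD
  have hD0 : 0 ≤ D := div_nonneg (by linarith) hb1.le
  have h5 : ρ * (y - D) ≤ DD / b2 / b1 := by
    have h6 : ρ * (y - D) = b3 * (y * b1 - (b4 - b5)) / b2 / b1 := by
      rw [hρ, hD]; field_simp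
    rw [h6]
    apply div_le_div_of_nonneg_right _ hb1.le
    apply div_le_div_of_nonneg_right _ hb2.le
    refine le_trans ?_ h4
    apply mul_le_mul_of_nonneg_left _ hb30
    linarith
  nlinarith [mul_nonneg (sub_nonneg.2 hρ1) (sub_nonneg.2 hy1), mul_nonneg (sub_nonneg.2 hρ1) hD0]

lemma uA_univ (w : V → (E → Y1) → ℝ) (a : E → Y1) (b : E → Y2) :
    uA i (univ : Set (Y1 × Y2)) w a b = fun z => w z a := by
  funext z; unfold uA; simp

lemma X_window (hq : Measurable q) (hw : ∀ z, Measurable (w z)) (h0 : ∀ z a, 0 ≤ w z a)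
    (h1 : ∀ z a, w z a ≤ 1) (hR : 2 * L ≤ R) :
    ∫ p, (XW i R (fun z => w z p.1) (cp q p.1 p.2) - YW i R (fun z => w z p.1) (cp q p.1 p.2))
      ∂((PJ ν1).prod (PJ ν2))
      ≤ ∑ v ∈ box (R - L), (Xb ν1 ν2 q i univ L (ws v w) - Yb ν1 ν2 q i univ L (ws v w))
        + (((box R).card : ℝ) - ((box (R - 2 * L)).card : ℝ)) := by
  have hc := box_pos L
  have hXm : ∀ v, Measurable (fun p : (E → Y1) × (E → Y2) =>
      XW i L (shU v (fun z => w z p.1)) (shJ v (cp q p.1 p.2)) / ((box L).card : ℝ)) := fun v =>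
    (measurable_XW (u := fun p : (E → Y1) × (E → Y2) => shU v (fun z => w z p.1))
      (fun z => (hw _).comp measurable_fst) ((measurable_shJ v).comp (measurable_cp hq)) i
      L).div_const _
  have hYm : ∀ v, Measurable (fun p : (E → Y1) × (E → Y2) =>
      YW i L (shU v (fun z => w z p.1)) (shJ v (cp q p.1 p.2)) / ((box L).card : ℝ)) := fun v =>
    (measurable_YW (u := fun p : (E → Y1) × (E → Y2) => shU v (fun z => w z p.1))
      (fun z => (hw _).comp measurable_fst) ((measurable_shJ v).comp (measurable_cp hq)) i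
      L).div_const _
  have hXb : ∀ v (p : (E → Y1) × (E → Y2)),
      0 ≤ XW i L (shU v (fun z => w z p.1)) (shJ v (cp q p.1 p.2)) / ((box L).card : ℝ) ∧
      XW i L (shU v (fun z => w z p.1)) (shJ v (cp q p.1 p.2)) / ((box L).card : ℝ) ≤ 1 := by
    intro v p
    constructor
    · exact div_nonneg ((YW_nonneg (fun z => h0 _ _) _).trans (YW_le_XW _ _)) hc.le
    · rw [div_le_one hc]
      exact XW_le_card (fun z => h0 _ _) (fun z => h1 _ _) _
  have hYb : ∀ v (p : (E → Y1) × (E → Y2)),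
      0 ≤ YW i L (shU v (fun z => w z p.1)) (shJ v (cp q p.1 p.2)) / ((box L).card : ℝ) ∧
      YW i L (shU v (fun z => w z p.1)) (shJ v (cp q p.1 p.2)) / ((box L).card : ℝ) ≤ 1 := by
    intro v p
    constructor
    · exact div_nonneg (YW_nonneg (fun z => h0 _ _) _) hc.le
    · rw [div_le_one hc]
      exact (YW_le_XW _ _).trans (XW_le_card (fun z => h0 _ _) (fun z => h1 _ _) _)
  have hXi : ∀ v, Integrable (fun p : (E → Y1) × (E → Y2) =>
      XW i L (shU v (fun z => w z p.1)) (shJ v (cp q p.1 p.2)) / ((box L).card : ℝ))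
      ((PJ ν1).prod (PJ ν2)) := fun v =>
    Integrable.of_bound (hXm v).aestronglyMeasurable 1 (ae_of_all _ (fun p => by
      rw [Real.norm_eq_abs, abs_of_nonneg (hXb v p).1]; exact (hXb v p).2))
  have hYi : ∀ v, Integrable (fun p : (E → Y1) × (E → Y2) =>
      YW i L (shU v (fun z => w z p.1)) (shJ v (cp q p.1 p.2)) / ((box L).card : ℝ))
      ((PJ ν1).prod (PJ ν2)) := fun v =>
    Integrable.of_bound (hYm v).aestronglyMeasurable 1 (ae_of_all _ (fun p => by
      rw [Real.norm_eq_abs, abs_of_nonneg (hYb v p).1]; exact (hYb v p).2))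
  have eX : ∀ v, ∫ p, XW i L (shU v (fun z => w z p.1)) (shJ v (cp q p.1 p.2)) /
      ((box L).card : ℝ) ∂((PJ ν1).prod (PJ ν2)) = Xb ν1 ν2 q i univ L (ws v w) := by
    intro v
    rw [← Xb_shift hq MeasurableSet.univ hw v]
    simp_rw [uA_univ]
  have eY : ∀ v, ∫ p, YW i L (shU v (fun z => w z p.1)) (shJ v (cp q p.1 p.2)) /
      ((box L).card : ℝ) ∂((PJ ν1).prod (PJ ν2)) = Yb ν1 ν2 q i univ L (ws v w) := by
    intro v
    rw [← Yb_shift hq MeasurableSet.univ hw v]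
    simp_rw [uA_univ]
  set cR : ℝ := ((box R).card : ℝ) - ((box (R - 2 * L)).card : ℝ) with hcR
  set g : (E → Y1) × (E → Y2) → ℝ := fun p => ∑ v ∈ box (R - L),
    (XW i L (shU v (fun z => w z p.1)) (shJ v (cp q p.1 p.2)) / ((box L).card : ℝ)
      - YW i L (shU v (fun z => w z p.1)) (shJ v (cp q p.1 p.2)) / ((box L).card : ℝ)) + cR
    with hg
  have hgi : Integrable g ((PJ ν1).prod (PJ ν2)) :=
    (integrable_finsetSum _ (fun v _ => (hXi v).sub (hYi v))).add (integrable_const _)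
  have hpt : ∀ p : (E → Y1) × (E → Y2), XW i R (fun z => w z p.1) (cp q p.1 p.2)
      - YW i R (fun z => w z p.1) (cp q p.1 p.2) ≤ g p := by
    intro p
    have k1 := XW_window (i := i) hR (fun z => h0 z p.1) (fun z => h1 z p.1) (cp q p.1 p.2)
    have k2 := YW_window (i := i) (by omega : L ≤ R) (fun z => h0 z p.1) (cp q p.1 p.2)
    have k3 : XW i R (fun z => w z p.1) (cp q p.1 p.2)
        ≤ (∑ v ∈ box (R - L), XW i L (shU v (fun z => w z p.1)) (shJ v (cp q p.1 p.2))) /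
          ((box L).card : ℝ) + cR := by
      rw [← sub_le_iff_le_add, le_div_iff₀ hc]
      have : (XW i R (fun z => w z p.1) (cp q p.1 p.2) - cR) * ((box L).card : ℝ)
          = ((box L).card : ℝ) * XW i R (fun z => w z p.1) (cp q p.1 p.2)
            - ((box L).card : ℝ) * cR := by ring
      rw [this]
      linarith
    have k4 : (∑ v ∈ box (R - L), YW i L (shU v (fun z => w z p.1)) (shJ v (cp q p.1 p.2))) /
          ((box L).card : ℝ) ≤ YW i R (fun z => w z p.1) (cp q p.1 p.2) := by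
      rw [div_le_iff₀ hc]
      linarith
    simp only [hg]
    rw [Finset.sum_sub_distrib, ← Finset.sum_div, ← Finset.sum_div]
    linarith
  have hnn : ∀ p : (E → Y1) × (E → Y2), 0 ≤ XW i R (fun z => w z p.1) (cp q p.1 p.2)
      - YW i R (fun z => w z p.1) (cp q p.1 p.2) := fun p => sub_nonneg.2 (YW_le_XW _ _)
  refine (integral_mono_of_nonneg (ae_of_all _ hnn) hgi (ae_of_all _ hpt)).trans (le_of_eq ?_)
  have hdi : ∀ v, Integrable (fun p : (E → Y1) × (E → Y2) =>
      XW i L (shU v (fun z => w z p.1)) (shJ v (cp q p.1 p.2)) / ((box L).card : ℝ)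
      - YW i L (shU v (fun z => w z p.1)) (shJ v (cp q p.1 p.2)) / ((box L).card : ℝ))
      ((PJ ν1).prod (PJ ν2)) := fun v => (hXi v).sub (hYi v)
  have hsi : Integrable (fun p : (E → Y1) × (E → Y2) => ∑ v ∈ box (R - L),
      (XW i L (shU v (fun z => w z p.1)) (shJ v (cp q p.1 p.2)) / ((box L).card : ℝ)
      - YW i L (shU v (fun z => w z p.1)) (shJ v (cp q p.1 p.2)) / ((box L).card : ℝ)))
      ((PJ ν1).prod (PJ ν2)) := integrable_finsetSum _ (fun v _ => hdi v)
  simp only [hg]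
  rw [integral_add hsi (integrable_const _), integral_finsetSum _ (fun v _ => hdi v)]
  congr 1
  · apply Finset.sum_congr rfl
    intro v _
    rw [integral_sub (hXi v) (hYi v), eX, eY]
  · simp

/-- Splitting into pieces. -/
lemma split_pieces {n : ℕ} {B : Fin n → Set (Y1 × Y2)} (hq : Measurable q)
    (hB : ∀ k, MeasurableSet (B k)) (hcov : ∀ p, ∃ k, p ∈ B k)
    (hdis : ∀ k l, k ≠ l → Disjoint (B k) (B l)) (hw : ∀ z, Measurable (w z))
    (h0 : ∀ z a, 0 ≤ w z a) (h1 : ∀ z a, w z a ≤ 1) (L : ℕ) :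
    Xb ν1 ν2 q i univ L w ≤ ∑ k, Xb ν1 ν2 q i (B k) L w ∧
      ∑ k, Yb ν1 ν2 q i (B k) L w ≤ Yb ν1 ν2 q i univ L w := by
  classical
  have hc := box_pos L
  have hsum : ∀ (a : E → Y1) (b : E → Y2), uA i (univ : Set (Y1 × Y2)) w a b
      = fun z => ∑ k, uA i (B k) w a b z := by
    intro a b
    funext z
    unfold uA
    rw [← Finset.mul_sum]
    congr 1
    obtain ⟨k, hk⟩ := hcov (a (z, i), b (z, i))
    rw [indicator_of_mem (mem_univ _), Finset.sum_eq_single k]
    · rw [indicator_of_mem hk]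
    · intro l _ hl
      rw [indicator_of_notMem]
      intro hl2
      exact (Set.disjoint_left.1 (hdis l k hl)) hl2 hk
    · intro hk2
      exact absurd (Finset.mem_univ k) hk2
  have hXi : ∀ k, Integrable (fun p : (E → Y1) × (E → Y2) =>
      XW i L (uA i (B k) w p.1 p.2) (cp q p.1 p.2) / ((box L).card : ℝ))
      ((PJ ν1).prod (PJ ν2)) := fun k =>
    Integrable.of_bound (meas_XWuA hq (hB k) hw L).aestronglyMeasurable 1 (ae_of_all _
      (fun p => by
        have := XWn_bd (i := i) (A := B k) h0 h1 (cp q p.1 p.2) p.1 p.2 L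
        rw [Real.norm_eq_abs, abs_of_nonneg this.1]; exact this.2))
  have hYi : ∀ (A : Set (Y1 × Y2)), MeasurableSet A → Integrable (fun p : (E → Y1) × (E → Y2) =>
      YW i L (uA i A w p.1 p.2) (cp q p.1 p.2) / ((box L).card : ℝ))
      ((PJ ν1).prod (PJ ν2)) := fun A hA =>
    Integrable.of_bound (meas_YWuA hq hA hw L).aestronglyMeasurable 1 (ae_of_all _
      (fun p => by
        have := YWn_bd (i := i) (A := A) h0 h1 (cp q p.1 p.2) p.1 p.2 L
        rw [Real.norm_eq_abs, abs_of_nonneg this.1]; exact this.2))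
  constructor
  · unfold Xb
    rw [← integral_finsetSum _ (fun k _ => hXi k)]
    apply integral_mono_of_nonneg (ae_of_all _ (fun p => (XWn_bd h0 h1 _ _ _ _).1))
      (integrable_finsetSum _ (fun k _ => hXi k))
    apply ae_of_all
    intro p
    show XW i L (uA i univ w p.1 p.2) (cp q p.1 p.2) / ((box L).card : ℝ)
      ≤ ∑ k, XW i L (uA i (B k) w p.1 p.2) (cp q p.1 p.2) / ((box L).card : ℝ)
    rw [← Finset.sum_div, hsum]
    apply div_le_div_of_nonneg_right _ hc.le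
    exact XW_sum_le Finset.univ (fun k => uA i (B k) w p.1 p.2) (cp q p.1 p.2)
  · unfold Yb
    rw [← integral_finsetSum _ (fun k _ => hYi (B k) (hB k))]
    apply integral_mono_of_nonneg (ae_of_all _ (fun p => Finset.sum_nonneg
      (fun k _ => (YWn_bd h0 h1 _ _ _ _).1))) (hYi univ MeasurableSet.univ)
    apply ae_of_all
    intro p
    show ∑ k, YW i L (uA i (B k) w p.1 p.2) (cp q p.1 p.2) / ((box L).card : ℝ)
      ≤ YW i L (uA i univ w p.1 p.2) (cp q p.1 p.2) / ((box L).card : ℝ)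
    rw [← Finset.sum_div, hsum]
    apply div_le_div_of_nonneg_right _ hc.le
    exact sum_YW_le Finset.univ (fun k => uA i (B k) w p.1 p.2) (cp q p.1 p.2)

/-- A set of small mass. -/
lemma Xb_le_mass (hq : Measurable q) (hA : MeasurableSet A) {m : ℝ} (hm : 0 ≤ m)
    (hmA : ∀ᵐ y ∂ν1, ν2 {u | (y, u) ∈ A} = ENNReal.ofReal m) (hw : ∀ z, Measurable (w z))
    (h0 : ∀ z a, 0 ≤ w z a) (h1 : ∀ z a, w z a ≤ 1) (L : ℕ) :
    Xb ν1 ν2 q i A L w ≤ m := by
  have hc := box_pos L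
  have hmass : (ν1.prod ν2).real A = m := by
    rw [measureReal_def, Measure.prod_apply hA]
    have : ∫⁻ y, ν2 (Prod.mk y ⁻¹' A) ∂ν1 = ∫⁻ y, ENNReal.ofReal m ∂ν1 :=
      lintegral_congr_ae hmA
    rw [this, lintegral_const, measure_univ, mul_one, ENNReal.toReal_ofReal hm]
  set g : (E → Y1) × (E → Y2) → ℝ := fun p => (∑ z ∈ box L,
    A.indicator (1 : Y1 × Y2 → ℝ) (zp p.1 p.2 (z, i))) / ((box L).card : ℝ) with hg
  have hme : ∀ z : V, MeasurePreserving (fun p : (E → Y1) × (E → Y2) => zp p.1 p.2 (z, i))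
      ((PJ ν1).prod (PJ ν2)) (ν1.prod ν2) := fun z =>
    (measurePreserving_eval_infinitePi (fun _ : E => ν1.prod ν2) (z, i)).comp (mp_zp ν1 ν2)
  have hind : Measurable (A.indicator (1 : Y1 × Y2 → ℝ)) := measurable_one.indicator hA
  have hii : ∀ z : V, Integrable (fun p : (E → Y1) × (E → Y2) =>
      A.indicator (1 : Y1 × Y2 → ℝ) (zp p.1 p.2 (z, i))) ((PJ ν1).prod (PJ ν2)) := fun z =>
    Integrable.of_bound (hind.comp (hme z).measurable).aestronglyMeasurable 1 (ae_of_all _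
      (fun p => by
        rw [Real.norm_eq_abs, abs_of_nonneg (ind_nonneg _ _)]; exact ind_le_one _ _))
  have hie : ∀ z : V, ∫ p, A.indicator (1 : Y1 × Y2 → ℝ) (zp p.1 p.2 (z, i))
      ∂((PJ ν1).prod (PJ ν2)) = m := by
    intro z
    have h2 := integral_map (μ := (PJ ν1).prod (PJ ν2)) (hme z).measurable.aemeasurable
      (f := A.indicator (1 : Y1 × Y2 → ℝ)) hind.aestronglyMeasurable
    rw [(hme z).map_eq, integral_indicator_one hA, hmass] at h2
    exact h2.symm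
  have hgi : Integrable g ((PJ ν1).prod (PJ ν2)) :=
    (integrable_finsetSum _ (fun z _ => hii z)).div_const _
  have hge : ∫ p, g p ∂((PJ ν1).prod (PJ ν2)) = m := by
    simp only [hg]
    rw [integral_div, integral_finsetSum _ (fun z _ => hii z)]
    simp_rw [hie]
    rw [Finset.sum_const, nsmul_eq_mul]
    field_simp
  rw [← hge]
  unfold Xb
  apply integral_mono_of_nonneg (ae_of_all _ (fun p => (XWn_bd h0 h1 _ _ _ _).1)) hgi
  apply ae_of_all
  intro p
  apply div_le_div_of_nonneg_right _ hc.le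
  refine (XW_le_sum (uA_nonneg h0 _ _) _).trans ?_
  apply Finset.sum_le_sum
  intro z _
  exact mul_le_of_le_one_left (ind_nonneg _ _) (h1 _ _)

lemma avg_sqrt {s : Finset V} (hs : 0 < (s.card : ℝ)) {κ : ℝ} (hκ : 0 ≤ κ) {g : V → ℝ}
    (hg : ∀ v, 0 ≤ g v) :
    (∑ v ∈ s, Real.sqrt (2 * (κ + g v))) / (s.card : ℝ)
      ≤ Real.sqrt (2 * (κ + (∑ v ∈ s, g v) / (s.card : ℝ))) := by
  apply Real.le_sqrt_of_sq_le
  rw [div_pow, div_le_iff₀ (by positivity)]
  have h1 := sq_sum_le_card_mul_sum_sq (s := s) (f := fun v => Real.sqrt (2 * (κ + g v)))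
  refine h1.trans (le_of_eq ?_)
  have h2 : ∀ v ∈ s, Real.sqrt (2 * (κ + g v)) ^ 2 = 2 * κ + 2 * g v := fun v _ => by
    rw [Real.sq_sqrt (by have := hg v; positivity)]; ring
  rw [Finset.sum_congr rfl h2, Finset.sum_add_distrib, Finset.sum_const, nsmul_eq_mul,
    ← Finset.mul_sum]
  field_simp

end Pool.H66.CH
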