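import Pool.Agent.Helper66.EAM.Splice

set_option autoImplicit false
set_option linter.unusedSectionVars false

/-! MODULE B. The tilt by a family of kernels (a generalisation of EAM/Tilt.lean,
EAM/TiltFin.lean and `tilt_inf`, `lintegral_DD`, `lintegral_DD_sq_le` of EAM/Splice.lean: the old
case is `k (x, y) = 1{x ∈ A, y ∈ A'} s / (q y - q x)`, `d (x, y) = (q y - q x)⁺`; now the kernel `k e`
and the weight `d e` may depend on the index `e`). -/

namespace Pool.H66.CH

open MeasureTheory Set ProbabilityTheory Pool.H66.EAM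
open scoped ENNReal

variable {Y : Type*} [MeasurableSpace Y]

/-- Mass sent away from `x`. -/
noncomputable def outk (μ : Measure Y) (k : Y × Y → ℝ≥0∞) (x : Y) : ℝ≥0∞ := ∫⁻ y, k (x, y) ∂μ

/-- Mass received at `y`. -/
noncomputable def ink (μ : Measure Y) (k : Y × Y → ℝ≥0∞) (y : Y) : ℝ≥0∞ := ∫⁻ x, k (x, y) ∂μ

/-- Density of the tilted law. -/
noncomputable def densk (μ : Measure Y) (k : Y × Y → ℝ≥0∞) (x : Y) : ℝ≥0∞ :=
  1 - outk μ k x + ink μ k x

/-- Density of the tilted product law. -/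
noncomputable def DK {ι : Type*} (μ : Measure Y) (k : ι → Y × Y → ℝ≥0∞) (T : Finset ι)
    (b : ι → Y) : ℝ≥0∞ := ∏ w ∈ T, densk μ (k w) (b w)

section One

/-- The coupling of `μ` with the tilted law. -/
noncomputable def pimk (μ : Measure Y) (k : Y × Y → ℝ≥0∞) : Measure (Y × Y) :=
  (μ.withDensity (fun x => 1 - outk μ k x)).map (fun x => (x, x))
    + (μ.prod μ).withDensity k

variable {μ : Measure Y} {k : Y × Y → ℝ≥0∞}

lemma measurable_outk [SFinite μ] (hk : Measurable k) : Measurable (outk μ k) :=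
  hk.lintegral_prod_right'

lemma measurable_ink [SFinite μ] (hk : Measurable k) : Measurable (ink μ k) :=
  hk.lintegral_prod_left'

lemma measurable_densk [SFinite μ] (hk : Measurable k) : Measurable (densk μ k) :=
  (measurable_const.sub (measurable_outk hk)).add (measurable_ink hk)

lemma outk_le [IsProbabilityMeasure μ] {c : ℝ} (hkc : ∀ p, k p ≤ ENNReal.ofReal c) (x : Y) :
    outk μ k x ≤ ENNReal.ofReal c := by
  unfold outk
  calc ∫⁻ y, k (x, y) ∂μ ≤ ∫⁻ y, ENNReal.ofReal c ∂μ := lintegral_mono (fun y => hkc _)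
    _ = ENNReal.ofReal c := by simp

lemma ink_le [IsProbabilityMeasure μ] {c : ℝ} (hkc : ∀ p, k p ≤ ENNReal.ofReal c) (x : Y) :
    ink μ k x ≤ ENNReal.ofReal c := by
  unfold ink
  calc ∫⁻ y, k (y, x) ∂μ ≤ ∫⁻ y, ENNReal.ofReal c ∂μ := lintegral_mono (fun y => hkc _)
    _ = ENNReal.ofReal c := by simp

lemma outk_le_one [IsProbabilityMeasure μ] {c : ℝ} (hc1 : c ≤ 1)
    (hkc : ∀ p, k p ≤ ENNReal.ofReal c) (x : Y) : outk μ k x ≤ 1 := by
  refine (outk_le hkc x).trans ?_
  rw [← ENNReal.ofReal_one]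
  exact ENNReal.ofReal_le_ofReal hc1

lemma pimk_map_fst [IsProbabilityMeasure μ] {c : ℝ} (hc1 : c ≤ 1) (hk : Measurable k)
    (hkc : ∀ p, k p ≤ ENNReal.ofReal c) : (pimk μ k).map Prod.fst = μ := by
  unfold pimk
  rw [Measure.map_add _ _ measurable_fst, Measure.map_map measurable_fst (by fun_prop)]
  have h1 : (Prod.fst ∘ fun x : Y => (x, x)) = id := rfl
  rw [h1, Measure.map_id]
  have h2 : ((μ.prod μ).withDensity k).map Prod.fst = μ.withDensity (outk μ k) := by
    ext S hS
    rw [Measure.map_apply measurable_fst hS, withDensity_apply _ (measurable_fst hS),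
      withDensity_apply _ hS]
    have : Prod.fst ⁻¹' S = S ×ˢ (univ : Set Y) := by ext; simp
    rw [this, ← Measure.prod_restrict, Measure.restrict_univ,
      lintegral_prod _ hk.aemeasurable]
    rfl
  rw [h2]
  rw [← withDensity_add_right _ (measurable_outk hk)]
  have : (fun x => 1 - outk μ k x) + outk μ k = 1 := by
    funext x
    exact tsub_add_cancel_of_le (outk_le_one hc1 hkc x)
  rw [this, withDensity_one]

lemma pimk_map_snd [IsProbabilityMeasure μ] (hk : Measurable k) :
    (pimk μ k).map Prod.snd = μ.withDensity (densk μ k) := by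
  unfold pimk
  rw [Measure.map_add _ _ measurable_snd, Measure.map_map measurable_snd (by fun_prop)]
  have h1 : (Prod.snd ∘ fun x : Y => (x, x)) = id := rfl
  rw [h1, Measure.map_id]
  have h2 : ((μ.prod μ).withDensity k).map Prod.snd = μ.withDensity (ink μ k) := by
    ext S hS
    rw [Measure.map_apply measurable_snd hS, withDensity_apply _ (measurable_snd hS),
      withDensity_apply _ hS]
    have : Prod.snd ⁻¹' S = (univ : Set Y) ×ˢ S := by ext; simp
    rw [this, ← Measure.prod_restrict, Measure.restrict_univ,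
      lintegral_prod_symm _ hk.aemeasurable]
    rfl
  rw [h2, ← withDensity_add_right _ (measurable_ink hk)]
  rfl

lemma pimk_weight [IsProbabilityMeasure μ] (hk : Measurable k) {d : Y × Y → ℝ≥0∞}
    (hd : Measurable d) (hd0 : ∀ x, d (x, x) = 0) :
    (pimk μ k).withDensity d = (μ.prod μ).withDensity (fun p => d p * k p) := by
  unfold pimk
  ext S hS
  rw [withDensity_apply _ hS, Measure.restrict_add, lintegral_add_measure]
  have h1 : ∫⁻ p in S, d p ∂((μ.withDensity (fun x => 1 - outk μ k x)).map (fun x => (x, x)))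
      = 0 := by
    rw [setLIntegral_map hS hd (by fun_prop)]
    simp [hd0]
  rw [h1, zero_add, restrict_withDensity hS,
    lintegral_withDensity_eq_lintegral_mul _ hk hd, withDensity_apply _ hS]
  apply lintegral_congr
  intro p
  rw [Pi.mul_apply, mul_comm]

lemma wd_map_fst [IsProbabilityMeasure μ] {h : Y × Y → ℝ≥0∞} (hh : Measurable h) :
    ((μ.prod μ).withDensity h).map Prod.fst = μ.withDensity (fun x => ∫⁻ y, h (x, y) ∂μ) := by
  ext S hS
  rw [Measure.map_apply measurable_fst hS, withDensity_apply _ (measurable_fst hS),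
    withDensity_apply _ hS]
  have : Prod.fst ⁻¹' S = S ×ˢ (univ : Set Y) := by ext; simp
  rw [this, ← Measure.prod_restrict, Measure.restrict_univ, lintegral_prod _ hh.aemeasurable]

lemma wd_map_snd [IsProbabilityMeasure μ] {h : Y × Y → ℝ≥0∞} (hh : Measurable h) :
    ((μ.prod μ).withDensity h).map Prod.snd = μ.withDensity (fun y => ∫⁻ x, h (x, y) ∂μ) := by
  ext S hS
  rw [Measure.map_apply measurable_snd hS, withDensity_apply _ (measurable_snd hS),
    withDensity_apply _ hS]
  have : Prod.snd ⁻¹' S = (univ : Set Y) ×ˢ S := by ext; simp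
  rw [this, ← Measure.prod_restrict, Measure.restrict_univ,
    lintegral_prod_symm _ hh.aemeasurable]

lemma pimk_prob [IsProbabilityMeasure μ] {c : ℝ} (hc1 : c ≤ 1) (hk : Measurable k)
    (hkc : ∀ p, k p ≤ ENNReal.ofReal c) : IsProbabilityMeasure (pimk μ k) := by
  constructor
  have h1 := pimk_map_fst (μ := μ) hc1 hk hkc
  have h2 : (pimk μ k).map Prod.fst univ = 1 := by rw [h1]; exact measure_univ
  rwa [Measure.map_apply measurable_fst MeasurableSet.univ, preimage_univ] at h2

lemma pimk_ae [MeasurableEq Y] [IsProbabilityMeasure μ] (hk : Measurable k) :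
    ∀ᵐ p ∂(pimk μ k), p.1 = p.2 ∨ k (p.1, p.2) ≠ 0 := by
  have hm : MeasurableSet {p : Y × Y | p.1 = p.2 ∨ k (p.1, p.2) ≠ 0} := by
    apply MeasurableSet.union
    · exact measurableSet_eq_fun measurable_fst measurable_snd
    · exact (hk (measurableSet_singleton 0)).compl
  unfold pimk
  rw [ae_add_measure_iff]
  constructor
  · rw [ae_map_iff (by fun_prop) hm]
    filter_upwards with x
    exact Or.inl rfl
  · rw [ae_withDensity_iff hk]
    filter_upwards with p hp
    exact Or.inr hp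

lemma lintegral_outk_eq_ink [IsProbabilityMeasure μ] (hk : Measurable k) :
    ∫⁻ x, outk μ k x ∂μ = ∫⁻ x, ink μ k x ∂μ := by
  unfold outk ink
  exact lintegral_lintegral_swap hk.aemeasurable

lemma lintegral_densk [IsProbabilityMeasure μ] {c : ℝ} (hc1 : c ≤ 1) (hk : Measurable k)
    (hkc : ∀ p, k p ≤ ENNReal.ofReal c) : ∫⁻ x, densk μ k x ∂μ = 1 := by
  have := pimk_prob (μ := μ) hc1 hk hkc
  have h1 := pimk_map_snd (μ := μ) hk
  have h2 : (pimk μ k).map Prod.snd univ = 1 := by
    rw [Measure.map_apply measurable_snd MeasurableSet.univ, preimage_univ]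
    exact measure_univ
  rw [h1, withDensity_apply _ MeasurableSet.univ, Measure.restrict_univ] at h2
  exact h2

lemma densk_sq_le [IsProbabilityMeasure μ] {c : ℝ} (hc0 : 0 ≤ c) (hc1 : c ≤ 1)
    (hkc : ∀ p, k p ≤ ENNReal.ofReal c) (x : Y) :
    densk μ k x ^ 2 + 2 * outk μ k x ≤ 1 + 2 * ink μ k x + ENNReal.ofReal (c ^ 2) := by
  have ho := outk_le (μ := μ) hkc x
  have hi := ink_le (μ := μ) hkc x
  have ho1 := outk_le_one (μ := μ) hc1 hkc x
  have hot : outk μ k x ≠ ⊤ := ne_top_of_le_ne_top ENNReal.ofReal_ne_top ho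
  have hit : ink μ k x ≠ ⊤ := ne_top_of_le_ne_top ENNReal.ofReal_ne_top hi
  unfold densk
  obtain ⟨o, ho0, hoe⟩ : ∃ o : ℝ, 0 ≤ o ∧ outk μ k x = ENNReal.ofReal o :=
    ⟨_, ENNReal.toReal_nonneg, (ENNReal.ofReal_toReal hot).symm⟩
  obtain ⟨i, hi0, hie⟩ : ∃ i : ℝ, 0 ≤ i ∧ ink μ k x = ENNReal.ofReal i :=
    ⟨_, ENNReal.toReal_nonneg, (ENNReal.ofReal_toReal hit).symm⟩
  rw [hoe] at ho ho1 ⊢
  rw [hie] at hi ⊢
  rw [ENNReal.ofReal_le_ofReal_iff hc0] at ho hi
  rw [← ENNReal.ofReal_one, ENNReal.ofReal_le_ofReal_iff (by norm_num)] at ho1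
  have e2 : (2 : ℝ≥0∞) = ENNReal.ofReal 2 := by norm_num
  rw [← ENNReal.ofReal_one, ← ENNReal.ofReal_sub _ ho0,
    ← ENNReal.ofReal_add (by linarith) hi0, ← ENNReal.ofReal_pow (by linarith), e2,
    ← ENNReal.ofReal_mul (by norm_num), ← ENNReal.ofReal_mul (by norm_num),
    ← ENNReal.ofReal_add (by positivity) (by positivity),
    ← ENNReal.ofReal_add (by norm_num) (by positivity),
    ← ENNReal.ofReal_add (by positivity) (by positivity)]
  apply ENNReal.ofReal_le_ofReal
  have h3 : (i - o) ^ 2 ≤ c ^ 2 := by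
    apply sq_le_sq'
    · linarith
    · linarith
  nlinarith

lemma lintegral_densk_sq_le [IsProbabilityMeasure μ] {c : ℝ} (hc0 : 0 ≤ c) (hc1 : c ≤ 1)
    (hk : Measurable k) (hkc : ∀ p, k p ≤ ENNReal.ofReal c) :
    ∫⁻ x, densk μ k x ^ 2 ∂μ ≤ ENNReal.ofReal (1 + c ^ 2) := by
  have h1 : ∫⁻ x, (densk μ k x ^ 2 + 2 * outk μ k x) ∂μ
      ≤ ∫⁻ x, (1 + 2 * ink μ k x + ENNReal.ofReal (c ^ 2)) ∂μ :=
    lintegral_mono (fun x => densk_sq_le hc0 hc1 hkc x)
  rw [lintegral_add_right _ ((measurable_outk hk).const_mul 2),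
    lintegral_add_right _ measurable_const,
    lintegral_add_right _ ((measurable_ink hk).const_mul 2),
    lintegral_const_mul _ (measurable_outk hk),
    lintegral_const_mul _ (measurable_ink hk),
    lintegral_outk_eq_ink hk] at h1
  simp only [lintegral_const, measure_univ, mul_one] at h1
  have hfin : 2 * ∫⁻ x, ink μ k x ∂μ ≠ ⊤ := by
    apply ENNReal.mul_ne_top (by norm_num)
    apply ne_top_of_le_ne_top (ENNReal.ofReal_ne_top (r := c))
    calc ∫⁻ x, ink μ k x ∂μ ≤ ∫⁻ x, ENNReal.ofReal c ∂μ :=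
          lintegral_mono (fun x => ink_le hkc x)
      _ = ENNReal.ofReal c := by simp
  have h2 : 1 + 2 * ∫⁻ x, ink μ k x ∂μ + ENNReal.ofReal (c ^ 2)
      = (1 + ENNReal.ofReal (c ^ 2)) + 2 * ∫⁻ x, ink μ k x ∂μ := by ring
  rw [h2] at h1
  have h3 := (ENNReal.add_le_add_iff_right hfin).1 h1
  rw [ENNReal.ofReal_add (by norm_num) (by positivity), ENNReal.ofReal_one]
  exact h3

end One

section Fin

variable {μ : Measure Y} [IsProbabilityMeasure μ]

theorem tiltK_fin {κ : Type*} [Fintype κ] [DecidableEq κ] [MeasurableEq Y] {c S : ℝ}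
    (hc1 : c ≤ 1) (k : κ → Y × Y → ℝ≥0∞)
    (hk : ∀ e, Measurable (k e)) (hkc : ∀ e p, k e p ≤ ENNReal.ofReal c)
    (d : κ → Y × Y → ℝ≥0∞) (hd : ∀ e, Measurable (d e)) (hd0 : ∀ e x, d e (x, x) = 0)
    (hdk : ∀ e p, d e p * k e p ≤ ENNReal.ofReal S)
    (hsep : ∀ e x y, k e (x, y) ≠ 0 → outk μ (k e) y = 0)
    (f g : κ → (κ → Y) → ℝ≥0∞) (C : (κ → Y) → ℝ≥0∞) (hf : ∀ e, Measurable (f e))
    (hg : ∀ e, Measurable (g e)) (hC : Measurable C)
    (hineq : ∀ b b' : κ → Y, (∀ i, b i = b' i ∨ k i (b i, b' i) ≠ 0) →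
      ∑ e, d e (b e, b' e) * f e b ≤ ∑ e, d e (b e, b' e) * g e b' + C b) :
    ∑ e, ∫⁻ b, (∫⁻ y, d e (b e, y) * k e (b e, y) ∂μ) * f e b ∂(Measure.pi fun _ : κ => μ)
      ≤ ∑ e, ∫⁻ b, (∏ w, densk μ (k w) (b w)) *
          ((∫⁻ x, d e (x, b e) * k e (x, b e) ∂μ) * g e b) ∂(Measure.pi fun _ : κ => μ)
        + ∫⁻ b, C b ∂(Measure.pi fun _ : κ => μ) := by
  have hPp : ∀ e, IsProbabilityMeasure (pimk μ (k e)) := fun e => pimk_prob hc1 (hk e) (hkc e)
  set PM : κ → Measure (Y × Y) := fun e => pimk μ (k e) with hPM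
  have hPp' : ∀ e, IsProbabilityMeasure (PM e) := hPp
  set PP := Measure.pi PM with hPP
  have hfst : ∀ e, (PM e).map Prod.fst = μ := fun e => pimk_map_fst hc1 (hk e) (hkc e)
  have hsnd : ∀ e, (PM e).map Prod.snd = μ.withDensity (densk μ (k e)) :=
    fun e => pimk_map_snd (hk e)
  have hdkm : ∀ e, Measurable (fun p => d e p * k e p) := fun e => (hd e).mul (hk e)
  have hwt : ∀ e, (PM e).withDensity (d e)
      = (μ.prod μ).withDensity (fun p => d e p * k e p) :=
    fun e => pimk_weight (hk e) (hd e) (hd0 e)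
  have hae : ∀ᵐ p ∂PP, ∀ e, (p e).1 = (p e).2 ∨ k e ((p e).1, (p e).2) ≠ 0 := by
    rw [ae_all_iff]
    intro e
    exact (measurePreserving_eval PM e).quasiMeasurePreserving.ae (pimk_ae (μ := μ) (hk e))
  have hF1 : Measurable (fun (p : κ → Y × Y) w => (p w).1) :=
    measurable_pi_lambda _ (fun w => measurable_fst.comp (measurable_pi_apply w))
  have hF2 : Measurable (fun (p : κ → Y × Y) w => (p w).2) :=
    measurable_pi_lambda _ (fun w => measurable_snd.comp (measurable_pi_apply w))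
  have hwe : ∀ e : κ, Measurable (fun p : κ → Y × Y => d e (p e)) :=
    fun e => (hd e).comp (measurable_pi_apply e)
  have main : ∫⁻ p, ∑ e, d e (p e) * f e (fun w => (p w).1) ∂PP
      ≤ ∫⁻ p, (∑ e, d e (p e) * g e (fun w => (p w).2)
          + C (fun w => (p w).1)) ∂PP := by
    apply lintegral_mono_ae
    filter_upwards [hae] with p hp
    exact hineq (fun w => (p w).1) (fun w => (p w).2) hp
  have hCm : Measurable (fun p : κ → Y × Y => C (fun w => (p w).1)) := hC.comp hF1
  have hfm : ∀ e ∈ (Finset.univ : Finset κ), Measurable (fun p : κ → Y × Y =>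
      d e (p e) * f e (fun w => (p w).1)) :=
    fun e _ => (hwe e).mul ((hf e).comp hF1)
  have hgm : ∀ e ∈ (Finset.univ : Finset κ), Measurable (fun p : κ → Y × Y =>
      d e (p e) * g e (fun w => (p w).2)) :=
    fun e _ => (hwe e).mul ((hg e).comp hF2)
  rw [lintegral_add_right _ hCm, lintegral_finsetSum _ hfm, lintegral_finsetSum _ hgm] at main
  -- C
  have hCe : ∫⁻ p, C (fun w => (p w).1) ∂PP = ∫⁻ x, C x ∂(Measure.pi fun _ => μ) := by
    have : (Measure.pi fun _ : κ => μ) = PP.map (fun (p : κ → Y × Y) w => (p w).1) := by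
      have : ∀ i, SigmaFinite ((PM i).map Prod.fst) := by
        intro i; rw [hfst i]; infer_instance
      rw [hPP, Measure.pi_map_pi (fun i => measurable_fst.aemeasurable)]
      congr 1
      funext i
      exact (hfst i).symm
    rw [this, lintegral_map hC hF1]
  rw [hCe] at main
  -- densities
  have prodG : ∀ (e : κ) (p : κ → Y × Y),
      ∏ w, (if w = e then d e else 1) (p w) = d e (p e) := by
    intro e p
    rw [Finset.prod_eq_single e]
    · rw [if_pos rfl]
    · intro w _ hw; rw [if_neg hw]; rfl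
    · intro h; exact absurd (Finset.mem_univ e) h
  have hGmeas : ∀ e w : κ, Measurable (if w = e then d e else 1) := by
    intro e w; split_ifs
    · exact hd e
    · exact measurable_one
  have hGfin : ∀ e w, IsFiniteMeasure ((PM w).withDensity (if w = e then d e else 1)) := by
    intro e w
    by_cases hwe : w = e
    · subst hwe
      rw [if_pos rfl, hwt w]
      apply isFiniteMeasure_withDensity
      apply ne_top_of_le_ne_top (ENNReal.ofReal_ne_top (r := S))
      calc ∫⁻ p, d w p * k w p ∂(μ.prod μ) ≤ ∫⁻ p, ENNReal.ofReal S ∂(μ.prod μ) :=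
            lintegral_mono (fun p => hdk w p)
        _ = ENNReal.ofReal S := by simp
    · rw [if_neg hwe, withDensity_one]
      infer_instance
  have mou : ∀ e, Measurable (fun x => ∫⁻ y, d e (x, y) * k e (x, y) ∂μ) :=
    fun e => (hdkm e).lintegral_prod_right'
  have min : ∀ e, Measurable (fun y => ∫⁻ x, d e (x, y) * k e (x, y) ∂μ) :=
    fun e => (hdkm e).lintegral_prod_left'
  have L : ∀ e, ∫⁻ p, d e (p e) * f e (fun w => (p w).1) ∂PP
      = ∫⁻ b, (∫⁻ y, d e (b e, y) * k e (b e, y) ∂μ) * f e b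
        ∂(Measure.pi fun _ => μ) := by
    intro e
    have := hGfin e
    have key := transfer (μ := μ) PM
      (fun w => if w = e then d e else 1)
      (hGmeas e) Prod.fst measurable_fst
      (fun w => if w = e then (fun x => ∫⁻ y, d e (x, y) * k e (x, y) ∂μ) else 1)
      (by
        intro w; split_ifs
        · exact mou e
        · exact measurable_one)
      (by
        intro w
        by_cases hwe : w = e
        · subst hwe
          rw [if_pos rfl, if_pos rfl, hwt w, wd_map_fst (hdkm w)]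
        · rw [if_neg hwe, if_neg hwe, withDensity_one, withDensity_one, hfst])
      (f e) (hf e)
    simp_rw [prodG] at key
    rw [key]
    apply lintegral_congr
    intro x
    rw [Finset.prod_eq_single e]
    · rw [if_pos rfl]
    · intro w _ hw; rw [if_neg hw]; rfl
    · intro h; exact absurd (Finset.mem_univ e) h
  have R : ∀ e, ∫⁻ p, d e (p e) * g e (fun w => (p w).2) ∂PP
      ≤ ∫⁻ b, (∏ w, densk μ (k w) (b w)) *
          ((∫⁻ x, d e (x, b e) * k e (x, b e) ∂μ) * g e b) ∂(Measure.pi fun _ => μ) := by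
    intro e
    have := hGfin e
    have key := transfer (μ := μ) PM
      (fun w => if w = e then d e else 1)
      (hGmeas e) Prod.snd measurable_snd
      (fun w => if w = e then (fun y => ∫⁻ x, d e (x, y) * k e (x, y) ∂μ) else
        densk μ (k w))
      (by
        intro w; split_ifs
        · exact min e
        · exact measurable_densk (hk w))
      (by
        intro w
        by_cases hwe : w = e
        · subst hwe
          rw [if_pos rfl, if_pos rfl, hwt w, wd_map_snd (hdkm w)]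
        · rw [if_neg hwe, if_neg hwe, withDensity_one]
          exact hsnd w)
      (g e) (hg e)
    simp_rw [prodG] at key
    rw [key]
    apply lintegral_mono
    intro x
    have hprod : ∏ w, (if w = e then (fun y => ∫⁻ x, d e (x, y) * k e (x, y) ∂μ) else
        densk μ (k w)) (x w)
        = (∫⁻ x', d e (x', x e) * k e (x', x e) ∂μ) *
          ∏ w ∈ Finset.univ.erase e, densk μ (k w) (x w) := by
      rw [← Finset.mul_prod_erase Finset.univ _ (Finset.mem_univ e), if_pos rfl]
      congr 1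
      apply Finset.prod_congr rfl
      intro w hw
      rw [if_neg (Finset.ne_of_mem_erase hw)]
    show (∏ w, (if w = e then (fun y => ∫⁻ x, d e (x, y) * k e (x, y) ∂μ) else
        densk μ (k w)) (x w)) * g e x ≤
        (∏ w, densk μ (k w) (x w)) * ((∫⁻ x', d e (x', x e) * k e (x', x e) ∂μ) * g e x)
    rw [hprod]
    by_cases hx : ∫⁻ x', d e (x', x e) * k e (x', x e) ∂μ = 0
    · rw [hx]; simp
    · have h0 : ∃ x', k e (x', x e) ≠ 0 := by
        by_contra hcon
        push Not at hcon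
        apply hx
        simp [hcon]
      obtain ⟨x', hx'⟩ := h0
      have h1 : (1 : ℝ≥0∞) ≤ densk μ (k e) (x e) := by
        unfold densk
        rw [hsep e x' (x e) hx']
        simp
      rw [← Finset.mul_prod_erase Finset.univ (fun w => densk μ (k w) (x w)) (Finset.mem_univ e)]
      calc (∫⁻ x', d e (x', x e) * k e (x', x e) ∂μ) *
            (∏ w ∈ Finset.univ.erase e, densk μ (k w) (x w)) * g e x
          = 1 * (∏ w ∈ Finset.univ.erase e, densk μ (k w) (x w))
            * ((∫⁻ x', d e (x', x e) * k e (x', x e) ∂μ) * g e x) := by ring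
        _ ≤ densk μ (k e) (x e) *
            (∏ w ∈ Finset.univ.erase e, densk μ (k w) (x w))
            * ((∫⁻ x', d e (x', x e) * k e (x', x e) ∂μ) * g e x) := by gcongr
  calc _ = ∑ e, ∫⁻ p, d e (p e) * f e (fun w => (p w).1) ∂PP :=
        Finset.sum_congr rfl (fun e _ => (L e).symm)
    _ ≤ _ := main
    _ ≤ _ := by
        gcongr with e
        exact R e

end Fin

lemma measurable_DK {ι : Type*} (μ : Measure Y) [IsProbabilityMeasure μ]
    {k : ι → Y × Y → ℝ≥0∞} (hk : ∀ e, Measurable (k e)) (T : Finset ι) :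
    Measurable (DK μ k T) := by
  unfold DK
  exact Finset.measurable_prod _
    (fun w _ => (measurable_densk (hk w)).comp (measurable_pi_apply w))

lemma DK_spl {ι : Type*} (μ : Measure Y) (k : ι → Y × Y → ℝ≥0∞) (T : Finset ι)
    (J : ι → Y) (x : T → Y) :
    DK μ k T (spl T J x) = ∏ w : T, densk μ (k w) (x w) := by
  unfold DK
  rw [← Finset.prod_coe_sort T]
  apply Finset.prod_congr rfl
  intro w _
  rw [spl_coe]

theorem tiltK [MeasurableEq Y] (μ : Measure Y) [IsProbabilityMeasure μ] {ι : Type*} {c S : ℝ}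
    (hc0 : 0 ≤ c) (hc1 : c ≤ 1) (T : Finset ι) (k : ι → Y × Y → ℝ≥0∞)
    (hk : ∀ e, Measurable (k e)) (hkc : ∀ e p, k e p ≤ ENNReal.ofReal c)
    (d : ι → Y × Y → ℝ≥0∞) (hd : ∀ e, Measurable (d e)) (hd0 : ∀ e x, d e (x, x) = 0)
    (hdk : ∀ e p, d e p * k e p ≤ ENNReal.ofReal S)
    (hsep : ∀ e x y, k e (x, y) ≠ 0 → outk μ (k e) y = 0)
    (f g : ι → (ι → Y) → ℝ≥0∞) (C : (ι → Y) → ℝ≥0∞) (hf : ∀ e, Measurable (f e))
    (hg : ∀ e, Measurable (g e)) (hC : Measurable C)
    (hineq : ∀ b b' : ι → Y, (∀ i ∉ T, b i = b' i) →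
      (∀ i ∈ T, b i = b' i ∨ k i (b i, b' i) ≠ 0) →
      ∑ e ∈ T, d e (b e, b' e) * f e b ≤ ∑ e ∈ T, d e (b e, b' e) * g e b' + C b) :
    ∑ e ∈ T, ∫⁻ b, (∫⁻ y, d e (b e, y) * k e (b e, y) ∂μ) * f e b
        ∂(Measure.infinitePi fun _ : ι => μ)
      ≤ ∑ e ∈ T, ∫⁻ b, DK μ k T b * ((∫⁻ x, d e (x, b e) * k e (x, b e) ∂μ) * g e b)
          ∂(Measure.infinitePi fun _ : ι => μ)
        + ∫⁻ b, C b ∂(Measure.infinitePi fun _ : ι => μ) := by
  classical
  have hdkm : ∀ e, Measurable (fun p => d e p * k e p) := fun e => (hd e).mul (hk e)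
  have mou : ∀ e, Measurable (fun x => ∫⁻ y, d e (x, y) * k e (x, y) ∂μ) :=
    fun e => (hdkm e).lintegral_prod_right'
  have min : ∀ e, Measurable (fun y => ∫⁻ x, d e (x, y) * k e (x, y) ∂μ) :=
    fun e => (hdkm e).lintegral_prod_left'
  have mf : ∀ e, Measurable (fun b : ι → Y =>
      (∫⁻ y, d e (b e, y) * k e (b e, y) ∂μ) * f e b) :=
    fun e => ((mou e).comp (measurable_pi_apply e)).mul (hf e)
  have mg : ∀ e, Measurable (fun b : ι → Y => DK μ k T b *
      ((∫⁻ x, d e (x, b e) * k e (x, b e) ∂μ) * g e b)) :=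
    fun e => (measurable_DK μ hk T).mul (((min e).comp (measurable_pi_apply e)).mul (hg e))
  rw [← lintegral_finsetSum _ (fun e _ => mf e), ← lintegral_finsetSum _ (fun e _ => mg e)]
  have mL := Finset.measurable_sum T (fun e _ => mf e)
  have mR := Finset.measurable_sum T (fun e _ => mg e)
  rw [lintegral_spl μ T _ mL, lintegral_spl μ T _ mR, lintegral_spl μ T _ hC]
  have mC' : Measurable (fun J : ι → Y => ∫⁻ x, C (spl T J x) ∂(Measure.pi fun _ : T => μ)) :=
    (hC.comp (measurable_spl T)).lintegral_prod_right'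
  rw [← lintegral_add_right _ mC']
  apply lintegral_mono
  intro J
  have msp : Measurable (fun x : T → Y => spl T J x) :=
    (measurable_spl T).comp (measurable_const.prodMk measurable_id)
  have key := tiltK_fin (κ := T) (μ := μ) (c := c) (S := S) hc1 (fun e => k e)
    (fun e => hk e) (fun e => hkc e) (fun e => d e) (fun e => hd e) (fun e => hd0 e)
    (fun e => hdk e) (fun e => hsep e)
    (fun e x => f e (spl T J x)) (fun e x => g e (spl T J x)) (fun x => C (spl T J x))
    (fun e => (hf e).comp msp) (fun e => (hg e).comp msp) (hC.comp msp)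
    (by
      intro x x' hx
      have h1 := hineq (spl T J x) (spl T J x')
        (fun i hi => by rw [spl_notMem hi, spl_notMem hi])
        (by
          intro i hi
          rw [spl_mem hi, spl_mem hi]
          exact hx ⟨i, hi⟩)
      rw [← Finset.sum_coe_sort T, ← Finset.sum_coe_sort T] at h1
      simp_rw [spl_coe] at h1
      exact h1)
  have eL : ∫⁻ x, ∑ e ∈ T, (∫⁻ y, d e (spl T J x e, y) * k e (spl T J x e, y) ∂μ) *
        f e (spl T J x) ∂(Measure.pi fun _ : T => μ)
      = ∑ e : T, ∫⁻ x, (∫⁻ y, d e (x e, y) * k e (x e, y) ∂μ) * f e (spl T J x)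
          ∂(Measure.pi fun _ : T => μ) := by
    rw [← lintegral_finsetSum]
    · apply lintegral_congr
      intro x
      rw [← Finset.sum_coe_sort T]
      apply Finset.sum_congr rfl
      intro e _
      rw [spl_coe]
    · intro e _
      exact ((mou e).comp (measurable_pi_apply e)).mul ((hf e).comp msp)
  have eR : ∫⁻ x, ∑ e ∈ T, DK μ k T (spl T J x) *
        ((∫⁻ x', d e (x', spl T J x e) * k e (x', spl T J x e) ∂μ) * g e (spl T J x))
          ∂(Measure.pi fun _ : T => μ)
      = ∑ e : T, ∫⁻ x, (∏ w : T, densk μ (k w) (x w)) *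
          ((∫⁻ x', d e (x', x e) * k e (x', x e) ∂μ) * g e (spl T J x))
          ∂(Measure.pi fun _ : T => μ) := by
    rw [← lintegral_finsetSum]
    · apply lintegral_congr
      intro x
      rw [← Finset.sum_coe_sort T]
      apply Finset.sum_congr rfl
      intro e _
      rw [spl_coe, DK_spl]
    · intro e _
      have m1 : Measurable (fun x : T → Y => ∏ w : T, densk μ (k w) (x w)) :=
        Finset.measurable_prod _ (fun w _ =>
          (measurable_densk (hk w)).comp (measurable_pi_apply w))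
      have m2 : Measurable (fun x : T → Y =>
          ∫⁻ x', d (e : ι) (x', x e) * k (e : ι) (x', x e) ∂μ) :=
        (min e).comp (measurable_pi_apply e)
      have m3 : Measurable (fun x : T → Y => g (e : ι) (spl T J x)) := (hg e).comp msp
      exact m1.mul (m2.mul m3)
  show (∫⁻ x, ∑ e ∈ T, (∫⁻ y, d e (spl T J x e, y) * k e (spl T J x e, y) ∂μ) *
        f e (spl T J x) ∂(Measure.pi fun _ : T => μ))
      ≤ (∫⁻ x, ∑ e ∈ T, DK μ k T (spl T J x) *
        ((∫⁻ x', d e (x', spl T J x e) * k e (x', spl T J x e) ∂μ) * g e (spl T J x))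
          ∂(Measure.pi fun _ : T => μ))
        + ∫⁻ x, C (spl T J x) ∂(Measure.pi fun _ : T => μ)
  rw [eL, eR]
  exact key

lemma lintegral_DK (μ : Measure Y) [IsProbabilityMeasure μ] {ι : Type*} {c : ℝ}
    (hc0 : 0 ≤ c) (hc1 : c ≤ 1) (T : Finset ι) (k : ι → Y × Y → ℝ≥0∞)
    (hk : ∀ e, Measurable (k e)) (hkc : ∀ e p, k e p ≤ ENNReal.ofReal c) :
    ∫⁻ b, DK μ k T b ∂(Measure.infinitePi fun _ : ι => μ) = 1 := by
  classical
  rw [lintegral_spl μ T _ (measurable_DK μ hk T)]
  have : ∀ J : ι → Y, ∫⁻ x, DK μ k T (spl T J x) ∂(Measure.pi fun _ : T => μ) = 1 := by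
    intro J
    simp_rw [DK_spl]
    have hind : iIndepFun (fun (i : T) (x : T → Y) => densk μ (k i) (x i))
        (Measure.pi fun _ : T => μ) :=
      iIndepFun_pi (X := fun i : T => densk μ (k i))
        (fun i => (measurable_densk (hk i)).aemeasurable)
    rw [lintegral_prod_eq_prod_lintegral_of_indepFun _ _ hind
      (fun i => (measurable_densk (hk i)).comp (measurable_pi_apply i))]
    apply Finset.prod_eq_one
    intro i _
    have := (measurePreserving_eval (fun _ : T => μ) i).lintegral_comp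
      (measurable_densk (μ := μ) (hk i))
    exact this.trans (lintegral_densk hc1 (hk i) (hkc i))
  simp_rw [this]
  simp

lemma lintegral_DK_sq_le (μ : Measure Y) [IsProbabilityMeasure μ] {ι : Type*} {c : ℝ}
    (hc0 : 0 ≤ c) (hc1 : c ≤ 1) (T : Finset ι) (k : ι → Y × Y → ℝ≥0∞)
    (hk : ∀ e, Measurable (k e)) (hkc : ∀ e p, k e p ≤ ENNReal.ofReal c) :
    ∫⁻ b, DK μ k T b ^ 2 ∂(Measure.infinitePi fun _ : ι => μ)
      ≤ ENNReal.ofReal ((1 + c ^ 2) ^ T.card) := by
  classical
  rw [lintegral_spl μ T _ ((measurable_DK μ hk T).pow_const 2)]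
  have : ∀ J : ι → Y, ∫⁻ x, DK μ k T (spl T J x) ^ 2 ∂(Measure.pi fun _ : T => μ)
      ≤ ENNReal.ofReal ((1 + c ^ 2) ^ T.card) := by
    intro J
    simp_rw [DK_spl, ← Finset.prod_pow]
    have hind : iIndepFun (fun (i : T) (x : T → Y) => densk μ (k i) (x i) ^ 2)
        (Measure.pi fun _ : T => μ) :=
      iIndepFun_pi (X := fun (i : T) x => densk μ (k i) x ^ 2)
        (fun i => ((measurable_densk (hk i)).pow_const 2).aemeasurable)
    rw [lintegral_prod_eq_prod_lintegral_of_indepFun _ _ hind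
      (fun i => ((measurable_densk (hk i)).pow_const 2).comp (measurable_pi_apply i))]
    have h1 : ∀ i : T, ∫⁻ x, densk μ (k i) (x i) ^ 2 ∂(Measure.pi fun _ : T => μ)
        ≤ ENNReal.ofReal (1 + c ^ 2) := by
      intro i
      have := (measurePreserving_eval (fun _ : T => μ) i).lintegral_comp
        ((measurable_densk (μ := μ) (hk i)).pow_const 2)
      exact this.le.trans (lintegral_densk_sq_le hc0 hc1 (hk i) (hkc i))
    calc ∏ i : T, ∫⁻ x, densk μ (k i) (x i) ^ 2 ∂(Measure.pi fun _ : T => μ)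
        ≤ ∏ i : T, ENNReal.ofReal (1 + c ^ 2) := Finset.prod_le_prod' (fun i _ => h1 i)
      _ = ENNReal.ofReal ((1 + c ^ 2) ^ T.card) := by
          rw [Finset.prod_const, ENNReal.ofReal_pow (by positivity), Finset.card_univ,
            Fintype.card_coe]
  calc ∫⁻ J, ∫⁻ x, DK μ k T (spl T J x) ^ 2 ∂(Measure.pi fun _ : T => μ)
        ∂(Measure.infinitePi fun _ : ι => μ)
      ≤ ∫⁻ J, ENNReal.ofReal ((1 + c ^ 2) ^ T.card) ∂(Measure.infinitePi fun _ : ι => μ) :=
        lintegral_mono this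
    _ = _ := by simp

end Pool.H66.CH
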