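import Pool.Agent.Helper66.CH.Hoeff
import Pool.Agent.Helper66.CH.StatW
import Pool.Agent.Helper66.CH.Zip

set_option autoImplicit false
set_option linter.unusedSectionVars false

/-! MODULE M2. From one weight function to exponentially many. -/

namespace Pool.H66.CH

open MeasureTheory Set ProbabilityTheory Filter Topology Pool.H66.EAM
open scoped ENNReal

variable {Y1 Y2 : Type*} [MeasurableSpace Y1] [MeasurableSpace Y2]

/-- The conclusion of Theorem K (file Scale.lean). -/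
def KK (ν1 : Measure Y1) [IsProbabilityMeasure ν1] (ν2 : Measure Y2) [IsProbabilityMeasure ν2]
    (q : Y1 × Y2 → ℝ) (i : Fin 2) : Prop :=
  ∀ ε > 0, ∃ N0 : ℕ, ∀ N ≥ N0, ∀ w : V → (E → Y1) → ℝ, (∀ z, Measurable (w z)) →
    (∀ z a, 0 ≤ w z a) → (∀ z a, w z a ≤ 1) →
    ∫ p, (XW i N (fun z => w z p.1) (cp q p.1 p.2) - YW i N (fun z => w z p.1) (cp q p.1 p.2))
      ∂((PJ ν1).prod (PJ ν2)) ≤ ε * ((box N).card : ℝ)

/-- The oscillation of the weighted statistic. -/
noncomputable def OS (i : Fin 2) (L : ℕ) (u : V → ℝ) (J : E → ℝ) : ℝ := XW i L u J - YW i L u J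

section OS

variable {i : Fin 2} {N L : ℕ} {u u' : V → ℝ} {J : E → ℝ}

lemma OS_nonneg (u : V → ℝ) (J : E → ℝ) : 0 ≤ OS i L u J := sub_nonneg.2 (YW_le_XW u J)

lemma OS_le_card (h0 : ∀ z, 0 ≤ u z) (h1 : ∀ z, u z ≤ 1) (J : E → ℝ) :
    OS i L u J ≤ ((box L).card : ℝ) := by
  have h2 := XW_le_card (i := i) (N := L) h0 h1 J
  have h3 := YW_nonneg (i := i) (N := L) h0 J
  unfold OS
  linarith

lemma OS_congr {J' : E → ℝ} (hu : ∀ z ∈ box L, u z = u' z)
    (hJ : ∀ e ∈ nbhd (box (2 * L + 1)), J e = J' e) : OS i L u J = OS i L u' J' := by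
  unfold OS
  rw [XW_congr hu hJ, YW_congr hu hJ]

lemma OS_window (h2 : 2 * L ≤ N) (h0 : ∀ z, 0 ≤ u z) (h1 : ∀ z, u z ≤ 1) (J : E → ℝ) :
    ((box L).card : ℝ) * OS i N u J
      ≤ ∑ v ∈ box (N - L), OS i L (shU v u) (shJ v J)
        + ((box L).card : ℝ) * (((box N).card : ℝ) - ((box (N - 2 * L)).card : ℝ)) := by
  have e1 := XW_window (i := i) h2 h0 h1 J
  have e2 := YW_window (i := i) (show L ≤ N by omega) h0 J
  unfold OS
  rw [Finset.sum_sub_distrib, mul_sub]
  linarith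

lemma measurable_OS {Ω : Type*} [MeasurableSpace Ω] {u : Ω → V → ℝ} {J : Ω → E → ℝ}
    (hu : ∀ z, Measurable (fun ω => u ω z)) (hJ : Measurable J) (i : Fin 2) (N : ℕ) :
    Measurable (fun ω => OS i N (u ω) (J ω)) :=
  (measurable_XW hu hJ i N).sub (measurable_YW hu hJ i N)

end OS

/-- The normalised oscillation in the window around `v`. -/
noncomputable def fv (i : Fin 2) (L : ℕ) (q : Y1 × Y2 → ℝ) (u : V → (E → Y1) → ℝ) (v : V)
    (p : (E → Y1) × (E → Y2)) : ℝ :=
  OS i L (shU v (fun z => u z p.1)) (shJ v (cp q p.1 p.2)) / ((box L).card : ℝ)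

section fv

variable {i : Fin 2} {N L : ℕ} {q : Y1 × Y2 → ℝ} {u : V → (E → Y1) → ℝ}

lemma measurable_fv (hq : Measurable q) (hu : ∀ z, Measurable (u z)) (v : V) :
    Measurable (fv i L q u v) := by
  unfold fv
  refine (measurable_OS (fun z => ?_) ((measurable_shJ v).comp (measurable_cp hq)) i L).div_const _
  exact (hu (z + v)).comp measurable_fst

lemma fv_nonneg (v : V) (p : (E → Y1) × (E → Y2)) : 0 ≤ fv i L q u v p :=
  div_nonneg (OS_nonneg _ _) (box_pos L).le

lemma fv_le_one (h0 : ∀ z a, 0 ≤ u z a) (h1 : ∀ z a, u z a ≤ 1) (v : V)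
    (p : (E → Y1) × (E → Y2)) : fv i L q u v p ≤ 1 := by
  unfold fv
  rw [div_le_one (box_pos L)]
  exact OS_le_card (fun z => h0 _ _) (fun z => h1 _ _) _

/-- The edges on which the window around `v` depends. -/
noncomputable def Sv (L : ℕ) (v : V) : Finset E :=
  (nbhd (box (2 * L + 1))).map ⟨shE v, shE_injective v⟩

lemma fv_loc (v : V) (a : E → Y1) : Loc (Sv L v) (fun b => fv i L q u v (a, b)) := by
  intro b b' h
  have h2 : OS i L (shU v (fun z => u z a)) (shJ v (cp q a b))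
      = OS i L (shU v (fun z => u z a)) (shJ v (cp q a b')) := by
    apply OS_congr (fun z _ => rfl)
    intro e he
    have h1 : b (shE v e) = b' (shE v e) := h _ (Finset.mem_map.2 ⟨e, he, rfl⟩)
    show q (a (shE v e), b (shE v e)) = q (a (shE v e), b' (shE v e))
    rw [h1]
  show OS i L (shU v (fun z => u z a)) (shJ v (cp q a b)) / ((box L).card : ℝ)
    = OS i L (shU v (fun z => u z a)) (shJ v (cp q a b')) / ((box L).card : ℝ)
  rw [h2]

lemma integrable_fv (hq : Measurable q) (hu : ∀ z, Measurable (u z)) (h0 : ∀ z a, 0 ≤ u z a)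
    (h1 : ∀ z a, u z a ≤ 1) (v : V) (P : Measure ((E → Y1) × (E → Y2))) [IsProbabilityMeasure P] :
    Integrable (fv i L q u v) P :=
  Integrable.of_bound (measurable_fv hq hu v).aestronglyMeasurable 1
    (ae_of_all _ (fun p => by
      rw [Real.norm_eq_abs, abs_of_nonneg (fv_nonneg v p)]
      exact fv_le_one h0 h1 v p))

/-- The mean of `fv` under the conclusion of Theorem K at scale `L`. -/
lemma integral_fv_le {ν1 : Measure Y1} [IsProbabilityMeasure ν1] {ν2 : Measure Y2}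
    [IsProbabilityMeasure ν2] (hq : Measurable q) {ε : ℝ}
    (hL : ∀ w : V → (E → Y1) → ℝ, (∀ z, Measurable (w z)) →
      (∀ z a, 0 ≤ w z a) → (∀ z a, w z a ≤ 1) →
      ∫ p, (XW i L (fun z => w z p.1) (cp q p.1 p.2) - YW i L (fun z => w z p.1) (cp q p.1 p.2))
        ∂((PJ ν1).prod (PJ ν2)) ≤ ε * ((box L).card : ℝ))
    (hu : ∀ z, Measurable (u z)) (h0 : ∀ z a, 0 ≤ u z a) (h1 : ∀ z a, u z a ≤ 1) (v : V) :
    ∫ p, fv i L q u v p ∂((PJ ν1).prod (PJ ν2)) ≤ ε := by
  have hmp := mp_shift2 ν1 ν2 v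
  obtain ⟨w, hw⟩ : ∃ w : V → (E → Y1) → ℝ, ∀ z a, w z a = u (z + v) (shJ (-v) a) :=
    ⟨fun z a => u (z + v) (shJ (-v) a), fun _ _ => rfl⟩
  have hwm : ∀ z, Measurable (w z) := by
    intro z
    have : w z = fun a => u (z + v) (shJ (-v) a) := funext (fun a => hw z a)
    rw [this]
    exact (hu _).comp (measurable_shJ _)
  obtain ⟨G, hG⟩ : ∃ G : (E → Y1) × (E → Y2) → ℝ, ∀ p,
      G p = OS i L (fun z => w z p.1) (cp q p.1 p.2) := ⟨_, fun _ => rfl⟩
  have hGm : Measurable G := by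
    have h5 := measurable_OS (Ω := (E → Y1) × (E → Y2)) (u := fun p z => w z p.1)
      (J := fun p => cp q p.1 p.2) (fun z => (hwm z).comp measurable_fst) (measurable_cp hq) i L
    have h6 : G = fun p => OS i L (fun z => w z p.1) (cp q p.1 p.2) := funext hG
    rw [h6]
    exact h5
  have h2 : ∫ p, G p ∂((PJ ν1).prod (PJ ν2)) ≤ ε * ((box L).card : ℝ) := by
    have h5 := hL w hwm (fun z a => by rw [hw]; exact h0 _ _) (fun z a => by rw [hw]; exact h1 _ _)
    have h6 : G = fun p => XW i L (fun z => w z p.1) (cp q p.1 p.2)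
        - YW i L (fun z => w z p.1) (cp q p.1 p.2) := funext hG
    rw [h6]
    exact h5
  have h3 : ∫ p, G p ∂((PJ ν1).prod (PJ ν2))
      = ∫ p, G (shJ v p.1, shJ v p.2) ∂((PJ ν1).prod (PJ ν2)) := by
    conv_lhs => rw [← hmp.map_eq]
    exact integral_map hmp.measurable.aemeasurable hGm.aestronglyMeasurable
  have h4 : ∀ p : (E → Y1) × (E → Y2),
      fv i L q u v p = G (shJ v p.1, shJ v p.2) / ((box L).card : ℝ) := by
    intro p
    rw [hG]
    unfold fv
    have e1 : shJ (-v) (shJ v p.1) = p.1 := by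
      rw [shJ_shJ]; funext e; unfold shJ; simp
    have e2 : (fun z => w z (shJ v p.1)) = shU v (fun z => u z p.1) := by
      funext z
      rw [hw, e1]
      rfl
    rw [e2, cp_shJ]
  have h5 : (fun p => fv i L q u v p) = fun p : (E → Y1) × (E → Y2) =>
      G (shJ v p.1, shJ v p.2) / ((box L).card : ℝ) := funext h4
  rw [h5, integral_div, div_le_iff₀ (box_pos L), ← h3]
  exact h2

end fv

/-- Colours. -/
noncomputable def colr (K : ℕ) [NeZero K] (v : V) : Fin (Fintype.card (Fin 2 → ZMod K)) :=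
  Fintype.equivFin (Fin 2 → ZMod K) (fun j => ((v j : ℤ) : ZMod K))

lemma Sv_disjoint {L : ℕ} {v w : V} {j : Fin 2} (h : (4 * L + 4 : ℤ) < |v j - w j|) :
    Disjoint (Sv L v) (Sv L w) := by
  rw [Finset.disjoint_left]
  intro e he hf
  unfold Sv at he hf
  rw [Finset.mem_map] at he hf
  obtain ⟨e1, h1, rfl⟩ := he
  obtain ⟨e2, h2, h3⟩ := hf
  have key : ∀ e : E, e ∈ nbhd (box (2 * L + 1)) → -(2 * L + 2 : ℤ) ≤ e.1 j ∧ e.1 j ≤ 2 * L + 2 := by
    intro e he
    rw [mem_nbhd, mem_box, mem_box] at he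
    have hs : (Pi.single e.2 (1 : ℤ) : Fin 2 → ℤ) j = 0
        ∨ (Pi.single e.2 (1 : ℤ) : Fin 2 → ℤ) j = 1 := by
      by_cases hij : j = e.2
      · rw [hij]; right; simp
      · left; simp [hij]
    rcases he with he | he
    · have h4 := he j
      push_cast at h4
      constructor <;> linarith [h4.1, h4.2]
    · have h4 : -((2 * L + 1 : ℕ) : ℤ) ≤ e.1 j + (Pi.single e.2 (1 : ℤ) : Fin 2 → ℤ) j ∧
          e.1 j + (Pi.single e.2 (1 : ℤ) : Fin 2 → ℤ) j ≤ ((2 * L + 1 : ℕ) : ℤ) := he j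
      push_cast at h4
      rcases hs with hs | hs <;> rw [hs] at h4 <;> constructor <;> linarith [h4.1, h4.2]
  have k1 := key e1 h1
  have k2 := key e2 h2
  have h5 : e2.1 j + w j = e1.1 j + v j := by
    have := congrArg (fun e : E => e.1 j) h3
    exact this
  have h6 : v j - w j = e2.1 j - e1.1 j := by linarith
  rw [h6] at h
  have h7 : |e2.1 j - e1.1 j| ≤ 4 * L + 4 := by
    rw [abs_le]
    constructor <;> linarith [k1.1, k1.2, k2.1, k2.2]
  linarith

lemma colr_disjoint {L : ℕ} {v w : V} (hne : v ≠ w)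
    (hc : colr (4 * L + 5) v = colr (4 * L + 5) w) : Disjoint (Sv L v) (Sv L w) := by
  have h1 := (Fintype.equivFin (Fin 2 → ZMod (4 * L + 5))).injective hc
  obtain ⟨j, hj⟩ : ∃ j, v j ≠ w j := by
    by_contra hcon
    push Not at hcon
    exact hne (funext hcon)
  have h2 : ((v j : ℤ) : ZMod (4 * L + 5)) = ((w j : ℤ) : ZMod (4 * L + 5)) := congrFun h1 j
  have h3 : ((4 * L + 5 : ℕ) : ℤ) ∣ v j - w j := by
    have := (ZMod.intCast_eq_intCast_iff_dvd_sub _ _ _).1 h2.symm
    exact this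
  apply Sv_disjoint (j := j)
  have h4 : v j - w j ≠ 0 := sub_ne_zero.2 hj
  have h5 := Int.le_of_dvd (abs_pos.2 h4) ((dvd_abs _ _).2 h3)
  push_cast at h5
  linarith

/-- Growth estimate. -/
lemma growth (C : ℝ) (L : ℕ) (c : ℝ) (hc : 0 < c) (m : ℝ) {ε : ℝ} (hε : 0 < ε) :
    ∃ N0 : ℕ, ∀ N ≥ N0, ∀ n : ℝ, 0 ≤ n → n ≤ Real.exp (C * ((N : ℝ) + 1)) →
      n * (m * Real.exp (-(c * ((box (N - L)).card : ℝ)))) ≤ ε := by
  have h1 : Tendsto (fun N : ℕ => |m| * Real.exp (-((N : ℝ) + 1))) atTop (𝓝 0) := by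
    have h2 : Tendsto (fun N : ℕ => (N : ℝ) + 1) atTop atTop :=
      tendsto_atTop_add_const_right _ _ tendsto_natCast_atTop_atTop
    have h3 := (Real.tendsto_exp_neg_atTop_nhds_zero.comp h2).const_mul |m|
    rw [mul_zero] at h3
    exact h3
  obtain ⟨N1, hN1⟩ := eventually_atTop.1 (h1.eventually_le_const hε)
  obtain ⟨N2, hN2⟩ := exists_nat_ge ((C + 1) / c)
  refine ⟨max N1 (max N2 (2 * L)), fun N hN n hn0 hn => ?_⟩
  have a1 : N1 ≤ N := (le_max_left _ _).trans hN
  have a2 : N2 ≤ N := (le_max_left _ _).trans ((le_max_right _ _).trans hN)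
  have a3 : 2 * L ≤ N := (le_max_right _ _).trans ((le_max_right _ _).trans hN)
  have h4 : ((N : ℝ) + 1) ^ 2 ≤ ((box (N - L)).card : ℝ) := by
    rw [box_cast]
    have : (N : ℝ) + 1 ≤ 2 * ((N - L : ℕ) : ℝ) + 1 := by
      have : N ≤ 2 * (N - L) := by omega
      have : (N : ℝ) ≤ 2 * ((N - L : ℕ) : ℝ) := by exact_mod_cast this
      linarith
    exact pow_le_pow_left₀ (by positivity) this 2
  have h5 : (C + 1) ≤ c * ((N : ℝ) + 1) := by
    have h6 : (C + 1) / c ≤ (N : ℝ) + 1 := by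
      have : (N2 : ℝ) ≤ N := by exact_mod_cast a2
      linarith
    rw [div_le_iff₀ hc] at h6
    linarith
  have hx : (0 : ℝ) < (N : ℝ) + 1 := by positivity
  have h6 : C * ((N : ℝ) + 1) + -(c * ((box (N - L)).card : ℝ)) ≤ -((N : ℝ) + 1) := by
    nlinarith [mul_le_mul_of_nonneg_left h4 hc.le, mul_le_mul_of_nonneg_right h5 hx.le]
  calc n * (m * Real.exp (-(c * ((box (N - L)).card : ℝ))))
      ≤ n * (|m| * Real.exp (-(c * ((box (N - L)).card : ℝ)))) := by
        apply mul_le_mul_of_nonneg_left _ hn0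
        exact mul_le_mul_of_nonneg_right (le_abs_self m) (Real.exp_pos _).le
    _ ≤ Real.exp (C * ((N : ℝ) + 1)) * (|m| * Real.exp (-(c * ((box (N - L)).card : ℝ)))) := by
        apply mul_le_mul_of_nonneg_right hn
        positivity
    _ = |m| * Real.exp (C * ((N : ℝ) + 1) + -(c * ((box (N - L)).card : ℝ))) := by
        rw [Real.exp_add]; ring
    _ ≤ |m| * Real.exp (-((N : ℝ) + 1)) := by
        apply mul_le_mul_of_nonneg_left _ (abs_nonneg _)
        exact Real.exp_le_exp.2 h6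
    _ ≤ ε := hN1 N a1

/-- Functions of a measurable selection with countably many values. -/
lemma measurable_selc {Ω ι β : Type*} [MeasurableSpace Ω] [MeasurableSpace β] [Countable ι]
    {sel : Ω → ι} (hsel : ∀ s, MeasurableSet {J | sel J = s})
    (F : ι → Ω → β) (hF : ∀ s, Measurable (F s)) :
    Measurable (fun J => F (sel J) J) := by
  intro U hU
  have : (fun J => F (sel J) J) ⁻¹' U = ⋃ s, ({J | sel J = s} ∩ (F s) ⁻¹' U) := by
    ext J
    simp only [mem_preimage, mem_iUnion, mem_inter_iff, mem_ofPred_eq]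
    constructor
    · intro h; exact ⟨sel J, rfl, h⟩
    · rintro ⟨s, hs, h⟩; subst hs; exact h
  rw [this]
  exact MeasurableSet.iUnion (fun s => (hsel s).inter (hF s hU))

/-- One scale comparison for a finite family of weights, everything fixed except the integral. -/
lemma union_core {ν1 : Measure Y1} [IsProbabilityMeasure ν1] {ν2 : Measure Y2}
    [IsProbabilityMeasure ν2] {q : Y1 × Y2 → ℝ} (hq : Measurable q) {i : Fin 2} {L N : ℕ}
    (h2L : 2 * L ≤ N) {e δ : ℝ} (hδ : 0 < δ)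
    (hL : ∀ w : V → (E → Y1) → ℝ, (∀ z, Measurable (w z)) →
      (∀ z a, 0 ≤ w z a) → (∀ z a, w z a ≤ 1) →
      ∫ p, (XW i L (fun z => w z p.1) (cp q p.1 p.2) - YW i L (fun z => w z p.1) (cp q p.1 p.2))
        ∂((PJ ν1).prod (PJ ν2)) ≤ e * ((box L).card : ℝ))
    (n : ℕ) (hn : 0 < n) (w : Fin n → V → (E → Y1) → ℝ) (hw : ∀ s z, Measurable (w s z))
    (h0 : ∀ s z a, 0 ≤ w s z a) (h1 : ∀ s z a, w s z a ≤ 1)
    (H : (E → Y1) × (E → Y2) → ℝ) (hHm : Measurable H) (hH0 : ∀ p, 0 ≤ H p)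
    (hH1 : ∀ p, H p ≤ ((box N).card : ℝ))
    (hH : ∀ p, ∃ s, H p = OS i N (fun z => w s z p.1) (cp q p.1 p.2)) :
    ∫ p, H p ∂((PJ ν1).prod (PJ ν2)) ≤ e * ((box (N - L)).card : ℝ)
      + (δ * ((box (N - L)).card : ℝ) + (((box N).card : ℝ) - ((box (N - 2 * L)).card : ℝ))
      + ((box N).card : ℝ) * (n * ((Fintype.card (Fin 2 → ZMod (4 * L + 5)) : ℝ) *
        Real.exp (-(2 * δ ^ 2 / (Fintype.card (Fin 2 → ZMod (4 * L + 5)) : ℝ) ^ 2
          * ((box (N - L)).card : ℝ)))))) := by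
  classical
  have : Nonempty (Fin n) := ⟨⟨0, hn⟩⟩
  set Q : Finset V := box (N - L) with hQ
  set m : ℕ := Fintype.card (Fin 2 → ZMod (4 * L + 5)) with hm
  have hm0 : 0 < m := Fintype.card_pos
  set R : ℝ := ((box N).card : ℝ) - ((box (N - 2 * L)).card : ℝ) with hR
  set ex : ℝ := (m : ℝ) * Real.exp (-(2 * δ ^ 2 / (m : ℝ) ^ 2 * (Q.card : ℝ))) with hex
  -- conditional means
  set Fs : Fin n → (E → Y1) → ℝ := fun s a => ∑ v ∈ Q, ∫ b, fv i L q (w s) v (a, b) ∂(PJ ν2)
    with hFs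
  have hFm1 : ∀ (u : V → (E → Y1) → ℝ), (∀ z, Measurable (u z)) → ∀ v,
      Measurable (fun a => ∫ b, fv i L q u v (a, b) ∂(PJ ν2)) := by
    intro u hu v
    exact (measurable_fv hq hu v).stronglyMeasurable.integral_prod_right'.measurable
  have hFsm : ∀ s, Measurable (Fs s) := fun s =>
    Finset.measurable_sum _ (fun v _ => hFm1 (w s) (hw s) v)
  obtain ⟨sel, hsel1, hsel2⟩ := exists_measurable_selection
    (S := fun s : Fin n => {a | ∀ s', Fs s' a ≤ Fs s a})
    (fun s => by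
      have : {a | ∀ s', Fs s' a ≤ Fs s a} = ⋂ s', {a | Fs s' a ≤ Fs s a} := by
        ext a; simp
      rw [this]
      exact MeasurableSet.iInter (fun s' => measurableSet_le (hFsm s') (hFsm s)))
    (fun a => by
      obtain ⟨s, hs⟩ := Finite.exists_max (fun s => Fs s a)
      exact ⟨s, hs⟩)
  have hsel1' : ∀ a s', Fs s' a ≤ Fs (sel a) a := hsel1
  obtain ⟨ws, hws⟩ : ∃ ws : V → (E → Y1) → ℝ, ∀ z a, ws z a = w (sel a) z a :=
    ⟨fun z a => w (sel a) z a, fun _ _ => rfl⟩
  have hwsm : ∀ z, Measurable (ws z) := by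
    intro z
    have h3 : ws z = fun a => w (sel a) z a := funext (fun a => hws z a)
    rw [h3]
    exact measurable_selc hsel2 (fun s a => w s z a) (fun s => hw s z)
  have hws0 : ∀ z a, 0 ≤ ws z a := fun z a => by rw [hws]; exact h0 _ _ _
  have hws1 : ∀ z a, ws z a ≤ 1 := fun z a => by rw [hws]; exact h1 _ _ _
  have hfvs : ∀ v a b, fv i L q ws v (a, b) = fv i L q (w (sel a)) v (a, b) := by
    intro v a b
    have h3 : (fun z => ws z a) = fun z => w (sel a) z a := funext (fun z => hws z a)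
    unfold fv
    rw [h3]
  set F : (E → Y1) → ℝ := fun a => ∑ v ∈ Q, ∫ b, fv i L q ws v (a, b) ∂(PJ ν2) with hF
  have hFF : ∀ a, F a = Fs (sel a) a := by
    intro a
    simp only [hF, hFs]
    exact Finset.sum_congr rfl (fun v _ => integral_congr_ae (ae_of_all _ (fun b => hfvs v a b)))
  have hFm : Measurable F := Finset.measurable_sum _ (fun v _ => hFm1 ws hwsm v)
  -- the bad event
  set bad : Fin n → (E → Y1) → Set (E → Y2) := fun s a =>
    {b | ∑ v ∈ Q, ∫ b', fv i L q (w s) v (a, b') ∂(PJ ν2) + δ * (Q.card : ℝ)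
      < ∑ v ∈ Q, fv i L q (w s) v (a, b)} with hbad
  have hbadm : ∀ s a, MeasurableSet (bad s a) := by
    intro s a
    apply measurableSet_lt measurable_const
    exact Finset.measurable_sum _ (fun v _ =>
      (measurable_fv hq (hw s) v).comp measurable_prodMk_left)
  have hbadP : ∀ s a, (PJ ν2).real (bad s a) ≤ ex := by
    intro s a
    have h3 := hoeff ν2 Q (Sv L) (fun v b => fv i L q (w s) v (a, b))
      (fun v => (measurable_fv hq (hw s) v).comp measurable_prodMk_left)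
      (fun v b => ⟨fv_nonneg v _, fv_le_one (h0 s) (h1 s) v _⟩)
      (fun v => fv_loc v a) hm0 (colr (4 * L + 5))
      (fun v _ v' _ hne hc => colr_disjoint hne hc) hδ
    refine h3.trans (le_of_eq ?_)
    rw [hex]
    congr 2
    ring
  have hpt : ∀ a b, H (a, b) ≤ (F a + δ * (Q.card : ℝ) + R)
      + ((box N).card : ℝ) * ∑ s, (bad s a).indicator (1 : (E → Y2) → ℝ) b := by
    intro a b
    obtain ⟨s, hs⟩ := hH (a, b)
    have hF0 : 0 ≤ F a := Finset.sum_nonneg (fun v _ => integral_nonneg (fun b => fv_nonneg v _))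
    have hR0 : 0 ≤ R := by
      have : ((box (N - 2 * L)).card : ℝ) ≤ ((box N).card : ℝ) := by
        exact_mod_cast Finset.card_le_card (box_mono (Nat.sub_le _ _))
      rw [hR]; linarith
    have hQ0 : (0 : ℝ) ≤ δ * (Q.card : ℝ) := by positivity
    have hind : ∀ s', (0 : ℝ) ≤ (bad s' a).indicator (1 : (E → Y2) → ℝ) b :=
      fun s' => indicator_nonneg (fun _ _ => zero_le_one) b
    by_cases hb : b ∈ bad s a
    · have h3 : (1 : ℝ) ≤ ∑ s', (bad s' a).indicator (1 : (E → Y2) → ℝ) b := by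
        refine le_trans ?_ (Finset.single_le_sum (f := fun s' =>
          (bad s' a).indicator (1 : (E → Y2) → ℝ) b) (fun s' _ => hind s') (Finset.mem_univ s))
        simp only [indicator_of_mem hb, Pi.one_apply, le_refl]
      have h4 := hH1 (a, b)
      have h5 := mul_le_mul_of_nonneg_left h3 (box_pos N).le
      linarith
    · have h3 : ∑ v ∈ Q, fv i L q (w s) v (a, b) ≤ Fs s a + δ * (Q.card : ℝ) := not_lt.1 hb
      have h4 := hsel1' a s
      rw [← hFF] at h4
      have h5 := OS_window (i := i) h2L (fun z => h0 s z a) (fun z => h1 s z a) (cp q a b)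
      have h6 : OS i N (fun z => w s z a) (cp q a b) ≤ ∑ v ∈ Q, fv i L q (w s) v (a, b) + R := by
        have h7 : ((box L).card : ℝ) * OS i N (fun z => w s z a) (cp q a b)
            ≤ ((box L).card : ℝ) * (∑ v ∈ Q, fv i L q (w s) v (a, b) + R) := by
          refine h5.trans (le_of_eq ?_)
          rw [mul_add, Finset.mul_sum]
          congr 1
          apply Finset.sum_congr rfl
          intro v _
          unfold fv
          rw [mul_div_cancel₀ _ (box_pos L).ne']
        exact le_of_mul_le_mul_left h7 (box_pos L)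
      have h8 : 0 ≤ ((box N).card : ℝ) * ∑ s', (bad s' a).indicator (1 : (E → Y2) → ℝ) b :=
        mul_nonneg (box_pos N).le (Finset.sum_nonneg (fun s' _ => hind s'))
      rw [hs]
      linarith
  -- the inner integral
  have hinner : ∀ a, ∫ b, H (a, b) ∂(PJ ν2) ≤ F a + (δ * (Q.card : ℝ) + R
      + ((box N).card : ℝ) * (n * ex)) := by
    intro a
    have hi1 : Integrable (fun b => H (a, b)) (PJ ν2) :=
      Integrable.of_bound (hHm.comp measurable_prodMk_left).aestronglyMeasurable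
        ((box N).card : ℝ) (ae_of_all _ (fun b => by
          rw [Real.norm_eq_abs, abs_of_nonneg (hH0 _)]; exact hH1 _))
    have hi2 : ∀ s ∈ (Finset.univ : Finset (Fin n)),
        Integrable (fun b => (bad s a).indicator (1 : (E → Y2) → ℝ) b) (PJ ν2) :=
      fun s _ => (integrable_const (1 : ℝ)).indicator (hbadm s a)
    have hi3 : Integrable (fun b => ∑ s, (bad s a).indicator (1 : (E → Y2) → ℝ) b) (PJ ν2) :=
      integrable_finsetSum _ hi2
    have hi4 : Integrable (fun b => (F a + δ * (Q.card : ℝ) + R) + ((box N).card : ℝ) *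
        ∑ s, (bad s a).indicator (1 : (E → Y2) → ℝ) b) (PJ ν2) :=
      (integrable_const _).add (hi3.const_mul _)
    have h3 : ∫ b, H (a, b) ∂(PJ ν2) ≤ ∫ b, ((F a + δ * (Q.card : ℝ) + R) + ((box N).card : ℝ) *
        ∑ s, (bad s a).indicator (1 : (E → Y2) → ℝ) b) ∂(PJ ν2) :=
      integral_mono hi1 hi4 (fun b => hpt a b)
    refine h3.trans ?_
    have h4 : ∫ b, ((F a + δ * (Q.card : ℝ) + R) + ((box N).card : ℝ) *
        ∑ s, (bad s a).indicator (1 : (E → Y2) → ℝ) b) ∂(PJ ν2)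
        = (F a + δ * (Q.card : ℝ) + R) + ((box N).card : ℝ) * ∑ s, (PJ ν2).real (bad s a) := by
      rw [integral_add (integrable_const _) (hi3.const_mul _), integral_const_mul,
        integral_finsetSum _ hi2]
      simp only [integral_const, probReal_univ, one_smul]
      congr 2
      apply Finset.sum_congr rfl
      intro s _
      rw [integral_indicator (hbadm s a)]
      simp
    rw [h4]
    have h5 : ∑ s : Fin n, (PJ ν2).real (bad s a) ≤ n * ex := by
      refine (Finset.sum_le_sum (fun s _ => hbadP s a)).trans ?_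
      rw [Finset.sum_const, nsmul_eq_mul, Finset.card_univ, Fintype.card_fin]
    have h6 := mul_le_mul_of_nonneg_left h5 (box_pos N).le
    linarith
  -- the outer integral
  have hHi : Integrable H ((PJ ν1).prod (PJ ν2)) :=
    Integrable.of_bound hHm.aestronglyMeasurable ((box N).card : ℝ) (ae_of_all _ (fun p => by
      rw [Real.norm_eq_abs, abs_of_nonneg (hH0 _)]; exact hH1 _))
  rw [integral_prod _ hHi]
  have hfvi : ∀ v, Integrable (fv i L q ws v) ((PJ ν1).prod (PJ ν2)) :=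
    fun v => integrable_fv hq hwsm hws0 hws1 v _
  have hFi1 : ∀ v ∈ Q, Integrable (fun a => ∫ b, fv i L q ws v (a, b) ∂(PJ ν2)) (PJ ν1) :=
    fun v _ => (hfvi v).integral_prod_left
  have hFi : Integrable F (PJ ν1) := integrable_finsetSum _ hFi1
  have hFi2 : Integrable (fun a => F a + (δ * (Q.card : ℝ) + R
      + ((box N).card : ℝ) * (n * ex))) (PJ ν1) := hFi.add (integrable_const _)
  have hmono : ∫ a, ∫ b, H (a, b) ∂(PJ ν2) ∂(PJ ν1) ≤ ∫ a, (F a + (δ * (Q.card : ℝ) + R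
      + ((box N).card : ℝ) * (n * ex))) ∂(PJ ν1) :=
    integral_mono hHi.integral_prod_left hFi2 (fun a => hinner a)
  refine hmono.trans ?_
  have h7 : ∫ a, (F a + (δ * (Q.card : ℝ) + R + ((box N).card : ℝ) * (n * ex))) ∂(PJ ν1)
      = ∫ a, F a ∂(PJ ν1) + (δ * (Q.card : ℝ) + R + ((box N).card : ℝ) * (n * ex)) := by
    rw [integral_add hFi (integrable_const _)]
    simp
  rw [h7]
  have h9 : ∫ a, F a ∂(PJ ν1) ≤ e * (Q.card : ℝ) := by
    have h10 : ∫ a, F a ∂(PJ ν1)
        = ∑ v ∈ Q, ∫ p, fv i L q ws v p ∂((PJ ν1).prod (PJ ν2)) := by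
      rw [integral_finsetSum _ hFi1]
      exact Finset.sum_congr rfl (fun v _ => (integral_prod _ (hfvi v)).symm)
    rw [h10]
    refine (Finset.sum_le_sum (fun v _ => integral_fv_le hq hL hwsm hws0 hws1 v)).trans ?_
    rw [Finset.sum_const, nsmul_eq_mul]
    linarith
  linarith

/-- Uniformity over families of at most `exp (C (N + 1))` weight functions.

Proof. Fix `L` with `KK` at accuracy `ε / 4`, and let `N` be large. By `XW_window`, `YW_window`,
`|box L| (XW_N - YW_N)(w^s) ≤ ∑_{v ∈ box (N - L)} (XW_L - YW_L)(shU v w^s, shJ v J) + small`.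
For fixed `a` the functions `f_v^s (b) = (XW_L - YW_L)(..) / |box L| ∈ [0,1]` are local in `b`
(`YW_congr`, `XW_congr`), so `hoeff` and a union bound over `s : Fin n` bound
`∑_v (f_v^s - E_b f_v^s)` by `δ |box N|` outside a set of probability
`n * m * exp (- c N^2) → 0`. Finally `sup_s ∑_v E_b f_v^s (a)` is attained at a measurable `s*(a)`
and `KK` at scale `L` applies to the weights `w^{s*(a)}_z (a)` translated by `v` (use `mp_shift2`,
`cp_shJ`: `E (XW_L - YW_L)(shU v w*(a), shJ v J)` = `E (XW_L - YW_L)(z ↦ w*_{z + v}(shJ (-v) a), J)`.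
-/
theorem unionK {ν1 : Measure Y1} [IsProbabilityMeasure ν1] {ν2 : Measure Y2}
    [IsProbabilityMeasure ν2] {q : Y1 × Y2 → ℝ} (hq : Measurable q) {i : Fin 2}
    (hK : KK ν1 ν2 q i) (C : ℝ) {ε : ℝ} (hε : 0 < ε) :
    ∃ N0 : ℕ, ∀ N ≥ N0, ∀ (n : ℕ) (w : Fin n → V → (E → Y1) → ℝ),
      (n : ℝ) ≤ Real.exp (C * ((N : ℝ) + 1)) → (∀ s z, Measurable (w s z)) →
      (∀ s z a, 0 ≤ w s z a) → (∀ s z a, w s z a ≤ 1) →
      ∃ H : (E → Y1) × (E → Y2) → ℝ, Measurable H ∧
        (∀ p, 0 ≤ H p ∧ H p ≤ ((box N).card : ℝ)) ∧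
        (∀ p s, XW i N (fun z => w s z p.1) (cp q p.1 p.2)
          - YW i N (fun z => w s z p.1) (cp q p.1 p.2) ≤ H p) ∧
        ∫ p, H p ∂((PJ ν1).prod (PJ ν2)) ≤ ε * ((box N).card : ℝ) := by
  classical
  obtain ⟨L, hL⟩ := hK (ε / 4) (by positivity)
  set m : ℕ := Fintype.card (Fin 2 → ZMod (4 * L + 5)) with hm
  have hm0 : (0 : ℝ) < m := by
    have : 0 < m := Fintype.card_pos
    exact_mod_cast this
  obtain ⟨N1, hN1⟩ := growth C L (2 * (ε / 4) ^ 2 / (m : ℝ) ^ 2) (by positivity) (m : ℝ)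
    (show (0 : ℝ) < ε / 4 by positivity)
  have hr : Tendsto (fun N : ℕ => 1 - ((box (N - 2 * L)).card : ℝ) / ((box N).card : ℝ))
      atTop (𝓝 0) := by
    have := (card_ratio (2 * L)).const_sub 1
    simpa using this
  obtain ⟨N2, hN2⟩ := eventually_atTop.1 (hr.eventually_le_const (show (0 : ℝ) < ε / 4 by positivity))
  refine ⟨max N1 (max N2 (2 * L)), fun N hN n w hn hw h0 h1 => ?_⟩
  have a1 : N1 ≤ N := (le_max_left _ _).trans hN
  have a2 : N2 ≤ N := (le_max_left _ _).trans ((le_max_right _ _).trans hN)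
  have a3 : 2 * L ≤ N := (le_max_right _ _).trans ((le_max_right _ _).trans hN)
  rcases Nat.eq_zero_or_pos n with hn0 | hn0
  · subst hn0
    refine ⟨fun _ => 0, measurable_const, fun p => ⟨le_rfl, (box_pos N).le⟩,
      fun p s => Fin.elim0 s, ?_⟩
    rw [integral_zero]
    exact mul_nonneg hε.le (box_pos N).le
  have : Nonempty (Fin n) := ⟨⟨0, hn0⟩⟩
  set G : Fin n → (E → Y1) × (E → Y2) → ℝ := fun s p =>
    OS i N (fun z => w s z p.1) (cp q p.1 p.2) with hG
  have hGm : ∀ s, Measurable (G s) := by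
    intro s
    exact measurable_OS (Ω := (E → Y1) × (E → Y2)) (u := fun p z => w s z p.1)
      (J := fun p => cp q p.1 p.2) (fun z => (hw s z).comp measurable_fst) (measurable_cp hq) i N
  set H : (E → Y1) × (E → Y2) → ℝ := (Finset.univ : Finset (Fin n)).sup'
    Finset.univ_nonempty G with hH
  have hHm : Measurable H := Finset.measurable_sup' _ (fun s _ => hGm s)
  have hHa : ∀ p, H p = (Finset.univ : Finset (Fin n)).sup' Finset.univ_nonempty
      (fun s => G s p) := by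
    intro p
    rw [hH, Finset.sup'_apply]
  have hle : ∀ p s, G s p ≤ H p := by
    intro p s
    rw [hHa]
    exact Finset.le_sup' (fun s => G s p) (Finset.mem_univ s)
  have hHex : ∀ p, ∃ s, H p = OS i N (fun z => w s z p.1) (cp q p.1 p.2) := by
    intro p
    rw [hHa]
    obtain ⟨s, _, hs⟩ := Finset.exists_mem_eq_sup' (Finset.univ_nonempty (α := Fin n))
      (fun s => G s p)
    exact ⟨s, hs⟩
  have hH0 : ∀ p, 0 ≤ H p := fun p => by
    obtain ⟨s, hs⟩ := hHex p
    rw [hs]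
    exact OS_nonneg _ _
  have hH1 : ∀ p, H p ≤ ((box N).card : ℝ) := fun p => by
    obtain ⟨s, hs⟩ := hHex p
    rw [hs]
    exact OS_le_card (fun z => h0 _ _ _) (fun z => h1 _ _ _) _
  refine ⟨H, hHm, fun p => ⟨hH0 p, hH1 p⟩, fun p s => hle p s, ?_⟩
  have hcore := union_core (ν1 := ν1) (ν2 := ν2) hq a3 (show (0 : ℝ) < ε / 4 by positivity)
    (hL L le_rfl) n hn0 w hw h0 h1 H hHm hH0 hH1 hHex
  have hg := hN1 N a1 (n : ℝ) (Nat.cast_nonneg n) hn
  have hq1 : ((box (N - L)).card : ℝ) ≤ ((box N).card : ℝ) := by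
    exact_mod_cast Finset.card_le_card (box_mono (Nat.sub_le _ _))
  have hr1 := hN2 N a2
  have hr2 : ((box N).card : ℝ) - ((box (N - 2 * L)).card : ℝ) ≤ ε / 4 * ((box N).card : ℝ) := by
    have hp := box_pos N
    have h3 : ((box N).card : ℝ) - ((box (N - 2 * L)).card : ℝ)
        = (1 - ((box (N - 2 * L)).card : ℝ) / ((box N).card : ℝ)) * ((box N).card : ℝ) := by
      field_simp
    rw [h3]
    exact mul_le_mul_of_nonneg_right hr1 hp.le
  have hg2 := mul_le_mul_of_nonneg_left hg (box_pos N).le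
  have hq2 := mul_le_mul_of_nonneg_left hq1 (show (0 : ℝ) ≤ ε / 4 by positivity)
  linarith

end Pool.H66.CH
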